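import Pool.Agent.ITR.St2

/-!
# [ABT] quadratic towers give abstract towers
-/

set_option autoImplicit false

open MeasureTheory Filter Topology

namespace Pool.Agent.ITR

open Pool.Agent.Helper23.PeriodDefs
open Pool.Agent.Helper23.Quadric (PF evx)
open Pool.Agent.Helper23.PeriodProof (RB)

namespace ABT

/-- extension by zero or restriction of a point -/
noncomputable def ext (n N : ℕ) (y : Fin N → ℝ) : Fin n → ℝ :=
  fun i => if h : (i : ℕ) < N then y ⟨i, h⟩ else 0

theorem ext_snoc_lt {n N : ℕ} (y : Fin N → ℝ) (t : ℝ) (i : Fin n) (hi : (i : ℕ) < N) :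
    ext n (N + 1) (Fin.snoc y t) i = ext n N y i := by
  unfold ext
  rw [dif_pos (by omega : (i : ℕ) < N + 1), dif_pos hi]
  have h1 : (⟨(i : ℕ), by omega⟩ : Fin (N + 1)) = Fin.castSucc ⟨(i : ℕ), hi⟩ := rfl
  rw [h1, Fin.snoc_castSucc]

theorem ext_snoc_eq {n N : ℕ} (y : Fin N → ℝ) (t : ℝ) (i : Fin n) (hi : (i : ℕ) = N) :
    ext n (N + 1) (Fin.snoc y t) i = t := by
  unfold ext
  rw [dif_pos (by omega : (i : ℕ) < N + 1)]
  have h1 : (⟨(i : ℕ), by omega⟩ : Fin (N + 1)) = Fin.last N := Fin.ext hi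
  rw [h1, Fin.snoc_last]

theorem ext_self {n : ℕ} (y : Fin n → ℝ) : ext n n y = y := by
  funext i
  unfold ext
  rw [dif_pos i.isLt]

theorem dep_snoc {n N : ℕ} {f : (Fin n → ℝ) → ℝ} {I : Set (Fin n)} (hf : DepOn I f)
    (h : ∀ i ∈ I, (i : ℕ) < N) (y : Fin N → ℝ) (t : ℝ) :
    f (ext n (N + 1) (Fin.snoc y t)) = f (ext n N y) :=
  hf _ _ fun i hi => ext_snoc_lt y t i (h i hi)

theorem aeval_ext_mem (n N : ℕ) (P : MvPolynomial (Fin n) RealAlg) :
    (fun y : Fin N → ℝ => MvPolynomial.aeval (ext n N y) P) ∈ PF RB N := by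
  induction P using MvPolynomial.induction_on with
  | C a =>
    have h1 : (fun y : Fin N → ℝ => MvPolynomial.aeval (ext n N y)
        (MvPolynomial.C a : MvPolynomial (Fin n) RealAlg)) = fun _ => (a : ℝ) := by
      funext y
      rw [MvPolynomial.aeval_C]
      rfl
    rw [h1]
    exact Pool.Agent.Helper23.Quadric.const_mem_PF
      (Pool.Agent.Helper23.PeriodProof.coe_mem_RB a)
  | add p q hp hq =>
    have h1 : (fun y : Fin N → ℝ => MvPolynomial.aeval (ext n N y) (p + q)) =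
        (fun y : Fin N → ℝ => MvPolynomial.aeval (ext n N y) p) +
        (fun y : Fin N → ℝ => MvPolynomial.aeval (ext n N y) q) := by
      funext y
      rw [map_add]
      rfl
    rw [h1]
    exact (PF RB N).add_mem hp hq
  | mul_X p i hp =>
    have h1 : (fun y : Fin N → ℝ => MvPolynomial.aeval (ext n N y) (p * MvPolynomial.X i)) =
        (fun y : Fin N → ℝ => MvPolynomial.aeval (ext n N y) p) *
        (fun y : Fin N → ℝ => ext n N y i) := by
      funext y
      rw [map_mul, MvPolynomial.aeval_X]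
      rfl
    rw [h1]
    refine (PF RB N).mul_mem hp ?_
    by_cases hi : (i : ℕ) < N
    · have h2 : (fun y : Fin N → ℝ => ext n N y i) = fun y => y ⟨i, hi⟩ := by
        funext y
        unfold ext
        rw [dif_pos hi]
      rw [h2]
      exact Pool.Agent.Helper23.Quadric.coord_mem_PF _
    · have h2 : (fun y : Fin N → ℝ => ext n N y i) = fun _ => (0 : ℝ) := by
        funext y
        unfold ext
        rw [dif_neg hi]
      rw [h2]
      exact (PF RB N).zero_mem

/-- positivity of the elements of `PosProd` -/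
theorem posProd_pos {n : ℕ} (q : Fin n → MultiPoly n) (k : Fin n)
    (x : Fin n → ℝ) (hq : ∀ i < k, 0 < evalMulti (q i) x)
    (p : (Fin n → ℝ) → ℝ) (hp : PosProd q k p) : 0 < p x := by
  induction hp with
  | const c hc => exact hc
  | gen i hi => exact hq i hi
  | mul _ _ ha hb => exact mul_pos ha hb

theorem q_pos_aux {n : ℕ} (q : Fin n → MultiPoly n) (hq : QuadTower q)
    (x : Fin n → ℝ) : ∀ (k : ℕ) (i : Fin n), (i : ℕ) = k → 0 < evalMulti (q i) x := by
  intro k
  induction k using Nat.strong_induction_on with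
  | _ k ih =>
    intro i hi
    obtain ⟨_, M, s, b, hM, hs, _, hid⟩ := hq i
    have hlt : ∀ j < i, 0 < evalMulti (q j) x := fun j hj => by
      have h1 : (j : ℕ) < (i : ℕ) := hj
      exact ih (j : ℕ) (by omega) j rfl
    have h1 := posProd_pos q i x hlt M hM
    have h2 := posProd_pos q i x hlt s hs
    have h3 := hid x
    have h4 : 0 < M x * evalMulti (q i) x := by
      rw [h3]
      positivity
    exact (mul_pos_iff_of_pos_left h1).mp h4

theorem q_pos {n : ℕ} (q : Fin n → MultiPoly n) (hq : QuadTower q)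
    (x : Fin n → ℝ) (i : Fin n) : 0 < evalMulti (q i) x :=
  q_pos_aux q hq x i i rfl

/-- the abstract tower -/
noncomputable def tow {n : ℕ} (q : Fin n → MultiPoly n) (N : ℕ) :
    Submonoid ((Fin N → ℝ) → ℝ) :=
  Submonoid.closure ({f | ∃ c : RealAlg, (0 : ℝ) < c ∧ f = fun _ => (c : ℝ)} ∪
    {f | ∃ i : Fin n, (i : ℕ) < N ∧ f = fun y => evalMulti (q i) (ext n N y)})

theorem const_mem_tow {n : ℕ} (q : Fin n → MultiPoly n) (N : ℕ) (c : RealAlg)
    (hc : (0 : ℝ) < c) : (fun _ : Fin N → ℝ => (c : ℝ)) ∈ tow q N :=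
  Submonoid.subset_closure (Or.inl ⟨c, hc, rfl⟩)

theorem q_mem_tow {n : ℕ} (q : Fin n → MultiPoly n) (N : ℕ) (i : Fin n)
    (hi : (i : ℕ) < N) :
    (fun y : Fin N → ℝ => evalMulti (q i) (ext n N y)) ∈ tow q N :=
  Submonoid.subset_closure (Or.inr ⟨i, hi, rfl⟩)

theorem tow_pf {n : ℕ} (q : Fin n → MultiPoly n) (hq : QuadTower q) (N : ℕ)
    (w : (Fin N → ℝ) → ℝ) (hw : w ∈ tow q N) : w ∈ PF RB N ∧ ∀ x, 0 < w x := by
  unfold tow at hw
  induction hw using Submonoid.closure_induction with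
  | mem w hw =>
    rcases hw with ⟨c, hc, rfl⟩ | ⟨i, hi, rfl⟩
    · exact ⟨Pool.Agent.Helper23.Quadric.const_mem_PF
        (Pool.Agent.Helper23.PeriodProof.coe_mem_RB c), fun _ => hc⟩
    · exact ⟨aeval_ext_mem n N (q i), fun x => q_pos q hq _ i⟩
  | one => exact ⟨(PF RB N).one_mem, fun _ => one_pos⟩
  | mul a b _ _ ha hb =>
    exact ⟨(PF RB N).mul_mem ha.1 hb.1, fun x => mul_pos (ha.2 x) (hb.2 x)⟩

/-- elements of `PosProd` give elements of the tower -/
theorem posProd_tow {n : ℕ} (q : Fin n → MultiPoly n) (N : ℕ) (k : Fin n)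
    (hk : (k : ℕ) = N) (p : (Fin n → ℝ) → ℝ) (hp : PosProd q k p) :
    (fun y : Fin N → ℝ => p (ext n N y)) ∈ tow q N := by
  induction hp with
  | const c hc => exact const_mem_tow q N c hc
  | gen i hi =>
    have h1 : (i : ℕ) < (k : ℕ) := hi
    exact q_mem_tow q N i (by omega)
  | mul _ _ ha hb => exact (tow q N).mul_mem ha hb

/-- elements of `PosProd` only depend on the first variables -/
theorem posProd_snoc {n : ℕ} (q : Fin n → MultiPoly n) (hq : QuadTower q)
    (N : ℕ) (k : Fin n) (hk : (k : ℕ) = N) (p : (Fin n → ℝ) → ℝ)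
    (hp : PosProd q k p) (y : Fin N → ℝ) (t : ℝ) :
    p (ext n (N + 1) (Fin.snoc y t)) = p (ext n N y) := by
  induction hp with
  | const c hc => rfl
  | gen i hi =>
    refine dep_snoc (hq i).1 (fun j hj => ?_) y t
    have h1 : (i : ℕ) < (k : ℕ) := hi
    have h2 : (j : ℕ) ≤ (i : ℕ) := hj
    omega
  | mul _ _ ha hb =>
    show _ * _ = _ * _
    rw [ha, hb]

theorem tow_split {n : ℕ} (q : Fin n → MultiPoly n) (hq : QuadTower q)
    (N : ℕ) (k : Fin n) (hk : (k : ℕ) = N) (w : (Fin (N + 1) → ℝ) → ℝ)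
    (hw : w ∈ tow q (N + 1)) :
    ∃ w₀ ∈ tow q N, ∃ m : ℕ, ∀ (y : Fin N → ℝ) (t : ℝ),
      w (Fin.snoc y t) = w₀ y *
        (evalMulti (q k) (ext n (N + 1) (Fin.snoc y t : Fin (N + 1) → ℝ))) ^ m := by
  unfold tow at hw
  induction hw using Submonoid.closure_induction with
  | mem w hw =>
    rcases hw with ⟨c, hc, rfl⟩ | ⟨i, hi, rfl⟩
    · exact ⟨_, const_mem_tow q N c hc, 0, fun y t => by rw [pow_zero, mul_one]⟩
    · by_cases hik : i = k
      · subst hik
        refine ⟨1, (tow q N).one_mem, 1, fun y t => ?_⟩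
        rw [pow_one, Pi.one_apply, one_mul]
      · have h1 : (i : ℕ) < N := by
          have h2 : (i : ℕ) ≠ (k : ℕ) := fun h => hik (Fin.ext h)
          omega
        refine ⟨_, q_mem_tow q N i h1, 0, fun y t => ?_⟩
        rw [pow_zero, mul_one]
        refine dep_snoc (hq i).1 (fun j hj => ?_) y t
        have h2 : (j : ℕ) ≤ (i : ℕ) := hj
        omega
  | one =>
    refine ⟨1, (tow q N).one_mem, 0, fun y t => ?_⟩
    rw [pow_zero, mul_one]
    rfl
  | mul a b _ _ ha hb =>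
    obtain ⟨a₀, ha₀, ma, ha⟩ := ha
    obtain ⟨b₀, hb₀, mb, hb⟩ := hb
    refine ⟨a₀ * b₀, (tow q N).mul_mem ha₀ hb₀, ma + mb, fun y t => ?_⟩
    rw [Pi.mul_apply, Pi.mul_apply, ha, hb, pow_add]
    ring

end ABT

open ABT in
/-- [ABT] quadratic towers give abstract towers -/
theorem thm_ABT : St_ABT := by
  intro n q hq
  refine ⟨tow q, ⟨fun N _ w hw => tow_pf q hq N w hw, fun N hN => ?_⟩, fun m => ?_⟩
  · obtain ⟨_, M, s, b, hM, hs, hb, hid⟩ := hq ⟨N, hN⟩
    refine ⟨fun y => M (ext n N y), fun y => evalMulti b (ext n N y),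
      fun y => s (ext n N y), fun z => evalMulti (q ⟨N, hN⟩) (ext n (N + 1) z),
      posProd_tow q N ⟨N, hN⟩ rfl M hM, posProd_tow q N ⟨N, hN⟩ rfl s hs,
      aeval_ext_mem n N b, fun y t => ?_, fun w hw => tow_split q hq N ⟨N, hN⟩ rfl w hw⟩
    have h3 := hid (ext n (N + 1) (Fin.snoc y t : Fin (N + 1) → ℝ))
    rw [posProd_snoc q hq N ⟨N, hN⟩ rfl M hM, posProd_snoc q hq N ⟨N, hN⟩ rfl s hs,
      dep_snoc hb (fun i hi => hi), ext_snoc_eq y t ⟨N, hN⟩ rfl] at h3
    exact h3
  · have h1 : (fun x : Fin n → ℝ => ∏ k, evalMulti (q k) x ^ m k) =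
        ∏ k, (fun x : Fin n → ℝ => evalMulti (q k) (ext n n x)) ^ m k := by
      funext x
      rw [Finset.prod_apply]
      refine Finset.prod_congr rfl fun k _ => ?_
      rw [Pi.pow_apply, ext_self]
    rw [h1]
    exact (tow q n).prod_mem fun k _ => (tow q n).pow_mem (q_mem_tow q n k k.isLt) _

end Pool.Agent.ITR
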