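import Pool.Agent.ITR.St

/-!
# Iterated residues, module AEQ: clearing denominators over `k(t)`
-/

set_option autoImplicit false

open MeasureTheory Filter Topology

namespace Pool.Agent.ITR

/-- every element of `k(t)` is a quotient of two values of polynomials, the second one not zero -/
private lemma aeq_frac (k : IntermediateField ℚ ℝ) (t x : ℝ)
    (hx : x ∈ IntermediateField.adjoin k ({t} : Set ℝ)) :
    ∃ N D : Polynomial k, ev k t D ≠ 0 ∧ ev k t N = ev k t D * x := by
  obtain ⟨r, s, hrs⟩ := (IntermediateField.mem_adjoin_simple_iff k x).1 hx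
  have h1 : ∀ f : Polynomial k, ev k t f = Polynomial.aeval t f := by
    intro f
    rw [Polynomial.aeval_def]
    rfl
  by_cases hs : Polynomial.aeval t s = 0
  · refine ⟨0, 1, by simp, ?_⟩
    rw [hrs, hs]
    simp
  · refine ⟨r, s, by rw [h1]; exact hs, ?_⟩
    rw [h1, h1, hrs]
    field_simp

/-- a common denominator of finitely many elements of `k(t)` -/
private lemma aeq_common (k : IntermediateField ℚ ℝ) (t : ℝ) (c : ℕ → ℝ)
    (hc : ∀ j, c j ∈ IntermediateField.adjoin k ({t} : Set ℝ)) (n : ℕ) :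
    ∃ D : Polynomial k, ev k t D ≠ 0 ∧ ∀ j < n, ∃ N : Polynomial k, ev k t N = ev k t D * c j := by
  induction n with
  | zero => exact ⟨1, by simp, fun j hj => absurd hj (Nat.not_lt_zero j)⟩
  | succ n ih =>
    obtain ⟨D, hD, hN⟩ := ih
    obtain ⟨N₀, D₀, hD₀, hN₀⟩ := aeq_frac k t (c n) (hc n)
    refine ⟨D * D₀, by rw [map_mul]; exact mul_ne_zero hD hD₀, ?_⟩
    intro j hj
    rcases Nat.lt_succ_iff_lt_or_eq.1 hj with hj | hj
    · obtain ⟨N, hN⟩ := hN j hj
      refine ⟨N * D₀, ?_⟩
      rw [map_mul, map_mul, hN]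
      ring
    · subst hj
      refine ⟨D * N₀, ?_⟩
      rw [map_mul, map_mul, hN₀]
      ring

theorem thm_AEQ : St_AEQ := by
  intro k t b hb
  obtain ⟨q, hq, hqb⟩ := hb
  obtain ⟨D, hD, hN⟩ := aeq_common k t (fun j => ((q.coeff j : IntermediateField.adjoin k ({t} : Set ℝ)) : ℝ))
    (fun j => (q.coeff j).2) (q.natDegree + 1)
  choose! N hN using hN
  set p : Polynomial (Polynomial k) :=
    ∑ j ∈ Finset.range (q.natDegree + 1), Polynomial.C (N j) * Polynomial.X ^ j with hp
  have h1 : p.map (ev k t) = Polynomial.C (ev k t D) *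
      q.map (algebraMap (IntermediateField.adjoin k ({t} : Set ℝ)) ℝ) := by
    ext i
    rw [Polynomial.coeff_map, Polynomial.coeff_C_mul, Polynomial.coeff_map, hp,
      Polynomial.finsetSum_coeff]
    simp only [Polynomial.coeff_C_mul, Polynomial.coeff_X_pow, mul_ite, mul_one, mul_zero]
    rw [Finset.sum_ite_eq]
    by_cases hi : i < q.natDegree + 1
    · rw [if_pos (Finset.mem_range.2 hi), hN i hi]
      rfl
    · rw [if_neg (fun h => hi (Finset.mem_range.1 h)), map_zero,
        Polynomial.coeff_eq_zero_of_natDegree_lt (by omega), map_zero, mul_zero]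
  have h2 : q.map (algebraMap (IntermediateField.adjoin k ({t} : Set ℝ)) ℝ) ≠ 0 := by
    rw [Ne, Polynomial.map_eq_zero_iff
      (FaithfulSMul.algebraMap_injective (IntermediateField.adjoin k ({t} : Set ℝ)) ℝ)]
    exact hq
  refine ⟨p, ?_, ?_⟩
  · rw [h1]
    exact mul_ne_zero (Polynomial.C_ne_zero.2 hD) h2
  · unfold ev2
    rw [h1, Polynomial.eval_mul, Polynomial.eval_map_algebraMap, hqb, mul_zero]

end Pool.Agent.ITR
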