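import Pool.Agent.ITR.St

/-!
# Iterated residues: type (c)
-/

set_option autoImplicit false

open MeasureTheory Filter Topology

namespace Pool.Agent.ITR

open Pool.Agent.Helper23.PeriodDefs Polynomial

/-- the quadratic polynomial with roots `a ± i b` -/
noncomputable def ARF_q (a b : ℝ) : Polynomial ℝ := (X - C a) ^ 2 + C (b ^ 2)

/-- the point `a + i b` -/
def ARF_z (a b : ℝ) : ℂ := ⟨a, b⟩

theorem ARF_q_eval (a b t : ℝ) : (ARF_q a b).eval t = (t - a) ^ 2 + b ^ 2 := by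
  simp [ARF_q]

theorem ARF_q_pos (a t : ℝ) {b : ℝ} (hb : 0 < b) : 0 < (ARF_q a b).eval t := by
  rw [ARF_q_eval]
  positivity

theorem ARF_q_aeval (a b : ℝ) (z : ℂ) : aeval z (ARF_q a b) = (z - a) ^ 2 + (b : ℂ) ^ 2 := by
  simp [ARF_q]

theorem ARF_q_root (a b : ℝ) : aeval (ARF_z a b) (ARF_q a b) = 0 := by
  rw [ARF_q_aeval]
  have : ARF_z a b - a = (b : ℂ) * Complex.I := by
    apply Complex.ext <;> simp [ARF_z]
  rw [this, mul_pow, Complex.I_sq]
  ring

theorem ARF_q_ne {a b a' b' : ℝ} (hb : 0 < b) (hb' : 0 < b') (hne : (a, b) ≠ (a', b')) :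
    aeval (ARF_z a b) (ARF_q a' b') ≠ 0 := by
  rw [ARF_q_aeval]
  have e : (ARF_z a b - a') ^ 2 + (b' : ℂ) ^ 2 =
      (ARF_z a b - a' - b' * Complex.I) * (ARF_z a b - a' + b' * Complex.I) := by
    have : Complex.I ^ 2 = -1 := Complex.I_sq
    linear_combination (b' : ℂ) ^ 2 * this
  rw [e]
  refine mul_ne_zero ?_ ?_
  · intro h
    apply hne
    have h1 := congrArg Complex.re h
    have h2 := congrArg Complex.im h
    simp [ARF_z] at h1 h2
    rw [Prod.mk.injEq]
    exact ⟨by linarith, by linarith⟩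
  · intro h
    have h2 := congrArg Complex.im h
    simp [ARF_z] at h2
    linarith

/-- denominator -/
noncomputable def ARF_Q {m : ℕ} (J : Finset (Fin m)) (a b : Fin m → ℝ) : Polynomial ℝ :=
  ∏ j ∈ J, ARF_q (a j) (b j)

/-- numerator -/
noncomputable def ARF_P {m : ℕ} (J : Finset (Fin m)) (a b c : Fin m → ℝ) : Polynomial ℝ :=
  ∑ j ∈ J, C (c j * b j) * ∏ l ∈ J.erase j, ARF_q (a l) (b l)

theorem ARF_Q_eval_ne {m : ℕ} (J : Finset (Fin m)) (a b : Fin m → ℝ) (hb : ∀ j, 0 < b j) (t : ℝ) :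
    (ARF_Q J a b).eval t ≠ 0 := by
  unfold ARF_Q
  rw [eval_prod]
  exact Finset.prod_ne_zero_iff.2 fun j _ => (ARF_q_pos _ _ (hb j)).ne'

theorem ARF_rat {m : ℕ} (J : Finset (Fin m)) (a b c : Fin m → ℝ) (hb : ∀ j, 0 < b j) (t : ℝ) :
    ratFun (ARF_P J a b c) (ARF_Q J a b) t =
      ∑ j ∈ J, c j * (b j / ((t - a j) ^ 2 + b j ^ 2)) := by
  unfold ratFun
  have hQ := ARF_Q_eval_ne J a b hb t
  rw [div_eq_iff hQ, Finset.sum_mul]
  unfold ARF_P ARF_Q
  rw [eval_finsetSum]
  refine Finset.sum_congr rfl fun j hj => ?_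
  rw [eval_mul, eval_C, eval_prod, eval_prod, ← Finset.mul_prod_erase J _ hj, ARF_q_eval]
  have h1 : (t - a j) ^ 2 + b j ^ 2 ≠ 0 := by
    have := hb j
    positivity
  field_simp

theorem ARF_Q_root {m : ℕ} (J : Finset (Fin m)) (a b : Fin m → ℝ) {j : Fin m} (hj : j ∈ J) :
    aeval (ARF_z (a j) (b j)) (ARF_Q J a b) = 0 := by
  unfold ARF_Q
  rw [map_prod]
  exact Finset.prod_eq_zero hj (ARF_q_root _ _)

theorem ARF_P_val {m : ℕ} (J : Finset (Fin m)) (a b c : Fin m → ℝ) {j : Fin m} (hj : j ∈ J) :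
    aeval (ARF_z (a j) (b j)) (ARF_P J a b c) =
      (c j : ℂ) * (b j : ℂ) * ∏ l ∈ J.erase j, aeval (ARF_z (a j) (b j)) (ARF_q (a l) (b l)) := by
  unfold ARF_P
  rw [map_sum, Finset.sum_eq_single j]
  · rw [map_mul, map_prod, aeval_C]
    simp
  · intro l hl hlj
    rw [map_mul, map_prod]
    have : j ∈ J.erase l := Finset.mem_erase.2 ⟨hlj.symm, hj⟩
    rw [Finset.prod_eq_zero this (ARF_q_root _ _), mul_zero]
  · exact fun h => absurd hj h

theorem ARF_int (a b : ℝ) (hb : 0 < b) : Integrable fun t : ℝ => b / ((t - a) ^ 2 + b ^ 2) := by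
  have h1 : Integrable fun t : ℝ => (1 + t ^ 2)⁻¹ := integrable_inv_one_add_sq
  have h2 := ((h1.comp_div hb.ne').comp_sub_right a).const_mul (b⁻¹)
  refine h2.congr (Eventually.of_forall fun t => ?_)
  have h3 : (t - a) ^ 2 + b ^ 2 ≠ 0 := by positivity
  beta_reduce
  have h4 : (1 + ((t - a) / b) ^ 2) = ((t - a) ^ 2 + b ^ 2) / b ^ 2 := by
    field_simp
    ring
  rw [h4]
  field_simp

/-! ## Descent -/

theorem ARF_desc {k : IntermediateField ℚ ℝ} (hk : RC k) {m : ℕ} (J : Finset (Fin m))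
    (a b c : Fin m → ℝ) (hb : ∀ j, 0 < b j) (hinj : Function.Injective fun j => (a j, b j))
    (hc : ∀ j ∈ J, c j ≠ 0) (P₁ Q₁ : Polynomial k) (hQ₁ : Q₁ ≠ 0)
    (he : ARF_P J a b c * up k Q₁ = up k P₁ * ARF_Q J a b) : ∀ j ∈ J, c j ∈ k := by
  have hcl : ∀ x : ℝ, IsAlgebraic k (x : ℂ) → x ∈ k := fun x hx =>
    hk.cl x ((isAlgebraic_algebraMap_iff (A := ℂ) Complex.ofReal_injective).1 hx)
  -- the roots
  have hne : ∀ j ∈ J, (∏ l ∈ J.erase j, aeval (ARF_z (a j) (b j)) (ARF_q (a l) (b l))) ≠ 0 := by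
    intro j _
    refine Finset.prod_ne_zero_iff.2 fun l hl => ARF_q_ne (hb j) (hb l) fun e => ?_
    exact (Finset.mem_erase.1 hl).1 (hinj e).symm
  have hz : ∀ j ∈ J, IsAlgebraic k (ARF_z (a j) (b j)) := by
    intro j hj
    refine ⟨Q₁, hQ₁, ?_⟩
    have h1 := congrArg (aeval (ARF_z (a j) (b j))) he
    rw [map_mul, map_mul, ARF_Q_root J a b hj, mul_zero, ARF_P_val J a b c hj] at h1
    rcases mul_eq_zero.1 h1 with h2 | h2
    · exfalso
      have h3 : (c j : ℂ) ≠ 0 := by exact_mod_cast hc j hj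
      have h4 : (b j : ℂ) ≠ 0 := by exact_mod_cast (hb j).ne'
      exact mul_ne_zero (mul_ne_zero h3 h4) (hne j hj) h2
    · unfold up at h2
      rwa [aeval_map_algebraMap] at h2
  have hzc : ∀ j ∈ J, IsAlgebraic k (starRingEnd ℂ (ARF_z (a j) (b j))) := by
    intro j hj
    exact (hz j hj).algHom (Complex.conjAe.toAlgHom.restrictScalars k)
  have h2 : IsAlgebraic k (2 : ℂ) := isAlgebraic_algebraMap (2 : k)
  have ha : ∀ j ∈ J, a j ∈ k := by
    intro j hj
    apply hcl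
    have e : (a j : ℂ) = (ARF_z (a j) (b j) + starRingEnd ℂ (ARF_z (a j) (b j))) * (2 : ℂ)⁻¹ := by
      apply Complex.ext
      · simp [ARF_z]
        ring
      · simp [ARF_z]
    rw [e]
    exact ((hz j hj).add (hzc j hj)).mul h2.inv
  have hb' : ∀ j ∈ J, b j ∈ k := by
    intro j hj
    apply hcl
    have e : (b j : ℂ) ^ 2 = ARF_z (a j) (b j) * starRingEnd ℂ (ARF_z (a j) (b j)) -
        (a j : ℂ) ^ 2 := by
      rw [Complex.mul_conj]
      simp only [ARF_z, Complex.normSq_mk]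
      push_cast
      ring
    have h3 : IsAlgebraic k ((b j : ℂ) ^ 2) := by
      rw [e]
      refine ((hz j hj).mul (hzc j hj)).sub (IsAlgebraic.pow ?_ 2)
      exact isAlgebraic_algebraMap (⟨a j, ha j hj⟩ : k)
    exact h3.of_pow (by norm_num)
  -- the polynomials over `k`
  have hq : ∀ j ∈ J, ∃ q : Polynomial k, up k q = ARF_q (a j) (b j) := by
    intro j hj
    refine ⟨(X - C ⟨a j, ha j hj⟩) ^ 2 + C (⟨b j, hb' j hj⟩ ^ 2), ?_⟩
    unfold up ARF_q
    rw [Polynomial.map_add, Polynomial.map_pow, Polynomial.map_sub, map_X, map_C, map_C, map_pow]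
    rfl
  classical
  choose! q hq using hq
  have hQ : up k (∏ j ∈ J, q j) = ARF_Q J a b := by
    unfold up ARF_Q
    rw [Polynomial.map_prod]
    exact Finset.prod_congr rfl fun j hj => hq j hj
  have hdvd : Q₁ ∣ P₁ * ∏ j ∈ J, q j := by
    rw [← Polynomial.map_dvd_map' (algebraMap k ℝ), Polynomial.map_mul]
    refine ⟨ARF_P J a b c, ?_⟩
    have : Polynomial.map (algebraMap k ℝ) (∏ j ∈ J, q j) = ARF_Q J a b := hQ
    rw [this]
    change up k P₁ * _ = up k Q₁ * _
    rw [← he, mul_comm]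
  obtain ⟨P₂, hP₂⟩ := hdvd
  have hP : ARF_P J a b c = up k P₂ := by
    have h0 : up k Q₁ ≠ 0 := by
      unfold up
      rwa [Ne, Polynomial.map_eq_zero]
    apply mul_right_cancel₀ h0
    rw [he, ← hQ]
    unfold up
    rw [← Polynomial.map_mul, hP₂, Polynomial.map_mul, mul_comm]
  intro j hj
  have hA : ∀ p : Polynomial k, IsAlgebraic k (aeval (ARF_z (a j) (b j)) p) := by
    intro p
    have h3 := (hz j hj).isIntegral
    have h4 : IsIntegral k (aeval (ARF_z (a j) (b j)) p) := by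
      have h5 : aeval (ARF_z (a j) (b j)) p ∈ integralClosure k ℂ := by
        rw [Polynomial.aeval_eq_sum_range]
        refine Subalgebra.sum_mem _ fun i _ => ?_
        exact Subalgebra.smul_mem _ (Subalgebra.pow_mem _ h3 _) _
      exact h5
    exact h4.isAlgebraic
  have h5 := ARF_P_val J a b c hj
  rw [hP] at h5
  unfold up at h5
  rw [aeval_map_algebraMap] at h5
  have h6 : IsAlgebraic k (∏ l ∈ J.erase j, aeval (ARF_z (a j) (b j)) (ARF_q (a l) (b l))) := by
    have e : (∏ l ∈ J.erase j, aeval (ARF_z (a j) (b j)) (ARF_q (a l) (b l))) =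
        aeval (ARF_z (a j) (b j)) (∏ l ∈ J.erase j, q l) := by
      rw [map_prod]
      refine Finset.prod_congr rfl fun l hl => ?_
      rw [← hq l (Finset.mem_of_mem_erase hl)]
      unfold up
      rw [aeval_map_algebraMap]
    rw [e]
    exact hA _
  apply hcl
  have h7 : (b j : ℂ) ≠ 0 := by exact_mod_cast (hb j).ne'
  have h8 : (c j : ℂ) = aeval (ARF_z (a j) (b j)) P₂ *
      ((b j : ℂ) * ∏ l ∈ J.erase j, aeval (ARF_z (a j) (b j)) (ARF_q (a l) (b l)))⁻¹ := by
    rw [h5]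
    have h9 := hne j hj
    field_simp
  rw [h8]
  refine (hA P₂).mul (IsAlgebraic.inv (IsAlgebraic.mul ?_ h6))
  exact isAlgebraic_algebraMap (⟨b j, hb' j hj⟩ : k)

theorem thm_ARF (hRA1 : St_RA1) (hRA2 : St_RA2) : St_ARF := by
  classical
  intro k hk h hh hint hal
  obtain ⟨m, a, b, c, I, hI, hb, hinj, hang, hhe⟩ := hh
  by_cases hI0 : volume I = 0
  · refine ⟨0, zero_mem k, ?_⟩
    rw [integral_congr_ae hhe, integral_indicator hI, Measure.restrict_eq_zero.2 hI0,
      integral_zero_measure, zero_mul]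
  · set J : Finset (Fin m) := Finset.univ.filter fun j => c j ≠ 0 with hJ
    have hsum : ∀ t : ℝ, ∑ j, c j * (b j / ((t - a j) ^ 2 + b j ^ 2)) =
        ratFun (ARF_P J a b c) (ARF_Q J a b) t := by
      intro t
      rw [ARF_rat J a b c hb t, hJ, Finset.sum_filter]
      refine Finset.sum_congr rfl fun j _ => ?_
      by_cases hj : c j = 0
      · simp [hj]
      · simp [hj]
    have hQ0 : ARF_Q J a b ≠ 0 := fun e => by
      have := ARF_Q_eval_ne J a b hb 0
      rw [e, eval_zero] at this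
      exact this rfl
    -- uncountably many good points
    let E : Set ℝ := {t | t ∈ I ∧ AlgAt k t (ratFun (ARF_P J a b c) (ARF_Q J a b) t)}
    have hE : ¬ E.Countable := by
      intro hc
      apply hI0
      have h0 : volume E = 0 := hc.measure_zero _
      have h1 : ∀ᵐ t : ℝ, t ∉ I := by
        have h2 : ∀ᵐ t : ℝ, t ∉ E := measure_eq_zero_iff_ae_notMem.1 h0
        filter_upwards [h2, hhe, hal] with t h2 h3 h4 h5
        apply h2
        refine ⟨h5, ?_⟩
        rw [h3, Set.indicator_of_mem h5, hsum t] at h4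
        exact h4
      exact measure_eq_zero_iff_ae_notMem.2 h1
    obtain ⟨B, hB, hB2⟩ := hRA1 k hk _ _ hQ0 E hE fun t ht => ht.2
    have hkinf : ((k : Set ℝ) \ B).Infinite := by
      refine Set.Infinite.sdiff ?_ hB
      have : Set.range (fun n : ℕ => (n : ℝ)) ⊆ (k : Set ℝ) := by
        rintro _ ⟨n, rfl⟩
        exact natCast_mem k n
      exact (Set.infinite_range_of_injective Nat.cast_injective).mono this
    obtain ⟨P₁, Q₁, hQ₁, he⟩ := hRA2 k _ _ hQ0 _ hkinf fun t ht =>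
      ⟨ht.1, hB2 t ht.1 ht.2⟩
    have hcJ : ∀ j ∈ J, c j ≠ 0 := fun j hj => by
      rw [hJ, Finset.mem_filter] at hj
      exact hj.2
    have hcj := ARF_desc hk J a b c hb hinj hcJ P₁ Q₁ hQ₁ he
    have hck : ∀ j, c j ∈ k := by
      intro j
      by_cases hj : c j = 0
      · rw [hj]; exact zero_mem k
      · exact hcj j (by rw [hJ, Finset.mem_filter]; exact ⟨Finset.mem_univ _, hj⟩)
    choose ρ hρ using hang
    refine ⟨∑ j, c j * (ρ j : ℝ), sum_mem fun j _ => mul_mem (hck j) ?_, ?_⟩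
    · exact SubfieldClass.ratCast_mem k (ρ j)
    · rw [integral_congr_ae hhe, integral_indicator hI, integral_finsetSum]
      · rw [Finset.sum_mul]
        refine Finset.sum_congr rfl fun j _ => ?_
        rw [integral_const_mul, hρ j]
        ring
      · intro j _
        exact ((ARF_int (a j) (b j) (hb j)).integrableOn (s := I)).const_mul (c j)

end Pool.Agent.ITR
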