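import Pool.Agent.ITR.St

set_option autoImplicit false

/-!
# ITR / BI: the basic integrals
-/

namespace Pool.Agent.ITR

open MeasureTheory Filter Topology Set

/-- the lower bound for `|t + w|` -/
private theorem BI_lower (w₀ : ℂ) (hw : w₀ ∈ Complex.slitPlane) :
    ∃ c : ℝ, 0 < c ∧ ∃ ε : ℝ, 0 < ε ∧ Metric.ball w₀ ε ⊆ Complex.slitPlane ∧
      ∀ w ∈ Metric.ball w₀ ε, ∀ t : ℝ, 0 ≤ t → c * (1 + t) ≤ ‖(t : ℂ) + w‖ := by
  obtain ⟨ε, hε, hb⟩ := Metric.isOpen_iff.1 Complex.isOpen_slitPlane w₀ hw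
  have h1 : ∀ t : ℝ, 0 ≤ t → ε ≤ ‖(t : ℂ) + w₀‖ := by
    intro t ht
    by_contra hlt
    push Not at hlt
    have h2 : (-(t : ℂ)) ∈ Metric.ball w₀ ε := by
      rw [Metric.mem_ball, dist_eq_norm]
      have : ‖-(t : ℂ) - w₀‖ = ‖(t : ℂ) + w₀‖ := by
        rw [← norm_neg]
        congr 1
        ring
      rw [this]
      exact hlt
    have h3 := hb h2
    rw [Complex.mem_slitPlane_iff] at h3
    simp only [Complex.neg_re, Complex.ofReal_re, Complex.neg_im, Complex.ofReal_im] at h3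
    rcases h3 with h3 | h3
    · linarith
    · simp at h3
  set δ : ℝ := ε / 2 with hδ
  have hδ0 : 0 < δ := by positivity
  set M : ℝ := ‖w₀‖ + δ with hM
  have hM0 : 0 ≤ M := by positivity
  refine ⟨δ / (1 + M + δ), by positivity, δ, hδ0,
    (Metric.ball_subset_ball (by rw [hδ]; linarith)).trans hb, ?_⟩
  intro w hwb t ht
  rw [Metric.mem_ball, dist_eq_norm] at hwb
  have h4 : δ ≤ ‖(t : ℂ) + w‖ := by
    have h5 := h1 t ht
    have h6 : ‖(t : ℂ) + w₀‖ ≤ ‖(t : ℂ) + w‖ + ‖w - w₀‖ := by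
      have : (t : ℂ) + w₀ = ((t : ℂ) + w) - (w - w₀) := by ring
      rw [this]
      exact norm_sub_le _ _
    rw [hδ] at hwb ⊢
    linarith
  have h7 : t - M ≤ ‖(t : ℂ) + w‖ := by
    have h8 : ‖w‖ ≤ M := by
      have : w = w₀ + (w - w₀) := by ring
      rw [this]
      exact (norm_add_le _ _).trans (by rw [hM]; linarith)
    have h9 : ‖(t : ℂ)‖ ≤ ‖(t : ℂ) + w‖ + ‖w‖ := by
      have : (t : ℂ) = ((t : ℂ) + w) - w := by ring
      calc ‖(t : ℂ)‖ = ‖((t : ℂ) + w) - w‖ := by rw [← this]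
        _ ≤ _ := norm_sub_le _ _
    rw [Complex.norm_real, Real.norm_of_nonneg ht] at h9
    linarith
  have h10 : 0 < 1 + M + δ := by positivity
  rw [div_mul_eq_mul_div, div_le_iff₀ h10]
  by_cases h : t ≤ M + δ
  · calc δ * (1 + t) ≤ δ * (1 + M + δ) := by nlinarith
      _ ≤ ‖(t : ℂ) + w‖ * (1 + M + δ) := by nlinarith
  · push Not at h
    calc δ * (1 + t) ≤ (t - M) * (1 + M + δ) := by nlinarith
      _ ≤ ‖(t : ℂ) + w‖ * (1 + M + δ) := by nlinarith

/-- the real integrand is integrable -/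
private theorem BI_int1 (a : ℝ) (h0 : 0 < a) (h1 : a < 1) :
    IntegrableOn (fun t : ℝ => t ^ (a - 1) / (1 + t)) (Ioi 0) := by
  have hm : ∀ s : Set ℝ, s ⊆ Ioi 0 → MeasurableSet s →
      AEStronglyMeasurable (fun t : ℝ => t ^ (a - 1) / (1 + t)) (volume.restrict s) := by
    intro s hs hsm
    apply ContinuousOn.aestronglyMeasurable _ hsm
    intro t ht
    have ht0 : 0 < t := hs ht
    apply ContinuousAt.continuousWithinAt
    apply ContinuousAt.div
    · exact Real.continuousAt_rpow_const _ _ (Or.inl ht0.ne')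
    · fun_prop
    · positivity
  rw [← Ioc_union_Ioi_eq_Ioi (zero_le_one' ℝ)]
  apply IntegrableOn.union
  · have hI : IntegrableOn (fun t : ℝ => t ^ (a - 1)) (Ioc 0 1) := by
      rw [← intervalIntegrable_iff_integrableOn_Ioc_of_le zero_le_one]
      exact intervalIntegral.intervalIntegrable_rpow' (by linarith)
    refine Integrable.mono' hI (hm _ (fun t ht => ht.1) measurableSet_Ioc) ?_
    refine (ae_restrict_iff' measurableSet_Ioc).2 (Eventually.of_forall fun t ht => ?_)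
    have ht0 : 0 < t := ht.1
    have h3 : 0 ≤ t ^ (a - 1) := Real.rpow_nonneg ht0.le _
    rw [Real.norm_of_nonneg (by positivity)]
    exact div_le_self h3 (by linarith)
  · have hI : IntegrableOn (fun t : ℝ => t ^ (a - 2)) (Ioi 1) :=
      integrableOn_Ioi_rpow_of_lt (by linarith) one_pos
    refine Integrable.mono' hI
      (hm _ (fun t ht => lt_trans one_pos (mem_Ioi.1 ht)) measurableSet_Ioi) ?_
    refine (ae_restrict_iff' measurableSet_Ioi).2 (Eventually.of_forall fun t ht => ?_)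
    have ht1 : 1 < t := ht
    have ht0 : 0 < t := by linarith
    have h3 : 0 ≤ t ^ (a - 1) := Real.rpow_nonneg ht0.le _
    rw [Real.norm_of_nonneg (by positivity)]
    have h4 : t ^ (a - 2) = t ^ (a - 1) / t := by
      rw [show a - 2 = (a - 1) - 1 by ring, Real.rpow_sub_one ht0.ne']
    rw [h4]
    exact div_le_div_of_nonneg_left h3 ht0 (by linarith)

/-- the bound for the integrand -/
private theorem BI_bound (a : ℝ) (w : ℂ) (c : ℝ) (hc : 0 < c) (j : ℕ) (hj : 1 ≤ j) (t : ℝ)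
    (ht : 0 < t) (hl : c * (1 + t) ≤ ‖(t : ℂ) + w‖) :
    ‖((t ^ (a - 1) : ℝ) : ℂ) / ((t : ℂ) + w) ^ j‖ ≤ (c ^ j)⁻¹ * (t ^ (a - 1) / (1 + t)) := by
  have h1 : 0 ≤ t ^ (a - 1) := Real.rpow_nonneg ht.le _
  rw [norm_div, norm_pow, Complex.norm_real, Real.norm_of_nonneg h1]
  have h2 : (c * (1 + t)) ^ j ≤ ‖(t : ℂ) + w‖ ^ j := by gcongr
  have h3 : c ^ j * (1 + t) ≤ (c * (1 + t)) ^ j := by
    rw [mul_pow]
    gcongr
    calc 1 + t = (1 + t) ^ 1 := by ring
      _ ≤ (1 + t) ^ j := pow_le_pow_right₀ (by linarith) hj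
  have h4 : 0 < c ^ j * (1 + t) := by positivity
  calc t ^ (a - 1) / ‖(t : ℂ) + w‖ ^ j ≤ t ^ (a - 1) / (c ^ j * (1 + t)) :=
        div_le_div_of_nonneg_left h1 h4 (h3.trans h2)
    _ = (c ^ j)⁻¹ * (t ^ (a - 1) / (1 + t)) := by field_simp

private theorem BI_cont (a : ℝ) (w : ℂ) (j : ℕ) (t : ℝ) (ht : 0 < t) (hne : (t : ℂ) + w ≠ 0) :
    ContinuousAt (fun t : ℝ => ((t ^ (a - 1) : ℝ) : ℂ) / ((t : ℂ) + w) ^ j) t := by
  apply ContinuousAt.div
  · exact Complex.continuous_ofReal.continuousAt.comp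
      (Real.continuousAt_rpow_const _ _ (Or.inl ht.ne'))
  · fun_prop
  · exact pow_ne_zero _ hne

private theorem BI_ne (w : ℂ) (hw : w ∈ Complex.slitPlane) (t : ℝ) (ht : 0 ≤ t) :
    (t : ℂ) + w ≠ 0 := by
  obtain ⟨c, hc, ε, hε, -, h⟩ := BI_lower w hw
  have h1 := h w (Metric.mem_ball_self hε) t ht
  have h2 : 0 < c * (1 + t) := by positivity
  intro h3
  rw [h3, norm_zero] at h1
  linarith

private theorem BI_meas (a : ℝ) (w : ℂ) (hw : w ∈ Complex.slitPlane) (j : ℕ) :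
    AEStronglyMeasurable (fun t : ℝ => ((t ^ (a - 1) : ℝ) : ℂ) / ((t : ℂ) + w) ^ j)
      (volume.restrict (Ioi 0)) := by
  apply ContinuousOn.aestronglyMeasurable _ measurableSet_Ioi
  intro t ht
  exact (BI_cont a w j t ht (BI_ne w hw t (le_of_lt ht))).continuousWithinAt

private theorem BI_integrable (a : ℝ) (h0 : 0 < a) (h1 : a < 1) (w : ℂ)
    (hw : w ∈ Complex.slitPlane) (j : ℕ) (hj : 1 ≤ j) :
    IntegrableOn (fun t : ℝ => ((t ^ (a - 1) : ℝ) : ℂ) / ((t : ℂ) + w) ^ j) (Ioi 0) := by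
  obtain ⟨c, hc, ε, hε, -, h⟩ := BI_lower w hw
  refine Integrable.mono' ((BI_int1 a h0 h1).const_mul ((c ^ j)⁻¹)) (BI_meas a w hw j) ?_
  refine (ae_restrict_iff' measurableSet_Ioi).2 (Eventually.of_forall fun t ht => ?_)
  exact BI_bound a w c hc j hj t ht (h w (Metric.mem_ball_self hε) t (le_of_lt ht))

/-- integration by parts -/
private theorem BI_rec (a : ℝ) (h0 : 0 < a) (h1 : a < 1) (w : ℂ) (hw : w ∈ Complex.slitPlane)
    (j : ℕ) (hj : 1 ≤ j) :
    ((a : ℂ) - j) * (∫ t in Ioi (0 : ℝ), ((t ^ (a - 1) : ℝ) : ℂ) / ((t : ℂ) + w) ^ j) +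
      (j : ℂ) * w * (∫ t in Ioi (0 : ℝ), ((t ^ (a - 1) : ℝ) : ℂ) / ((t : ℂ) + w) ^ (j + 1)) = 0 := by
  have hI1 := BI_integrable a h0 h1 w hw j hj
  have hI2 := BI_integrable a h0 h1 w hw (j + 1) (by omega)
  set f : ℝ → ℂ := fun t => ((t ^ a : ℝ) : ℂ) / ((t : ℂ) + w) ^ j with hf
  set f' : ℝ → ℂ := fun t =>
    ((a : ℂ) - j) * (((t ^ (a - 1) : ℝ) : ℂ) / ((t : ℂ) + w) ^ j) +
      (j : ℂ) * w * (((t ^ (a - 1) : ℝ) : ℂ) / ((t : ℂ) + w) ^ (j + 1)) with hf'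
  have hder : ∀ t ∈ Ioi (0 : ℝ), HasDerivAt f (f' t) t := by
    intro t ht
    have ht0 : (0 : ℝ) < t := ht
    have hne := BI_ne w hw t ht0.le
    have hd1 : HasDerivAt (fun t : ℝ => ((t ^ a : ℝ) : ℂ)) ((a * t ^ (a - 1) : ℝ) : ℂ) t :=
      (Real.hasDerivAt_rpow_const (Or.inl ht0.ne')).ofReal_comp
    have hd2 : HasDerivAt (fun t : ℝ => ((t : ℂ) + w) ^ j)
        ((j : ℂ) * ((t : ℂ) + w) ^ (j - 1) * 1) t := by
      have h2 : HasDerivAt (fun t : ℝ => (t : ℂ) + w) 1 t :=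
        (Complex.ofRealCLM.hasDerivAt (x := t)).add_const w
      exact h2.pow j
    have hd3 := hd1.div hd2 (pow_ne_zero _ hne)
    have e : f' t = (((a * t ^ (a - 1) : ℝ) : ℂ) * ((t : ℂ) + w) ^ j -
        ((t ^ a : ℝ) : ℂ) * ((j : ℂ) * ((t : ℂ) + w) ^ (j - 1) * 1)) / (((t : ℂ) + w) ^ j) ^ 2 := by
      have h3 : (t ^ a : ℝ) = t ^ (a - 1) * t := by
        rw [Real.rpow_sub_one ht0.ne']
        field_simp
      obtain ⟨i, rfl⟩ : ∃ i, j = i + 1 := ⟨j - 1, by omega⟩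
      rw [hf', h3]
      simp only [Nat.add_sub_cancel]
      push_cast
      field_simp
      ring
    rw [e]
    exact hd3
  have hcont : ContinuousWithinAt f (Ici 0) 0 := by
    apply ContinuousAt.continuousWithinAt
    rw [hf]
    apply ContinuousAt.div
    · exact Complex.continuous_ofReal.continuousAt.comp
        (Real.continuousAt_rpow_const _ _ (Or.inr h0.le))
    · fun_prop
    · exact pow_ne_zero _ (BI_ne w hw 0 le_rfl)
  have hint : IntegrableOn f' (Ioi 0) := (hI1.const_mul _).add (hI2.const_mul _)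
  have hlim : Tendsto f atTop (𝓝 0) := by
    obtain ⟨c, hc, ε, hε, -, h⟩ := BI_lower w hw
    have hz : Tendsto (fun t : ℝ => (c ^ j)⁻¹ * t ^ (-(1 - a))) atTop (𝓝 0) := by
      have := (tendsto_rpow_neg_atTop (y := 1 - a) (by linarith)).const_mul ((c ^ j)⁻¹)
      simpa using this
    apply squeeze_zero_norm' _ hz
    filter_upwards [eventually_gt_atTop (0 : ℝ)] with t ht
    have hb := BI_bound (a + 1) w c hc j hj t ht (h w (Metric.mem_ball_self hε) t ht.le)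
    rw [show a + 1 - 1 = a by ring] at hb
    refine hb.trans ?_
    have h5 : 0 < c ^ j := by positivity
    apply mul_le_mul_of_nonneg_left _ (inv_nonneg.2 h5.le)
    have h6 : t ^ (-(1 - a)) = t ^ a / t := by
      rw [show -(1 - a) = a - 1 by ring, Real.rpow_sub_one ht.ne']
    rw [h6]
    exact div_le_div_of_nonneg_left (Real.rpow_nonneg ht.le _) ht (by linarith)
  have hmain := integral_Ioi_of_hasDerivAt_of_tendsto hcont hder hint hlim
  have hf0 : f 0 = 0 := by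
    rw [hf]
    simp [Real.zero_rpow h0.ne']
  rw [hf0, sub_zero] at hmain
  rw [← hmain, hf', integral_add (hI1.const_mul _) (hI2.const_mul _), integral_const_mul,
    integral_const_mul]

/-- the derivative of the first integral -/
private theorem BI_deriv (a : ℝ) (h0 : 0 < a) (h1 : a < 1) (w : ℂ) (hw : w ∈ Complex.slitPlane) :
    HasDerivAt (fun w : ℂ => ∫ t in Ioi (0 : ℝ), ((t ^ (a - 1) : ℝ) : ℂ) / ((t : ℂ) + w) ^ 1)
      (-(∫ t in Ioi (0 : ℝ), ((t ^ (a - 1) : ℝ) : ℂ) / ((t : ℂ) + w) ^ 2)) w := by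
  obtain ⟨c, hc, ε, hε, hsub, h⟩ := BI_lower w hw
  have key := hasDerivAt_integral_of_dominated_loc_of_deriv_le (𝕜 := ℂ)
    (μ := volume.restrict (Ioi (0 : ℝ))) (x₀ := w) (s := Metric.ball w ε)
    (F := fun (w : ℂ) (t : ℝ) => ((t ^ (a - 1) : ℝ) : ℂ) / ((t : ℂ) + w) ^ 1)
    (F' := fun (w : ℂ) (t : ℝ) => -(((t ^ (a - 1) : ℝ) : ℂ) / ((t : ℂ) + w) ^ 2))
    (bound := fun t => (c ^ 2)⁻¹ * (t ^ (a - 1) / (1 + t)))
    (Metric.ball_mem_nhds w hε) ?_ ?_ ?_ ?_ ?_ ?_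
  · have h2 := key.2
    rw [integral_neg] at h2
    exact h2
  · filter_upwards [Metric.ball_mem_nhds w hε] with x hx
    exact BI_meas a x (hsub hx) 1
  · exact BI_integrable a h0 h1 w hw 1 le_rfl
  · exact (BI_meas a w hw 2).neg
  · refine (ae_restrict_iff' measurableSet_Ioi).2 (Eventually.of_forall fun t ht x hx => ?_)
    rw [norm_neg]
    exact BI_bound a x c hc 2 (by norm_num) t ht (h x hx t (le_of_lt ht))
  · exact (BI_int1 a h0 h1).const_mul _
  · refine (ae_restrict_iff' measurableSet_Ioi).2 (Eventually.of_forall fun t ht x hx => ?_)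
    have hne := BI_ne x (hsub hx) t (le_of_lt ht)
    have h3 : HasDerivAt (fun x : ℂ => (t : ℂ) + x) 1 x := (hasDerivAt_id x).const_add _
    have h4 := (h3.pow 1).inv (pow_ne_zero 1 hne)
    have h5 := h4.const_mul ((t ^ (a - 1) : ℝ) : ℂ)
    have e : ((t ^ (a - 1) : ℝ) : ℂ) *
        (-((1 : ℕ) * ((t : ℂ) + x) ^ (1 - 1) * 1) / (((t : ℂ) + x) ^ 1) ^ 2) =
        -(((t ^ (a - 1) : ℝ) : ℂ) / ((t : ℂ) + x) ^ 2) := by
      simp only [pow_one, Nat.sub_self, pow_zero, Nat.cast_one]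
      ring
    rw [← e]
    exact h5

/-- the value at `w = 1` -/
private theorem BI_one (a : ℝ) (h0 : 0 < a) (h1 : a < 1) :
    ∫ t in Ioi (0 : ℝ), ((t ^ (a - 1) : ℝ) : ℂ) / ((t : ℂ) + 1) ^ 1 =
      ((Real.pi / Real.sin (Real.pi * a) : ℝ) : ℂ) := by
  have hG := Complex.Gamma_mul_Gamma_eq_betaIntegral (s := (a : ℂ)) (t := 1 - (a : ℂ))
    (by simpa using h0) (by simpa using h1)
  rw [Complex.Gamma_mul_Gamma_one_sub, show (a : ℂ) + (1 - a) = 1 by ring, Complex.Gamma_one,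
    one_mul] at hG
  have hR : ((Real.pi / Real.sin (Real.pi * a) : ℝ) : ℂ) =
      (Real.pi : ℂ) / Complex.sin (Real.pi * a) := by push_cast; rfl
  rw [hR, hG, Complex.betaIntegral, intervalIntegral.integral_of_le zero_le_one,
    integral_Ioc_eq_integral_Ioo]
  have himg : (fun t : ℝ => t / (1 + t)) '' Ioi 0 = Ioo 0 1 := by
    ext x
    constructor
    · rintro ⟨t, ht, rfl⟩
      have ht0 : (0 : ℝ) < t := ht
      refine ⟨by positivity, ?_⟩
      change t / (1 + t) < 1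
      rw [div_lt_one (by positivity)]
      linarith
    · rintro ⟨hx0, hx1⟩
      have h3 : (0 : ℝ) < 1 - x := by linarith
      refine ⟨x / (1 - x), div_pos hx0 h3, ?_⟩
      change x / (1 - x) / (1 + x / (1 - x)) = x
      field_simp
      ring
  have hinj : InjOn (fun t : ℝ => t / (1 + t)) (Ioi 0) := by
    intro s hs t ht hst
    have hs0 : (0 : ℝ) < s := hs
    have ht0 : (0 : ℝ) < t := ht
    change s / (1 + s) = t / (1 + t) at hst
    rw [div_eq_div_iff (by positivity) (by positivity)] at hst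
    linarith
  have hder : ∀ t ∈ Ioi (0 : ℝ),
      HasDerivWithinAt (fun t : ℝ => t / (1 + t)) (1 / (1 + t) ^ 2) (Ioi 0) t := by
    intro t ht
    have ht0 : (0 : ℝ) < t := ht
    have hd := (hasDerivAt_id t).div ((hasDerivAt_id t).const_add 1) (by positivity : (1 : ℝ) + t ≠ 0)
    have e : (1 * (1 + id t) - id t * 1) / (1 + id t) ^ 2 = 1 / (1 + t) ^ 2 := by
      simp only [id]
      congr 1
      ring
    rw [← e]
    exact hd.hasDerivWithinAt
  rw [← himg, integral_image_eq_integral_abs_deriv_smul measurableSet_Ioi hder hinj]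
  apply setIntegral_congr_fun measurableSet_Ioi
  intro t ht
  have ht0 : (0 : ℝ) < t := ht
  have h1t : (0 : ℝ) < 1 + t := by linarith
  have e1 : (1 : ℝ) - t / (1 + t) = 1 / (1 + t) := by field_simp; ring
  have e2 : (1 : ℂ) - ((t / (1 + t) : ℝ) : ℂ) = ((1 / (1 + t) : ℝ) : ℂ) := by
    rw [← e1]
    push_cast
    ring
  have e3 : (((t / (1 + t) : ℝ) : ℂ)) ^ ((a : ℂ) - 1) = (((t / (1 + t)) ^ (a - 1) : ℝ) : ℂ) := by
    rw [Complex.ofReal_cpow (by positivity)]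
    push_cast
    rfl
  have e4 : (((1 / (1 + t) : ℝ) : ℂ)) ^ (1 - (a : ℂ) - 1) = (((1 / (1 + t)) ^ (-a) : ℝ) : ℂ) := by
    rw [Complex.ofReal_cpow (by positivity)]
    push_cast
    congr 1
    ring
  change ((t ^ (a - 1) : ℝ) : ℂ) / ((t : ℂ) + 1) ^ 1 = |1 / (1 + t) ^ 2| • ((((t / (1 + t) : ℝ) : ℂ)) ^ ((a : ℂ) - 1) *
    ((1 : ℂ) - ((t / (1 + t) : ℝ) : ℂ)) ^ (1 - (a : ℂ) - 1))
  rw [e2, e3, e4, abs_of_pos (by positivity)]
  have e5 : t ^ (a - 1) / (t + 1) =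
      1 / (1 + t) ^ 2 * ((t / (1 + t)) ^ (a - 1) * (1 / (1 + t)) ^ (-a)) := by
    rw [Real.div_rpow ht0.le h1t.le, Real.div_rpow zero_le_one h1t.le, Real.one_rpow,
      Real.rpow_neg h1t.le, Real.rpow_sub_one h1t.ne']
    have : (1 + t) ^ a ≠ 0 := (Real.rpow_pos_of_pos h1t a).ne'
    have h7 : t + 1 ≠ 0 := by linarith
    field_simp
    ring
  have e6 : (((t ^ (a - 1) : ℝ) : ℂ) / ((t : ℂ) + 1) ^ 1) = ((t ^ (a - 1) / (t + 1) : ℝ) : ℂ) := by
    push_cast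
    ring
  rw [e6, e5]
  simp only [Complex.real_smul]
  push_cast
  ring

private theorem BI_cpow_sub_one {x : ℂ} (c : ℂ) (hx : x ≠ 0) : x ^ (c - 1) = x ^ c / x := by
  rw [Complex.cpow_sub _ _ hx, Complex.cpow_one]

/-- `j = 1` -/
private theorem BI_first (a : ℝ) (h0 : 0 < a) (h1 : a < 1) (w : ℂ) (hw : w ∈ Complex.slitPlane) :
    ∫ t in Ioi (0 : ℝ), ((t ^ (a - 1) : ℝ) : ℂ) / ((t : ℂ) + w) ^ 1 =
      w ^ ((a : ℂ) - 1) * ((Real.pi / Real.sin (Real.pi * a) : ℝ) : ℂ) := by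
  set I : ℂ → ℂ := fun w : ℂ => ∫ t in Ioi (0 : ℝ), ((t ^ (a - 1) : ℝ) : ℂ) / ((t : ℂ) + w) ^ 1
    with hI
  have hd : ∀ x ∈ Complex.slitPlane, HasDerivAt (fun x : ℂ => I x * x ^ (1 - (a : ℂ))) 0 x := by
    intro x hx
    have hx0 : x ≠ 0 := Complex.slitPlane_ne_zero hx
    have hr := BI_rec a h0 h1 x hx 1 le_rfl
    have h2 := (BI_deriv a h0 h1 x hx).mul
      ((hasDerivAt_id x).cpow_const (c := 1 - (a : ℂ)) (by simpa using hx))
    have e : -(∫ t in Ioi (0 : ℝ), ((t ^ (a - 1) : ℝ) : ℂ) / ((t : ℂ) + x) ^ 2) *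
        id x ^ (1 - (a : ℂ)) + (∫ t in Ioi (0 : ℝ), ((t ^ (a - 1) : ℝ) : ℂ) / ((t : ℂ) + x) ^ 1) *
        ((1 - (a : ℂ)) * id x ^ (1 - (a : ℂ) - 1) * 1) = 0 := by
      have h3 : x ^ (1 - (a : ℂ)) = x ^ (1 - (a : ℂ) - 1) * x := by
        rw [BI_cpow_sub_one _ hx0]
        field_simp
      simp only [id]
      rw [h3]
      push_cast at hr
      linear_combination (-(x ^ (1 - (a : ℂ) - 1))) * hr
    rw [e] at h2
    exact h2
  have hconst : I w * w ^ (1 - (a : ℂ)) = I 1 * 1 ^ (1 - (a : ℂ)) := by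
    apply Complex.isOpen_slitPlane.is_const_of_deriv_eq_zero (𝕜 := ℂ)
      (f := fun x : ℂ => I x * x ^ (1 - (a : ℂ)))
      (Complex.starConvex_one_slitPlane.isPathConnected Complex.one_mem_slitPlane).isConnected.isPreconnected
      (fun x hx => (hd x hx).differentiableAt.differentiableWithinAt)
      (fun x hx => (hd x hx).deriv) hw Complex.one_mem_slitPlane
  have hw0 : w ≠ 0 := Complex.slitPlane_ne_zero hw
  have h3 : w ^ ((a : ℂ) - 1) * w ^ (1 - (a : ℂ)) = 1 := by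
    rw [← Complex.cpow_add _ _ hw0, show (a : ℂ) - 1 + (1 - a) = 0 by ring, Complex.cpow_zero]
  have h4 : I 1 = ((Real.pi / Real.sin (Real.pi * a) : ℝ) : ℂ) := BI_one a h0 h1
  rw [Complex.one_cpow, mul_one, h4] at hconst
  rw [← hconst]
  change I w = _
  linear_combination (-(I w)) * h3

theorem thm_BI : St_BI := by
  intro a w j h0 h1 hw hj
  refine ⟨BI_integrable a h0 h1 w hw j hj, ?_⟩
  have hw0 : w ≠ 0 := Complex.slitPlane_ne_zero hw
  obtain ⟨i, rfl⟩ : ∃ i, j = i + 1 := ⟨j - 1, by omega⟩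
  clear hj
  induction i with
  | zero =>
    have := BI_first a h0 h1 w hw
    simpa using this
  | succ n ih =>
    have hr := BI_rec a h0 h1 w hw (n + 1) (by omega)
    rw [ih] at hr
    simp only [Nat.add_sub_cancel] at hr ⊢
    rw [Finset.prod_range_succ]
    have hn : ((n : ℂ) + 1) ≠ 0 := by exact_mod_cast Nat.succ_ne_zero n
    have h3 : w ^ ((a : ℂ) - ((n + 1 : ℕ) : ℂ)) = w ^ ((a : ℂ) - ((n + 1 + 1 : ℕ) : ℂ)) * w := by
      have : (a : ℂ) - ((n + 1 + 1 : ℕ) : ℂ) = (a : ℂ) - ((n + 1 : ℕ) : ℂ) - 1 := by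
        push_cast
        ring
      rw [this, BI_cpow_sub_one _ hw0]
      field_simp
    rw [h3] at hr
    have h4 : ((n : ℂ) + 1) * w ≠ 0 := mul_ne_zero hn hw0
    apply mul_left_cancel₀ h4
    push_cast at hr ⊢
    have h5 : ((n : ℂ) + 1) * w * ((∏ x ∈ Finset.range n, (((x : ℂ) + 1 - a) / ((x : ℂ) + 1))) *
        (((n : ℂ) + 1 - a) / ((n : ℂ) + 1)) * w ^ ((a : ℂ) - ((n : ℂ) + 1 + 1)) *
        ((Real.pi : ℂ) / Complex.sin (Real.pi * a))) =
        ((n : ℂ) + 1 - a) * ((∏ x ∈ Finset.range n, (((x : ℂ) + 1 - a) / ((x : ℂ) + 1))) *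
        (w ^ ((a : ℂ) - ((n : ℂ) + 1 + 1)) * w) * ((Real.pi : ℂ) / Complex.sin (Real.pi * a))) := by
      field_simp
    rw [h5]
    linear_combination hr

end Pool.Agent.ITR
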