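import Pool.Agent.ITR.St

/-!
# Iterated residues: changes of variables
-/

set_option autoImplicit false

open MeasureTheory Filter Topology

namespace Pool.Agent.ITR

theorem thm_CHG (hFLD : St_FLD) : St_CHG := by
  intro n f g A φ φ' hA hφ hinj halg h0 hg
  refine ⟨?_, ?_⟩
  · rw [← setIntegral_eq_integral_of_ae_compl_eq_zero h0,
      integral_image_eq_integral_abs_det_fderiv_smul volume hA hφ hinj f,
      integral_congr_ae hg, integral_indicator hA]
    rfl
  · intro j hj
    obtain ⟨-, hmem, -, htrans, -⟩ := hFLD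
    obtain ⟨N, hN⟩ : ∃ N : Set (Fin n → ℝ), N = toMeasurable volume
      {z : Fin n → ℝ | ¬ AlgOver z (f z / Real.pi ^ j)} := ⟨_, rfl⟩
    have hNm : MeasurableSet N := by
      rw [hN]
      exact measurableSet_toMeasurable _ _
    have hN0 : volume N = 0 := by
      rw [hN, measure_toMeasurable]
      exact hj
    have hNsub : ∀ z, z ∉ N → AlgOver z (f z / Real.pi ^ j) := by
      intro z hz
      by_contra h
      refine hz ?_
      rw [hN]
      exact subset_toMeasurable _ _ h
    have hcont : ContinuousOn φ A := fun x hx => (hφ x hx).continuousWithinAt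
    have hBm : MeasurableSet (A ∩ φ ⁻¹' N) := by
      have h1 : Measurable (A.domRestrict φ) := (continuousOn_iff_continuous_domRestrict.mp hcont).measurable
      have h2 := MeasurableSet.subtype_image hA (h1 hNm)
      have h3 : (Subtype.val '' (A.domRestrict φ ⁻¹' N) : Set (Fin n → ℝ)) = A ∩ φ ⁻¹' N := by
        ext x
        constructor
        · rintro ⟨⟨y, hy⟩, hy', rfl⟩
          exact ⟨hy, hy'⟩
        · rintro ⟨hx, hx'⟩
          exact ⟨⟨x, hx⟩, hx', rfl⟩
      rw [← h3]
      exact h2
    have hφB : ∀ x ∈ A ∩ φ ⁻¹' N, HasFDerivWithinAt φ (φ' x) (A ∩ φ ⁻¹' N) x :=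
      fun x hx => (hφ x hx.1).mono Set.inter_subset_left
    have hint : ∫⁻ x in A ∩ φ ⁻¹' N, ENNReal.ofReal |(φ' x).det| = 0 := by
      rw [lintegral_abs_det_fderiv_eq_addHaar_image volume hBm hφB
        (hinj.mono Set.inter_subset_left)]
      refine measure_mono_null ?_ hN0
      rintro _ ⟨x, hx, rfl⟩
      exact hx.2
    have hdet : ∀ᵐ x : Fin n → ℝ, x ∈ A ∩ φ ⁻¹' N → (φ' x).det = 0 := by
      rw [← ae_restrict_iff' hBm]
      have h1 := (lintegral_eq_zero_iff'
        (aemeasurable_ofReal_abs_det_fderivWithin volume hBm hφB)).mp hint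
      filter_upwards [h1] with x hx
      have h2 : |(φ' x).det| ≤ 0 := by
        simpa using hx
      exact abs_eq_zero.mp (le_antisymm h2 (abs_nonneg _))
    filter_upwards [hdet, hg, halg] with x hx1 hx2 hx3
    rw [← hmem]
    by_cases hxA : x ∈ A
    · rw [hx2, Set.indicator_of_mem hxA]
      by_cases hxN : φ x ∈ N
      · rw [hx1 ⟨hxA, hxN⟩, abs_zero, zero_mul, zero_div]
        exact zero_mem _
      · obtain ⟨h1, h2⟩ := hx3 hxA
        rw [mul_div_assoc]
        refine mul_mem ?_ ?_
        · have h3 : (φ' x).det ∈ kf x := (hmem n x _).mpr h2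
          rcases abs_choice (φ' x).det with h | h
          · rw [h]
            exact h3
          · rw [h]
            exact neg_mem h3
        · exact (hmem n x _).mpr (htrans n x (φ x) _ h1 (hNsub _ hxN))
    · rw [hx2, Set.indicator_of_notMem hxA, zero_div]
      exact zero_mem _

end Pool.Agent.ITR
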