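import Pool.Agent.ITR.St

/-!
# Iterated residues [CNT]: one polynomial for uncountably many points (helper9)
-/

set_option autoImplicit false

open MeasureTheory Filter Topology

namespace Pool.Agent.ITR

open Pool.Agent.Helper23.PeriodDefs

theorem CNT_poly (R : Type) [Semiring R] [Countable R] : Countable (Polynomial R) := by
  rw [← Cardinal.mk_le_aleph0_iff]
  exact (Polynomial.cardinalMk_le_max).trans (max_le Cardinal.mk_le_aleph0 le_rfl)

theorem CNT_countable (k : IntermediateField ℚ ℝ) (hk : RC k) :
    Countable (Polynomial (Polynomial k)) := by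
  have h1 : Countable k := hk.ct.to_subtype
  have h2 : Countable (Polynomial k) := CNT_poly k
  exact CNT_poly (Polynomial k)

theorem thm_CNT (hAEQ : St_AEQ) : St_CNT := by
  intro k hk E g hE h
  by_contra hcon
  push Not at hcon
  have hc := CNT_countable k hk
  refine hE ?_
  have h1 : E ⊆ ⋃ p : Polynomial (Polynomial k),
      {t | t ∈ E ∧ p.map (ev k t) ≠ 0 ∧ ev2 k p t (g t) = 0} := by
    intro t ht
    obtain ⟨p, hp1, hp2⟩ := hAEQ k t (g t) (h t ht)
    exact Set.mem_iUnion.2 ⟨p, ht, hp1, hp2⟩
  refine (Set.countable_iUnion fun p => ?_).mono h1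
  by_cases hp : p = 0
  · refine Set.countable_empty.mono ?_
    rintro t ⟨-, h2, -⟩
    rw [hp, Polynomial.map_zero] at h2
    exact h2 rfl
  · exact hcon p hp

end Pool.Agent.ITR
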