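import Pool.Agent.ITR.St

/-!
# Iterated residues, module FUB: Fubini for the last variable
-/

set_option autoImplicit false

open MeasureTheory Filter

namespace Pool.Agent.ITR

private lemma FUB_eq (n : ℕ) (s : ℝ) (t : Fin n → ℝ) :
    (MeasurableEquiv.piFinSuccAbove (fun _ : Fin (n + 1) => ℝ) (Fin.last n)).symm (s, t) =
      (Fin.snoc t s : Fin (n + 1) → ℝ) := by
  ext i
  refine Fin.lastCases ?_ (fun j => ?_) i
  · rw [Fin.snoc_last]
    exact Fin.insertNth_apply_same (α := fun _ => ℝ) (Fin.last n) s t
  · rw [Fin.snoc_castSucc]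
    have h := Fin.insertNth_apply_succAbove (α := fun _ => ℝ) (Fin.last n) s t j
    rw [Fin.succAbove_last] at h
    exact h

theorem thm_FUB : St_FUB := by
  intro n
  have mp := (volume_preserving_piFinSuccAbove (fun _ : Fin (n + 1) => ℝ) (Fin.last n)).symm
  set e := MeasurableEquiv.piFinSuccAbove (fun _ : Fin (n + 1) => ℝ) (Fin.last n) with he
  refine ⟨?_, ?_⟩
  · intro f hint
    have h1 : Integrable (fun z : ℝ × (Fin n → ℝ) => f (Fin.snoc z.2 z.1))
        ((volume : Measure ℝ).prod (volume : Measure (Fin n → ℝ))) := by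
      have h2 := (mp.integrable_comp_emb e.symm.measurableEmbedding).2 hint
      refine h2.congr (Eventually.of_forall fun z => ?_)
      show f (e.symm z) = f (Fin.snoc z.2 z.1)
      rw [he, ← FUB_eq n z.1 z.2]
    have h3 : ∫ t : Fin (n + 1) → ℝ, f t =
        ∫ z : ℝ × (Fin n → ℝ), f (Fin.snoc z.2 z.1)
          ∂((volume : Measure ℝ).prod (volume : Measure (Fin n → ℝ))) := by
      have h4 := mp.integral_comp' f
      rw [← h4]
      refine integral_congr_ae (Eventually.of_forall fun z => ?_)
      show f (e.symm z) = f (Fin.snoc z.2 z.1)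
      rw [he, ← FUB_eq n z.1 z.2]
    have h5 := integral_prod_symm _ h1
    have h6 := h1.prod_left_ae
    have h7 := h1.integral_prod_right
    exact ⟨h6, h7, by rw [h3, h5]⟩
  · intro p hp
    have h1 : ∀ᵐ z ∂((volume : Measure ℝ).prod (volume : Measure (Fin n → ℝ))),
        p (Fin.snoc z.2 z.1) := by
      have h2 := mp.quasiMeasurePreserving.ae hp
      refine h2.mono fun z hz => ?_
      have h3 : e.symm z = (Fin.snoc z.2 z.1 : Fin (n + 1) → ℝ) := by
        rw [he, ← FUB_eq n z.1 z.2]
      rw [← h3]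
      exact hz
    have h2 : ∀ᵐ z ∂((volume : Measure (Fin n → ℝ)).prod (volume : Measure ℝ)),
        p (Fin.snoc z.1 z.2) := by
      have h3 := (Measure.measurePreserving_swap (μ := (volume : Measure (Fin n → ℝ)))
        (ν := (volume : Measure ℝ))).quasiMeasurePreserving.ae h1
      exact h3
    exact Measure.ae_ae_of_ae_prod h2

end Pool.Agent.ITR
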