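import Pool.Agent.ITR.St

/-!
# Iterated residues, module IND: the induction
-/

set_option autoImplicit false

open MeasureTheory Filter Topology

namespace Pool.Agent.ITR

open Pool.Agent.Helper23.PeriodDefs

/-- the integral over a point -/
theorem IND_point (f : (Fin 0 → ℝ) → ℝ) (x : Fin 0 → ℝ) : ∫ y, f y = f x := by
  rw [integral_unique]
  have h : (volume : Measure (Fin 0 → ℝ)).real Set.univ = 1 := by
    simp [Measure.real, volume_pi]
  rw [h, one_smul]
  exact congrArg f (Subsingleton.elim _ _)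

/-- a property which holds almost everywhere on the point holds there -/
theorem IND_ae_point {P : (Fin 0 → ℝ) → Prop} (h : ∀ᵐ x : Fin 0 → ℝ, P x) (x : Fin 0 → ℝ) : P x := by
  by_contra hx
  have h1 : {y : Fin 0 → ℝ | ¬ P y} = Set.univ := by
    ext y
    have hy : y = x := Subsingleton.elim _ _
    simp only [Set.mem_ofPred_eq, Set.mem_univ, iff_true]
    rw [hy]; exact hx
  have h2 : (volume : Measure (Fin 0 → ℝ)) {y | ¬ P y} = 0 := h
  rw [h1] at h2
  have h3 : (volume : Measure (Fin 0 → ℝ)) Set.univ = 1 := by simp [volume_pi]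
  rw [h3] at h2
  exact one_ne_zero h2

/-- semialgebraic up to a power of `π` implies algebraic up to a power of `π` -/
theorem IND_pi (hSAG : St_SAG) {n : ℕ} {f : (Fin n → ℝ) → ℝ} (hf : PiSemialgebraicFun f) :
    ∃ j : ℕ, ∀ᵐ x : Fin n → ℝ, AlgOver x (f x / Real.pi ^ j) := by
  obtain ⟨j, g, hg, hfg⟩ := hf
  refine ⟨j, ?_⟩
  filter_upwards [hfg] with x hx
  have h1 : f x / Real.pi ^ j = g x := by
    rw [hx, mul_div_cancel_left₀ _ (pow_ne_zero _ Real.pi_ne_zero)]
  rw [h1]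
  refine hSAG n Set.univ g ?_ x (Set.mem_univ x)
  have h2 : {z : Fin (n + 1) → ℝ | Fin.init z ∈ Set.univ ∧ z (Fin.last n) = g (Fin.init z)} =
      {z : Fin (n + 1) → ℝ | z (Fin.last n) = g (Fin.init z)} := by
    ext z
    simp
  rw [h2]
  exact hg

theorem thm_IND (hRLF : St_RLF) (hTWF : St_TWF) (hARF : St_ARF) (hPAS : St_PAS) (hSCL : St_SCL)
    (hFLD : St_FLD) (hFUB : St_FUB) (hCHG : St_CHG) (hSAG : St_SAG) : St_IND := by
  intro n f hf
  obtain ⟨hF1, hF2, hF3, hF4, hF5⟩ := hFLD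
  induction hf with
  | point f =>
    intro j hj
    have h0 := IND_ae_point hj 0
    have h1 := hF5 _ _ h0
    refine ⟨Polynomial.C ⟨f 0 / Real.pi ^ j, h1⟩ * Polynomial.X ^ j, ?_⟩
    rw [IND_point f 0, map_mul, map_pow, Polynomial.aeval_X, Polynomial.aeval_C]
    have hp : Real.pi ^ j ≠ 0 := pow_ne_zero _ Real.pi_ne_zero
    show f 0 = (f 0 / Real.pi ^ j) * Real.pi ^ j
    field_simp
  | @step n f hf h hg ih =>
    intro j hj
    obtain ⟨hb1, hb2⟩ := hFUB n
    obtain ⟨hint, hint2, hval⟩ := hb1 f hf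
    have hae := hb2 _ hj
    have hp : Real.pi ^ j ≠ 0 := pow_ne_zero _ Real.pi_ne_zero
    -- the value of the fibre integral
    have hfib : ∀ y : Fin n → ℝ, ∫ t, (Real.pi ^ j)⁻¹ * f (Fin.snoc y t) =
        (Real.pi ^ j)⁻¹ * ∫ t, f (Fin.snoc y t) := fun y => integral_const_mul _ _
    rcases h with h | h
    · have h1 : ∀ᵐ y : Fin n → ℝ, AlgOver y ((∫ t, f (Fin.snoc y t)) / Real.pi ^ (j + 1)) := by
        filter_upwards [h, hint, hae] with y hy1 hy2 hy3
        have hAt : ∀ᵐ t : ℝ, AlgAt (kf y) t ((Real.pi ^ j)⁻¹ * f (Fin.snoc y t)) := by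
          filter_upwards [hy3] with t ht
          have := hF3 n y t _ ht
          rwa [div_eq_inv_mul] at this
        have hI : Integrable (fun t : ℝ => (Real.pi ^ j)⁻¹ * f (Fin.snoc y t)) :=
          hy2.const_mul _
        obtain ⟨s1, s2, s3, s4, s5⟩ := hSCL (Real.pi ^ j)⁻¹ (fun t => f (Fin.snoc y t))
        have hv : ∃ v ∈ kf y, ∫ t, (Real.pi ^ j)⁻¹ * f (Fin.snoc y t) = v * Real.pi := by
          rcases hy1 with hy | hy | hy | hy
          · exact hRLF (kf y) (hF1 n y) _ (s1 hy) hI hAt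
          · exact hTWF (kf y) (hF1 n y) _ (s2 hy) hI hAt
          · exact hARF (kf y) (hF1 n y) _ (s3 hy) hI hAt
          · refine ⟨0, (kf y).zero_mem, ?_⟩
            rw [hfib y, s4 hy, mul_zero, zero_mul]
        obtain ⟨v, hv1, hv2⟩ := hv
        rw [hfib y] at hv2
        have h3 : (∫ t, f (Fin.snoc y t)) / Real.pi ^ (j + 1) = v := by
          rw [pow_succ, ← div_div, div_eq_iff Real.pi_ne_zero, div_eq_inv_mul, hv2]
        rw [h3]
        exact (hF2 n y v).1 hv1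
      obtain ⟨q, hq⟩ := ih (j + 1) h1
      exact ⟨q, by rw [hval]; exact hq⟩
    · have h1 : ∀ᵐ y : Fin n → ℝ, AlgOver y ((∫ t, f (Fin.snoc y t)) / Real.pi ^ j) := by
        filter_upwards [h, hint, hae] with y hy1 hy2 hy3
        have hAt : ∀ᵐ t : ℝ, AlgAt (kf y) t ((Real.pi ^ j)⁻¹ * f (Fin.snoc y t)) := by
          filter_upwards [hy3] with t ht
          have := hF3 n y t _ ht
          rwa [div_eq_inv_mul] at this
        have hI : Integrable (fun t : ℝ => (Real.pi ^ j)⁻¹ * f (Fin.snoc y t)) :=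
          hy2.const_mul _
        obtain ⟨s1, s2, s3, s4, s5⟩ := hSCL (Real.pi ^ j)⁻¹ (fun t => f (Fin.snoc y t))
        have hset : ({a | AlgOver y a} : Set ℝ) = (kf y : Set ℝ) := by
          ext a
          exact (hF2 n y a).symm
        have hy4 := s5 _ hy1
        rw [hset] at hy4
        have hv := hPAS (kf y) (hF1 n y) _ hy4 hI hAt
        rw [hfib y] at hv
        rw [div_eq_inv_mul]
        exact (hF2 n y _).1 hv
      obtain ⟨q, hq⟩ := ih j h1
      exact ⟨q, by rw [hval]; exact hq⟩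
  | @sum n f f₁ f₂ h hf₁ hf₂ ha₁ ha₂ h₁ h₂ ih₁ ih₂ =>
    intro j hj
    obtain ⟨j₁, hj₁⟩ := IND_pi hSAG ha₁
    obtain ⟨j₂, hj₂⟩ := IND_pi hSAG ha₂
    obtain ⟨q₁, hq₁⟩ := ih₁ j₁ hj₁
    obtain ⟨q₂, hq₂⟩ := ih₂ j₂ hj₂
    refine ⟨q₁ + q₂, ?_⟩
    rw [integral_congr_ae h, integral_add hf₁ hf₂, hq₁, hq₂, map_add]
  | @change n f g hfg h ih =>
    intro j hj
    obtain ⟨A, φ, φ', hA, hφ, hinj, hsa, hdet, h0, hg⟩ := hfg
    have ha : ∀ᵐ x : Fin n → ℝ, x ∈ A → (∀ i, AlgOver x (φ x i)) ∧ AlgOver x (φ' x).det := by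
      filter_upwards [hdet] with x hx hxA
      exact ⟨fun i => hSAG n A (fun x => φ x i) (hsa i) x hxA, hx hxA⟩
    obtain ⟨c1, c2⟩ := hCHG n f g A φ φ' hA hφ hinj ha h0 hg
    obtain ⟨q, hq⟩ := ih j (c2 j hj)
    exact ⟨q, by rw [c1]; exact hq⟩
  | @move n f g g' hg ha hgg' h =>
    intro j _
    obtain ⟨A, φ, φ', hA, hφ, hinj, hsa, hdet, h0, hg'⟩ := hgg'
    have ha' : ∀ᵐ x : Fin n → ℝ, x ∈ A → (∀ i, AlgOver x (φ x i)) ∧ AlgOver x (φ' x).det := by
      filter_upwards [hdet] with x hx hxA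
      exact ⟨fun i => hSAG n A (fun x => φ x i) (hsa i) x hxA, hx hxA⟩
    obtain ⟨c1, -⟩ := hCHG n g g' A φ φ' hA hφ hinj ha' h0 hg'
    have hI : Integrable g' := by
      refine Integrable.congr ?_ hg'.symm
      rw [integrable_indicator_iff hA]
      have h1 := (integrableOn_image_iff_integrableOn_abs_det_fderiv_smul volume hA hφ hinj g).1
        hg.integrableOn
      exact h1
    refine ⟨0, ?_⟩
    rw [integral_congr_ae h, integral_sub hg hI, c1, sub_self, map_zero]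

end Pool.Agent.ITR
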