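import Pool.Agent.ITR.St
import Pool.Agent.ITR.FUB
import Pool.Agent.ITR.IND

/-!
# Iterated residues, module EXM: `π` is an iterated integral
-/

set_option autoImplicit false

open MeasureTheory Filter

namespace Pool.Agent.ITR

open Pool.Agent.Helper23.PeriodDefs

theorem thm_EXM : St_EXM := by
  let f : (Fin 1 → ℝ) → ℝ := fun x => (1 + (x 0) ^ 2)⁻¹
  have hsn : ∀ (y : Fin 0 → ℝ) (t : ℝ), f (Fin.snoc y t) = (1 + t ^ 2)⁻¹ := by
    intro y t
    have h0 : (Fin.snoc y t : Fin 1 → ℝ) 0 = t := by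
      have := Fin.snoc_last (α := fun _ : Fin 1 => ℝ) t y
      exact this
    show (1 + ((Fin.snoc y t : Fin 1 → ℝ) 0) ^ 2)⁻¹ = _
    rw [h0]
  have hint : Integrable f := by
    have mp := volume_preserving_funUnique (Fin 1) ℝ
    have h1 : Integrable (fun t : ℝ => (1 + t ^ 2)⁻¹) := integrable_inv_one_add_sq
    have h2 := (mp.integrable_comp_emb (MeasurableEquiv.funUnique (Fin 1) ℝ).measurableEmbedding).2 h1
    exact h2
  obtain ⟨-, -, hval⟩ := (thm_FUB 0).1 f hint
  refine ⟨1, f, ?_, ?_, ?_⟩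
  · refine ⟨1, fun _ => {(1 + MvPolynomial.X 0 ^ 2) * MvPolynomial.X 1 - 1}, fun _ => ∅, ?_⟩
    ext z
    have hl : Fin.last 1 = (1 : Fin 2) := rfl
    have hi : Fin.init z (0 : Fin 1) = z 0 := rfl
    simp only [evalMulti, Set.mem_ofPred_eq, Finset.mem_singleton, forall_eq, Finset.notMem_empty,
      IsEmpty.forall_iff, implies_true, and_true, exists_const]
    rw [hl]
    show z 1 = (1 + (Fin.init z (0 : Fin 1)) ^ 2)⁻¹ ↔ _
    rw [hi, map_sub, map_mul, map_add, map_pow, map_one, MvPolynomial.aeval_X,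
      MvPolynomial.aeval_X]
    have hpos : (1 + z 0 ^ 2) ≠ 0 := by positivity
    constructor
    · intro h
      rw [h, mul_inv_cancel₀ hpos, sub_self]
    · intro h
      refine eq_inv_of_mul_eq_one_right ?_
      linarith
  · refine Iterated.step hint (Or.inl ?_) (Iterated.point _)
    refine Eventually.of_forall fun y => Or.inl ⟨1, 1 + Polynomial.X ^ 2, ?_⟩
    refine Eventually.of_forall fun t => ?_
    show f (Fin.snoc y t) = ratFun 1 (1 + Polynomial.X ^ 2) t
    rw [hsn]
    unfold ratFun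
    simp
  · rw [hval, IND_point _ 0]
    have h2 : (fun t : ℝ => f (Fin.snoc (0 : Fin 0 → ℝ) t)) = fun t : ℝ => (1 + t ^ 2)⁻¹ :=
      funext fun t => hsn 0 t
    rw [h2, integral_univ_inv_one_add_sq]

end Pool.Agent.ITR
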