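import Pool.Agent.ITR.St

/-!
# Iterated residues, module FAC: removing the factors `X - c`
-/

set_option autoImplicit false

open MeasureTheory Filter Topology

namespace Pool.Agent.ITR

theorem thm_FAC : St_FAC := by
  intro k c P hP
  have hpr : Prime (Polynomial.C (Polynomial.X - Polynomial.C c) : Polynomial (Polynomial k)) :=
    Polynomial.prime_C_iff.2 (Polynomial.prime_X_sub_C c)
  obtain ⟨e, P', hdvd, hP'⟩ := WfDvdMonoid.max_power_factor hP hpr.irreducible
  refine ⟨e, P', by rw [hP', map_pow], ?_⟩
  intro h0
  apply hdvd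
  rw [Polynomial.C_dvd_iff_dvd_coeff]
  intro i
  rw [Polynomial.dvd_iff_isRoot]
  have h1 := congrArg (fun q => Polynomial.coeff q i) h0
  simpa [Polynomial.coeff_map] using h1

end Pool.Agent.ITR
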