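import Pool.Agent.ITR.IND
import Pool.Agent.Helper23.PeriodProof

/-!
# Iterated residues, module FIN: the final theorem
-/

set_option autoImplicit false

open MeasureTheory

namespace Pool.Agent.ITR

open Pool.Agent.Helper23.PeriodDefs

theorem thm_FIN (hIND : St_IND) (hEXM : St_EXM) (hSAG : St_SAG) : St_FIN := by
  have h1 : ∀ (n : ℕ) (f : (Fin n → ℝ) → ℝ), SemialgebraicFun f → Iterated n f →
      ∃ q : Polynomial RealAlg, ∫ x, f x = Polynomial.aeval Real.pi q := by
    intro n f hf hi
    obtain ⟨j, hj⟩ := IND_pi hSAG (f := f) ⟨0, f, hf, by simp⟩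
    exact hIND n f hi j hj
  have h2 : iteratedRing = Algebra.adjoin RealAlg {Real.pi} := by
    apply le_antisymm
    · refine Algebra.adjoin_le ?_
      rintro v ⟨n, f, hf, hi, rfl⟩
      obtain ⟨q, hq⟩ := h1 n f hf hi
      show ∫ x, f x ∈ Algebra.adjoin RealAlg {Real.pi}
      rw [hq]
      exact Polynomial.aeval_mem_adjoin_singleton RealAlg Real.pi
    · refine Algebra.adjoin_le ?_
      intro v hv
      rw [Set.mem_singleton_iff.1 hv]
      exact Algebra.subset_adjoin hEXM
  refine ⟨h1, h2, ?_⟩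
  rw [h2]
  exact Pool.Agent.Helper23.PeriodProof.inv_pi_not_mem

end Pool.Agent.ITR
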