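import Pool.Agent.ITR.St

/-!
# ITR [FLD]: the fields `kf x`
-/

set_option autoImplicit false

open MeasureTheory Filter Topology

namespace Pool.Agent.ITR

open Pool.Agent.Helper23.PeriodDefs

namespace FLD

theorem alg_mono {K₁ K₂ : IntermediateField ℚ ℝ} (h : K₁ ≤ K₂) {b : ℝ} (hb : IsAlgebraic K₁ b) :
    IsAlgebraic K₂ b := by
  obtain ⟨p, hp, hpb⟩ := hb
  refine ⟨p.map (IntermediateField.inclusion h).toRingHom, ?_, ?_⟩
  · exact (Polynomial.map_ne_zero_iff (RingHom.injective _)).2 hp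
  · rw [Polynomial.aeval_def, Polynomial.eval₂_map]
    exact hpb

theorem mem_kf {n : ℕ} (x : Fin n → ℝ) (a : ℝ) : a ∈ kf x ↔ AlgOver x a := by
  unfold kf AlgOver
  rw [IntermediateField.mem_restrictScalars, mem_algebraicClosure_iff]

theorem kf_cl {n : ℕ} (x : Fin n → ℝ) (b : ℝ) (hb : IsAlgebraic (kf x) b) : b ∈ kf x := by
  rw [mem_kf]
  have hb' : IsAlgebraic (algebraicClosure (IntermediateField.adjoin ℚ (Set.range x)) ℝ) b := hb
  exact hb'.restrictScalars (IntermediateField.adjoin ℚ (Set.range x))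

theorem kf_ct {n : ℕ} (x : Fin n → ℝ) : ((kf x : IntermediateField ℚ ℝ) : Set ℝ).Countable := by
  have h1 : Cardinal.mk (IntermediateField.adjoin ℚ (Set.range x)) ≤ Cardinal.aleph0 := by
    refine (IntermediateField.cardinalMk_adjoin_le ℚ (Set.range x)).trans ?_
    simp
  have h2 : Cardinal.mk (algebraicClosure (IntermediateField.adjoin ℚ (Set.range x)) ℝ) ≤
      Cardinal.aleph0 := by
    refine (Algebra.IsAlgebraic.cardinalMk_le_max
      (IntermediateField.adjoin ℚ (Set.range x)) _).trans ?_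
    exact max_le h1 le_rfl
  rw [← Cardinal.le_aleph0_iff_set_countable]
  exact h2

theorem adj_le {n : ℕ} (x : Fin n → ℝ) : IntermediateField.adjoin ℚ (Set.range x) ≤ kf x := by
  intro a ha
  rw [mem_kf]
  exact isAlgebraic_algebraMap
    (⟨a, ha⟩ : IntermediateField.adjoin ℚ (Set.range x))

theorem snoc_alg (n : ℕ) (y : Fin n → ℝ) (t b : ℝ)
    (hb : AlgOver (Fin.snoc y t : Fin (n + 1) → ℝ) b) : AlgAt (kf y) t b := by
  have h1 : IntermediateField.adjoin ℚ (Set.range (Fin.snoc y t : Fin (n + 1) → ℝ)) ≤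
      (IntermediateField.adjoin (kf y) ({t} : Set ℝ)).restrictScalars ℚ := by
    rw [IntermediateField.adjoin_le_iff]
    rintro _ ⟨i, rfl⟩
    refine Fin.lastCases ?_ (fun i => ?_) i
    · rw [Fin.snoc_last]
      exact IntermediateField.mem_adjoin_simple_self (kf y) t
    · rw [Fin.snoc_castSucc]
      have h2 : y i ∈ kf y := adj_le y (IntermediateField.subset_adjoin _ _ ⟨i, rfl⟩)
      exact IntermediateField.algebraMap_mem (IntermediateField.adjoin (kf y) ({t} : Set ℝ))
        (⟨y i, h2⟩ : kf y)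
  exact alg_mono h1 hb

theorem trans_alg (n : ℕ) (x z : Fin n → ℝ) (b : ℝ) (hz : ∀ i, AlgOver x (z i))
    (hb : AlgOver z b) : AlgOver x b := by
  have h1 : IntermediateField.adjoin ℚ (Set.range z) ≤ kf x := by
    rw [IntermediateField.adjoin_le_iff]
    rintro _ ⟨i, rfl⟩
    exact (mem_kf x _).2 (hz i)
  exact (mem_kf x b).1 (kf_cl x b (alg_mono h1 hb))

theorem zero_alg (x : Fin 0 → ℝ) (a : ℝ) (ha : AlgOver x a) : a ∈ RealAlg := by
  have h1 : IntermediateField.adjoin ℚ (Set.range x) ≤ RealAlg := by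
    rw [IntermediateField.adjoin_le_iff]
    rintro _ ⟨i, rfl⟩
    exact i.elim0
  have h2 : IsAlgebraic (algebraicClosure ℚ ℝ) a := alg_mono h1 ha
  haveI : Algebra.IsAlgebraic ℚ (algebraicClosure ℚ ℝ) := algebraicClosure.isAlgebraic ℚ ℝ
  exact mem_algebraicClosure_iff.2 (h2.restrictScalars ℚ)

end FLD

open FLD in
theorem thm_FLD : St_FLD :=
  ⟨fun _ x => ⟨kf_cl x, kf_ct x⟩, fun _ x a => mem_kf x a, snoc_alg, trans_alg, zero_alg⟩

end Pool.Agent.ITR
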