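import Pool.Agent.ITR.St

/-!
# Iterated residues: module INT (integrability of `t^(p-1) P/Q`)
-/

set_option autoImplicit false

open MeasureTheory Filter Topology

namespace Pool.Agent.ITR
namespace INT

lemma ne_near (Q : Polynomial ℝ) (hQ : Q ≠ 0) (c : ℝ) : ∀ᶠ t in 𝓝[≠] c, Q.eval t ≠ 0 := by
  have hfin : {t : ℝ | Q.eval t = 0}.Finite := by
    refine (Q.roots.toFinset.finite_toSet).subset fun t ht => ?_
    rw [Finset.mem_coe, Multiset.mem_toFinset, Polynomial.mem_roots hQ]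
    exact ht
  have hcl : IsClosed ({t : ℝ | Q.eval t = 0} \ {c}) := (hfin.subset Set.sdiff_subset).isClosed
  have h1 : ({t : ℝ | Q.eval t = 0} \ {c})ᶜ ∈ 𝓝 c :=
    hcl.isOpen_compl.mem_nhds (fun h => h.2 rfl)
  have h2 : ∀ᶠ t in 𝓝[≠] c, t ∈ ({t : ℝ | Q.eval t = 0} \ {c})ᶜ := mem_nhdsWithin_of_mem_nhds h1
  filter_upwards [h2, eventually_mem_nhdsWithin] with t ht htc h0
  exact ht ⟨h0, htc⟩

lemma coprime_root {P Q : Polynomial ℝ} (h : IsCoprime P Q) (t : ℝ) (hQ : Q.eval t = 0) :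
    P.eval t ≠ 0 := by
  obtain ⟨a, b, hab⟩ := h
  intro hP
  have := congrArg (Polynomial.eval t) hab
  rw [Polynomial.eval_add, Polynomial.eval_mul, Polynomial.eval_mul, hP, hQ, mul_zero, mul_zero,
    add_zero, Polynomial.eval_one] at this
  exact zero_ne_one this

lemma pos_root (P Q : Polynomial ℝ) (p : ℝ) (hc : IsCoprime P Q) (hQ : Q ≠ 0)
    (hint : IntegrableOn (fun t : ℝ => t ^ (p - 1) * ratFun P Q t) (Set.Ioi 0)) (t₁ : ℝ)
    (ht₁ : 0 < t₁) : Q.eval t₁ ≠ 0 := by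
  intro h0
  have hP1 : P.eval t₁ ≠ 0 := coprime_root hc t₁ h0
  obtain ⟨Q₃, hQ3⟩ := Polynomial.dvd_iff_isRoot.2 (show Q.IsRoot t₁ from h0)
  have hQ30 : Q₃ ≠ 0 := by
    rintro rfl
    rw [mul_zero] at hQ3
    exact hQ hQ3
  have hpow : t₁ ^ (p - 1) ≠ 0 := (Real.rpow_pos_of_pos ht₁ _).ne'
  have hcont : ContinuousAt (fun t : ℝ => Q₃.eval t / (t ^ (p - 1) * P.eval t)) t₁ := by
    refine ContinuousAt.div (Polynomial.continuous _).continuousAt ?_ (mul_ne_zero hpow hP1)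
    exact (Real.continuousAt_rpow_const t₁ _ (Or.inl ht₁.ne')).mul
      (Polynomial.continuous _).continuousAt
  have hO : (fun t : ℝ => Q₃.eval t / (t ^ (p - 1) * P.eval t)) =O[𝓝[≠] t₁]
      (fun _ : ℝ => (1 : ℝ)) := (hcont.isBigO_one ℝ).mono nhdsWithin_le_nhds
  have hO2 := hO.mul (Asymptotics.isBigO_refl (fun t : ℝ => t ^ (p - 1) * ratFun P Q t) (𝓝[≠] t₁))
  have hP2 : ∀ᶠ t in 𝓝[≠] t₁, P.eval t ≠ 0 :=
    ((Polynomial.continuous P).continuousAt.eventually_ne hP1).filter_mono nhdsWithin_le_nhds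
  have hpos : ∀ᶠ t in 𝓝[≠] t₁, 0 < t := (lt_mem_nhds ht₁).filter_mono nhdsWithin_le_nhds
  have hne : ∀ᶠ t in 𝓝[≠] t₁, t ≠ t₁ := eventually_mem_nhdsWithin
  have hO3 : (fun t : ℝ => (t - t₁)⁻¹) =O[𝓝[≠] t₁] fun t : ℝ => t ^ (p - 1) * ratFun P Q t := by
    refine hO2.congr' ?_ ?_
    · filter_upwards [hP2, hpos, hne, ne_near Q₃ hQ30 t₁] with t h1 h2 h3 h4
      have h5 : t ^ (p - 1) ≠ 0 := (Real.rpow_pos_of_pos h2 _).ne'
      have h6 : t - t₁ ≠ 0 := sub_ne_zero.2 h3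
      have h7 : Q.eval t = (t - t₁) * Q₃.eval t := by
        rw [hQ3, Polynomial.eval_mul, Polynomial.eval_sub, Polynomial.eval_X, Polynomial.eval_C]
      unfold ratFun
      rw [h7]
      field_simp
    · exact Eventually.of_forall fun t => by beta_reduce; rw [one_mul]
  refine not_intervalIntegrable_of_sub_inv_isBigO_punctured (a := t₁ / 2) (b := 2 * t₁) hO3
    (by linarith) ?_ ?_
  · rw [Set.uIcc_of_le (by linarith)]
    exact ⟨by linarith, by linarith⟩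
  · rw [intervalIntegrable_iff_integrableOn_Ioc_of_le (by linarith)]
    exact hint.mono_set fun t ht => lt_trans (by linarith) ht.1

lemma meas_f (P Q : Polynomial ℝ) (p : ℝ) :
    Measurable (fun t : ℝ => t ^ (p - 1) * ratFun P Q t) := by
  unfold ratFun
  exact (measurable_id.pow_const _).mul
    ((Polynomial.continuous P).measurable.div (Polynomial.continuous Q).measurable)

lemma zero_root (P Q : Polynomial ℝ) (p : ℝ) (hc : IsCoprime P Q) (hQ : Q ≠ 0) (hp1 : p < 1)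
    (hint : IntegrableOn (fun t : ℝ => t ^ (p - 1) * ratFun P Q t) (Set.Ioi 0)) :
    Q.eval 0 ≠ 0 := by
  intro h0
  have hP1 : P.eval 0 ≠ 0 := coprime_root hc 0 h0
  obtain ⟨Q₃, hQ3⟩ := Polynomial.dvd_iff_isRoot.2 (show Q.IsRoot 0 from h0)
  have hQ30 : Q₃ ≠ 0 := by
    rintro rfl
    rw [mul_zero] at hQ3
    exact hQ hQ3
  have hcont : ContinuousAt (fun t : ℝ => Q₃.eval t / P.eval t) 0 :=
    ContinuousAt.div (Polynomial.continuous _).continuousAt
      (Polynomial.continuous _).continuousAt hP1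
  have hO : (fun t : ℝ => Q₃.eval t / P.eval t) =O[𝓝[>] 0]
      (fun _ : ℝ => (1 : ℝ)) := (hcont.isBigO_one ℝ).mono nhdsWithin_le_nhds
  have hO2 := hO.mul (Asymptotics.isBigO_refl (fun t : ℝ => t ^ (p - 1) * ratFun P Q t) (𝓝[>] 0))
  have hP2 : ∀ᶠ t in 𝓝[>] (0 : ℝ), P.eval t ≠ 0 :=
    ((Polynomial.continuous P).continuousAt.eventually_ne hP1).filter_mono nhdsWithin_le_nhds
  have hQ2 : ∀ᶠ t in 𝓝[>] (0 : ℝ), Q₃.eval t ≠ 0 :=
    (ne_near Q₃ hQ30 0).filter_mono (nhdsWithin_mono 0 fun t ht => ne_of_gt ht)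
  have hpos : ∀ᶠ t in 𝓝[>] (0 : ℝ), 0 < t := eventually_mem_nhdsWithin
  have hO3 : (fun t : ℝ => t ^ (p - 2)) =O[𝓝[>] 0] fun t : ℝ => t ^ (p - 1) * ratFun P Q t := by
    refine hO2.congr' ?_ ?_
    · filter_upwards [hP2, hpos, hQ2] with t h1 h2 h4
      have h7 : Q.eval t = t * Q₃.eval t := by
        rw [hQ3, Polynomial.eval_mul, Polynomial.eval_sub, Polynomial.eval_X, Polynomial.eval_C,
          sub_zero]
      have h8 : t ^ (p - 1) = t ^ (p - 2) * t := by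
        have h9 := Real.rpow_add_one h2.ne' (p - 2)
        rw [← h9]
        congr 1
        ring
      unfold ratFun
      rw [h7, h8]
      field_simp
    · exact Eventually.of_forall fun t => by beta_reduce; rw [one_mul]
  obtain ⟨C, hC⟩ := hO3.bound
  obtain ⟨δ, hδ, hδ2⟩ := (mem_nhdsGT_iff_exists_Ioo_subset (a := (0 : ℝ))).1 hC
  have hδ0 : (0 : ℝ) < δ := hδ
  have h1 : IntegrableOn (fun t : ℝ => t ^ (p - 2)) (Set.Ioo 0 δ) := by
    have h2 : IntegrableOn (fun t : ℝ => C * (t ^ (p - 1) * ratFun P Q t)) (Set.Ioo 0 δ) :=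
      (hint.mono_set fun t ht => ht.1).const_mul C
    refine Integrable.mono h2 (measurable_id.pow_const _).aestronglyMeasurable ?_
    rw [ae_restrict_iff' measurableSet_Ioo]
    refine Eventually.of_forall fun t ht => ?_
    have h3 : ‖t ^ (p - 2)‖ ≤ C * ‖t ^ (p - 1) * ratFun P Q t‖ := hδ2 ht
    refine h3.trans ?_
    rw [norm_mul C, Real.norm_eq_abs C]
    exact mul_le_mul_of_nonneg_right (le_abs_self C) (norm_nonneg _)
  rw [intervalIntegral.integrableOn_Ioo_rpow_iff hδ0] at h1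
  linarith

lemma deg_lt (P Q : Polynomial ℝ) (p : ℝ) (hQ : Q ≠ 0) (hp0 : 0 < p)
    (hint : IntegrableOn (fun t : ℝ => t ^ (p - 1) * ratFun P Q t) (Set.Ioi 0)) :
    P.degree < Q.degree := by
  by_contra hlt
  have hO := Polynomial.isBigO_atTop_of_degree_le (P := Q) (Q := P) (not_lt.1 hlt)
  obtain ⟨C, hC⟩ := hO.bound
  have hne : ∀ᶠ t in atTop, Q.eval t ≠ 0 := Polynomial.eventually_atTop_not_isRoot Q hQ
  obtain ⟨M, hM⟩ := eventually_atTop.1 (hC.and hne)
  obtain ⟨M', hM'⟩ : ∃ M', M' = max M 1 := ⟨_, rfl⟩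
  have hM1 : 0 < M' := by rw [hM']; exact lt_of_lt_of_le one_pos (le_max_right _ _)
  have h1 : IntegrableOn (fun t : ℝ => t ^ (p - 1)) (Set.Ioi M') := by
    have h2 : IntegrableOn (fun t : ℝ => C * (t ^ (p - 1) * ratFun P Q t)) (Set.Ioi M') :=
      (hint.mono_set fun t ht => lt_trans hM1 ht).const_mul C
    refine Integrable.mono h2 (measurable_id.pow_const _).aestronglyMeasurable ?_
    rw [ae_restrict_iff' measurableSet_Ioi]
    refine Eventually.of_forall fun t ht => ?_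
    have ht2 : M ≤ t := (le_max_left M 1).trans (hM' ▸ (le_of_lt ht))
    obtain ⟨h3, h4⟩ := hM t ht2
    have h5 : 0 < ‖Q.eval t‖ := norm_pos_iff.2 h4
    have h6 : 1 ≤ C * ‖ratFun P Q t‖ := by
      unfold ratFun
      rw [norm_div, ← mul_div_assoc, le_div_iff₀ h5, one_mul]
      exact h3
    have h7 : ‖C * (t ^ (p - 1) * ratFun P Q t)‖ = ‖t ^ (p - 1)‖ * (|C| * ‖ratFun P Q t‖) := by
      rw [norm_mul, norm_mul, Real.norm_eq_abs C]
      ring
    rw [h7]
    refine le_mul_of_one_le_right (norm_nonneg _) (h6.trans ?_)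
    exact mul_le_mul_of_nonneg_right (le_abs_self C) (norm_nonneg _)
  rw [integrableOn_Ioi_rpow_iff hM1] at h1
  linarith

end INT

theorem thm_INT : St_INT := by
  intro P Q p hc _ hQ hp0 hp1 hint
  refine ⟨fun t ht => ?_, INT.deg_lt P Q p hQ hp0 hint⟩
  rcases eq_or_lt_of_le ht with h | h
  · rw [← h]
    exact INT.zero_root P Q p hc hQ hp1 hint
  · exact INT.pos_root P Q p hc hQ hint t h

end Pool.Agent.ITR
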