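import Pool.Agent.ITR.St

/-!
# Iterated residues, module LIM: limits of algebraic functions over `k`
-/

set_option autoImplicit false

open MeasureTheory Filter Topology

namespace Pool.Agent.ITR

open Pool.Agent.Helper23.PeriodDefs

/-- the value `ev2` as a sum -/
theorem LIM_ev2_sum (k : IntermediateField ℚ ℝ) (P : Polynomial (Polynomial k)) (t s : ℝ) :
    ev2 k P t s = ∑ j ∈ P.support, (up k (P.coeff j)).eval t * s ^ j := by
  unfold ev2 ev up
  rw [Polynomial.eval_map, Polynomial.eval₂_eq_sum, Polynomial.sum_def]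
  refine Finset.sum_congr rfl fun j _ => ?_
  rw [Polynomial.coe_eval₂RingHom, Polynomial.eval_map]

/-- the coefficient of degree `m` is a limit -/
theorem LIM_coeff (A : Polynomial ℝ) (m : ℕ) (h : A.natDegree ≤ m) :
    Tendsto (fun x : ℝ => A.eval x / x ^ m) atTop (𝓝 (A.coeff m)) := by
  have hX : (Polynomial.X ^ m : Polynomial ℝ).degree = m := Polynomial.degree_X_pow m
  have hev : ∀ x : ℝ, A.eval x / (Polynomial.X ^ m : Polynomial ℝ).eval x = A.eval x / x ^ m := by
    intro x
    simp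
  by_cases hA : A = 0
  · subst hA
    simp
  rcases h.lt_or_eq with h' | h'
  · have h1 := Polynomial.div_tendsto_atTop_zero_of_degree_lt A (Polynomial.X ^ m : Polynomial ℝ) (by
      rw [hX]
      exact (Polynomial.degree_le_natDegree).trans_lt (by exact_mod_cast h'))
    rw [Polynomial.coeff_eq_zero_of_natDegree_lt h']
    exact h1.congr hev
  · have h1 := Polynomial.div_tendsto_atTop_leadingCoeff_div_of_degree_eq A
      (Polynomial.X ^ m : Polynomial ℝ) (by
        rw [hX, Polynomial.degree_eq_natDegree hA, h'])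
    have h2 : A.leadingCoeff / (Polynomial.X ^ m : Polynomial ℝ).leadingCoeff = A.coeff m := by
      rw [Polynomial.leadingCoeff_X_pow, div_one, ← h']
      rfl
    rw [h2] at h1
    exact h1.congr hev

/-- part 1 -/
theorem LIM_top (k : IntermediateField ℚ ℝ) (hk : RC k) (P : Polynomial (Polynomial k))
    (hP : P ≠ 0) (g : ℝ → ℝ) (l : ℝ) (h0 : ∀ᶠ x in atTop, ev2 k P x (g x) = 0)
    (hl : Tendsto g atTop (𝓝 l)) : l ∈ k := by
  classical
  have hne : P.support.Nonempty := Polynomial.support_nonempty.mpr hP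
  obtain ⟨j₀, hj₀, hm⟩ := Finset.exists_mem_eq_sup P.support hne
    (fun j => (P.coeff j).natDegree)
  set m : ℕ := P.support.sup (fun j => (P.coeff j).natDegree) with hmdef
  have hle : ∀ j ∈ P.support, (P.coeff j).natDegree ≤ m := fun j hj =>
    Finset.le_sup (f := fun j => (P.coeff j).natDegree) hj
  set q : Polynomial k := ∑ j ∈ P.support, Polynomial.monomial j ((P.coeff j).coeff m) with hq
  have hqc : q.coeff j₀ = (P.coeff j₀).coeff m := by
    rw [hq, Polynomial.finsetSum_coeff]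
    simp only [Polynomial.coeff_monomial]
    rw [Finset.sum_ite_eq' P.support j₀ (fun j => (P.coeff j).coeff m), if_pos hj₀]
  have hq0 : q ≠ 0 := by
    intro h
    rw [h, Polynomial.coeff_zero, hm] at hqc
    have h1 : (P.coeff j₀).leadingCoeff = 0 := hqc.symm
    rw [Polynomial.leadingCoeff_eq_zero] at h1
    exact (Polynomial.mem_support_iff.mp hj₀) h1
  have haq : Polynomial.aeval l q = ∑ j ∈ P.support, (up k (P.coeff j)).coeff m * l ^ j := by
    rw [hq, map_sum]
    refine Finset.sum_congr rfl fun j _ => ?_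
    rw [Polynomial.aeval_monomial]
    unfold up
    rw [Polynomial.coeff_map]
  have hlim : Tendsto (fun x : ℝ => ∑ j ∈ P.support,
      (up k (P.coeff j)).eval x / x ^ m * g x ^ j) atTop
      (𝓝 (∑ j ∈ P.support, (up k (P.coeff j)).coeff m * l ^ j)) := by
    refine tendsto_finsetSum _ fun j hj => ?_
    refine (LIM_coeff _ m ?_).mul (hl.pow j)
    unfold up
    exact (Polynomial.natDegree_map_le).trans (hle j hj)
  have hz : (fun _ : ℝ => (0 : ℝ)) =ᶠ[atTop] (fun x : ℝ => ∑ j ∈ P.support,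
      (up k (P.coeff j)).eval x / x ^ m * g x ^ j) := by
    filter_upwards [h0] with x hx
    rw [LIM_ev2_sum] at hx
    have h1 : ∑ j ∈ P.support, (up k (P.coeff j)).eval x / x ^ m * g x ^ j =
        (∑ j ∈ P.support, (up k (P.coeff j)).eval x * g x ^ j) / x ^ m := by
      rw [Finset.sum_div]
      refine Finset.sum_congr rfl fun j _ => ?_
      ring
    rw [h1, hx, zero_div]
  have hl0 : Tendsto (fun _ : ℝ => (0 : ℝ)) atTop
      (𝓝 (∑ j ∈ P.support, (up k (P.coeff j)).coeff m * l ^ j)) := hlim.congr' hz.symm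
  have hfin : (0 : ℝ) = ∑ j ∈ P.support, (up k (P.coeff j)).coeff m * l ^ j :=
    tendsto_nhds_unique tendsto_const_nhds hl0
  exact hk.cl l ⟨q, hq0, by rw [haq, ← hfin]⟩

/-- part 2 -/
theorem LIM_bot (k : IntermediateField ℚ ℝ) (hk : RC k) (P : Polynomial (Polynomial k))
    (hP : P ≠ 0) (g : ℝ → ℝ) (l : ℝ) (h0 : ∀ᶠ x in atBot, ev2 k P x (g x) = 0)
    (hl : Tendsto g atBot (𝓝 l)) : l ∈ k := by
  set c : Polynomial k →+* Polynomial k := Polynomial.compRingHom (-Polynomial.X) with hc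
  have hcc : c.comp c = RingHom.id _ := by
    refine Polynomial.ringHom_ext ?_ ?_
    · intro a
      simp [hc]
    · simp [hc]
  have hinj : Function.Injective c := by
    intro a b hab
    have h1 : (c.comp c) a = (c.comp c) b := by
      rw [RingHom.comp_apply, RingHom.comp_apply, hab]
    rw [hcc] at h1
    exact h1
  have hev : ∀ x : ℝ, (ev k x).comp c = ev k (-x) := by
    intro x
    refine Polynomial.ringHom_ext ?_ ?_
    · intro a
      simp [hc, ev]
    · simp [hc, ev]
  have hev2 : ∀ x s : ℝ, ev2 k (P.map c) x s = ev2 k P (-x) s := by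
    intro x s
    unfold ev2
    rw [Polynomial.map_map, hev]
  refine LIM_top k hk (P.map c) ((Polynomial.map_ne_zero_iff hinj).mpr hP) (fun x => g (-x)) l ?_
    (hl.comp tendsto_neg_atTop_atBot)
  filter_upwards [tendsto_neg_atTop_atBot.eventually h0] with x hx
  rw [hev2]
  exact hx

/-- part 3 -/
theorem LIM_pt (hFAC : St_FAC) (k : IntermediateField ℚ ℝ) (hk : RC k)
    (P : Polynomial (Polynomial k)) (hP : P ≠ 0) (g : ℝ → ℝ) (l : ℝ) (c : ℝ) (hc : c ∈ k)
    (F : Filter ℝ) (hF : F.NeBot) (hFc : F ≤ 𝓝[≠] c) (h0 : ∀ᶠ x in F, ev2 k P x (g x) = 0)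
    (hl : Tendsto g F (𝓝 l)) : l ∈ k := by
  obtain ⟨e, P', hPP, hP'⟩ := hFAC k ⟨c, hc⟩ P hP
  have hxc : Tendsto (fun x : ℝ => x) F (𝓝 c) := hFc.trans nhdsWithin_le_nhds
  have hlim : Tendsto (fun x : ℝ => ev2 k P' x (g x)) F (𝓝 (ev2 k P' c l)) := by
    have h1 : (fun x : ℝ => ev2 k P' x (g x)) =
        fun x : ℝ => ∑ j ∈ P'.support, (up k (P'.coeff j)).eval x * g x ^ j := by
      funext x
      exact LIM_ev2_sum k P' x (g x)
    rw [h1, LIM_ev2_sum k P' c l]
    refine tendsto_finsetSum _ fun j hj => ?_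
    exact (((up k (P'.coeff j)).continuous.tendsto c).comp hxc).mul (hl.pow j)
  have hz : ∀ᶠ x in F, ev2 k P' x (g x) = 0 := by
    have hne : ∀ᶠ x in F, x ≠ c := hFc self_mem_nhdsWithin
    filter_upwards [h0, hne] with x hx hxne
    have h2 : ev2 k P x (g x) = (x - c) ^ e * ev2 k P' x (g x) := by
      rw [hPP]
      unfold ev2 ev
      simp
    rw [h2] at hx
    rcases mul_eq_zero.mp hx with h3 | h3
    · exact absurd (sub_eq_zero.mp (eq_zero_of_pow_eq_zero h3)) hxne
    · exact h3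
  have hfin : ev2 k P' c l = 0 := by
    have hl0 : Tendsto (fun _ : ℝ => (0 : ℝ)) F (𝓝 (ev2 k P' c l)) := hlim.congr' hz
    exact (tendsto_nhds_unique tendsto_const_nhds hl0).symm
  refine hk.cl l ⟨P'.map (Polynomial.evalRingHom ⟨c, hc⟩), hP', ?_⟩
  have h4 : ev k c = (algebraMap k ℝ).comp (Polynomial.evalRingHom (⟨c, hc⟩ : k)) := by
    refine Polynomial.ringHom_ext ?_ ?_
    · intro a
      simp [ev]
    · simp [ev]
  unfold ev2 at hfin
  rw [h4, ← Polynomial.map_map] at hfin
  rw [Polynomial.aeval_def, Polynomial.eval₂_eq_eval_map]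
  exact hfin

theorem thm_LIM (hFAC : St_FAC) : St_LIM := by
  intro k hk P hP g l
  exact ⟨fun h1 h2 => LIM_top k hk P hP g l h1 h2, fun h1 h2 => LIM_bot k hk P hP g l h1 h2,
    fun c hc F hF hFc h1 h2 => LIM_pt hFAC k hk P hP g l c hc F hF hFc h1 h2⟩

end Pool.Agent.ITR
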