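import Pool.Agent.ITR.St

/-!
# Iterated residues, module LIN: linear descent
-/

set_option autoImplicit false

namespace Pool.Agent.ITR

theorem thm_LIN : St_LIN := by
  classical
  intro k ι _ E v r hr h
  let L : (ι → k) →ₗ[k] ℝ :=
    { toFun := fun w => ∑ i, (w i : ℝ) * r i
      map_add' := by
        intro w w'
        rw [← Finset.sum_add_distrib]
        refine Finset.sum_congr rfl fun i _ => ?_
        simp only [Pi.add_apply]
        push_cast
        ring
      map_smul' := by
        intro c w
        have h1 : c • (∑ i, (w i : ℝ) * r i) = (c : ℝ) * ∑ i, (w i : ℝ) * r i := rfl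
        rw [RingHom.id_apply, h1, Finset.mul_sum]
        refine Finset.sum_congr rfl fun i _ => ?_
        simp only [Pi.smul_apply, smul_eq_mul]
        push_cast
        rw [mul_assoc] }
  have hL : ∀ w : ι → k, L w = ∑ i, (w i : ℝ) * r i := fun w => rfl
  let W : Submodule k (ι → k) := Submodule.span k (Set.range v)
  have hW : W ≤ LinearMap.ker L := by
    refine Submodule.span_le.2 ?_
    rintro _ ⟨e, rfl⟩
    show v e ∈ LinearMap.ker L
    rw [LinearMap.mem_ker, hL]
    exact h e
  have hne : W ≠ ⊤ := by
    intro hT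
    apply hr
    funext i
    have h1 : (Pi.single i (1 : k) : ι → k) ∈ LinearMap.ker L := hW (hT ▸ Submodule.mem_top)
    rw [LinearMap.mem_ker, hL, Finset.sum_eq_single i] at h1
    · rw [Pi.single_eq_same] at h1
      simpa using h1
    · intro j _ hj
      rw [Pi.single_eq_of_ne hj]
      simp
    · intro hi
      exact absurd (Finset.mem_univ i) hi
  obtain ⟨φ, hφ0, hφ⟩ := Submodule.exists_le_ker_of_lt_top W (lt_top_iff_ne_top.2 hne)
  have hφs : ∀ w : ι → k, φ w = ∑ i, w i * φ (Pi.single i 1) := by
    intro w
    have h1 : w = ∑ i, w i • (Pi.single i (1 : k) : ι → k) := by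
      funext j
      rw [Finset.sum_apply]
      simp only [Pi.smul_apply, smul_eq_mul, Pi.single_apply]
      rw [Finset.sum_eq_single j]
      · simp
      · intro i _ hi
        rw [if_neg (Ne.symm hi), mul_zero]
      · intro hj
        exact absurd (Finset.mem_univ j) hj
    conv_lhs => rw [h1]
    rw [map_sum]
    refine Finset.sum_congr rfl fun i _ => ?_
    rw [map_smul, smul_eq_mul]
  refine ⟨fun i => φ (Pi.single i 1), ?_, ?_⟩
  · intro h0
    apply hφ0
    refine LinearMap.ext fun w => ?_
    rw [hφs w]
    have h2 : ∀ i, φ (Pi.single i 1) = 0 := fun i => congrFun h0 i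
    simp [h2]
  · intro e
    have h1 : v e ∈ LinearMap.ker φ := hφ (Submodule.subset_span ⟨e, rfl⟩)
    rw [LinearMap.mem_ker, hφs] at h1
    exact h1

end Pool.Agent.ITR
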