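import Pool.Agent.ITR.St

/-!
# Iterated residues, module PAL: differences of a primitive
-/

set_option autoImplicit false

open MeasureTheory Filter Topology

namespace Pool.Agent.ITR

open Pool.Agent.Helper23.PeriodDefs

private theorem PAL_rat (k : IntermediateField ℚ ℝ) {a b : ℝ} (h : a < b) :
    ∃ w ∈ k, a < w ∧ w < b := by
  obtain ⟨q, h1, h2⟩ := exists_rat_btwn h
  exact ⟨(q : ℝ), by simp, h1, h2⟩

/-- limits at elements of `k` in the closure of an interval without singularities -/
private theorem PAL_loc (hPRI : St_PRI) (hLIM : St_LIM) (k : IntermediateField ℚ ℝ) (hk : RC k)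
    (H : ℝ → ℝ) (S : Finset ℝ) (p : Polynomial (Polynomial ℝ)) (hp : p ≠ 0)
    (hH : ∀ t : ℝ, (p.map (Polynomial.evalRingHom t)).eval (H t) = 0) (hc : Continuous H)
    (ha : AnalyticOnNhd ℝ H (S : Set ℝ)ᶜ) (hd : ∀ᵐ t : ℝ, AlgAt k t (deriv H t))
    (I : Set ℝ) (hI : IsOpen I) (hI' : IsPreconnected I) (hS : ∀ x ∈ I, x ∉ S) (u v : ℝ)
    (hu : u ∈ I) (huk : u ∈ k) (hvk : v ∈ k) (hv : (𝓝[I \ {v}] v).NeBot) : H v - H u ∈ k := by
  obtain ⟨P, hP, hPI⟩ := hPRI k hk I H p u hI hI' (ha.mono fun x hx => by simpa using hS x hx) hp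
    (fun t _ => hH t) (hd.mono fun t ht _ => ht) hu huk
  refine (hLIM k hk P hP (fun x => H x - H u) (H v - H u)).2.2 v hvk (𝓝[I \ {v}] v) hv ?_ ?_ ?_
  · exact nhdsWithin_mono _ fun x hx => hx.2
  · filter_upwards [self_mem_nhdsWithin] with x hx
    exact hPI x hx.1
  · exact ((hc.sub continuous_const).tendsto v).mono_left nhdsWithin_le_nhds

theorem thm_PAL (hPRI : St_PRI) (hLIM : St_LIM) : St_PAL := by
  intro k hk H S p hp hH hc hSk ha hd
  have key := PAL_loc hPRI hLIM k hk H S p hp hH hc ha hd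
  -- the local claim
  have hloc : ∀ c : ℝ, ∃ ε > 0, ∀ u ∈ k, ∀ v ∈ k, |u - c| < ε → |v - c| < ε → H u - H v ∈ k := by
    intro c
    obtain ⟨ε, hε, hεS⟩ : ∃ ε > 0, ∀ x, |x - c| < ε → x ∈ S → x = c := by
      have h1 : ((S.erase c : Finset ℝ) : Set ℝ)ᶜ ∈ 𝓝 c :=
        (Finset.isClosed _).isOpen_compl.mem_nhds (by simp)
      obtain ⟨ε, hε, h2⟩ := Metric.mem_nhds_iff.1 h1
      refine ⟨ε, hε, fun x hx hxS => ?_⟩
      by_contra hne
      have h3 := h2 (show x ∈ Metric.ball c ε from by rwa [Metric.mem_ball, Real.dist_eq])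
      simp only [Set.mem_compl_iff, Finset.coe_erase, Set.mem_sdiff, Set.mem_singleton_iff,
        not_and, not_not] at h3
      exact hne (h3 hxS)
    refine ⟨ε, hε, ?_⟩
    by_cases hck : c ∈ k
    · have h1 : ∀ u ∈ k, |u - c| < ε → H c - H u ∈ k := by
        intro u huk hu
        rw [abs_lt] at hu
        rcases lt_trichotomy u c with h | h | h
        · refine key (Set.Ioo (c - ε) c) isOpen_Ioo isPreconnected_Ioo ?_ u c
            ⟨by linarith, h⟩ huk hck ?_
          · intro x hx hxS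
            have := hεS x (by rw [abs_lt]; constructor <;> linarith [hx.1, hx.2]) hxS
            linarith [hx.2]
          · rw [← mem_closure_iff_nhdsWithin_neBot]
            have h2 : Set.Ioo (c - ε) c \ {c} = Set.Ioo (c - ε) c := by
              ext x
              simp only [Set.mem_sdiff, Set.mem_Ioo, Set.mem_singleton_iff]
              constructor
              · exact fun h => h.1
              · exact fun h => ⟨h, h.2.ne⟩
            rw [h2, closure_Ioo (by linarith)]
            exact ⟨by linarith, le_rfl⟩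
        · rw [h, sub_self]
          exact k.zero_mem
        · refine key (Set.Ioo c (c + ε)) isOpen_Ioo isPreconnected_Ioo ?_ u c
            ⟨h, by linarith⟩ huk hck ?_
          · intro x hx hxS
            have := hεS x (by rw [abs_lt]; constructor <;> linarith [hx.1, hx.2]) hxS
            linarith [hx.1]
          · rw [← mem_closure_iff_nhdsWithin_neBot]
            have h2 : Set.Ioo c (c + ε) \ {c} = Set.Ioo c (c + ε) := by
              ext x
              simp only [Set.mem_sdiff, Set.mem_Ioo, Set.mem_singleton_iff]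
              constructor
              · exact fun h => h.1
              · exact fun h => ⟨h, h.1.ne'⟩
            rw [h2, closure_Ioo (by linarith)]
            exact ⟨le_rfl, by linarith⟩
      intro u huk v hvk hu hv
      have h2 := k.sub_mem (h1 v hvk hv) (h1 u huk hu)
      have h3 : H u - H v = (H c - H v) - (H c - H u) := by ring
      rw [h3]
      exact h2
    · intro u huk v hvk hu hv
      rw [abs_lt] at hu hv
      refine key (Set.Ioo (c - ε) (c + ε)) isOpen_Ioo isPreconnected_Ioo ?_ v u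
        ⟨by linarith, by linarith⟩ hvk huk ?_
      · intro x hx hxS
        have := hεS x (by rw [abs_lt]; constructor <;> linarith [hx.1, hx.2]) hxS
        rw [this] at hxS
        exact hck (hSk c hxS)
      · have h1 : Set.Ioo (c - ε) (c + ε) ∈ 𝓝 u := isOpen_Ioo.mem_nhds ⟨by linarith, by linarith⟩
        have h2 : 𝓝[Set.Ioo (c - ε) (c + ε) \ {u}] u = 𝓝[≠] u := by
          rw [Set.sdiff_eq, nhdsWithin_inter_of_mem (mem_nhdsWithin_of_mem_nhds h1)]
        rw [h2]
        infer_instance
  -- the global claim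
  have hglob : ∀ x y : ℝ, ∃ δ > 0, ∀ u ∈ k, ∀ v ∈ k, |u - x| < δ → |v - y| < δ →
      H u - H v ∈ k := by
    intro x y
    refine isPreconnected_univ.induction₂ (fun x y : ℝ => ∃ δ > 0, ∀ u ∈ k, ∀ v ∈ k,
      |u - x| < δ → |v - y| < δ → H u - H v ∈ k) ?_ ?_ ?_ (Set.mem_univ x) (Set.mem_univ y)
    · intro x _
      obtain ⟨ε, hε, h1⟩ := hloc x
      rw [nhdsWithin_univ]
      filter_upwards [Metric.ball_mem_nhds x (half_pos hε)] with y hy
      rw [Metric.mem_ball, Real.dist_eq] at hy
      refine ⟨ε / 2, half_pos hε, fun u hu v hv h2 h3 => h1 u hu v hv (by linarith) ?_⟩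
      calc |v - x| = |(v - y) + (y - x)| := by ring_nf
        _ ≤ |v - y| + |y - x| := abs_add_le _ _
        _ < ε := by linarith
    · rintro x y z - - - ⟨δ, hδ, h1⟩ ⟨δ', hδ', h2⟩
      refine ⟨min δ δ', lt_min hδ hδ', fun u hu v hv h3 h4 => ?_⟩
      obtain ⟨w, hw, hw1, hw2⟩ := PAL_rat k (show y - min δ δ' < y + min δ δ' by
        have := lt_min hδ hδ'
        linarith)
      have hwy : |w - y| < min δ δ' := by
        rw [abs_lt]
        constructor <;> linarith
      have h5 := h1 u hu w hw (h3.trans_le (min_le_left _ _)) (hwy.trans_le (min_le_left _ _))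
      have h6 := h2 w hw v hv (hwy.trans_le (min_le_right _ _)) (h4.trans_le (min_le_right _ _))
      have h7 := k.add_mem h5 h6
      rwa [sub_add_sub_cancel] at h7
    · rintro x y - - ⟨δ, hδ, h1⟩
      refine ⟨δ, hδ, fun u hu v hv h3 h4 => ?_⟩
      have h5 := k.neg_mem (h1 v hv u hu h4 h3)
      rwa [neg_sub] at h5
  have hall : ∀ u ∈ k, ∀ v ∈ k, H u - H v ∈ k := by
    intro u hu v hv
    obtain ⟨δ, hδ, h1⟩ := hglob u v
    exact h1 u hu v hv (by simpa using hδ) (by simpa using hδ)
  refine ⟨hall, fun u huk l => ⟨fun hl => ?_, fun hl => ?_⟩⟩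
  · obtain ⟨B, hB⟩ := S.finite_toSet.bddAbove
    obtain ⟨x₀, hx₀, h1, -⟩ := PAL_rat k (show B < B + 1 by linarith)
    obtain ⟨P, hP, hPI⟩ := hPRI k hk (Set.Ioi B) H p x₀ isOpen_Ioi isPreconnected_Ioi
      (ha.mono fun x hx => by
        intro hxS
        exact absurd (hB hxS) (not_le.2 hx)) hp
      (fun t _ => hH t) (hd.mono fun t ht _ => ht) h1 hx₀
    have h2 := (hLIM k hk P hP (fun x => H x - H x₀) (l - H x₀)).1
      ((eventually_gt_atTop B).mono fun x hx => hPI x hx) (hl.sub tendsto_const_nhds)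
    have h3 := k.add_mem h2 (hall x₀ hx₀ u huk)
    rwa [sub_add_sub_cancel] at h3
  · obtain ⟨B, hB⟩ := S.finite_toSet.bddBelow
    obtain ⟨x₀, hx₀, -, h1⟩ := PAL_rat k (show B - 1 < B by linarith)
    obtain ⟨P, hP, hPI⟩ := hPRI k hk (Set.Iio B) H p x₀ isOpen_Iio isPreconnected_Iio
      (ha.mono fun x hx => by
        intro hxS
        exact absurd (hB hxS) (not_le.2 hx)) hp
      (fun t _ => hH t) (hd.mono fun t ht _ => ht) h1 hx₀
    have h2 := (hLIM k hk P hP (fun x => H x - H x₀) (l - H x₀)).2.1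
      ((eventually_lt_atBot B).mono fun x hx => hPI x hx) (hl.sub tendsto_const_nhds)
    have h3 := k.add_mem h2 (hall x₀ hx₀ u huk)
    rwa [sub_add_sub_cancel] at h3

end Pool.Agent.ITR
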