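import Pool.Agent.ITR.St

/-!
# ITR: [PAS] type (d)
-/

set_option autoImplicit false

open MeasureTheory Filter Topology

namespace Pool.Agent.ITR

theorem thm_PAS (hPAL : St_PAL) : St_PAS := by
  intro k hk h hPF hint halg
  obtain ⟨H, S, p, hp, hpH, hHc, hS, hHa, hhH⟩ := hPF
  have hS' : ∀ s ∈ S, s ∈ k := fun s hs => hS (by exact_mod_cast hs)
  have halg' : ∀ᵐ t : ℝ, AlgAt k t (deriv H t) := by
    filter_upwards [halg, hhH] with t ht1 ht2
    rw [← ht2]; exact ht1
  obtain ⟨-, hlim⟩ := hPAL k hk H S p hp hpH hHc hS' hHa halg'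
  have hint' : Integrable (deriv H) := hint.congr hhH
  have hft : ∀ a b : ℝ, a ≤ b → ∫ t in a..b, deriv H t = H b - H a := by
    intro a b hab
    refine MeasureTheory.integral_eq_of_hasDerivAt_off_countable_of_le H (deriv H) hab
      (S.countable_toSet) hHc.continuousOn ?_ (hint'.intervalIntegrable)
    intro x hx
    exact (hHa x hx.2).differentiableAt.hasDerivAt
  have hI1 : Tendsto (fun b : ℝ => ∫ t in (0 : ℝ)..b, deriv H t) atTop
      (𝓝 (∫ t in Set.Ioi (0 : ℝ), deriv H t)) :=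
    intervalIntegral_tendsto_integral_Ioi 0 hint'.integrableOn tendsto_id
  have hI2 : Tendsto (fun a : ℝ => ∫ t in a..(0 : ℝ), deriv H t) atBot
      (𝓝 (∫ t in Set.Iic (0 : ℝ), deriv H t)) :=
    intervalIntegral_tendsto_integral_Iic 0 hint'.integrableOn tendsto_id
  have hH1 : Tendsto H atTop (𝓝 (H 0 + ∫ t in Set.Ioi (0 : ℝ), deriv H t)) := by
    refine (hI1.const_add (H 0)).congr' ?_
    filter_upwards [eventually_ge_atTop (0 : ℝ)] with b hb
    rw [hft 0 b hb]; ring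
  have hH2 : Tendsto H atBot (𝓝 (H 0 - ∫ t in Set.Iic (0 : ℝ), deriv H t)) := by
    refine (hI2.const_sub (H 0)).congr' ?_
    filter_upwards [eventually_le_atBot (0 : ℝ)] with a ha
    rw [hft a 0 ha]; ring
  have h0 : (0 : ℝ) ∈ k := k.zero_mem
  have hl1 := (hlim 0 h0 _).1 hH1
  have hl2 := (hlim 0 h0 _).2 hH2
  have htot : ∫ t, h t = (∫ t in Set.Iic (0 : ℝ), deriv H t) + ∫ t in Set.Ioi (0 : ℝ), deriv H t := by
    rw [integral_congr_ae hhH]
    rw [intervalIntegral.integral_Iic_add_Ioi hint'.integrableOn hint'.integrableOn]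
  rw [htot]
  have e : (∫ t in Set.Iic (0 : ℝ), deriv H t) + ∫ t in Set.Ioi (0 : ℝ), deriv H t =
      (H 0 + (∫ t in Set.Ioi (0 : ℝ), deriv H t) - H 0) -
      (H 0 - (∫ t in Set.Iic (0 : ℝ), deriv H t) - H 0) := by ring
  rw [e]
  exact k.sub_mem hl1 hl2

end Pool.Agent.ITR
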