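import Pool.Agent.ITR.St

/-!
# Iterated residues: decomposition of rational functions
-/

set_option autoImplicit false

namespace Pool.Agent.ITR

open Polynomial

private theorem PFD_gen {A E : Type} [Field A] [IsAlgClosed A] [Field E] [Algebra A E] :
    ∀ (n : ℕ) (P Q : Polynomial A), Q ≠ 0 → Q.natDegree = n → P.degree < Q.degree →
    ∃ (m : ℕ) (ζ c : Fin m → A) (e : Fin m → ℕ), (∀ i, 1 ≤ e i ∧ Q.eval (ζ i) = 0) ∧
      ∀ x : E, aeval x Q ≠ 0 → aeval x P / aeval x Q =
        ∑ i, algebraMap A E (c i) / (x - algebraMap A E (ζ i)) ^ (e i) := by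
  intro n
  induction n with
  | zero =>
    intro P Q hQ hn hd
    have h1 : P = 0 := by
      rw [Polynomial.degree_eq_natDegree hQ, hn] at hd
      by_contra h2
      rw [Polynomial.degree_eq_natDegree h2] at hd
      exact absurd hd (not_lt.2 (by exact_mod_cast Nat.zero_le _))
    refine ⟨0, Fin.elim0, Fin.elim0, Fin.elim0, fun i => i.elim0, fun x _ => ?_⟩
    rw [h1, map_zero, zero_div]
    simp
  | succ n ih =>
    intro P Q hQ hn hd
    have hd0 : Q.degree ≠ 0 := by
      rw [Polynomial.degree_eq_natDegree hQ, hn]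
      exact_mod_cast Nat.succ_ne_zero n
    obtain ⟨z, hz⟩ := IsAlgClosed.exists_root Q hd0
    obtain ⟨Q1, hQ1, hnd⟩ := Polynomial.exists_eq_pow_rootMultiplicity_mul_and_not_dvd Q hQ z
    obtain ⟨s, hs⟩ : ∃ s, Q.rootMultiplicity z = s + 1 :=
      Nat.exists_eq_succ_of_ne_zero ((Polynomial.rootMultiplicity_pos hQ).2 hz).ne'
    rw [hs] at hQ1
    have hQ1z : Q1.eval z ≠ 0 := fun h => hnd (Polynomial.dvd_iff_isRoot.2 h)
    have hQ10 : Q1 ≠ 0 := by
      rintro rfl
      exact hQ1z Polynomial.eval_zero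
    obtain ⟨c, hc⟩ : ∃ c, c = P.eval z / Q1.eval z := ⟨_, rfl⟩
    have hroot : (P - C c * Q1).eval z = 0 := by
      rw [Polynomial.eval_sub, Polynomial.eval_mul, Polynomial.eval_C, hc,
        div_mul_cancel₀ _ hQ1z, sub_self]
    obtain ⟨P', hP'⟩ := Polynomial.dvd_iff_isRoot.2 hroot
    obtain ⟨Q', hQ'⟩ : ∃ Q', Q' = (X - C z) ^ s * Q1 := ⟨_, rfl⟩
    have hQQ : Q = (X - C z) * Q' := by
      rw [hQ1, hQ', pow_succ']
      ring
    have hX : (X - C z : Polynomial A) ≠ 0 := Polynomial.X_sub_C_ne_zero z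
    have hQ'0 : Q' ≠ 0 := by
      rintro h
      rw [h, mul_zero] at hQQ
      exact hQ hQQ
    have hQ'n : Q'.natDegree = n := by
      have h1 := hn
      rw [hQQ, Polynomial.natDegree_mul hX hQ'0, Polynomial.natDegree_X_sub_C] at h1
      omega
    have hQ1d : Q1.degree < Q.degree := by
      rw [Polynomial.degree_eq_natDegree hQ10, Polynomial.degree_eq_natDegree hQ, hQ1,
        Polynomial.natDegree_mul (pow_ne_zero _ hX) hQ10, Polynomial.natDegree_pow,
        Polynomial.natDegree_X_sub_C]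
      exact_mod_cast (by omega : Q1.natDegree < (s + 1) * 1 + Q1.natDegree)
    have hsub : (P - C c * Q1).degree < Q.degree := by
      refine (Polynomial.degree_sub_le _ _).trans_lt (max_lt hd ?_)
      refine lt_of_le_of_lt ?_ hQ1d
      rw [← smul_eq_C_mul]
      exact Polynomial.degree_smul_le _ _
    have hP'd : P'.degree < Q'.degree := by
      by_contra h1
      rw [not_lt] at h1
      rw [hP', hQQ, Polynomial.degree_mul, Polynomial.degree_mul] at hsub
      exact absurd hsub (not_lt.2 (add_le_add_right h1 _))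
    obtain ⟨m, ζ, c', e, h1, h2⟩ := ih P' Q' hQ'0 hQ'n hP'd
    refine ⟨m + 1, Fin.cons z ζ, Fin.cons c c', Fin.cons (s + 1) e, ?_, ?_⟩
    · intro i
      refine Fin.cases ?_ (fun i => ?_) i
      · rw [Fin.cons_zero, Fin.cons_zero]
        exact ⟨by omega, hz⟩
      · rw [Fin.cons_succ, Fin.cons_succ]
        refine ⟨(h1 i).1, ?_⟩
        rw [hQQ, Polynomial.eval_mul, (h1 i).2, mul_zero]
    · intro x hx
      rw [Fin.sum_univ_succ]
      simp only [Fin.cons_zero, Fin.cons_succ]
      have hxq : aeval x Q = (x - algebraMap A E z) * aeval x Q' := by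
        rw [hQQ, map_mul, map_sub, aeval_X, aeval_C]
      have hxq' : aeval x Q' = (x - algebraMap A E z) ^ s * aeval x Q1 := by
        rw [hQ', map_mul, map_pow, map_sub, aeval_X, aeval_C]
      have hx' : aeval x Q' ≠ 0 := by
        intro h
        rw [hxq, h, mul_zero] at hx
        exact hx rfl
      have hu : x - algebraMap A E z ≠ 0 := by
        intro h
        rw [hxq, h, zero_mul] at hx
        exact hx rfl
      have hq1 : aeval x Q1 ≠ 0 := by
        intro h
        rw [hxq', h, mul_zero] at hx'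
        exact hx' rfl
      have hp : aeval x P = algebraMap A E c * aeval x Q1 + (x - algebraMap A E z) * aeval x P' := by
        have h3 := congrArg (aeval x) hP'
        rw [map_sub, map_mul, map_mul, map_sub, aeval_X, aeval_C, aeval_C] at h3
        rw [← h3]
        ring
      rw [← h2 x hx', hp, hxq, hxq']
      field_simp
      ring

theorem thm_PFD : St_PFD := by
  intro k P Q hd
  have hA : IsAlgClosed (algebraicClosure k ℂ) :=
    IsAlgClosure.isAlgClosed k
  obtain ⟨φ, hφ⟩ : ∃ φ : k →+* algebraicClosure k ℂ, φ = algebraMap k (algebraicClosure k ℂ) :=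
    ⟨_, rfl⟩
  have hQ : Q ≠ 0 := by
    rintro rfl
    rw [Polynomial.degree_zero] at hd
    exact absurd hd not_lt_bot
  have hQm : Q.map φ ≠ 0 := (Polynomial.map_ne_zero_iff φ.injective).2 hQ
  have hdm : (P.map φ).degree < (Q.map φ).degree := by
    rw [Polynomial.degree_map, Polynomial.degree_map]
    exact hd
  obtain ⟨m, ζ, c, e, h1, h2⟩ := PFD_gen (E := ℂ) _ (P.map φ) (Q.map φ) hQm rfl hdm
  have hae : ∀ (R : Polynomial k) (x : ℂ), aeval x (R.map φ) = aeval x R := by
    intro R x
    rw [hφ]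
    exact Polynomial.aeval_map_algebraMap _ x R
  refine ⟨m, fun i => (ζ i : ℂ), fun i => (c i : ℂ), e, fun i => ⟨?_, ?_, (h1 i).1, ?_⟩, ?_⟩
  · exact mem_algebraicClosure_iff.1 (ζ i).2
  · exact mem_algebraicClosure_iff.1 (c i).2
  · have h3 : aeval (algebraMap (algebraicClosure k ℂ) ℂ (ζ i)) (Q.map φ) = 0 := by
      rw [Polynomial.aeval_algebraMap_apply_eq_algebraMap_eval, (h1 i).2, map_zero]
    rw [hae] at h3
    exact h3
  · intro t ht
    have hev : ∀ R : Polynomial k, (((up k R).eval t : ℝ) : ℂ) = aeval (t : ℂ) R := by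
      intro R
      have h4 : (up k R).eval t = aeval t R := by
        unfold up
        rw [Polynomial.eval_map, Polynomial.aeval_def]
      rw [h4]
      exact (Polynomial.aeval_algebraMap_apply ℂ t R).symm
    have h5 : aeval (t : ℂ) (Q.map φ) ≠ 0 := by
      rw [hae, ← hev]
      exact_mod_cast ht
    have h6 := h2 (t : ℂ) h5
    rw [hae, hae, ← hev, ← hev] at h6
    unfold ratFun
    rw [Complex.ofReal_div]
    exact h6

end Pool.Agent.ITR
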