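import Pool.Agent.ITR.St

/-!
# Iterated residues: module PRI (helper65)
-/

set_option autoImplicit false

open MeasureTheory Filter Topology

namespace Pool.Agent.ITR

open Pool.Agent.Helper23.PeriodDefs

/-- the value `p(t, s)` as a finite sum -/
theorem PRI_ev2 (k : IntermediateField ℚ ℝ) (p : Polynomial (Polynomial k)) (t s : ℝ) :
    ev2 k p t s = ∑ j ∈ p.support, (up k (p.coeff j)).eval t * s ^ j := by
  unfold ev2 ev up
  rw [Polynomial.eval_map, Polynomial.eval₂_eq_sum, Polynomial.sum_def]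
  refine Finset.sum_congr rfl fun j _ => ?_
  rw [Polynomial.coe_eval₂RingHom, Polynomial.eval_map]

/-- composition of a polynomial with an analytic function -/
theorem PRI_an (k : IntermediateField ℚ ℝ) (p : Polynomial (Polynomial k)) {I : Set ℝ}
    {φ : ℝ → ℝ} (hφ : AnalyticOnNhd ℝ φ I) : AnalyticOnNhd ℝ (fun t => ev2 k p t (φ t)) I := by
  intro x hx
  have h1 : (fun t => ev2 k p t (φ t)) =
      fun t => ∑ j ∈ p.support, (up k (p.coeff j)).eval t * φ t ^ j := by
    funext t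
    exact PRI_ev2 k p t (φ t)
  rw [h1]
  refine Finset.analyticAt_fun_sum _ fun j _ => ?_
  refine AnalyticAt.fun_mul ?_ ((hφ x hx).fun_pow j)
  exact (AnalyticOnNhd.eval_polynomial (A := ℝ) (up k (p.coeff j))) x
    (Set.mem_univ x)

/-- analytic functions with all derivatives at `x₀` in `k` -/
def PRI_TK (k : IntermediateField ℚ ℝ) (x₀ : ℝ) (f : ℝ → ℝ) : Prop :=
  AnalyticAt ℝ f x₀ ∧ ∀ n, iteratedDeriv n f x₀ ∈ k

theorem PRI_TK.mul {k : IntermediateField ℚ ℝ} {x₀ : ℝ} {f g : ℝ → ℝ} (hf : PRI_TK k x₀ f)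
    (hg : PRI_TK k x₀ g) : PRI_TK k x₀ (fun x => f x * g x) := by
  refine ⟨hf.1.fun_mul hg.1, fun n => ?_⟩
  rw [iteratedDeriv_fun_mul hf.1.contDiffAt hg.1.contDiffAt]
  refine sum_mem fun i _ => ?_
  exact mul_mem (mul_mem (natCast_mem k _) (hf.2 i)) (hg.2 _)

theorem PRI_TK.pow {k : IntermediateField ℚ ℝ} {x₀ : ℝ} {f : ℝ → ℝ} (hf : PRI_TK k x₀ f)
    (j : ℕ) : PRI_TK k x₀ (fun x => f x ^ j) := by
  induction j with
  | zero =>
      refine ⟨by simpa using (analyticAt_const : AnalyticAt ℝ (fun _ : ℝ => (1 : ℝ)) x₀),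
        fun n => ?_⟩
      have h1 : (fun x => f x ^ 0) = fun _ => (1 : ℝ) := by
        funext x
        rw [pow_zero]
      rw [h1, iteratedDeriv_const]
      split_ifs
      · exact one_mem k
      · exact zero_mem k
  | succ j ih =>
      have h1 : (fun x => f x ^ (j + 1)) = fun x => f x ^ j * f x := by
        funext x
        rw [pow_succ]
      rw [h1]
      exact ih.mul hf

theorem PRI_TK.id {k : IntermediateField ℚ ℝ} {x₀ : ℝ} (hx : x₀ ∈ k) :
    PRI_TK k x₀ (fun x => x) := by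
  refine ⟨analyticAt_id, fun n => ?_⟩
  rw [iteratedDeriv_fun_id]
  split_ifs
  · exact hx
  · exact one_mem k
  · exact zero_mem k

theorem thm_PRI (hCNT : St_CNT) (hLIN : St_LIN) (hTAY : St_TAY) (hZER : St_ZER) : St_PRI := by
  intro k hk I H p x₀ hIo hIc hH hp hpH hae hx₀ hx₀k
  have hD : AnalyticOnNhd ℝ (deriv H) I := hH.deriv
  -- the derivative is algebraic at uncountably many points
  have hE : ¬ {t | t ∈ I ∧ AlgAt k t (deriv H t)}.Countable := by
    intro hc
    have h1 : volume {t | t ∈ I ∧ AlgAt k t (deriv H t)} = 0 := hc.measure_zero _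
    have h2 : volume {t : ℝ | ¬ (t ∈ I → AlgAt k t (deriv H t))} = 0 := hae
    have h3 : volume I = 0 := by
      refine measure_mono_null (fun t ht => ?_) (measure_union_null h1 h2)
      by_cases h : AlgAt k t (deriv H t)
      · exact Or.inl ⟨ht, h⟩
      · exact Or.inr fun h4 => h (h4 ht)
    exact (hIo.measure_pos volume ⟨x₀, hx₀⟩).ne' h3
  obtain ⟨p₀, hp₀, hunc⟩ := hCNT k hk _ (deriv H) hE fun t ht => ht.2
  have hz : ∀ t ∈ I, ev2 k p₀ t (deriv H t) = 0 := by
    refine hZER I _ hIo hIc (PRI_an k p₀ hD) fun hc => hunc (hc.mono ?_)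
    rintro t ⟨⟨h1, -⟩, -, h2⟩
    exact ⟨h1, h2⟩
  have hdk : ∀ n, iteratedDeriv n (deriv H) x₀ ∈ k := by
    intro n
    refine hTAY k hk x₀ hx₀k n (deriv H) p₀ hp₀ (hD x₀ hx₀) ?_
    filter_upwards [hIo.mem_nhds hx₀] with x hx
    exact hz x hx
  -- the function `G`
  obtain ⟨G, hG⟩ : ∃ G : ℝ → ℝ, G = fun x => H x - H x₀ := ⟨_, rfl⟩
  have hGx : ∀ x, G x = H x - H x₀ := fun x => by rw [hG]
  have hGa : AnalyticOnNhd ℝ G I := by
    rw [hG]
    exact fun x hx => (hH x hx).fun_sub analyticAt_const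
  have hGk : PRI_TK k x₀ G := by
    refine ⟨hGa x₀ hx₀, fun n => ?_⟩
    cases n with
    | zero =>
        rw [iteratedDeriv_zero, hGx, sub_self]
        exact zero_mem k
    | succ n =>
        have h1 : deriv G = deriv H := by
          rw [hG]
          funext x
          exact deriv_sub_const _
        rw [iteratedDeriv_succ', h1]
        exact hdk n
  obtain ⟨p', hp'⟩ : ∃ p' : Polynomial (Polynomial ℝ),
      p' = p.comp (Polynomial.X + Polynomial.C (Polynomial.C (H x₀))) := ⟨_, rfl⟩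
  have hp'0 : p' ≠ 0 := by
    rw [hp']
    intro h
    rcases Polynomial.comp_eq_zero_iff.1 h with h1 | ⟨-, h1⟩
    · exact hp h1
    · have h2 := congrArg (fun q => Polynomial.coeff q 1) h1
      simp at h2
  have hp'G : ∀ x ∈ I, (p'.map (Polynomial.evalRingHom x)).eval (G x) = 0 := by
    intro x hx
    rw [hp', Polynomial.map_comp, Polynomial.eval_comp]
    have h1 := hpH x hx
    have h2 : ((Polynomial.X + Polynomial.C (Polynomial.C (H x₀)) :
        Polynomial (Polynomial ℝ)).map (Polynomial.evalRingHom x)).eval (G x) = H x := by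
      rw [Polynomial.map_add, Polynomial.map_X, Polynomial.map_C, Polynomial.eval_add,
        Polynomial.eval_X, Polynomial.eval_C, Polynomial.coe_evalRingHom, Polynomial.eval_C, hGx]
      ring
    rw [h2]
    exact h1
  obtain ⟨M, hM⟩ : ∃ M : ℕ, M = p'.natDegree := ⟨_, rfl⟩
  obtain ⟨N, hN⟩ : ∃ N : ℕ, N = (Finset.range (M + 1)).sup fun j => (p'.coeff j).natDegree :=
    ⟨_, rfl⟩
  -- the functions `x ^ i * G x ^ j`
  obtain ⟨Fn, hFn⟩ : ∃ Fn : Fin (N + 1) × Fin (M + 1) → ℝ → ℝ,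
      Fn = fun ij x => x ^ (ij.1 : ℕ) * G x ^ (ij.2 : ℕ) := ⟨_, rfl⟩
  have hFx : ∀ ij x, Fn ij x = x ^ (ij.1 : ℕ) * G x ^ (ij.2 : ℕ) := fun ij x => by rw [hFn]
  have hFk : ∀ ij, PRI_TK k x₀ (Fn ij) := by
    intro ij
    rw [hFn]
    exact ((PRI_TK.id hx₀k).pow _).mul (hGk.pow _)
  have hFa : ∀ ij, AnalyticOnNhd ℝ (Fn ij) I := by
    intro ij x hx
    rw [hFn]
    exact (analyticAt_id.fun_pow _).fun_mul ((hGa x hx).fun_pow _)
  obtain ⟨r, hr⟩ : ∃ r : Fin (N + 1) × Fin (M + 1) → ℝ,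
      r = fun ij => (p'.coeff ij.2).coeff ij.1 := ⟨_, rfl⟩
  have hsum : ∀ x ∈ I, ∑ ij, r ij * Fn ij x = 0 := by
    intro x hx
    rw [← hp'G x hx, Polynomial.eval_eq_sum_range' (n := M + 1) (by
      rw [hM]
      exact Nat.lt_succ_of_le (Polynomial.natDegree_map_le))]
    rw [Fintype.sum_prod_type_right, Finset.sum_range]
    refine Finset.sum_congr rfl fun j _ => ?_
    rw [Polynomial.coeff_map, Polynomial.coe_evalRingHom,
      Polynomial.eval_eq_sum_range' (n := N + 1) (by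
        refine Nat.lt_succ_of_le ?_
        rw [hN]
        exact Finset.le_sup (f := fun j => (p'.coeff j).natDegree) (Finset.mem_range.2 j.2)),
      Finset.sum_range, Finset.sum_mul]
    refine Finset.sum_congr rfl fun i _ => ?_
    rw [hr, hFx]
    ring
  have hr0 : r ≠ 0 := by
    intro h
    apply hp'0
    have h1 : p'.coeff M ≠ 0 := by
      rw [hM]
      exact Polynomial.leadingCoeff_ne_zero.2 hp'0
    have h2 : (p'.coeff M).coeff (p'.coeff M).natDegree ≠ 0 :=
      Polynomial.leadingCoeff_ne_zero.2 h1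
    have h3 : (p'.coeff M).natDegree < N + 1 := by
      refine Nat.lt_succ_of_le ?_
      rw [hN]
      exact Finset.le_sup (f := fun j => (p'.coeff j).natDegree)
        (Finset.mem_range.2 (Nat.lt_succ_self M))
    have h4 := congrFun h (⟨(p'.coeff M).natDegree, h3⟩, ⟨M, Nat.lt_succ_self M⟩)
    rw [hr] at h4
    exact absurd h4 h2
  have hlin : ∀ (a : Fin (N + 1) × Fin (M + 1) → ℝ) (n : ℕ),
      iteratedDeriv n (fun x => ∑ ij, a ij * Fn ij x) x₀ =
        ∑ ij, a ij * iteratedDeriv n (Fn ij) x₀ := by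
    intro a n
    rw [iteratedDeriv_fun_sum fun ij _ => (analyticAt_const.fun_mul (hFk ij).1).contDiffAt]
    refine Finset.sum_congr rfl fun ij _ => ?_
    exact iteratedDeriv_const_mul_field _ _
  have hrn : ∀ n : ℕ, ∑ ij, ((⟨iteratedDeriv n (Fn ij) x₀, (hFk ij).2 n⟩ : k) : ℝ) * r ij = 0 := by
    intro n
    have h1 : iteratedDeriv n (fun x => ∑ ij, r ij * Fn ij x) x₀ = 0 := by
      have h2 : (fun x => ∑ ij, r ij * Fn ij x) =ᶠ[𝓝 x₀] fun _ => (0 : ℝ) := by
        filter_upwards [hIo.mem_nhds hx₀] with x hx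
        exact hsum x hx
      rw [h2.iteratedDeriv_eq n, iteratedDeriv_const]
      simp
    rw [hlin] at h1
    rw [← h1]
    exact Finset.sum_congr rfl fun ij _ => mul_comm _ _
  obtain ⟨s, hs0, hs⟩ := hLIN k (Fin (N + 1) × Fin (M + 1)) ℕ
    (fun n ij => ⟨iteratedDeriv n (Fn ij) x₀, (hFk ij).2 n⟩) r hr0 hrn
  -- the combination over `k`
  have hga : AnalyticOnNhd ℝ (fun x => ∑ ij, (s ij : ℝ) * Fn ij x) I := by
    intro x hx
    exact Finset.analyticAt_fun_sum _ fun ij _ => analyticAt_const.fun_mul (hFa ij x hx)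
  have hgn : ∀ n, iteratedDeriv n (fun x => ∑ ij, (s ij : ℝ) * Fn ij x) x₀ = 0 := by
    intro n
    rw [hlin]
    have h1 := congrArg (fun a : k => (a : ℝ)) (hs n)
    simp only [ZeroMemClass.coe_zero] at h1
    rw [← h1]
    push_cast
    exact Finset.sum_congr rfl fun ij _ => mul_comm _ _
  have hg0 : ∀ x ∈ I, ∑ ij, (s ij : ℝ) * Fn ij x = 0 := by
    have h1 := (hga x₀ hx₀).hasFPowerSeriesAt
    have h2 : FormalMultilinearSeries.ofScalars ℝ (fun n =>
        iteratedDeriv n (fun x => ∑ ij, (s ij : ℝ) * Fn ij x) x₀ / n.factorial) =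
        (0 : FormalMultilinearSeries ℝ ℝ ℝ) := by
      have h3 : (fun n : ℕ => iteratedDeriv n (fun x => ∑ ij, (s ij : ℝ) * Fn ij x) x₀ /
          (n.factorial : ℝ)) = fun _ => 0 := by
        funext n
        rw [hgn, zero_div]
      rw [h3]
      ext n
      simp [FormalMultilinearSeries.ofScalars]
    rw [h2] at h1
    have h4 := h1.eventually_eq_zero
    exact hga.eqOn_zero_of_preconnected_of_eventuallyEq_zero hIc hx₀ h4
  refine ⟨∑ ij, Polynomial.C (Polynomial.C (s ij) * Polynomial.X ^ (ij.1 : ℕ)) *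
    Polynomial.X ^ (ij.2 : ℕ), ?_, ?_⟩
  · intro h
    apply hs0
    funext ij₀
    have h1 := congrArg (fun q : Polynomial (Polynomial k) => (q.coeff ij₀.2).coeff ij₀.1) h
    simp only [Polynomial.finsetSum_coeff, Polynomial.coeff_C_mul, Polynomial.coeff_X_pow,
      Polynomial.coeff_zero] at h1
    rw [Finset.sum_eq_single ij₀] at h1
    · simpa using h1
    · rintro ⟨i, j⟩ - hne
      by_cases hj : (ij₀.2 : ℕ) = j
      · have hi : (ij₀.1 : ℕ) ≠ i := by
          intro hi
          exact hne (Prod.ext (Fin.ext hi.symm) (Fin.ext hj.symm))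
        simp [hj, Polynomial.coeff_X_pow, hi]
      · simp [hj]
    · intro h2
      exact absurd (Finset.mem_univ _) h2
  · intro x hx
    rw [← hGx, ← hg0 x hx]
    unfold ev2
    rw [Polynomial.map_sum, Polynomial.eval_finsetSum]
    refine Finset.sum_congr rfl fun ij _ => ?_
    rw [hFx, Polynomial.map_mul, Polynomial.map_C, Polynomial.map_pow, Polynomial.map_X,
      Polynomial.eval_mul, Polynomial.eval_C, Polynomial.eval_pow, Polynomial.eval_X, map_mul,
      map_pow]
    unfold ev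
    rw [Polynomial.coe_eval₂RingHom, Polynomial.eval₂_C, Polynomial.eval₂_X]
    rw [mul_assoc]
    rfl

end Pool.Agent.ITR
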