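import Pool.Agent.ITR.St

/-!
# Iterated residues [RA1]: rational functions with algebraic values (helper9)
-/

set_option autoImplicit false

open MeasureTheory Filter Topology

namespace Pool.Agent.ITR

open Pool.Agent.Helper23.PeriodDefs

theorem RA1_ev2 (k : IntermediateField ℚ ℝ) (p : Polynomial (Polynomial k)) (t s : ℝ) :
    ev2 k p t s = ∑ j ∈ Finset.range (p.natDegree + 1), (up k (p.coeff j)).eval t * s ^ j := by
  unfold ev2
  rw [Polynomial.eval_map, Polynomial.eval₂_eq_sum_range]
  refine Finset.sum_congr rfl fun j _ => ?_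
  unfold ev up
  rw [Polynomial.coe_eval₂RingHom, Polynomial.eval_map]

/-- the polynomial `∑ p_j P^j Q^(d-j)` -/
noncomputable def RA1_R (k : IntermediateField ℚ ℝ) (p : Polynomial (Polynomial k))
    (P Q : Polynomial ℝ) : Polynomial ℝ :=
  ∑ j ∈ Finset.range (p.natDegree + 1), up k (p.coeff j) * P ^ j * Q ^ (p.natDegree - j)

theorem RA1_eval (k : IntermediateField ℚ ℝ) (p : Polynomial (Polynomial k))
    (P Q : Polynomial ℝ) (t : ℝ) (ht : Q.eval t ≠ 0) :
    (RA1_R k p P Q).eval t = Q.eval t ^ p.natDegree * ev2 k p t (ratFun P Q t) := by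
  rw [RA1_ev2, RA1_R, Polynomial.eval_finsetSum, Finset.mul_sum]
  refine Finset.sum_congr rfl fun j hj => ?_
  have hj' : j ≤ p.natDegree := Nat.lt_succ_iff.1 (Finset.mem_range.1 hj)
  rw [Polynomial.eval_mul, Polynomial.eval_mul, Polynomial.eval_pow, Polynomial.eval_pow]
  unfold ratFun
  rw [div_pow]
  have h1 : Q.eval t ^ p.natDegree = Q.eval t ^ (p.natDegree - j) * Q.eval t ^ j := by
    rw [← pow_add, Nat.sub_add_cancel hj']
  rw [h1]
  field_simp

theorem RA1_mem (k : IntermediateField ℚ ℝ) (hk : RC k) (p : Polynomial (Polynomial k)) (c : k)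
    (hp : p.map (Polynomial.evalRingHom c) ≠ 0) (b : ℝ) (hb : ev2 k p (c : ℝ) b = 0) : b ∈ k := by
  refine hk.cl b ⟨p.map (Polynomial.evalRingHom c), hp, ?_⟩
  rw [Polynomial.aeval_def, Polynomial.eval₂_map]
  have h1 : (algebraMap k ℝ).comp (Polynomial.evalRingHom c) = ev k (c : ℝ) := by
    refine RingHom.ext fun a => ?_
    unfold ev
    rw [RingHom.comp_apply, Polynomial.coe_evalRingHom, Polynomial.coe_eval₂RingHom]
    exact (Polynomial.eval₂_at_apply (algebraMap k ℝ) c).symm
  rw [h1, ← Polynomial.eval_map]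
  exact hb

theorem thm_RA1 (hCNT : St_CNT) : St_RA1 := by
  classical
  intro k hk P Q hQ E hE h
  obtain ⟨p, hp, hE'⟩ := hCNT k hk E (ratFun P Q) hE h
  have hQfin : {t : ℝ | Q.eval t = 0}.Finite := by
    refine (Q.roots.toFinset.finite_toSet).subset fun t ht => ?_
    rw [Finset.mem_coe, Multiset.mem_toFinset, Polynomial.mem_roots hQ]
    exact ht
  -- `R` has infinitely many zeros
  have hR : RA1_R k p P Q = 0 := by
    by_contra hR
    refine hE' ?_
    have h1 : {t | t ∈ E ∧ p.map (ev k t) ≠ 0 ∧ ev2 k p t (ratFun P Q t) = 0} ⊆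
        {t : ℝ | Q.eval t = 0} ∪ {t : ℝ | (RA1_R k p P Q).eval t = 0} := by
      rintro t ⟨-, -, ht⟩
      by_cases h2 : Q.eval t = 0
      · exact Or.inl h2
      · right
        show (RA1_R k p P Q).eval t = 0
        rw [RA1_eval k p P Q t h2, ht, mul_zero]
    have h2 : {t : ℝ | (RA1_R k p P Q).eval t = 0}.Finite := by
      refine ((RA1_R k p P Q).roots.toFinset.finite_toSet).subset fun t ht => ?_
      rw [Finset.mem_coe, Multiset.mem_toFinset, Polynomial.mem_roots hR]
      exact ht
    exact ((hQfin.union h2).subset h1).countable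
  obtain ⟨j, hj⟩ : ∃ j, p.coeff j ≠ 0 := by
    by_contra h1
    push Not at h1
    exact hp (Polynomial.ext fun j => by rw [h1 j, Polynomial.coeff_zero])
  have hup : up k (p.coeff j) ≠ 0 := by
    unfold up
    rw [Ne, Polynomial.map_eq_zero]
    exact hj
  refine ⟨{t : ℝ | Q.eval t = 0} ∪ {t : ℝ | (up k (p.coeff j)).eval t = 0}, hQfin.union ?_, ?_⟩
  · refine ((up k (p.coeff j)).roots.toFinset.finite_toSet).subset fun t ht => ?_
    rw [Finset.mem_coe, Multiset.mem_toFinset, Polynomial.mem_roots hup]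
    exact ht
  · intro t ht htB
    have h1 : Q.eval t ≠ 0 := fun h2 => htB (Or.inl h2)
    have h2 : (up k (p.coeff j)).eval t ≠ 0 := fun h3 => htB (Or.inr h3)
    refine ⟨h1, RA1_mem k hk p ⟨t, ht⟩ ?_ _ ?_⟩
    · intro h3
      have h4 := congrArg (fun q => Polynomial.coeff q j) h3
      simp only [Polynomial.coeff_map, Polynomial.coeff_zero, Polynomial.coe_evalRingHom] at h4
      apply h2
      unfold up
      rw [Polynomial.eval_map]
      have h5 := Polynomial.eval₂_at_apply (p := p.coeff j) (algebraMap k ℝ) (⟨t, ht⟩ : k)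
      rw [h4, map_zero] at h5
      exact h5
    · have h3 := RA1_eval k p P Q t h1
      rw [hR, Polynomial.eval_zero] at h3
      exact (mul_eq_zero.1 h3.symm).resolve_left (pow_ne_zero _ h1)

end Pool.Agent.ITR
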