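import Pool.Agent.ITR.St

/-!
# Iterated residues, module RA2: rational functions with values in `k`
-/

set_option autoImplicit false

open Polynomial

namespace Pool.Agent.ITR

theorem thm_RA2 (hLIN : St_LIN) : St_RA2 := by
  classical
  intro k P Q hQ T hT hval
  set d : ℕ := max P.natDegree Q.natDegree with hd
  let v : T → (Fin (d + 1) ⊕ Fin (d + 1)) → k := fun t =>
    Sum.elim (fun i => (⟨t.1, (hval t.1 t.2).1⟩ : k) ^ (i : ℕ))
      (fun i => -(⟨ratFun P Q t.1, (hval t.1 t.2).2.2⟩ : k) * (⟨t.1, (hval t.1 t.2).1⟩ : k) ^ (i : ℕ))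
  let r : (Fin (d + 1) ⊕ Fin (d + 1)) → ℝ := Sum.elim (fun i => P.coeff i) (fun i => Q.coeff i)
  have hPe : ∀ t : ℝ, P.eval t = ∑ i : Fin (d + 1), P.coeff i * t ^ (i : ℕ) := by
    intro t
    rw [Polynomial.eval_eq_sum_range' (n := d + 1) (Nat.lt_succ_of_le (le_max_left _ _)),
      Finset.sum_range]
  have hQe : ∀ t : ℝ, Q.eval t = ∑ i : Fin (d + 1), Q.coeff i * t ^ (i : ℕ) := by
    intro t
    rw [Polynomial.eval_eq_sum_range' (n := d + 1) (Nat.lt_succ_of_le (le_max_right _ _)),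
      Finset.sum_range]
  have hr : r ≠ 0 := by
    intro h0
    apply hQ
    ext i
    by_cases hi : i < d + 1
    · have := congrFun h0 (Sum.inr ⟨i, hi⟩)
      simpa [r] using this
    · rw [Polynomial.coeff_zero]
      apply Polynomial.coeff_eq_zero_of_natDegree_lt
      have : Q.natDegree ≤ d := le_max_right _ _
      omega
  have hreal : ∀ e : T, ∑ i, ((v e i : k) : ℝ) * r i = 0 := by
    rintro ⟨t, ht⟩
    obtain ⟨h1, h2, h3⟩ := hval t ht
    rw [Fintype.sum_sum_type]
    have e1 : ∑ i : Fin (d + 1), ((v ⟨t, ht⟩ (Sum.inl i) : k) : ℝ) * r (Sum.inl i) = P.eval t := by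
      rw [hPe]
      refine Finset.sum_congr rfl fun i _ => ?_
      simp only [v, r, Sum.elim_inl]
      push_cast
      ring
    have e2 : ∑ i : Fin (d + 1), ((v ⟨t, ht⟩ (Sum.inr i) : k) : ℝ) * r (Sum.inr i) =
        -(ratFun P Q t * Q.eval t) := by
      rw [hQe, Finset.mul_sum, ← Finset.sum_neg_distrib]
      refine Finset.sum_congr rfl fun i _ => ?_
      simp only [v, r, Sum.elim_inr]
      push_cast
      ring
    rw [e1, e2]
    unfold ratFun
    field_simp
    ring
  obtain ⟨s, hs, hs2⟩ := hLIN k _ T v r hr hreal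
  let P₁ : k[X] := ∑ i : Fin (d + 1), C (s (Sum.inl i)) * X ^ (i : ℕ)
  let Q₁ : k[X] := ∑ i : Fin (d + 1), C (s (Sum.inr i)) * X ^ (i : ℕ)
  have hP₁ : ∀ t : ℝ, (up k P₁).eval t = ∑ i : Fin (d + 1), ((s (Sum.inl i) : k) : ℝ) * t ^ (i : ℕ) := by
    intro t
    simp only [P₁, up, Polynomial.map_sum, Polynomial.map_mul, Polynomial.map_C,
      Polynomial.map_pow, Polynomial.map_X, Polynomial.eval_finsetSum, Polynomial.eval_mul,
      Polynomial.eval_C, Polynomial.eval_pow, Polynomial.eval_X]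
    rfl
  have hQ₁ : ∀ t : ℝ, (up k Q₁).eval t = ∑ i : Fin (d + 1), ((s (Sum.inr i) : k) : ℝ) * t ^ (i : ℕ) := by
    intro t
    simp only [Q₁, up, Polynomial.map_sum, Polynomial.map_mul, Polynomial.map_C,
      Polynomial.map_pow, Polynomial.map_X, Polynomial.eval_finsetSum, Polynomial.eval_mul,
      Polynomial.eval_C, Polynomial.eval_pow, Polynomial.eval_X]
    rfl
  have hcP : ∀ i : Fin (d + 1), P₁.coeff i = s (Sum.inl i) := by
    intro i
    simp only [P₁, Polynomial.finsetSum_coeff, Polynomial.coeff_C_mul, Polynomial.coeff_X_pow]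
    rw [Finset.sum_eq_single i]
    · simp
    · intro j _ hj
      have : ¬ ((i : ℕ) = (j : ℕ)) := fun h => hj (Fin.ext h.symm)
      simp [this]
    · intro h
      exact absurd (Finset.mem_univ i) h
  have hcQ : ∀ i : Fin (d + 1), Q₁.coeff i = s (Sum.inr i) := by
    intro i
    simp only [Q₁, Polynomial.finsetSum_coeff, Polynomial.coeff_C_mul, Polynomial.coeff_X_pow]
    rw [Finset.sum_eq_single i]
    · simp
    · intro j _ hj
      have : ¬ ((i : ℕ) = (j : ℕ)) := fun h => hj (Fin.ext h.symm)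
      simp [this]
    · intro h
      exact absurd (Finset.mem_univ i) h
  have hrel : ∀ t ∈ T, (up k P₁).eval t = ratFun P Q t * (up k Q₁).eval t := by
    intro t ht
    have h1 := congrArg (fun z : k => (z : ℝ)) (hs2 ⟨t, ht⟩)
    have h0 : ((∑ i, v ⟨t, ht⟩ i * s i : k) : ℝ) = ((0 : k) : ℝ) := h1
    clear h1
    rw [Fintype.sum_sum_type] at h0
    rw [hP₁, hQ₁, Finset.mul_sum]
    have h2 : ((∑ i : Fin (d + 1), v ⟨t, ht⟩ (Sum.inl i) * s (Sum.inl i) +
        ∑ i : Fin (d + 1), v ⟨t, ht⟩ (Sum.inr i) * s (Sum.inr i) : k) : ℝ) =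
        ∑ i : Fin (d + 1), ((s (Sum.inl i) : k) : ℝ) * t ^ (i : ℕ) -
        ∑ i : Fin (d + 1), ratFun P Q t * (((s (Sum.inr i) : k) : ℝ) * t ^ (i : ℕ)) := by
      rw [← Finset.sum_sub_distrib]
      push_cast
      rw [← Finset.sum_add_distrib]
      refine Finset.sum_congr rfl fun i _ => ?_
      simp only [v, Sum.elim_inl, Sum.elim_inr]
      push_cast
      ring
    rw [h2] at h0
    have h3 : (((0 : k)) : ℝ) = 0 := rfl
    rw [h3] at h0
    linarith
  have hQ₁0 : Q₁ ≠ 0 := by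
    intro h0
    have hP0 : up k P₁ = 0 := by
      apply Polynomial.eq_zero_of_infinite_isRoot
      refine hT.mono ?_
      intro t ht
      show (up k P₁).IsRoot t
      rw [Polynomial.IsRoot.def, hrel t ht, h0]
      simp [up]
    have hP1 : P₁ = 0 := by
      have hinj : Function.Injective (algebraMap k ℝ) := (algebraMap k ℝ).injective
      exact (Polynomial.map_eq_zero_iff hinj).1 hP0
    apply hs
    funext i
    rcases i with i | i
    · rw [← hcP i, hP1]; simp
    · rw [← hcQ i, h0]; simp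
  refine ⟨P₁, Q₁, hQ₁0, ?_⟩
  have hz : P * up k Q₁ - up k P₁ * Q = 0 := by
    apply Polynomial.eq_zero_of_infinite_isRoot
    refine hT.mono ?_
    intro t ht
    show (P * up k Q₁ - up k P₁ * Q).IsRoot t
    obtain ⟨h1, h2, h3⟩ := hval t ht
    rw [Polynomial.IsRoot.def, Polynomial.eval_sub, Polynomial.eval_mul, Polynomial.eval_mul,
      hrel t ht]
    unfold ratFun
    field_simp
    ring
  exact sub_eq_zero.1 hz

end Pool.Agent.ITR
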