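import Pool.Agent.ITR.St

/-!
# Iterated residues: module RLN (rational functions on the whole line)
-/

set_option autoImplicit false

open MeasureTheory Filter Topology

namespace Pool.Agent.ITR
namespace RLN

variable {k : IntermediateField ℚ ℝ}

lemma coeff_comp_neg {R : Type*} [CommRing R] (N : Polynomial R) (n : ℕ) :
    (N.comp (-Polynomial.X)).coeff n = (-1) ^ n * N.coeff n := by
  induction N using Polynomial.induction_on' with
  | add p q hp hq => rw [Polynomial.add_comp, Polynomial.coeff_add, hp, hq, Polynomial.coeff_add,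
      mul_add]
  | monomial m a =>
    have h1 : (Polynomial.monomial m a).comp (-Polynomial.X : Polynomial R) =
        Polynomial.monomial m ((-1) ^ m * a) := by
      rw [Polynomial.monomial_comp, neg_pow, ← Polynomial.C_mul_X_pow_eq_monomial]
      rw [Polynomial.C_mul, Polynomial.C_pow, Polynomial.C_neg, Polynomial.C_1]
      ring
    rw [h1, Polynomial.coeff_monomial, Polynomial.coeff_monomial]
    split_ifs with h
    · rw [h]
    · rw [mul_zero]

lemma even_poly (N : Polynomial k) (h : N.comp (-Polynomial.X) = N) :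
    ∃ N' : Polynomial k, ∀ t : ℝ, (up k N).eval t = (up k N').eval (t ^ 2) := by
  refine ⟨Polynomial.contract 2 N, fun t => ?_⟩
  have h1 : Polynomial.expand k 2 (Polynomial.contract 2 N) = N := by
    ext n
    rw [Polynomial.coeff_expand two_pos, Polynomial.coeff_contract two_ne_zero]
    split_ifs with hn
    · rw [Nat.div_mul_cancel hn]
    · have h2 := coeff_comp_neg N n
      rw [h, Odd.neg_one_pow (Nat.odd_iff.2 (Nat.two_dvd_ne_zero.1 hn))] at h2
      have h3 : N.coeff n = 0 := by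
        have h4 : N.coeff n + N.coeff n = 0 := by
          nth_rewrite 1 [h2]
          ring
        exact (add_self_eq_zero.1 h4)
      rw [h3]
  have h5 : (up k N).eval t = (up k (Polynomial.expand k 2 (Polynomial.contract 2 N))).eval t := by
    rw [h1]
  rw [h5]
  unfold up
  rw [Polynomial.map_expand, Polynomial.expand_eval]

lemma up_comp_neg (P : Polynomial k) (t : ℝ) :
    (up k (P.comp (-Polynomial.X))).eval t = (up k P).eval (-t) := by
  unfold up
  rw [Polynomial.map_comp, Polynomial.eval_comp, Polynomial.map_neg, Polynomial.map_X,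
    Polynomial.eval_neg, Polynomial.eval_X]

lemma up_mul (P Q : Polynomial k) (t : ℝ) :
    (up k (P * Q)).eval t = (up k P).eval t * (up k Q).eval t := by
  unfold up
  rw [Polynomial.map_mul, Polynomial.eval_mul]

lemma up_add (P Q : Polynomial k) (t : ℝ) :
    (up k (P + Q)).eval t = (up k P).eval t + (up k Q).eval t := by
  unfold up
  rw [Polynomial.map_add, Polynomial.eval_add]

lemma up_ne (Q : Polynomial k) (hQ : Q ≠ 0) : up k Q ≠ 0 := by
  unfold up
  rw [Ne, Polynomial.map_eq_zero]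
  exact hQ

lemma roots_fin (Q : Polynomial ℝ) (hQ : Q ≠ 0) : {t : ℝ | Q.eval t = 0}.Finite := by
  refine (Q.roots.toFinset.finite_toSet).subset fun t ht => ?_
  rw [Finset.mem_coe, Multiset.mem_toFinset, Polynomial.mem_roots hQ]
  exact ht

lemma ae_ne (Q : Polynomial ℝ) (hQ : Q ≠ 0) : ∀ᵐ t : ℝ, Q.eval t ≠ 0 := by
  have h := (roots_fin Q hQ).measure_zero volume
  rw [ae_iff]
  have h2 : {a : ℝ | ¬Q.eval a ≠ 0} = {t : ℝ | Q.eval t = 0} := by
    ext t
    simp
  rw [h2]
  exact h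

lemma ae_ne_neg (Q : Polynomial ℝ) (hQ : Q ≠ 0) : ∀ᵐ t : ℝ, Q.eval (-t) ≠ 0 := by
  have h3 : {t : ℝ | Q.eval (-t) = 0}.Finite := by
    have := (roots_fin Q hQ).preimage (f := fun t : ℝ => -t) (neg_injective.injOn)
    exact this
  have h := h3.measure_zero volume
  rw [ae_iff]
  have h2 : {a : ℝ | ¬Q.eval (-a) ≠ 0} = {t : ℝ | Q.eval (-t) = 0} := by
    ext t
    simp
  rw [h2]
  exact h

/-- splitting the line -/
lemma split (f : ℝ → ℝ) (hf : Integrable f) :
    IntegrableOn (fun t => f t + f (-t)) (Set.Ioi 0) ∧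
    ∫ t, f t = ∫ t in Set.Ioi (0 : ℝ), (f t + f (-t)) := by
  have h1 : Integrable (fun t => f (-t)) := hf.comp_neg
  refine ⟨(hf.add h1).integrableOn, ?_⟩
  rw [integral_add hf.integrableOn h1.integrableOn, integral_comp_neg_Ioi, neg_zero,
    ← integral_add_compl (measurableSet_Iic (a := (0 : ℝ))) hf, Set.compl_Iic, add_comm]

/-- the substitution `u = t^2` -/
lemma subst (g : ℝ → ℝ) (hg : IntegrableOn (fun t => g (t ^ 2)) (Set.Ioi 0)) :
    IntegrableOn (fun u : ℝ => u ^ (((-1 / 2 : ℚ) : ℝ)) * g u) (Set.Ioi 0) ∧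
    ∫ u in Set.Ioi (0 : ℝ), u ^ (((-1 / 2 : ℚ) : ℝ)) * g u =
      2 * ∫ t in Set.Ioi (0 : ℝ), g (t ^ 2) := by
  have key : ∀ x ∈ Set.Ioi (0 : ℝ), (|(2 : ℝ)| * x ^ ((2 : ℝ) - 1)) •
      ((x ^ (2 : ℝ)) ^ (((-1 / 2 : ℚ) : ℝ)) * g (x ^ (2 : ℝ))) = 2 * g (x ^ 2) := by
    intro x hx
    have hx0 : (0 : ℝ) < x := hx
    have h1 : (x ^ (2 : ℝ)) ^ (((-1 / 2 : ℚ) : ℝ)) = x⁻¹ := by
      rw [← Real.rpow_mul hx0.le]
      have : (2 : ℝ) * (((-1 / 2 : ℚ) : ℝ)) = -1 := by
        push_cast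
        norm_num
      rw [this, Real.rpow_neg_one]
    have h2 : x ^ ((2 : ℝ) - 1) = x := by
      have : (2 : ℝ) - 1 = 1 := by norm_num
      rw [this, Real.rpow_one]
    have h3 : x ^ (2 : ℝ) = x ^ 2 := Real.rpow_two x
    rw [h1, h2, h3, smul_eq_mul, abs_of_pos (two_pos : (0 : ℝ) < 2)]
    field_simp
  constructor
  · rw [← integrableOn_Ioi_comp_rpow_iff _ (two_ne_zero (α := ℝ))]
    refine IntegrableOn.congr_fun (hg.const_mul 2) (fun x hx => (key x hx).symm) measurableSet_Ioi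
  · rw [← integral_comp_rpow_Ioi _ (two_ne_zero (α := ℝ)), ← integral_const_mul]
    exact setIntegral_congr_fun measurableSet_Ioi key

end RLN

theorem thm_RLN (hVAL : St_VAL) : St_RLN := by
  intro k hk P Q hint
  by_cases hQ : Q = 0
  · refine ⟨0, zero_mem k, ?_⟩
    have h1 : ratFun (up k P) (up k Q) = fun _ => 0 := by
      funext t
      unfold ratFun
      have : up k Q = 0 := by rw [hQ]; exact Polynomial.map_zero _
      rw [this, Polynomial.eval_zero, div_zero]
    rw [h1, integral_zero, zero_mul]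
  obtain ⟨Pn, hPn⟩ : ∃ Pn, Pn = P.comp (-Polynomial.X) := ⟨_, rfl⟩
  obtain ⟨Qn, hQn⟩ : ∃ Qn, Qn = Q.comp (-Polynomial.X) := ⟨_, rfl⟩
  have hneg : ∀ R : Polynomial k, (R.comp (-Polynomial.X)).comp (-Polynomial.X) = R := by
    intro R
    rw [Polynomial.comp_assoc, Polynomial.neg_comp, Polynomial.X_comp, neg_neg,
      Polynomial.comp_X]
  have hPn' : Pn.comp (-Polynomial.X) = P := by rw [hPn]; exact hneg P
  have hQn' : Qn.comp (-Polynomial.X) = Q := by rw [hQn]; exact hneg Q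
  obtain ⟨N, hN⟩ := RLN.even_poly (P * Qn + Pn * Q) (by
    rw [Polynomial.add_comp, Polynomial.mul_comp, Polynomial.mul_comp, hPn', hQn', ← hPn, ← hQn]
    ring)
  obtain ⟨D, hD⟩ := RLN.even_poly (Q * Qn) (by
    rw [Polynomial.mul_comp, hQn', ← hQn]
    ring)
  obtain ⟨h1, h2⟩ := RLN.split _ hint
  have h3 : ∀ᵐ t : ℝ, ratFun (up k P) (up k Q) t + ratFun (up k P) (up k Q) (-t) =
      ratFun (up k N) (up k D) (t ^ 2) := by
    filter_upwards [RLN.ae_ne _ (RLN.up_ne Q hQ), RLN.ae_ne_neg _ (RLN.up_ne Q hQ)] with t ht1 ht2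
    unfold ratFun
    rw [← hN t, ← hD t, RLN.up_add, RLN.up_mul, RLN.up_mul, RLN.up_mul, hPn, hQn,
      RLN.up_comp_neg, RLN.up_comp_neg, div_add_div _ _ ht1 ht2]
    congr 1
    ring
  have h4 : IntegrableOn (fun t : ℝ => ratFun (up k N) (up k D) (t ^ 2)) (Set.Ioi 0) :=
    h1.congr (ae_restrict_of_ae h3)
  have h5 : ∫ t, ratFun (up k P) (up k Q) t =
      ∫ t in Set.Ioi (0 : ℝ), ratFun (up k N) (up k D) (t ^ 2) := by
    rw [h2]
    exact integral_congr_ae (ae_restrict_of_ae h3)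
  obtain ⟨h6, h7⟩ := RLN.subst (ratFun (up k N) (up k D)) h4
  obtain ⟨v, hv, hv2⟩ := hVAL k hk N D (-1 / 2) (by
    intro m hm
    have h8 : (-1 : ℚ) = 2 * m := by linarith
    have h9 : (-1 : ℤ) = 2 * m := by exact_mod_cast h8
    omega) h6
  refine ⟨v / 2, div_mem hv ?_, ?_⟩
  · exact ofNat_mem k 2
  · rw [h5]
    rw [h7] at hv2
    linarith

end Pool.Agent.ITR
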