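import Pool.Agent.ITR.St

/-!
# Iterated residues, module SAG: semialgebraic functions are algebraic
-/

set_option autoImplicit false

open MeasureTheory Filter Topology

namespace Pool.Agent.ITR

open Pool.Agent.Helper23.PeriodDefs

theorem thm_SAG (hFLD : St_FLD) : St_SAG := by
  classical
  intro n A g hS x hxA
  obtain ⟨hF1, hF2, -, -, -⟩ := hFLD
  obtain ⟨m, E, I, hS⟩ := hS
  -- real algebraic numbers are in `kf x`
  have hKx : ∀ a : RealAlg, (a : ℝ) ∈ kf x := by
    intro a
    rw [hF2]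
    have h1 : IsAlgebraic ℚ (a : ℝ) := mem_algebraicClosure_iff.1 a.2
    exact IsAlgebraic.tower_top (L := IntermediateField.adjoin ℚ (Set.range x)) h1
  have hxx : ∀ i, x i ∈ kf x := by
    intro i
    rw [hF2]
    have h1 : x i ∈ IntermediateField.adjoin ℚ (Set.range x) :=
      IntermediateField.subset_adjoin ℚ _ ⟨i, rfl⟩
    exact isAlgebraic_algebraMap (⟨x i, h1⟩ : IntermediateField.adjoin ℚ (Set.range x))
  let incl : RealAlg →+* kf x :=
    { toFun := fun a => ⟨(a : ℝ), hKx a⟩
      map_one' := rfl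
      map_mul' := fun _ _ => rfl
      map_zero' := rfl
      map_add' := fun _ _ => rfl }
  let w : ℝ → (Fin (n + 1) → ℝ) := fun T => Fin.snoc x T
  let F : MvPolynomial (Fin (n + 1)) RealAlg →+* Polynomial (kf x) :=
    MvPolynomial.eval₂Hom (Polynomial.C.comp incl)
      (Fin.snoc (fun i => Polynomial.C (⟨x i, hxx i⟩ : kf x)) Polynomial.X :
        Fin (n + 1) → Polynomial (kf x))
  have hF : ∀ (p : MvPolynomial (Fin (n + 1)) RealAlg) (T : ℝ),
      MvPolynomial.aeval (w T) p = Polynomial.aeval T (F p) := by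
    intro p T
    have h1 : ((Polynomial.aeval T : Polynomial (kf x) →ₐ[kf x] ℝ) : Polynomial (kf x) →+* ℝ).comp F =
        ((MvPolynomial.aeval (w T) : MvPolynomial (Fin (n + 1)) RealAlg →ₐ[RealAlg] ℝ) :
          MvPolynomial (Fin (n + 1)) RealAlg →+* ℝ) := by
      apply MvPolynomial.ringHom_ext
      · intro a
        simp only [F, RingHom.comp_apply, MvPolynomial.coe_eval₂Hom, MvPolynomial.eval₂_C,
          RingHom.coe_coe, Polynomial.aeval_C, MvPolynomial.aeval_C]
        rfl
      · intro i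
        simp only [F, RingHom.comp_apply, MvPolynomial.coe_eval₂Hom, MvPolynomial.eval₂_X,
          RingHom.coe_coe, MvPolynomial.aeval_X]
        refine Fin.lastCases ?_ (fun j => ?_) i
        · simp only [w, Fin.snoc_last, Polynomial.aeval_X]
        · simp only [w, Fin.snoc_castSucc, Polynomial.aeval_C]
          rfl
    have h2 := congrArg (fun φ : MvPolynomial (Fin (n + 1)) RealAlg →+* ℝ => φ p) h1
    exact h2.symm
  have hmem : ∀ T : ℝ, (∃ i, (∀ p ∈ E i, MvPolynomial.aeval (w T) p = 0) ∧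
      ∀ q ∈ I i, 0 < MvPolynomial.aeval (w T) q) ↔ T = g x := by
    intro T
    have h1 : w T ∈ {z : Fin (n + 1) → ℝ | Fin.init z ∈ A ∧ z (Fin.last n) = g (Fin.init z)} ↔
        T = g x := by
      rw [Set.mem_ofPred_eq]
      have e1 : Fin.init (w T) = x := Fin.init_snoc (α := fun _ => ℝ) T x
      have e2 : w T (Fin.last n) = T := Fin.snoc_last (α := fun _ => ℝ) T x
      rw [e1, e2]
      exact ⟨fun h => h.2, fun h => ⟨hxA, h⟩⟩
    rw [hS] at h1
    exact h1
  obtain ⟨i, hE, hI⟩ := (hmem (g x)).2 rfl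
  have hex : ∃ p ∈ E i, F p ≠ 0 := by
    by_contra hcon
    push Not at hcon
    have hcont : ∀ q : MvPolynomial (Fin (n + 1)) RealAlg,
        Continuous fun T : ℝ => MvPolynomial.aeval (w T) q := by
      intro q
      have h1 : (fun T : ℝ => MvPolynomial.aeval (w T) q) =
          fun T => ((F q).map (algebraMap (kf x) ℝ)).eval T := by
        funext T
        rw [hF, Polynomial.eval_map_algebraMap]
      rw [h1]
      exact Polynomial.continuous _
    have hev : ∀ᶠ T in 𝓝 (g x), ∀ q ∈ I i, 0 < MvPolynomial.aeval (w T) q := by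
      rw [Filter.eventually_all_finset]
      intro q hq
      exact (hcont q).continuousAt.eventually (lt_mem_nhds (hI q hq))
    have hev2 : ∀ᶠ T in 𝓝 (g x), T = g x := by
      filter_upwards [hev] with T hT
      refine (hmem T).1 ⟨i, ?_, hT⟩
      intro p hp
      rw [hF, hcon p hp, map_zero]
    have hev3 : ∀ᶠ T in 𝓝[≠] (g x), T = g x := hev2.filter_mono nhdsWithin_le_nhds
    have hev4 : ∀ᶠ T in 𝓝[≠] (g x), T ≠ g x := self_mem_nhdsWithin
    obtain ⟨T, hT1, hT2⟩ := (hev3.and hev4).exists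
    exact hT2 hT1
  obtain ⟨p, hp, hp0⟩ := hex
  have halg : IsAlgebraic (kf x) (g x) := ⟨F p, hp0, by rw [← hF]; exact hE p hp⟩
  exact (hF2 n x (g x)).1 ((hF1 n x).cl _ halg)

end Pool.Agent.ITR
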