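import Pool.Agent.ITR.St

/-!
# Iterated residues, module SCL: constants, type (e)
-/

set_option autoImplicit false

open MeasureTheory Filter

namespace Pool.Agent.ITR

private lemma SCL_ae {h g : ℝ → ℝ} (c : ℝ) (hg : h =ᵐ[volume] g) :
    (fun t => c * h t) =ᵐ[volume] fun t => c * g t := by
  filter_upwards [hg] with t ht
  rw [ht]

private lemma SCL_rat (c : ℝ) (P Q : Polynomial ℝ) (t : ℝ) :
    ratFun (Polynomial.C c * P) Q t = c * ratFun P Q t := by
  unfold ratFun
  rw [Polynomial.eval_mul, Polynomial.eval_C, mul_div_assoc]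

theorem thm_SCL : St_SCL := by
  intro c h
  refine ⟨?_, ?_, ?_, ?_, ?_⟩
  · rintro ⟨P, Q, hPQ⟩
    refine ⟨Polynomial.C c * P, Q, ?_⟩
    filter_upwards [hPQ] with t ht
    rw [SCL_rat, ht]
  · rintro ⟨P, Q, p, a, hp, hh⟩
    refine ⟨Polynomial.C c * P, Q, p, a, hp, ?_⟩
    rcases hh with ⟨b, q, m, hab, hm, hh⟩ | hh | hh
    · refine Or.inl ⟨b, q, m, hab, hm, ?_⟩
      filter_upwards [hh] with t ht
      rw [ht]
      by_cases hs : t ∈ Set.Ioo a b
      · rw [Set.indicator_of_mem hs, Set.indicator_of_mem hs, SCL_rat]; ring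
      · rw [Set.indicator_of_notMem hs, Set.indicator_of_notMem hs, mul_zero]
    · refine Or.inr (Or.inl ?_)
      filter_upwards [hh] with t ht
      rw [ht]
      by_cases hs : t ∈ Set.Ioi a
      · rw [Set.indicator_of_mem hs, Set.indicator_of_mem hs, SCL_rat]; ring
      · rw [Set.indicator_of_notMem hs, Set.indicator_of_notMem hs, mul_zero]
    · refine Or.inr (Or.inr ?_)
      filter_upwards [hh] with t ht
      rw [ht]
      by_cases hs : t ∈ Set.Iio a
      · rw [Set.indicator_of_mem hs, Set.indicator_of_mem hs, SCL_rat]; ring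
      · rw [Set.indicator_of_notMem hs, Set.indicator_of_notMem hs, mul_zero]
  · rintro ⟨m, a, b, c', I, hI, hb, hinj, hρ, hh⟩
    refine ⟨m, a, b, fun j => c * c' j, I, hI, hb, hinj, hρ, ?_⟩
    filter_upwards [hh] with t ht
    rw [ht]
    by_cases hs : t ∈ I
    · rw [Set.indicator_of_mem hs, Set.indicator_of_mem hs, Finset.mul_sum]
      refine Finset.sum_congr rfl fun j _ => ?_
      ring
    · rw [Set.indicator_of_notMem hs, Set.indicator_of_notMem hs, mul_zero]
  · rintro ⟨a, ha⟩
    have h1 : ∫ t, h (2 * a - t) = ∫ t, h t := integral_sub_left_eq_self h volume (2 * a)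
    have h2 : ∫ t, h (2 * a - t) = ∫ t, -h t := integral_congr_ae ha
    rw [integral_neg] at h2
    linarith
  · rintro F ⟨H, S, p, hp, hpH, hH, hS, hA, hh⟩
    by_cases hc : c = 0
    · refine ⟨fun _ => 0, S, Polynomial.X, Polynomial.X_ne_zero, ?_, continuous_const, hS,
        fun _ _ => analyticAt_const, ?_⟩
      · intro t
        rw [Polynomial.map_X, Polynomial.eval_X]
      · refine Eventually.of_forall fun t => ?_
        simp only
        rw [hc, zero_mul, deriv_const]
    · refine ⟨fun t => c * H t, S, p.comp (Polynomial.C (Polynomial.C c⁻¹) * Polynomial.X), ?_, ?_,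
        hH.const_mul c, hS, fun t ht => analyticAt_const.mul (hA t ht), ?_⟩
      · intro h0
        have hdeg : (Polynomial.C (Polynomial.C c⁻¹) * Polynomial.X :
            Polynomial (Polynomial ℝ)).natDegree = 1 := by
          rw [Polynomial.natDegree_C_mul_X]
          rw [Ne, Polynomial.C_eq_zero]
          exact inv_ne_zero hc
        rcases Polynomial.comp_eq_zero_iff.1 h0 with h1 | ⟨h1, h2⟩
        · exact hp h1
        · rw [h2, Polynomial.natDegree_C] at hdeg
          exact zero_ne_one hdeg
      · intro t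
        rw [Polynomial.map_comp, Polynomial.eval_comp, Polynomial.map_mul, Polynomial.map_C,
          Polynomial.map_X, Polynomial.eval_mul, Polynomial.eval_C, Polynomial.eval_X]
        have h1 : (Polynomial.evalRingHom t) (Polynomial.C c⁻¹) = c⁻¹ := by
          simp
        rw [h1, inv_mul_cancel_left₀ hc]
        exact hpH t
      · have h2 : deriv (fun t => c * H t) = fun t => c * deriv H t := by
          funext t
          exact deriv_const_mul_field c
        rw [h2]
        exact SCL_ae c hh

end Pool.Agent.ITR
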