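import Pool.Agent.ITR.St

/-!
# Iterated residues: module TAY (Taylor coefficients of an algebraic function)
-/

set_option autoImplicit false

open MeasureTheory Filter Topology

namespace Pool.Agent.ITR
namespace TAY

variable {k : IntermediateField ℚ ℝ}

lemma ev2_mul (p q : Polynomial (Polynomial k)) (t s : ℝ) :
    ev2 k (p * q) t s = ev2 k p t s * ev2 k q t s := by
  unfold ev2
  rw [Polynomial.map_mul, Polynomial.eval_mul]

lemma ev2_C (p : Polynomial k) (t s : ℝ) : ev2 k (Polynomial.C p) t s = ev k t p := by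
  unfold ev2
  rw [Polynomial.map_C, Polynomial.eval_C]

lemma ev_X (t : ℝ) : ev k t Polynomial.X = t := by
  simp [ev]

lemma ev_C (t : ℝ) (c : k) : ev k t (Polynomial.C c) = (c : ℝ) := by
  simp [ev]

lemma ev2_comp (p q : Polynomial (Polynomial k)) (t s : ℝ) :
    ev2 k (p.comp q) t s = ev2 k p t (ev2 k q t s) := by
  unfold ev2
  rw [Polynomial.map_comp, Polynomial.eval_comp]

lemma cont_ev (q : Polynomial k) : Continuous fun t : ℝ => ev k t q := by
  have h : (fun t : ℝ => ev k t q) = fun t => (q.map (algebraMap k ℝ)).eval t := by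
    funext t
    simp [ev, Polynomial.eval_map]
  rw [h]
  exact Polynomial.continuous _

lemma cont_ev2 (p : Polynomial (Polynomial k)) (φ : ℝ → ℝ) (x₀ : ℝ) (h : ContinuousAt φ x₀) :
    ContinuousAt (fun x => ev2 k p x (φ x)) x₀ := by
  have h1 : (fun x => ev2 k p x (φ x)) =
      fun x => ∑ j ∈ Finset.range (p.natDegree + 1), ev k x (p.coeff j) * φ x ^ j := by
    funext x
    unfold ev2
    rw [Polynomial.eval_map, Polynomial.eval₂_eq_sum_range]
  rw [h1]
  refine tendsto_finsetSum _ fun j _ => ?_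
  exact ((cont_ev (p.coeff j)).continuousAt).mul (h.pow j)

lemma base (hFAC : St_FAC) (hk : RC k) (x₀ : ℝ) (hx₀ : x₀ ∈ k) (φ : ℝ → ℝ)
    (P : Polynomial (Polynomial k)) (hP : P ≠ 0) (hφ : ContinuousAt φ x₀)
    (h0 : ∀ᶠ x in 𝓝 x₀, ev2 k P x (φ x) = 0) : φ x₀ ∈ k := by
  obtain ⟨e, P', hPP, hP'⟩ := hFAC k ⟨x₀, hx₀⟩ P hP
  have h1 : ∀ᶠ x in 𝓝[≠] x₀, ev2 k P' x (φ x) = 0 := by
    have h2 : ∀ᶠ x in 𝓝[≠] x₀, ev2 k P x (φ x) = 0 := h0.filter_mono nhdsWithin_le_nhds
    have h3 : ∀ᶠ x in 𝓝[≠] x₀, x ≠ x₀ := eventually_mem_nhdsWithin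
    filter_upwards [h2, h3] with x hx hxx
    rw [hPP, ev2_mul, ev2_C, map_pow, map_sub, ev_X, ev_C] at hx
    rcases mul_eq_zero.1 hx with h | h
    · exact absurd h (pow_ne_zero e (sub_ne_zero.2 hxx))
    · exact h
  have h4 : ev2 k P' x₀ (φ x₀) = 0 := by
    have h5 : Tendsto (fun x => ev2 k P' x (φ x)) (𝓝[≠] x₀) (𝓝 (ev2 k P' x₀ (φ x₀))) :=
      (cont_ev2 P' φ x₀ hφ).tendsto.mono_left nhdsWithin_le_nhds
    have h6 : Tendsto (fun x => ev2 k P' x (φ x)) (𝓝[≠] x₀) (𝓝 0) := by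
      refine tendsto_const_nhds.congr' ?_
      filter_upwards [h1] with x hx
      exact hx.symm
    exact tendsto_nhds_unique h5 h6
  refine hk.cl _ ⟨P'.map (Polynomial.evalRingHom (⟨x₀, hx₀⟩ : k)), hP', ?_⟩
  have h7 : ev k x₀ = (algebraMap k ℝ).comp (Polynomial.evalRingHom (⟨x₀, hx₀⟩ : k)) := by
    apply Polynomial.ringHom_ext
    · intro a
      simp [ev]
    · simp [ev]
  rw [Polynomial.aeval_def, Polynomial.eval₂_map, ← h7]
  unfold ev2 at h4
  rw [Polynomial.eval_map] at h4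
  exact h4

lemma coeff_step (φ : ℝ → ℝ) (x₀ : ℝ) (hφ : AnalyticAt ℝ φ x₀) :
    AnalyticAt ℝ (dslope φ x₀) x₀ ∧ ∀ n : ℕ,
      iteratedDeriv (n + 1) φ x₀ = (n + 1 : ℝ) * iteratedDeriv n (dslope φ x₀) x₀ := by
  have h1 := hφ.hasFPowerSeriesAt
  have h2 := h1.has_fpower_series_dslope_fslope
  have h3 : AnalyticAt ℝ (dslope φ x₀) x₀ := ⟨_, h2⟩
  refine ⟨h3, fun n => ?_⟩
  have h4 := h3.hasFPowerSeriesAt
  have h5 := h2.eq_formalMultilinearSeries h4
  have h6 := congrArg (fun q : FormalMultilinearSeries ℝ ℝ ℝ => q.coeff n) h5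
  beta_reduce at h6
  rw [FormalMultilinearSeries.coeff_fslope, FormalMultilinearSeries.coeff_ofScalars,
    FormalMultilinearSeries.coeff_ofScalars] at h6
  have h7 : ((n + 1).factorial : ℝ) = (n + 1 : ℝ) * (n.factorial : ℝ) := by
    rw [Nat.factorial_succ]
    push_cast
    ring
  have h8 : (n.factorial : ℝ) ≠ 0 := by exact_mod_cast n.factorial_ne_zero
  have h9 : (n + 1 : ℝ) ≠ 0 := by positivity
  rw [h7] at h6
  rw [div_eq_div_iff (mul_ne_zero h9 h8) h8] at h6
  have h10 : (n.factorial : ℝ) * iteratedDeriv (n + 1) φ x₀ =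
      (n.factorial : ℝ) * ((n + 1 : ℝ) * iteratedDeriv n (dslope φ x₀) x₀) := by
    linarith
  exact mul_left_cancel₀ h8 h10

theorem main (hFAC : St_FAC) (hk : RC k) (x₀ : ℝ) (hx₀ : x₀ ∈ k) :
    ∀ (n : ℕ) (φ : ℝ → ℝ) (P : Polynomial (Polynomial k)), P ≠ 0 → AnalyticAt ℝ φ x₀ →
    (∀ᶠ x in 𝓝 x₀, ev2 k P x (φ x) = 0) → iteratedDeriv n φ x₀ ∈ k := by
  intro n
  induction n with
  | zero =>
    intro φ P hP hφ h0
    rw [iteratedDeriv_zero]
    exact base hFAC hk x₀ hx₀ φ P hP hφ.continuousAt h0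
  | succ n ih =>
    intro φ P hP hφ h0
    obtain ⟨h1, h2⟩ := coeff_step φ x₀ hφ
    have ha : φ x₀ ∈ k := base hFAC hk x₀ hx₀ φ P hP hφ.continuousAt h0
    rw [h2 n]
    refine mul_mem ?_ ?_
    · have : ((n + 1 : ℕ) : ℝ) ∈ k := natCast_mem k (n + 1)
      push_cast at this
      exact this
    · refine ih (dslope φ x₀) (P.comp (Polynomial.C (Polynomial.C (⟨φ x₀, ha⟩ : k)) +
        Polynomial.C (Polynomial.X - Polynomial.C (⟨x₀, hx₀⟩ : k)) * Polynomial.X)) ?_ h1 ?_
      · rw [Ne, Polynomial.comp_eq_zero_iff]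
        rintro (h | ⟨-, h⟩)
        · exact hP h
        · have h3 := congrArg (fun q : Polynomial (Polynomial k) => q.coeff 1) h
          beta_reduce at h3
          rw [Polynomial.coeff_add, Polynomial.coeff_C_mul, Polynomial.coeff_X_one, mul_one,
            Polynomial.coeff_C_of_ne_zero one_ne_zero, Polynomial.coeff_C_of_ne_zero one_ne_zero,
            zero_add] at h3
          exact Polynomial.X_sub_C_ne_zero _ h3
      · filter_upwards [h0] with x hx
        rw [ev2_comp]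
        have h4 : ev2 k (Polynomial.C (Polynomial.C (⟨φ x₀, ha⟩ : k)) +
            Polynomial.C (Polynomial.X - Polynomial.C (⟨x₀, hx₀⟩ : k)) * Polynomial.X) x
            (dslope φ x₀ x) = φ x := by
          have h5 : (x - x₀) * dslope φ x₀ x = φ x - φ x₀ := by
            have := sub_smul_dslope φ x₀ x
            rw [smul_eq_mul] at this
            exact this
          have h6 : ev2 k (Polynomial.C (Polynomial.C (⟨φ x₀, ha⟩ : k)) +
            Polynomial.C (Polynomial.X - Polynomial.C (⟨x₀, hx₀⟩ : k)) * Polynomial.X) x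
            (dslope φ x₀ x) = φ x₀ + (x - x₀) * dslope φ x₀ x := by
            unfold ev2
            rw [Polynomial.map_add, Polynomial.map_mul, Polynomial.map_C, Polynomial.map_C,
              Polynomial.map_X, Polynomial.eval_add, Polynomial.eval_mul, Polynomial.eval_C,
              Polynomial.eval_C, Polynomial.eval_X, map_sub, ev_C, ev_C, ev_X]
          rw [h6, h5]
          ring
        rw [h4]
        exact hx

end TAY

theorem thm_TAY (hFAC : St_FAC) : St_TAY :=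
  fun _ hk x₀ hx₀ => TAY.main hFAC hk x₀ hx₀

end Pool.Agent.ITR
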