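import Pool.Agent.ITR.St

/-!
# Iterated residues: type (b)
-/

set_option autoImplicit false

open MeasureTheory Filter Topology

namespace Pool.Agent.ITR

open Pool.Agent.Helper23.PeriodDefs

theorem TWF_roots (Q : Polynomial ℝ) (hQ : Q ≠ 0) : ∀ᵐ t : ℝ, Q.eval t ≠ 0 := by
  have h1 : {t : ℝ | Q.eval t = 0}.Finite := by
    refine (Q.roots.toFinset.finite_toSet).subset fun t ht => ?_
    rw [Finset.mem_coe, Multiset.mem_toFinset, Polynomial.mem_roots hQ]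
    exact ht
  have h2 : volume {t : ℝ | Q.eval t = 0} = 0 := h1.measure_zero volume
  rw [ae_iff]
  simpa using h2

theorem TWF_up (k : IntermediateField ℚ ℝ) (Q : Polynomial k) (hQ : Q ≠ 0) : up k Q ≠ 0 := by
  intro h
  apply hQ
  exact (Polynomial.map_eq_zero_iff (algebraMap k ℝ).injective).mp h

theorem TWF_rat (k : IntermediateField ℚ ℝ) (P Q : Polynomial ℝ) (P₁ Q₁ : Polynomial k)
    (hQ : Q ≠ 0) (hQ₁ : Q₁ ≠ 0) (h : P * up k Q₁ = up k P₁ * Q) :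
    ∀ᵐ t : ℝ, ratFun P Q t = ratFun (up k P₁) (up k Q₁) t := by
  filter_upwards [TWF_roots Q hQ, TWF_roots (up k Q₁) (TWF_up k Q₁ hQ₁)] with t h1 h2
  unfold ratFun
  rw [div_eq_div_iff h1 h2, ← Polynomial.eval_mul, ← Polynomial.eval_mul, h]

/-- the fibre in terms of polynomials over `k` -/
theorem TWF_main (k : IntermediateField ℚ ℝ) (h w : ℝ → ℝ) (I : Set ℝ) (hI : MeasurableSet I)
    (P Q : Polynomial ℝ) (P₁ Q₁ : Polynomial k) (hQ : Q ≠ 0) (hQ₁ : Q₁ ≠ 0)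
    (hPQ : P * up k Q₁ = up k P₁ * Q) (hh : Integrable h)
    (he : h =ᵐ[volume] I.indicator (fun t => w t * ratFun P Q t)) :
    IntegrableOn (fun t : ℝ => w t * ratFun (up k P₁) (up k Q₁) t) I ∧
      ∫ t, h t = ∫ t in I, w t * ratFun (up k P₁) (up k Q₁) t := by
  have h1 : h =ᵐ[volume] I.indicator (fun t => w t * ratFun (up k P₁) (up k Q₁) t) := by
    filter_upwards [he, TWF_rat k P Q P₁ Q₁ hQ hQ₁ hPQ] with t h2 h3
    rw [h2]
    by_cases ht : t ∈ I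
    · rw [Set.indicator_of_mem ht, Set.indicator_of_mem ht, h3]
    · rw [Set.indicator_of_notMem ht, Set.indicator_of_notMem ht]
  constructor
  · rw [← integrable_indicator_iff hI]
    exact hh.congr h1
  · rw [integral_congr_ae h1, integral_indicator hI]

/-- the trivial case -/
theorem TWF_zero (h w : ℝ → ℝ) (I : Set ℝ) (P Q : Polynomial ℝ) (h0 : P = 0 ∨ Q = 0)
    (he : h =ᵐ[volume] I.indicator (fun t => w t * ratFun P Q t)) : ∫ t, h t = 0 := by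
  have h1 : h =ᵐ[volume] fun _ => 0 := by
    filter_upwards [he] with t h2
    rw [h2]
    by_cases ht : t ∈ I
    · rw [Set.indicator_of_mem ht]
      unfold ratFun
      rcases h0 with h0 | h0 <;> rw [h0] <;> simp
    · rw [Set.indicator_of_notMem ht]
  rw [integral_congr_ae h1, integral_zero]

/-- the values on `I` are algebraic over `k(t)` -/
theorem TWF_alg (k : IntermediateField ℚ ℝ) (h f : ℝ → ℝ) (I : Set ℝ)
    (he : h =ᵐ[volume] I.indicator f) (ha : ∀ᵐ t : ℝ, AlgAt k t (h t)) :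
    ∀ᵐ t : ℝ, t ∈ I → AlgAt k t (f t) := by
  filter_upwards [he, ha] with t h1 h2 ht
  rw [h1, Set.indicator_of_mem ht] at h2
  exact h2

theorem thm_TWF (hTWD : St_TWD) (hTWV : St_TWV) : St_TWF := by
  intro k hk h hT hh ha
  obtain ⟨P, Q, p, a, hp, hc⟩ := hT
  by_cases h0 : P = 0 ∨ Q = 0
  · refine ⟨0, zero_mem k, ?_⟩
    rw [zero_mul]
    rcases hc with ⟨b, q, m, -, -, he⟩ | he | he
    · exact TWF_zero h _ _ P Q h0 he
    · exact TWF_zero h _ _ P Q h0 he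
    · exact TWF_zero h _ _ P Q h0 he
  push Not at h0
  obtain ⟨d1, d2, d3⟩ := hTWD k hk P Q p a h0.1 h0.2 hp
  rcases hc with ⟨b, q, m, hab, hpq, he⟩ | he | he
  · obtain ⟨hak, hbk, P₁, Q₁, hQ₁, hPQ⟩ := d1 b q m hab hpq (TWF_alg k h _ _ he ha)
    obtain ⟨h1, h2⟩ := TWF_main k h _ _ measurableSet_Ioo P Q P₁ Q₁ h0.2 hQ₁ hPQ hh he
    obtain ⟨v, hv, hv2⟩ := (hTWV k hk P₁ Q₁ p a hp hak).1 b q m hab hbk hpq h1
    exact ⟨v, hv, by rw [h2, hv2]⟩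
  · obtain ⟨hak, P₁, Q₁, hQ₁, hPQ⟩ := d2 (TWF_alg k h _ _ he ha)
    obtain ⟨h1, h2⟩ := TWF_main k h _ _ measurableSet_Ioi P Q P₁ Q₁ h0.2 hQ₁ hPQ hh he
    obtain ⟨v, hv, hv2⟩ := (hTWV k hk P₁ Q₁ p a hp hak).2.1 h1
    exact ⟨v, hv, by rw [h2, hv2]⟩
  · obtain ⟨hak, P₁, Q₁, hQ₁, hPQ⟩ := d3 (TWF_alg k h _ _ he ha)
    obtain ⟨h1, h2⟩ := TWF_main k h _ _ measurableSet_Iio P Q P₁ Q₁ h0.2 hQ₁ hPQ hh he
    obtain ⟨v, hv, hv2⟩ := (hTWV k hk P₁ Q₁ p a hp hak).2.2 h1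
    exact ⟨v, hv, by rw [h2, hv2]⟩

end Pool.Agent.ITR
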