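import Pool.Agent.ITR.St

/-!
# Iterated residues, TWV: values of twisted integrals over `k` (helper58)
-/

set_option autoImplicit false

open MeasureTheory Filter Topology Set

namespace Pool.Agent.ITR

/-- change of variables -/
theorem TWV_cv (φ φ' : ℝ → ℝ) (T : Set ℝ)
    (hφ : ∀ u ∈ Ioi (0 : ℝ), HasDerivWithinAt φ (φ' u) (Ioi 0) u) (hinj : InjOn φ (Ioi 0))
    (himg : φ '' Ioi 0 = T) (f g : ℝ → ℝ) (hg : ∀ u ∈ Ioi (0 : ℝ), |φ' u| * f (φ u) = g u) :
    (IntegrableOn f T → IntegrableOn g (Ioi 0)) ∧ ∫ t in T, f t = ∫ u in Ioi 0, g u := by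
  have h1 := integrableOn_image_iff_integrableOn_abs_deriv_smul measurableSet_Ioi hφ hinj f
  have h2 := integral_image_eq_integral_abs_deriv_smul measurableSet_Ioi hφ hinj f
  rw [himg] at h1 h2
  constructor
  · intro h
    refine (h1.1 h).congr_fun (fun u hu => ?_) measurableSet_Ioi
    show |φ' u| • f (φ u) = g u
    rw [smul_eq_mul]
    exact hg u hu
  · rw [h2]
    refine setIntegral_congr_fun measurableSet_Ioi fun u hu => ?_
    show |φ' u| • f (φ u) = g u
    rw [smul_eq_mul]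
    exact hg u hu

theorem TWV_comp (k : IntermediateField ℚ ℝ) (P R : Polynomial k) (u : ℝ) :
    (up k (P.comp R)).eval u = (up k P).eval ((up k R).eval u) := by
  unfold up
  rw [Polynomial.map_comp, Polynomial.eval_comp]

/-- homogenization -/
theorem TWV_hom (k : IntermediateField ℚ ℝ) (a b : k) (P : Polynomial k) (d : ℕ)
    (hd : P.natDegree ≤ d) : ∃ P₁ : Polynomial k, ∀ u : ℝ, 1 + u ≠ 0 →
      (up k P₁).eval u = (1 + u) ^ d * (up k P).eval (((a : ℝ) + b * u) / (1 + u)) := by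
  refine ⟨∑ i ∈ Finset.range (d + 1), Polynomial.C (P.coeff i) *
    (Polynomial.C a + Polynomial.C b * Polynomial.X) ^ i * (1 + Polynomial.X) ^ (d - i), ?_⟩
  intro u hu
  have h1 : (up k P).natDegree < d + 1 := by
    unfold up
    exact Nat.lt_succ_of_le ((Polynomial.natDegree_map_le).trans hd)
  rw [Polynomial.eval_eq_sum_range' h1, Finset.mul_sum]
  unfold up
  rw [Polynomial.map_sum, Polynomial.eval_finsetSum]
  refine Finset.sum_congr rfl fun i hi => ?_
  have hi' : i ≤ d := by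
    have := Finset.mem_range.1 hi
    omega
  have h2 : (1 + u) ^ d = (1 + u) ^ i * (1 + u) ^ (d - i) := by
    rw [← pow_add]
    congr 1
    omega
  rw [h2, div_pow]
  simp only [Polynomial.map_mul, Polynomial.map_pow, Polynomial.map_add, Polynomial.map_C,
    Polynomial.map_X, Polynomial.map_one, Polynomial.eval_mul, Polynomial.eval_pow,
    Polynomial.eval_add, Polynomial.eval_C, Polynomial.eval_X, Polynomial.eval_one,
    Polynomial.coeff_map]
  have h3 : (1 + u) ^ i ≠ 0 := pow_ne_zero _ hu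
  have e1 : (algebraMap k ℝ) a = (a : ℝ) := rfl
  have e2 : (algebraMap k ℝ) b = (b : ℝ) := rfl
  rw [e1, e2]
  field_simp

theorem thm_TWV (hVAL : St_VAL) : St_TWV := by
  intro k hk P Q p a hp ha
  obtain ⟨a', rfl⟩ : ∃ a' : k, (a' : ℝ) = a := ⟨⟨a, ha⟩, rfl⟩
  refine ⟨?_, ?_, ?_⟩
  · intro b q m hab hb hpq hint
    obtain ⟨b', rfl⟩ : ∃ b' : k, (b' : ℝ) = b := ⟨⟨b, hb⟩, rfl⟩
    set d : ℕ := max P.natDegree Q.natDegree with hd
    obtain ⟨P₁, hP₁⟩ := TWV_hom k a' b' P d (le_max_left _ _)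
    obtain ⟨Q₁, hQ₁⟩ := TWV_hom k a' b' Q d (le_max_right _ _)
    have hba : 0 < (b' : ℝ) - a' := by linarith
    set e : ℤ := -m - 2 with he
    have hder : ∀ u ∈ Ioi (0 : ℝ), HasDerivWithinAt (fun u : ℝ => ((a' : ℝ) + b' * u) / (1 + u))
        ((fun u : ℝ => ((b' : ℝ) - a') / (1 + u) ^ 2) u) (Ioi 0) u := by
      intro u hu
      have hu0 : (0 : ℝ) < u := hu
      have h3 : (1 : ℝ) + u ≠ 0 := by positivity
      have h4 : HasDerivAt (fun u : ℝ => ((a' : ℝ) + b' * u) / (1 + u))
          ((b' * 1 * (1 + u) - ((a' : ℝ) + b' * u) * 1) / (1 + u) ^ 2) u :=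
        (((hasDerivAt_id u).const_mul (b' : ℝ)).const_add (a' : ℝ)).div
          ((hasDerivAt_id u).const_add (1 : ℝ)) h3
      have h5 : (b' * 1 * (1 + u) - ((a' : ℝ) + b' * u) * 1) / (1 + u) ^ 2 =
          ((b' : ℝ) - a') / (1 + u) ^ 2 := by
        congr 1
        ring
      rw [h5] at h4
      exact h4.hasDerivWithinAt
    have hinj : InjOn (fun u : ℝ => ((a' : ℝ) + b' * u) / (1 + u)) (Ioi 0) := by
      intro u hu w hw huw
      have hu0 : (0 : ℝ) < u := hu
      have hw0 : (0 : ℝ) < w := hw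
      have h3 : (1 : ℝ) + u ≠ 0 := by positivity
      have h4 : (1 : ℝ) + w ≠ 0 := by positivity
      simp only at huw
      rw [div_eq_div_iff h3 h4] at huw
      have h5 : ((b' : ℝ) - a') * (u - w) = 0 := by linear_combination huw
      rcases mul_eq_zero.1 h5 with h6 | h6
      · exact absurd h6 hba.ne'
      · linarith
    have himg : (fun u : ℝ => ((a' : ℝ) + b' * u) / (1 + u)) '' Ioi 0 = Ioo (a' : ℝ) b' := by
      ext t
      constructor
      · rintro ⟨u, hu, rfl⟩
        have hu0 : (0 : ℝ) < u := hu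
        have h3 : (0 : ℝ) < 1 + u := by positivity
        constructor
        · show (a' : ℝ) < ((a' : ℝ) + b' * u) / (1 + u)
          rw [lt_div_iff₀ h3]
          nlinarith
        · show ((a' : ℝ) + b' * u) / (1 + u) < b'
          rw [div_lt_iff₀ h3]
          nlinarith
      · rintro ⟨h3, h4⟩
        have h5 : 0 < t - a' := by linarith
        have h6 : 0 < (b' : ℝ) - t := by linarith
        refine ⟨(t - a') / (b' - t), div_pos h5 h6, ?_⟩
        show ((a' : ℝ) + b' * ((t - a') / (b' - t))) / (1 + (t - a') / (b' - t)) = t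
        have h7 : (b' : ℝ) - t ≠ 0 := h6.ne'
        have h8 : (1 : ℝ) + (t - a') / (b' - t) ≠ 0 := by positivity
        rw [div_eq_iff h8]
        field_simp
        ring
    have hg : ∀ u ∈ Ioi (0 : ℝ), |(fun u : ℝ => ((b' : ℝ) - a') / (1 + u) ^ 2) u| *
        (fun t : ℝ => (t - a') ^ (p : ℝ) * (b' - t) ^ (q : ℝ) * ratFun (up k P) (up k Q) t)
          ((fun u : ℝ => ((a' : ℝ) + b' * u) / (1 + u)) u) =
        (fun u : ℝ => u ^ (p : ℝ) * ratFun
          (up k (Polynomial.C ((b' - a') ^ (m + 1)) * (1 + Polynomial.X) ^ e.toNat * P₁))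
          (up k ((1 + Polynomial.X) ^ (-e).toNat * Q₁)) u) u := by
      intro u hu
      have hu0 : (0 : ℝ) < u := hu
      have h3 : (0 : ℝ) < 1 + u := by positivity
      have h3' : (1 : ℝ) + u ≠ 0 := h3.ne'
      show |((b' : ℝ) - a') / (1 + u) ^ 2| *
        ((((a' : ℝ) + b' * u) / (1 + u) - a') ^ (p : ℝ) *
          (b' - ((a' : ℝ) + b' * u) / (1 + u)) ^ (q : ℝ) *
          ratFun (up k P) (up k Q) (((a' : ℝ) + b' * u) / (1 + u))) =
        u ^ (p : ℝ) * ratFun
          (up k (Polynomial.C ((b' - a') ^ (m + 1)) * (1 + Polynomial.X) ^ e.toNat * P₁))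
          (up k ((1 + Polynomial.X) ^ (-e).toNat * Q₁)) u
      have e1 : ((a' : ℝ) + b' * u) / (1 + u) - a' = u * ((b' - a') / (1 + u)) := by
        field_simp
        ring
      have e2 : (b' : ℝ) - ((a' : ℝ) + b' * u) / (1 + u) = (b' - a') / (1 + u) := by
        field_simp
        ring
      have hc : 0 < ((b' : ℝ) - a') / (1 + u) := div_pos hba h3
      have e3 : (u * (((b' : ℝ) - a') / (1 + u))) ^ (p : ℝ) * (((b' : ℝ) - a') / (1 + u)) ^ (q : ℝ) =
          u ^ (p : ℝ) * (((b' : ℝ) - a') / (1 + u)) ^ m := by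
        rw [Real.mul_rpow hu0.le hc.le, mul_assoc, ← Real.rpow_add hc]
        have : (p : ℝ) + (q : ℝ) = (m : ℝ) := by exact_mod_cast hpq
        rw [this, Real.rpow_intCast]
      have e4 : ratFun (up k P) (up k Q) (((a' : ℝ) + b' * u) / (1 + u)) =
          ratFun (up k P₁) (up k Q₁) u := by
        unfold ratFun
        rw [hP₁ u h3', hQ₁ u h3', mul_div_mul_left _ _ (pow_ne_zero _ h3')]
      have e5 : ratFun
          (up k (Polynomial.C ((b' - a') ^ (m + 1)) * (1 + Polynomial.X) ^ e.toNat * P₁))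
          (up k ((1 + Polynomial.X) ^ (-e).toNat * Q₁)) u =
          ((b' : ℝ) - a') ^ (m + 1) * (1 + u) ^ e * ratFun (up k P₁) (up k Q₁) u := by
        unfold ratFun up
        simp only [Polynomial.map_mul, Polynomial.map_pow, Polynomial.map_add, Polynomial.map_C,
          Polynomial.map_X, Polynomial.map_one, Polynomial.eval_mul, Polynomial.eval_pow,
          Polynomial.eval_add, Polynomial.eval_C, Polynomial.eval_X, Polynomial.eval_one]
        have e6 : (algebraMap k ℝ) ((b' - a') ^ (m + 1)) = ((b' : ℝ) - a') ^ (m + 1) := by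
          rw [map_zpow₀, map_sub]
          rfl
        have e7 : (1 + u) ^ e = (1 + u) ^ e.toNat / (1 + u) ^ (-e).toNat := by
          have h8 : e = (e.toNat : ℤ) - ((-e).toNat : ℤ) := by omega
          conv_lhs => rw [h8]
          rw [zpow_sub₀ h3', zpow_natCast, zpow_natCast]
        rw [e6, e7, mul_div_mul_comm, mul_div_assoc]
      rw [e1, e2, e3, e4, e5, abs_of_pos (by positivity)]
      have e8 : ((b' : ℝ) - a') / (1 + u) ^ 2 * (((b' : ℝ) - a') / (1 + u)) ^ m =
          ((b' : ℝ) - a') ^ (m + 1) * (1 + u) ^ e := by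
        rw [div_zpow, he, zpow_add₀ hba.ne', zpow_one, zpow_sub₀ h3', zpow_neg]
        field_simp
      rw [← e8]
      ring
    obtain ⟨h1, h2⟩ := TWV_cv _ _ _ hder hinj himg
      (fun t : ℝ => (t - a') ^ (p : ℝ) * (b' - t) ^ (q : ℝ) * ratFun (up k P) (up k Q) t)
      (fun u : ℝ => u ^ (p : ℝ) * ratFun
          (up k (Polynomial.C ((b' - a') ^ (m + 1)) * (1 + Polynomial.X) ^ e.toNat * P₁))
          (up k ((1 + Polynomial.X) ^ (-e).toNat * Q₁)) u) hg
    obtain ⟨v, hv, hv'⟩ := hVAL k hk _ _ p hp (h1 hint)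
    exact ⟨v, hv, h2.trans hv'⟩
  · intro hint
    have hder : ∀ u ∈ Ioi (0 : ℝ), HasDerivWithinAt (fun u : ℝ => (a' : ℝ) + u)
        ((fun _ : ℝ => (1 : ℝ)) u) (Ioi 0) u := fun u hu =>
      ((hasDerivAt_id u).const_add (a' : ℝ)).hasDerivWithinAt
    have hinj : InjOn (fun u : ℝ => (a' : ℝ) + u) (Ioi 0) := fun u _ w _ huw =>
      add_left_cancel huw
    have himg : (fun u : ℝ => (a' : ℝ) + u) '' Ioi 0 = Ioi (a' : ℝ) := by
      ext t
      constructor
      · rintro ⟨u, hu, rfl⟩
        have hu0 : (0 : ℝ) < u := hu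
        show (a' : ℝ) < a' + u
        linarith
      · intro ht
        have ht' : (a' : ℝ) < t := ht
        refine ⟨t - a', ?_, ?_⟩
        · show (0 : ℝ) < t - a'
          linarith
        · show (a' : ℝ) + (t - a') = t
          ring
    have hg : ∀ u ∈ Ioi (0 : ℝ), |(fun _ : ℝ => (1 : ℝ)) u| *
        (fun t : ℝ => (t - a') ^ (p : ℝ) * ratFun (up k P) (up k Q) t)
          ((fun u : ℝ => (a' : ℝ) + u) u) =
        (fun u : ℝ => u ^ (p : ℝ) * ratFun
          (up k (P.comp (Polynomial.C a' + Polynomial.X)))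
          (up k (Q.comp (Polynomial.C a' + Polynomial.X))) u) u := by
      intro u hu
      show |(1 : ℝ)| * (((a' : ℝ) + u - a') ^ (p : ℝ) * ratFun (up k P) (up k Q) ((a' : ℝ) + u)) =
        u ^ (p : ℝ) * ratFun
          (up k (P.comp (Polynomial.C a' + Polynomial.X)))
          (up k (Q.comp (Polynomial.C a' + Polynomial.X))) u
      have e1 : (a' : ℝ) + u - a' = u := by ring
      have e2 : (up k (Polynomial.C a' + Polynomial.X)).eval u = (a' : ℝ) + u := by
        unfold up
        simp only [Polynomial.map_add, Polynomial.map_C, Polynomial.map_X, Polynomial.eval_add,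
          Polynomial.eval_C, Polynomial.eval_X]
        rfl
      rw [e1, abs_one, one_mul]
      unfold ratFun
      rw [TWV_comp, TWV_comp, e2]
    obtain ⟨h1, h2⟩ := TWV_cv _ _ _ hder hinj himg
      (fun t : ℝ => (t - a') ^ (p : ℝ) * ratFun (up k P) (up k Q) t)
      (fun u : ℝ => u ^ (p : ℝ) * ratFun
          (up k (P.comp (Polynomial.C a' + Polynomial.X)))
          (up k (Q.comp (Polynomial.C a' + Polynomial.X))) u) hg
    obtain ⟨v, hv, hv'⟩ := hVAL k hk _ _ p hp (h1 hint)
    exact ⟨v, hv, h2.trans hv'⟩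
  · intro hint
    have hder : ∀ u ∈ Ioi (0 : ℝ), HasDerivWithinAt (fun u : ℝ => (a' : ℝ) - u)
        ((fun _ : ℝ => (-1 : ℝ)) u) (Ioi 0) u := fun u hu =>
      ((hasDerivAt_id u).const_sub (a' : ℝ)).hasDerivWithinAt
    have hinj : InjOn (fun u : ℝ => (a' : ℝ) - u) (Ioi 0) := fun u _ w _ huw =>
      sub_right_injective huw
    have himg : (fun u : ℝ => (a' : ℝ) - u) '' Ioi 0 = Iio (a' : ℝ) := by
      ext t
      constructor
      · rintro ⟨u, hu, rfl⟩
        have hu0 : (0 : ℝ) < u := hu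
        show (a' : ℝ) - u < a'
        linarith
      · intro ht
        have ht' : t < (a' : ℝ) := ht
        refine ⟨a' - t, ?_, ?_⟩
        · show (0 : ℝ) < a' - t
          linarith
        · show (a' : ℝ) - (a' - t) = t
          ring
    have hg : ∀ u ∈ Ioi (0 : ℝ), |(fun _ : ℝ => (-1 : ℝ)) u| *
        (fun t : ℝ => (a' - t) ^ (p : ℝ) * ratFun (up k P) (up k Q) t)
          ((fun u : ℝ => (a' : ℝ) - u) u) =
        (fun u : ℝ => u ^ (p : ℝ) * ratFun
          (up k (P.comp (Polynomial.C a' - Polynomial.X)))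
          (up k (Q.comp (Polynomial.C a' - Polynomial.X))) u) u := by
      intro u hu
      show |(-1 : ℝ)| * (((a' : ℝ) - (a' - u)) ^ (p : ℝ) *
        ratFun (up k P) (up k Q) ((a' : ℝ) - u)) = u ^ (p : ℝ) * ratFun
          (up k (P.comp (Polynomial.C a' - Polynomial.X)))
          (up k (Q.comp (Polynomial.C a' - Polynomial.X))) u
      have e1 : (a' : ℝ) - (a' - u) = u := by ring
      have e2 : (up k (Polynomial.C a' - Polynomial.X)).eval u = (a' : ℝ) - u := by
        unfold up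
        simp only [Polynomial.map_sub, Polynomial.map_C, Polynomial.map_X, Polynomial.eval_sub,
          Polynomial.eval_C, Polynomial.eval_X]
        rfl
      rw [e1, abs_neg, abs_one, one_mul]
      unfold ratFun
      rw [TWV_comp, TWV_comp, e2]
    obtain ⟨h1, h2⟩ := TWV_cv _ _ _ hder hinj himg
      (fun t : ℝ => (a' - t) ^ (p : ℝ) * ratFun (up k P) (up k Q) t)
      (fun u : ℝ => u ^ (p : ℝ) * ratFun
          (up k (P.comp (Polynomial.C a' - Polynomial.X)))
          (up k (Q.comp (Polynomial.C a' - Polynomial.X))) u) hg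
    obtain ⟨v, hv, hv'⟩ := hVAL k hk _ _ p hp (h1 hint)
    exact ⟨v, hv, h2.trans hv'⟩

end Pool.Agent.ITR
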