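import Pool.Agent.ITR.St

/-!
# ITR / VAL: the value of a twisted integral over the half-line
-/

set_option autoImplicit false

open MeasureTheory Filter Topology

namespace Pool.Agent.ITR

open Pool.Agent.Helper23.PeriodDefs

/-- `sin (π a)` is algebraic for rational `a` -/
private theorem VAL_sin (k : IntermediateField ℚ ℝ) (a : ℚ) :
    IsAlgebraic k ((Real.sin (Real.pi * a) : ℝ) : ℂ) := by
  rw [← mem_algebraicClosure_iff]
  have hI : Complex.I ∈ algebraicClosure k ℂ := by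
    rw [mem_algebraicClosure_iff]
    apply IsAlgebraic.of_pow (n := 2) (by norm_num)
    rw [Complex.I_sq]
    exact (isAlgebraic_one).neg
  have h1 : ∀ b : ℚ, Complex.exp ((Real.pi * b : ℂ) * Complex.I) ∈ algebraicClosure k ℂ := by
    intro b
    rw [mem_algebraicClosure_iff]
    apply IsAlgebraic.of_pow (n := b.den) b.den_pos
    rw [← Complex.exp_nat_mul]
    apply IsAlgebraic.of_pow (n := 2) (by norm_num)
    rw [← Complex.exp_nat_mul]
    have h2 : ((2 : ℕ) : ℂ) * ((b.den : ℂ) * ((Real.pi * b : ℂ) * Complex.I)) =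
        (b.num : ℂ) * (2 * Real.pi * Complex.I) := by
      have h3 : (b : ℂ) * b.den = b.num := by exact_mod_cast Rat.mul_den_eq_num b
      push_cast
      linear_combination (2 * Real.pi * Complex.I : ℂ) * h3
    rw [h2, Complex.exp_int_mul_two_pi_mul_I]
    exact isAlgebraic_one
  have h4 : ((Real.sin (Real.pi * a) : ℝ) : ℂ) =
      (Complex.exp ((Real.pi * ((-a : ℚ) : ℂ)) * Complex.I) -
        Complex.exp ((Real.pi * (a : ℂ)) * Complex.I)) * Complex.I / 2 := by
    rw [Complex.ofReal_sin, Complex.sin]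
    push_cast
    congr 4
    ring_nf
  rw [h4]
  exact div_mem (mul_mem (sub_mem (h1 _) (h1 _)) hI)
    (by exact_mod_cast (natCast_mem (algebraicClosure k ℂ) 2))

/-- rational powers of algebraic numbers are algebraic -/
private theorem VAL_pow (k : IntermediateField ℚ ℝ) (w : ℂ) (hw : IsAlgebraic k w) (s : ℚ) :
    IsAlgebraic k (w ^ (s : ℂ)) := by
  apply IsAlgebraic.of_pow (n := s.den) s.den_pos
  rw [← Complex.cpow_nat_mul]
  have h1 : ((s.den : ℕ) : ℂ) * (s : ℂ) = (s.num : ℂ) := by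
    have h3 : (s : ℂ) * s.den = s.num := by exact_mod_cast Rat.mul_den_eq_num s
    rw [mul_comm]
    exact h3
  rw [h1, Complex.cpow_intCast]
  rw [← mem_algebraicClosure_iff] at hw ⊢
  exact zpow_mem hw _

/-- the reduced fraction -/
private theorem VAL_red (k : IntermediateField ℚ ℝ) (P Q : Polynomial k) (hP : P ≠ 0)
    (hQ : Q ≠ 0) : ∃ P₂ Q₂ : Polynomial k, P₂ ≠ 0 ∧ Q₂ ≠ 0 ∧ IsCoprime P₂ Q₂ ∧
      ∀ᵐ t : ℝ, ratFun (up k P) (up k Q) t = ratFun (up k P₂) (up k Q₂) t := by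
  classical
  set g := EuclideanDomain.gcd P Q with hg
  obtain ⟨P₂, hP₂⟩ := EuclideanDomain.gcd_dvd_left P Q
  obtain ⟨Q₂, hQ₂⟩ := EuclideanDomain.gcd_dvd_right P Q
  rw [← hg] at hP₂ hQ₂
  have hg0 : g ≠ 0 := by
    intro h0
    rw [h0, zero_mul] at hP₂
    exact hP hP₂
  have hP20 : P₂ ≠ 0 := by
    rintro rfl
    rw [mul_zero] at hP₂
    exact hP hP₂
  have hQ20 : Q₂ ≠ 0 := by
    rintro rfl
    rw [mul_zero] at hQ₂
    exact hQ hQ₂
  refine ⟨P₂, Q₂, hP20, hQ20, ?_, ?_⟩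
  · have h1 := EuclideanDomain.gcd_eq_gcd_ab P Q
    rw [← hg] at h1
    generalize EuclideanDomain.gcdA P Q = A at h1
    generalize EuclideanDomain.gcdB P Q = B at h1
    refine ⟨A, B, ?_⟩
    apply mul_left_cancel₀ hg0
    rw [mul_one]
    calc g * (A * P₂ + B * Q₂) = (g * P₂) * A + (g * Q₂) * B := by ring
      _ = P * A + Q * B := by rw [← hP₂, ← hQ₂]
      _ = g := h1.symm
  · have hup : up k g ≠ 0 := by
      unfold up
      exact (Polynomial.map_ne_zero_iff (algebraMap k ℝ).injective).2 hg0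
    have h2 : (volume : Measure ℝ) ((up k g).rootSet ℝ) = 0 :=
      ((up k g).rootSet_finite ℝ).measure_zero _
    have h3 : ∀ᵐ t : ℝ, t ∉ (up k g).rootSet ℝ := by
      rw [ae_iff]
      simpa using h2
    filter_upwards [h3] with t ht
    have h4 : (up k g).eval t ≠ 0 := by
      intro h5
      apply ht
      rw [Polynomial.mem_rootSet]
      exact ⟨hup, by rw [Polynomial.aeval_def, Algebra.algebraMap_self, Polynomial.eval₂_id]; exact h5⟩
    unfold ratFun
    conv_lhs => rw [hP₂, hQ₂]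
    unfold up at h4 ⊢
    rw [Polynomial.map_mul, Polynomial.map_mul, Polynomial.eval_mul, Polynomial.eval_mul,
      mul_div_mul_left _ _ h4]

/-- the reduced case -/
private theorem VAL_core (hBI : St_BI) (hPFD : St_PFD) (hINT : St_INT)
    (k : IntermediateField ℚ ℝ) (hk : RC k) (P Q : Polynomial k) (hP : P ≠ 0) (hQ : Q ≠ 0)
    (hc : IsCoprime P Q) (a : ℚ) (ha0 : 0 < a) (ha1 : a < 1)
    (hint : IntegrableOn (fun t : ℝ => t ^ ((a : ℝ) - 1) * ratFun (up k P) (up k Q) t)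
      (Set.Ioi 0)) :
    ∃ v ∈ k, ∫ t in Set.Ioi (0 : ℝ), t ^ ((a : ℝ) - 1) * ratFun (up k P) (up k Q) t =
      v * Real.pi := by
  have haR0 : (0 : ℝ) < a := by exact_mod_cast ha0
  have haR1 : (a : ℝ) < 1 := by exact_mod_cast ha1
  have hinj := (algebraMap k ℝ).injective
  have hup : ∀ R : Polynomial k, R ≠ 0 → up k R ≠ 0 := fun R hR => by
    unfold up
    exact (Polynomial.map_ne_zero_iff hinj).2 hR
  obtain ⟨hnz, hdeg⟩ := hINT (up k P) (up k Q) a (by
    unfold up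
    exact hc.map (Polynomial.mapRingHom (algebraMap k ℝ))) (hup P hP) (hup Q hQ) haR0 haR1 hint
  have hdeg2 : P.degree < Q.degree := by
    unfold up at hdeg
    rwa [Polynomial.degree_map, Polynomial.degree_map] at hdeg
  obtain ⟨m, ζ, c, e, halg, hpf⟩ := hPFD k P Q hdeg2
  -- the poles
  have hsl : ∀ i, -ζ i ∈ Complex.slitPlane := by
    intro i
    rw [Complex.mem_slitPlane_iff]
    by_contra hcon
    push Not at hcon
    obtain ⟨h1, h2⟩ := hcon
    rw [Complex.neg_re] at h1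
    rw [Complex.neg_im, neg_eq_zero] at h2
    have h3 : ζ i = ((ζ i).re : ℂ) := by
      apply Complex.ext
      · simp
      · simp [h2]
    apply hnz (ζ i).re (by linarith)
    have h4 := (halg i).2.2.2
    rw [h3] at h4
    have h5 : Polynomial.aeval (((ζ i).re : ℝ) : ℂ) Q = (((up k Q).eval (ζ i).re : ℝ) : ℂ) := by
      unfold up
      rw [Polynomial.eval_map, Polynomial.aeval_def,
        IsScalarTower.algebraMap_eq k ℝ ℂ]
      exact (Polynomial.hom_eval₂ Q (algebraMap k ℝ) (algebraMap ℝ ℂ) (ζ i).re).symm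
    rw [h5] at h4
    exact_mod_cast h4
  have hBIi := fun i => hBI a (-ζ i) (e i) haR0 haR1 (hsl i) (halg i).2.2.1
  set I : ℝ := ∫ t in Set.Ioi (0 : ℝ), t ^ ((a : ℝ) - 1) * ratFun (up k P) (up k Q) t with hI
  -- the value as a complex number
  have hval : (I : ℂ) = (∑ i, c i * ((∏ j ∈ Finset.range (e i - 1),
      (((j : ℂ) + 1 - ((a : ℝ) : ℂ)) / ((j : ℂ) + 1))) * (-ζ i) ^ ((((a : ℝ) : ℝ) : ℂ) - e i) *
        (((Real.sin (Real.pi * a) : ℝ) : ℂ))⁻¹)) * Real.pi := by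
    have h1 : (I : ℂ) = ∫ t in Set.Ioi (0 : ℝ),
        ((t ^ ((a : ℝ) - 1) * ratFun (up k P) (up k Q) t : ℝ) : ℂ) := by
      rw [hI]
      exact (integral_ofReal).symm
    have h2 : ∫ t in Set.Ioi (0 : ℝ),
        ((t ^ ((a : ℝ) - 1) * ratFun (up k P) (up k Q) t : ℝ) : ℂ) =
        ∫ t in Set.Ioi (0 : ℝ), ∑ i, c i * (((t ^ ((a : ℝ) - 1) : ℝ) : ℂ) /
          ((t : ℂ) + -ζ i) ^ (e i)) := by
      apply setIntegral_congr_fun measurableSet_Ioi
      intro t ht
      have ht0 : (0 : ℝ) ≤ t := le_of_lt ht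
      simp only
      rw [Complex.ofReal_mul, hpf t (hnz t ht0), Finset.mul_sum]
      refine Finset.sum_congr rfl fun i _ => ?_
      rw [← sub_eq_add_neg]
      ring
    rw [h1, h2, integral_finsetSum _ (fun i _ => ((hBIi i).1.const_mul (c i)))]
    rw [Finset.sum_mul]
    refine Finset.sum_congr rfl fun i _ => ?_
    rw [integral_const_mul, (hBIi i).2]
    push_cast
    rw [div_eq_mul_inv]
    ring
  -- algebraicity
  have hV : IsAlgebraic k (∑ i, c i * ((∏ j ∈ Finset.range (e i - 1),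
      (((j : ℂ) + 1 - ((a : ℝ) : ℂ)) / ((j : ℂ) + 1))) * (-ζ i) ^ ((((a : ℝ) : ℝ) : ℂ) - e i) *
        (((Real.sin (Real.pi * a) : ℝ) : ℂ))⁻¹)) := by
    rw [← mem_algebraicClosure_iff]
    refine sum_mem fun i _ => mul_mem ?_ (mul_mem (mul_mem (prod_mem fun j _ => ?_) ?_) (inv_mem ?_))
    · exact mem_algebraicClosure_iff.2 (halg i).2.1
    · have h1 : (((j : ℂ) + 1 - ((a : ℝ) : ℂ)) / ((j : ℂ) + 1)) =
          ((((j : ℚ) + 1 - a) / ((j : ℚ) + 1) : ℚ) : ℂ) := by
        push_cast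
        rfl
      rw [h1]
      exact SubfieldClass.ratCast_mem _ _
    · have h1 : ((((a : ℝ) : ℝ) : ℂ) - e i) = (((a - e i : ℚ)) : ℂ) := by
        push_cast
        rfl
      rw [h1]
      apply mem_algebraicClosure_iff.2
      exact VAL_pow k _ (halg i).1.neg _
    · exact mem_algebraicClosure_iff.2 (VAL_sin k a)
  have hpi : (Real.pi : ℂ) ≠ 0 := by exact_mod_cast Real.pi_ne_zero
  refine ⟨I / Real.pi, ?_, ?_⟩
  · apply hk.cl
    rw [← isAlgebraic_algebraMap_iff (S := ℝ) (A := ℂ) (algebraMap ℝ ℂ).injective]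
    have h1 : (algebraMap ℝ ℂ) (I / Real.pi) = ∑ i, c i * ((∏ j ∈ Finset.range (e i - 1),
      (((j : ℂ) + 1 - ((a : ℝ) : ℂ)) / ((j : ℂ) + 1))) * (-ζ i) ^ ((((a : ℝ) : ℝ) : ℂ) - e i) *
        (((Real.sin (Real.pi * a) : ℝ) : ℂ))⁻¹) := by
      change ((I / Real.pi : ℝ) : ℂ) = _
      rw [Complex.ofReal_div, hval, mul_div_cancel_right₀ _ hpi]
    rw [h1]
    exact hV
  · rw [div_mul_cancel₀ _ Real.pi_ne_zero]

theorem thm_VAL (hBI : St_BI) (hPFD : St_PFD) (hINT : St_INT) : St_VAL := by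
  intro k hk P Q p hp hint
  by_cases hP : P = 0
  · refine ⟨0, zero_mem _, ?_⟩
    subst hP
    simp [up, ratFun]
  by_cases hQ : Q = 0
  · refine ⟨0, zero_mem _, ?_⟩
    subst hQ
    simp [up, ratFun]
  -- the exponent
  have hf0 : 0 < Int.fract p := by
    rcases (Int.fract_nonneg p).lt_or_eq with h | h
    · exact h
    · exfalso
      have h1 := Int.self_sub_floor p
      rw [← h] at h1
      exact hp ⌊p⌋ (by linarith)
  have hf1 : Int.fract p < 1 := Int.fract_lt_one p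
  set m : ℤ := ⌊p⌋ + 1 with hm
  have hpm : (p : ℝ) = (((Int.fract p : ℚ) : ℝ) - 1) + (m : ℝ) := by
    have h1 := Int.self_sub_floor p
    rw [← h1, hm]
    push_cast
    ring
  obtain ⟨P₂, Q₂, hP2, hQ2, hcop, hae⟩ := VAL_red k (Polynomial.X ^ m.toNat * P)
    (Polynomial.X ^ (-m).toNat * Q) (mul_ne_zero (pow_ne_zero _ Polynomial.X_ne_zero) hP)
    (mul_ne_zero (pow_ne_zero _ Polynomial.X_ne_zero) hQ)
  have heq : ∀ t : ℝ, 0 < t → t ^ (p : ℝ) * ratFun (up k P) (up k Q) t =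
      t ^ (((Int.fract p : ℚ) : ℝ) - 1) * ratFun (up k (Polynomial.X ^ m.toNat * P))
        (up k (Polynomial.X ^ (-m).toNat * Q)) t := by
    intro t ht
    rw [hpm, Real.rpow_add ht, Real.rpow_intCast, mul_assoc]
    congr 1
    unfold ratFun up
    rw [Polynomial.map_mul, Polynomial.map_mul, Polynomial.eval_mul, Polynomial.eval_mul,
      Polynomial.map_pow, Polynomial.map_pow, Polynomial.map_X, Polynomial.eval_pow,
      Polynomial.eval_pow, Polynomial.eval_X, mul_div_mul_comm]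
    congr 1
    rw [← zpow_natCast, ← zpow_natCast, ← zpow_sub₀ ht.ne']
    congr 1
    omega
  have hae2 : ∀ᵐ t ∂(volume.restrict (Set.Ioi (0 : ℝ))),
      t ^ (p : ℝ) * ratFun (up k P) (up k Q) t =
      t ^ (((Int.fract p : ℚ) : ℝ) - 1) * ratFun (up k P₂) (up k Q₂) t := by
    filter_upwards [ae_restrict_mem measurableSet_Ioi, ae_restrict_of_ae hae] with t ht1 ht2
    rw [heq t ht1, ht2]
  have hint2 : IntegrableOn (fun t : ℝ => t ^ (((Int.fract p : ℚ) : ℝ) - 1) *
      ratFun (up k P₂) (up k Q₂) t) (Set.Ioi 0) := Integrable.congr hint hae2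
  obtain ⟨v, hv, hval⟩ := VAL_core hBI hPFD hINT k hk P₂ Q₂ hP2 hQ2 hcop (Int.fract p) hf0 hf1
    hint2
  exact ⟨v, hv, by rw [integral_congr_ae hae2, hval]⟩

end Pool.Agent.ITR
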