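import Pool.Agent.ITR.St

/-!
# ITR: [ZER] analytic functions with uncountably many zeros
-/

set_option autoImplicit false

open MeasureTheory Filter Topology

namespace Pool.Agent.ITR

theorem thm_ZER : St_ZER := by
  intro I g hIo hIp hg hunc
  by_contra hne
  push Not at hne
  obtain ⟨t1, ht1, hgt1⟩ := hne
  have h1 : ∀ z ∈ I, ∀ᶠ t in 𝓝[≠] z, g t ≠ 0 := by
    intro z hz
    by_contra hcon
    have hfreq : ∃ᶠ t in 𝓝[≠] z, g t = 0 := by
      intro h
      exact hcon h
    exact hgt1 (hg.eqOn_zero_of_preconnected_of_frequently_eq_zero hIp hz hfreq ht1)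
  let f : ℝ → Set ℝ := fun z => {t | t ≠ z → g t ≠ 0}
  have h2 : ∀ z ∈ I, f z ∈ 𝓝[I] z := by
    intro z hz
    apply mem_nhdsWithin_of_mem_nhds
    have h3 := h1 z hz
    rw [eventually_nhdsWithin_iff] at h3
    exact h3
  obtain ⟨T, hTI, hTc, hcov⟩ := TopologicalSpace.countable_cover_nhdsWithin h2
  apply hunc
  refine hTc.mono ?_
  rintro t ⟨htI, htg⟩
  have h4 := hcov htI
  simp only [Set.mem_iUnion] at h4
  obtain ⟨z, hzT, hz⟩ := h4
  by_cases h5 : t = z
  · rw [h5]; exact hzT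
  · exact absurd htg (hz h5)

end Pool.Agent.ITR
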