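import Pool.Agent.ITR.AEQ
import Pool.Agent.ITR.CNT
import Pool.Agent.ITR.LIN
import Pool.Agent.ITR.RA1
import Pool.Agent.ITR.RA2
import Pool.Agent.ITR.FAC
import Pool.Agent.ITR.LIM
import Pool.Agent.ITR.TAY
import Pool.Agent.ITR.ZER
import Pool.Agent.ITR.PRI
import Pool.Agent.ITR.PAL
import Pool.Agent.ITR.PAS
import Pool.Agent.ITR.BI
import Pool.Agent.ITR.PFD
import Pool.Agent.ITR.INT
import Pool.Agent.ITR.VAL
import Pool.Agent.ITR.RLN
import Pool.Agent.ITR.RLF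
import Pool.Agent.ITR.TWD
import Pool.Agent.ITR.TWV
import Pool.Agent.ITR.TWF
import Pool.Agent.ITR.ARF
import Pool.Agent.ITR.SCL
import Pool.Agent.ITR.FLD
import Pool.Agent.ITR.FUB
import Pool.Agent.ITR.CHG
import Pool.Agent.ITR.SAG
import Pool.Agent.ITR.IND
import Pool.Agent.ITR.EXM
import Pool.Agent.ITR.FIN

/-!
# Iterated residues: assembly
-/

set_option autoImplicit false

namespace Pool.Agent.ITR

theorem asm_CNT : St_CNT := thm_CNT thm_AEQ
theorem asm_RA1 : St_RA1 := thm_RA1 asm_CNT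
theorem asm_RA2 : St_RA2 := thm_RA2 thm_LIN
theorem asm_PRI : St_PRI := thm_PRI asm_CNT thm_LIN (thm_TAY thm_FAC) thm_ZER
theorem asm_PAS : St_PAS := thm_PAS (thm_PAL asm_PRI (thm_LIM thm_FAC))
theorem asm_VAL : St_VAL := thm_VAL thm_BI thm_PFD thm_INT
theorem asm_RLF : St_RLF := thm_RLF asm_RA1 asm_RA2 (thm_RLN asm_VAL)
theorem asm_TWF : St_TWF := thm_TWF (thm_TWD asm_RA1 asm_RA2) (thm_TWV asm_VAL)
theorem asm_ARF : St_ARF := thm_ARF asm_RA1 asm_RA2
theorem asm_SAG : St_SAG := thm_SAG thm_FLD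
theorem asm_IND : St_IND :=
  thm_IND asm_RLF asm_TWF asm_ARF asm_PAS thm_SCL thm_FLD thm_FUB (thm_CHG thm_FLD) asm_SAG

/-- the main theorem on iterated residues -/
theorem asm_FIN : St_FIN := thm_FIN asm_IND thm_EXM asm_SAG

end Pool.Agent.ITR
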