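import Pool.Agent.ITR.St2

/-!
# Quadratic towers: the induction
-/

set_option autoImplicit false

open MeasureTheory Filter Topology

namespace Pool.Agent.ITR

open Pool.Agent.Helper23
open Pool.Agent.Helper23.Quadric (PF evx)
open Pool.Agent.Helper23.PeriodProof (RB sqrt_mem_RB)

/-- [FAM] the induction -/
theorem thm_FAM (hSLS : St_SLS) (hONE : St_ONE) (hTYP : St_TYP) (hAEC : St_AEC) (hSCL : St_SCL)
    (hFUB : St_FUB) : St_FAM := by
  intro n T hT N
  induction N with
  | zero =>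
    intro hN P hP w hw hint
    refine ⟨fun c => Iterated.point _, P isEmptyElim / √(w isEmptyElim), ?_, 0, ?_⟩
    · have h1 : ∀ i : Fin 0, (isEmptyElim : Fin 0 → ℝ) i ∈ RB := fun i => i.elim0
      obtain ⟨hwP, hw0⟩ := hT.pf 0 hN w hw
      exact RB.div_mem (Quadric.mem_of_mem_PF hP h1)
        (sqrt_mem_RB _ (Quadric.mem_of_mem_PF hwP h1) (hw0 _).le)
    · rw [Quadric.integral_fin_zero, pow_zero, mul_one]
  | succ N ih =>
    intro hN P hP w hw hint
    obtain ⟨M, b, s, q, hM, hs, hb, hq, hst⟩ := hT.st N (by omega)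
    obtain ⟨w₀, hw₀, m, hwm⟩ := hst w hw
    obtain ⟨hMP, hM0⟩ := hT.pf N (by omega) M hM
    obtain ⟨hsP, hs0⟩ := hT.pf N (by omega) s hs
    obtain ⟨hw₀P, hw₀0⟩ := hT.pf N (by omega) w₀ hw₀
    obtain ⟨p, hp⟩ := hSLS RB N P hP
    obtain ⟨P₁, hP₁, A, hint1⟩ := hONE RB N m P q M b s hP hMP hb hsP hM0 hs0 hq
    have hw₁T : w₀ * (M ^ A * s ^ (m - 1)) ∈ T N :=
      (T N).mul_mem hw₀ ((T N).mul_mem ((T N).pow_mem hM A) ((T N).pow_mem hs (m - 1)))
    obtain ⟨hF1, hF2, hF3⟩ := (hFUB N).1 _ hint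
    have hdec : ∀ (y : Fin N → ℝ) (t : ℝ), P (Fin.snoc y t) / √(w (Fin.snoc y t)) =
        (√(w₀ y))⁻¹ * (P (Fin.snoc y t) / √(q (Fin.snoc y t) ^ m)) := by
      intro y t
      rw [hwm, Real.sqrt_mul (hw₀0 y).le, inv_mul_eq_div, div_div, mul_comm]
    have hr0 : ∀ y : Fin N → ℝ, (√(w₀ y))⁻¹ ≠ 0 := fun y =>
      inv_ne_zero (Real.sqrt_pos.mpr (hw₀0 y)).ne'
    simp only [hdec] at hF1 hF2 hF3
    have hsl : ∀ᵐ y : Fin N → ℝ,
        Integrable (fun t : ℝ => P (Fin.snoc y t) / √(q (Fin.snoc y t) ^ m)) := by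
      filter_upwards [hF1] with y hy
      rwa [integrable_const_mul_iff (isUnit_iff_ne_zero.mpr (hr0 y))] at hy
    have hval : ∀ᵐ y : Fin N → ℝ,
        ∫ t : ℝ, (√(w₀ y))⁻¹ * (P (Fin.snoc y t) / √(q (Fin.snoc y t) ^ m)) =
          Real.pi ^ ((m + 1) % 2) * (P₁ y / √((w₀ * (M ^ A * s ^ (m - 1))) y)) := by
      filter_upwards [hsl] with y hy
      rw [integral_const_mul, hint1 y hy]
      simp only [Pi.mul_apply, Pi.pow_apply]
      rw [Real.sqrt_mul (hw₀0 y).le]
      field_simp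
    have hpi : Real.pi ^ ((m + 1) % 2) ≠ 0 := pow_ne_zero _ Real.pi_pos.ne'
    have hint₁ : Integrable (fun y : Fin N → ℝ =>
        P₁ y / √((w₀ * (M ^ A * s ^ (m - 1))) y)) := by
      have h1 := hF2.congr hval
      rwa [integrable_const_mul_iff (isUnit_iff_ne_zero.mpr hpi)] at h1
    obtain ⟨hI, a, ha, e, hae⟩ := ih (by omega) P₁ hP₁ _ hw₁T hint₁
    refine ⟨fun c => ?_, a, ha, (m + 1) % 2 + e, ?_⟩
    · have hfib : ∀ᵐ y : Fin N → ℝ,
          (Even m → RationalFibre
            (fun t : ℝ => c * (P (Fin.snoc y t) / √(w (Fin.snoc y t))))) ∧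
          (Odd m → ∀ F : Set ℝ, PrimitiveFibre F
            (fun t : ℝ => c * (P (Fin.snoc y t) / √(w (Fin.snoc y t))))) := by
        filter_upwards [hsl] with y hy
        have h1 : (fun t : ℝ => P (Fin.snoc y t) / √(q (Fin.snoc y t) ^ m)) =
            fun t : ℝ => (p.map (evx RB y)).eval t / √(q (Fin.snoc y t) ^ m) := by
          funext t
          rw [hp]
        have h2 : (fun t : ℝ => c * (P (Fin.snoc y t) / √(w (Fin.snoc y t)))) =
            fun t : ℝ => (c * (√(w₀ y))⁻¹) *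
              ((p.map (evx RB y)).eval t / √(q (Fin.snoc y t) ^ m)) := by
          funext t
          rw [hdec, hp, mul_assoc]
        rw [h1] at hy
        obtain ⟨hev, hod⟩ := hTYP (p.map (evx RB y)) m (M y) (b y) (s y)
          (fun t => q (Fin.snoc y t)) (hM0 y) (hs0 y) (hq y) hy
        rw [h2]
        exact ⟨fun hm => (hSCL _ _).1 (hev hm), fun hm F => (hSCL _ _).2.2.2.2 F (hod hm F)⟩
      refine Iterated.step (hint.const_mul c) ?_ ?_
      · rcases Nat.even_or_odd m with hm | hm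
        · left
          filter_upwards [hfib] with y hy
          exact Or.inl (hy.1 hm)
        · right
          filter_upwards [hfib] with y hy
          exact hy.2 hm _
      · refine hAEC N _ _ ?_ (hI (c * Real.pi ^ ((m + 1) % 2)))
        filter_upwards [hval] with y hy
        have h3 : (fun t : ℝ => c * (P (Fin.snoc y t) / √(w (Fin.snoc y t)))) =
            fun t : ℝ => c * ((√(w₀ y))⁻¹ * (P (Fin.snoc y t) / √(q (Fin.snoc y t) ^ m))) := by
          funext t
          rw [hdec]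
        rw [h3, integral_const_mul, hy, mul_assoc]
    · rw [hF3, integral_congr_ae hval, integral_const_mul, hae, pow_add]
      ring

end Pool.Agent.ITR
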