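import Pool.Agent.ITR.St2

/-!
# [MAT] the corner determinants of a matrix form a quadratic tower
-/

set_option autoImplicit false

namespace Pool.Agent.ITR

open Pool.Agent.Helper23.PeriodDefs

section general

variable {R S : Type} [CommRing R] [CommRing S]

/-- the upper left `a × b` block -/
def MAT_Y (a b : ℕ) (X : ℕ → ℕ → R) : Matrix (Fin a) (Fin b) R :=
  Matrix.of fun (i : Fin a) (j : Fin b) => X i j

/-- `det(1 + Yᵀ Y)` over a commutative ring -/
noncomputable def MAT_d (a b : ℕ) (X : ℕ → ℕ → R) : R :=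
  (1 + (MAT_Y a b X).transpose * MAT_Y a b X).det

/-- the second polynomial over a commutative ring -/
noncomputable def MAT_b (a b : ℕ) (X : ℕ → ℕ → R) : R :=
  dotProduct (fun j : Fin b => X a j)
    ((1 + (MAT_Y a b X).transpose * MAT_Y a b X).adjugate.mulVec
      ((MAT_Y a b X).transpose.mulVec fun i : Fin a => X i b))

theorem MAT_Y_map (φ : R →+* S) (a b : ℕ) (X : ℕ → ℕ → R) :
    (MAT_Y a b X).map φ = MAT_Y a b (fun i j => φ (X i j)) := rfl

theorem MAT_A_map (φ : R →+* S) (a b : ℕ) (X : ℕ → ℕ → R) :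
    φ.mapMatrix (1 + (MAT_Y a b X).transpose * MAT_Y a b X) =
      1 + (MAT_Y a b (fun i j => φ (X i j))).transpose * MAT_Y a b (fun i j => φ (X i j)) := by
  rw [map_add, map_one, RingHom.mapMatrix_apply, Matrix.map_mul]
  rfl

theorem MAT_d_map (φ : R →+* S) (a b : ℕ) (X : ℕ → ℕ → R) :
    φ (MAT_d a b X) = MAT_d a b (fun i j => φ (X i j)) := by
  unfold MAT_d
  rw [RingHom.map_det, MAT_A_map]

theorem MAT_b_map (φ : R →+* S) (a b : ℕ) (X : ℕ → ℕ → R) :
    φ (MAT_b a b X) = MAT_b a b (fun i j => φ (X i j)) := by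
  unfold MAT_b
  rw [← MAT_A_map, ← RingHom.map_adjugate]
  simp only [dotProduct, Matrix.mulVec, map_sum, map_mul]
  rfl

omit [CommRing R] in
theorem MAT_Y_congr (a b : ℕ) (X X' : ℕ → ℕ → R) (h : ∀ i j, i < a → j < b → X i j = X' i j) :
    MAT_Y a b X = MAT_Y a b X' := by
  ext i j
  exact h i j i.2 j.2

theorem MAT_d_congr (a b : ℕ) (X X' : ℕ → ℕ → R) (h : ∀ i j, i < a → j < b → X i j = X' i j) :
    MAT_d a b X = MAT_d a b X' := by
  unfold MAT_d
  rw [MAT_Y_congr a b X X' h]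

theorem MAT_b_congr (a b : ℕ) (X X' : ℕ → ℕ → R)
    (h : ∀ i j, i ≤ a → j ≤ b → i + j < a + b → X i j = X' i j) :
    MAT_b a b X = MAT_b a b X' := by
  unfold MAT_b
  rw [MAT_Y_congr a b X X' fun i j hi hj => h i j hi.le hj.le (by omega)]
  congr 1
  · ext j
    exact h a j le_rfl j.2.le (by have := j.2; omega)
  · congr 2
    ext i
    exact h i b i.2.le le_rfl (by have := i.2; omega)

end general

section mem

variable {R A : Type} [CommRing R] [CommRing A] [Algebra R A]

theorem MAT_d_mem (B : Subalgebra R A) (a b : ℕ) (X : ℕ → ℕ → A)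
    (h : ∀ i j, i < a → j < b → X i j ∈ B) : MAT_d a b X ∈ B := by
  classical
  have h1 : MAT_d a b X = B.val.toRingHom
      (MAT_d a b (fun i j => if hx : X i j ∈ B then (⟨X i j, hx⟩ : B) else 0)) := by
    rw [MAT_d_map]
    refine MAT_d_congr a b _ _ fun i j hi hj => ?_
    rw [dif_pos (h i j hi hj)]
    rfl
  rw [h1]
  exact Subtype.coe_prop _

theorem MAT_b_mem (B : Subalgebra R A) (a b : ℕ) (X : ℕ → ℕ → A)
    (h : ∀ i j, i ≤ a → j ≤ b → i + j < a + b → X i j ∈ B) : MAT_b a b X ∈ B := by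
  classical
  have h1 : MAT_b a b X = B.val.toRingHom
      (MAT_b a b (fun i j => if hx : X i j ∈ B then (⟨X i j, hx⟩ : B) else 0)) := by
    rw [MAT_b_map]
    refine MAT_b_congr a b _ _ fun i j hi hj hij => ?_
    rw [dif_pos (h i j hi hj hij)]
    rfl
  rw [h1]
  exact Subtype.coe_prop _

end mem

/-- the generic matrix, extended by `0` -/
noncomputable def MAT_X (p q : ℕ) (i j : ℕ) : MvPolynomial (Fin (q * p)) RealAlg :=
  if h : j < q ∧ i < p then MvPolynomial.X (finProdFinEquiv (⟨j, h.1⟩, ⟨i, h.2⟩)) else 0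

theorem MAT_X_eq (p q : ℕ) (i : Fin p) (j : Fin q) :
    MAT_X p q i j = MvPolynomial.X (finProdFinEquiv (j, i)) := by
  unfold MAT_X
  rw [dif_pos ⟨j.2, i.2⟩]

theorem MAT_X_mem (p q : ℕ) (i j : ℕ) (s : Set (Fin (q * p)))
    (h : ∀ k : Fin (q * p), (k : ℕ) = i + p * j → k ∈ s) :
    MAT_X p q i j ∈ MvPolynomial.supported RealAlg s := by
  unfold MAT_X
  split_ifs with h1
  · refine MvPolynomial.X_mem_supported.2 (h _ ?_)
    rw [finProdFinEquiv_apply_val]
  · exact Subalgebra.zero_mem _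

theorem MAT_corner (p q : ℕ) (i : Fin p) (j : Fin q) :
    cornerPoly p q (finProdFinEquiv (j, i)) = MAT_d (i + 1) (j + 1) (MAT_X p q) := by
  unfold cornerPoly blockDet MAT_d
  rw [Equiv.symm_apply_apply]
  have h : (genMat p q).submatrix (Fin.castLE i.isLt) (Fin.castLE j.isLt) =
      MAT_Y (i + 1) (j + 1) (MAT_X p q) := by
    ext1 a b
    show MvPolynomial.X _ = MAT_X p q _ _
    exact (MAT_X_eq p q (Fin.castLE i.isLt a) (Fin.castLE j.isLt b)).symm
  rw [← h]

/-- two polynomials over the real algebraic numbers with the same values are equal -/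
theorem MAT_ext {σ : Type} (P Q : MvPolynomial σ RealAlg)
    (h : ∀ x : σ → ℝ, MvPolynomial.aeval x P = MvPolynomial.aeval x Q) : P = Q := by
  have h1 : Function.Injective (algebraMap RealAlg ℝ) := (algebraMap RealAlg ℝ).injective
  apply MvPolynomial.map_injective (algebraMap RealAlg ℝ) h1
  apply MvPolynomial.funext
  intro x
  rw [MvPolynomial.eval_map, MvPolynomial.eval_map]
  exact h x

theorem MAT_dd (a b : ℕ) (X : ℕ → ℕ → ℝ) : MAT_d a b X = dd a b X := rfl

theorem MAT_bb (a b : ℕ) (X : ℕ → ℕ → ℝ) : MAT_b a b X = bb a b X := rfl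

/-- [MAT] -/
theorem thm_MAT (hSCH : St_SCH) : St_MAT := by
  intro p q k
  obtain ⟨⟨j, i⟩, rfl⟩ := finProdFinEquiv.surjective k
  have hval : ((finProdFinEquiv (j, i) : Fin (q * p)) : ℕ) = i + p * j := finProdFinEquiv_apply_val _
  rw [MAT_corner]
  have hd0 : ∀ a b, a = 0 ∨ b = 0 → MAT_d a b (MAT_X p q) = 1 := by
    intro a b hab
    apply MAT_ext
    intro x
    have h1 := MAT_d_map (MvPolynomial.aeval x : MvPolynomial (Fin (q * p)) RealAlg →ₐ[RealAlg] ℝ).toRingHom
      a b (MAT_X p q)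
    have h2 := hSCH a b (fun i j => (MvPolynomial.aeval x : MvPolynomial (Fin (q * p)) RealAlg →ₐ[RealAlg] ℝ).toRingHom
      (MAT_X p q i j))
    have h3 : dd a b (fun i j => (MvPolynomial.aeval x : MvPolynomial (Fin (q * p)) RealAlg →ₐ[RealAlg] ℝ).toRingHom
      (MAT_X p q i j)) = 1 := by
      rcases hab with rfl | rfl
      · exact h2.2.2.1
      · exact h2.2.2.2
    rw [MAT_dd, h3] at h1
    rw [map_one]
    exact h1
  have hmon : ∀ a b, a ≤ p → b ≤ q → (a ≠ 0 → b ≠ 0 → (a - 1) + p * (b - 1) < i + p * j) →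
      MAT_d a b (MAT_X p q) ∈ posMonoid (cornerPoly p q) (finProdFinEquiv (j, i)) := by
    intro a b ha hb hab
    by_cases h0 : a = 0 ∨ b = 0
    · rw [hd0 a b h0]
      exact Submonoid.one_mem _
    · push Not at h0
      obtain ⟨a', rfl⟩ := Nat.exists_eq_succ_of_ne_zero h0.1
      obtain ⟨b', rfl⟩ := Nat.exists_eq_succ_of_ne_zero h0.2
      refine Submonoid.subset_closure (Or.inr ⟨finProdFinEquiv (⟨b', hb⟩, ⟨a', ha⟩), ?_, ?_⟩)
      · rw [Fin.lt_def, hval, finProdFinEquiv_apply_val]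
        exact hab h0.1 h0.2
      · exact (MAT_corner p q ⟨a', ha⟩ ⟨b', hb⟩).symm
  have hlt : ∀ i' j', i' ≤ (i : ℕ) → j' ≤ (j : ℕ) → i' + j' < i + j → i' + p * j' < i + p * j := by
    intro i' j' hi hj hij
    have hp : 0 < p := i.pos
    rcases Nat.lt_or_ge j' j with h | h
    · have h1 : p * (j' + 1) ≤ p * j := Nat.mul_le_mul_left p h
      have h2 : p * (j' + 1) = p * j' + p := by ring
      omega
    · have : j' = j := le_antisymm hj h
      subst this
      omega
  have hle : ∀ i' j', i' ≤ (i : ℕ) → j' ≤ (j : ℕ) → i' + p * j' ≤ i + p * j := by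
    intro i' j' hi hj
    exact Nat.add_le_add hi (Nat.mul_le_mul_left p hj)
  refine ⟨?_, MAT_d i j (MAT_X p q), -MAT_b i j (MAT_X p q),
    MAT_d (i + 1) j (MAT_X p q) * MAT_d i (j + 1) (MAT_X p q), ?_, ?_, ?_, ?_⟩
  · -- variables of the corner polynomial
    have h1 : MAT_d (i + 1) (j + 1) (MAT_X p q) ∈
        MvPolynomial.supported RealAlg {l : Fin (q * p) | l ≤ finProdFinEquiv (j, i)} := by
      refine MAT_d_mem _ _ _ _ fun i' j' hi' hj' => MAT_X_mem _ _ _ _ _ fun k hk => ?_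
      show k ≤ _
      rw [Fin.le_def, hval, hk]
      exact hle i' j' (by omega) (by omega)
    exact fun l hl => MvPolynomial.mem_supported.1 h1 hl
  · refine hmon i j i.2.le j.2.le fun h1 h2 => hlt _ _ (by omega) (by omega) (by omega)
  · refine Submonoid.mul_mem _ ?_ ?_
    · exact hmon (i + 1) j i.2 j.2.le fun h1 h2 => hlt _ _ (by omega) (by omega) (by omega)
    · exact hmon i (j + 1) i.2.le j.2 fun h1 h2 => hlt _ _ (by omega) (by omega) (by omega)
  · have h1 : -MAT_b i j (MAT_X p q) ∈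
        MvPolynomial.supported RealAlg {l : Fin (q * p) | l < finProdFinEquiv (j, i)} := by
      refine Subalgebra.neg_mem _ (MAT_b_mem _ _ _ _ fun i' j' hi' hj' hij =>
        MAT_X_mem _ _ _ _ _ fun k hk => ?_)
      show k < _
      rw [Fin.lt_def, hval, hk]
      exact hlt i' j' hi' hj' hij
    exact fun l hl => MvPolynomial.mem_supported.1 h1 hl
  · rw [← MAT_X_eq]
    apply MAT_ext
    intro x
    set φ := (MvPolynomial.aeval x : MvPolynomial (Fin (q * p)) RealAlg →ₐ[RealAlg] ℝ).toRingHom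
      with hφ
    show φ _ = φ _
    have h2 := (hSCH i j (fun i j => φ (MAT_X p q i j))).1
    simp only [map_mul, map_add, map_pow, map_neg, MAT_d_map, MAT_b_map, MAT_dd, MAT_bb]
    linear_combination h2

end Pool.Agent.ITR
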