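import Pool.Agent.ITR.St2

/-!
# Quadratic towers: one integration
-/

set_option autoImplicit false

open MeasureTheory Filter Topology

namespace Pool.Agent.ITR

open Pool.Agent.Helper23
open Pool.Agent.Helper23.Quadric (PF evx)

theorem one_sqrt_pow (z : ℝ) (hz : 0 ≤ z) (m : ℕ) : √(z ^ m) = √z ^ m := by
  induction m with
  | zero => simp
  | succ m ih => rw [pow_succ, pow_succ, Real.sqrt_mul (pow_nonneg hz m), ih]

theorem one_term (c r e μ ν : ℝ) (hμ : 0 < μ) (hν : 0 < ν) (j l d : ℕ) :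
    c * (r * e / μ ^ (2 * j + 1)) * (ν ^ 2 / μ ^ 2) ^ j / (ν / μ) ^ (2 * j + 1 + l) =
      (μ ^ 2) ^ d * (e * (c * r * (ν ^ 2) ^ j * (μ ^ 2) ^ (2 * (j + 2 + l)) /
        (μ ^ (2 * d + 3 * (2 * j + 2 + l) + 2) * ν ^ (2 * j + 1 + l)))) := by
  have hμ' : μ ≠ 0 := hμ.ne'
  have hν' : ν ≠ 0 := hν.ne'
  have h1 : c * (r * e / μ ^ (2 * j + 1)) * (ν ^ 2 / μ ^ 2) ^ j / (ν / μ) ^ (2 * j + 1 + l) =
      (c * r * e * (ν ^ 2) ^ j * μ ^ (2 * j + 1 + l)) /
        (μ ^ (2 * j + 1) * (μ ^ 2) ^ j * ν ^ (2 * j + 1 + l)) := by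
    rw [div_pow, div_pow, div_div_eq_mul_div, mul_div_assoc', mul_div_assoc', div_mul_eq_mul_div,
      div_mul_eq_mul_div, div_div, div_mul_eq_mul_div, div_div]
    congr 1 <;> ring
  have h2 : (μ ^ 2) ^ d * (e * (c * r * (ν ^ 2) ^ j * (μ ^ 2) ^ (2 * (j + 2 + l)) /
        (μ ^ (2 * d + 3 * (2 * j + 2 + l) + 2) * ν ^ (2 * j + 1 + l)))) =
      ((μ ^ 2) ^ d * (e * (c * r * (ν ^ 2) ^ j * (μ ^ 2) ^ (2 * (j + 2 + l))))) /
        (μ ^ (2 * d + 3 * (2 * j + 2 + l) + 2) * ν ^ (2 * j + 1 + l)) := by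
    rw [mul_div_assoc', mul_div_assoc']
  rw [h1, h2, div_eq_div_iff (by positivity) (by positivity)]
  ring

/-- [ONE] one integration -/
theorem thm_ONE (hSLS : St_SLS) : St_ONE := by
  intro B n m P q M b s hP hM hb hs hM0 hs0 hq
  obtain ⟨p, hp⟩ := hSLS B n P hP
  set Mm : PF B n := ⟨M, hM⟩ with hMm
  set bm : PF B n := ⟨b, hb⟩ with hbm
  set d := p.natDegree with hd
  set p₁ : Polynomial (PF B n) := ∑ k ∈ Finset.range (d + 1),
    Polynomial.C (p.coeff k * Mm ^ (d - k)) * (Polynomial.C Mm * Polynomial.X - Polynomial.C bm) ^ k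
    with hp₁
  have hJ : ∀ j, ∃ r : ℚ, 2 * j + 1 < m →
      ∫ t : ℝ, t ^ (2 * j) / √(1 + t ^ 2) ^ m = r * Real.pi ^ ((m + 1) % 2) := by
    intro j
    by_cases h : 2 * j + 1 < m
    · obtain ⟨r, hr⟩ := Quadric.J_even j m h
      exact ⟨r, fun _ => hr⟩
    · exact ⟨0, fun h' => absurd h' h⟩
  choose r hr using hJ
  set G : (Fin n → ℝ) → ℝ := ∑ j ∈ (Finset.range m).filter (fun j => 2 * j + 1 < m),
    (p₁.coeff (2 * j) : (Fin n → ℝ) → ℝ) * (fun _ => (r j : ℝ)) * s ^ j * M ^ (2 * (m - j))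
    with hG
  have hGm : G ∈ PF B n := by
    refine (PF B n).sum_mem fun j _ => ?_
    refine (PF B n).mul_mem ((PF B n).mul_mem ((PF B n).mul_mem (p₁.coeff (2 * j)).2
      (Quadric.const_mem_PF (Quadric.ratCast_mem' B _))) ((PF B n).pow_mem hs j))
      ((PF B n).pow_mem hM _)
  refine ⟨G, hGm, 2 * d + 3 * m + 2, fun y hint => ?_⟩
  have hMy := hM0 y
  have hsy := hs0 y
  have hq0 : ∀ τ : ℝ, q (Fin.snoc y (τ - b y / M y)) = M y * τ ^ 2 + s y / M y := by
    intro τ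
    have h := hq y (τ - b y / M y)
    have h2 : M y * q (Fin.snoc y (τ - b y / M y)) = M y * (M y * τ ^ 2 + s y / M y) := by
      rw [h]
      field_simp
      ring
    exact mul_left_cancel₀ hMy.ne' h2
  have hP0 : ∀ τ : ℝ, M y ^ d * P (Fin.snoc y (τ - b y / M y)) =
      (p₁.map (evx B y)).eval τ := by
    intro τ
    rw [hp, Polynomial.eval_map, Polynomial.eval₂_eq_sum_range, Finset.mul_sum, hp₁,
      Polynomial.map_sum, Polynomial.eval_finsetSum]
    refine Finset.sum_congr rfl fun k hk => ?_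
    have hk' : k ≤ d := by
      rw [Finset.mem_range] at hk; omega
    rw [Polynomial.map_mul, Polynomial.map_pow, Polynomial.map_sub, Polynomial.map_mul,
      Polynomial.map_C, Polynomial.map_C, Polynomial.map_C, Polynomial.map_X,
      Polynomial.eval_mul, Polynomial.eval_pow, Polynomial.eval_sub, Polynomial.eval_mul,
      Polynomial.eval_C, Polynomial.eval_C, Polynomial.eval_C, Polynomial.eval_X, map_mul, map_pow]
    have e1 : evx B y Mm = M y := rfl
    have e2 : evx B y bm = b y := rfl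
    rw [e1, e2]
    have e3 : τ - b y / M y = (M y * τ - b y) / M y := by field_simp
    have e4 : M y ^ d = M y ^ (d - k) * M y ^ k := by rw [← pow_add]; congr 1; omega
    rw [e3, e4, div_pow]
    field_simp
  have h1 := hint.comp_sub_right (b y / M y)
  have h2 : ∀ τ : ℝ, P (Fin.snoc y (τ - b y / M y)) / √(q (Fin.snoc y (τ - b y / M y)) ^ m) =
      (M y ^ d)⁻¹ * ((p₁.map (evx B y)).eval τ / √(M y * τ ^ 2 + s y / M y) ^ m) := by
    intro τ
    rw [← hP0, hq0, one_sqrt_pow _ (by positivity)]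
    field_simp
  simp only [h2] at h1
  have h3 : Integrable (fun τ : ℝ => (p₁.map (evx B y)).eval τ /
      √(M y * τ ^ 2 + s y / M y) ^ m) := by
    rwa [integrable_const_mul_iff (isUnit_iff_ne_zero.mpr (by positivity))] at h1
  rw [← integral_sub_right_eq_self (fun t : ℝ => P (Fin.snoc y t) / √(q (Fin.snoc y t) ^ m))
    (b y / M y)]
  simp only [h2]
  rw [integral_const_mul, Quadric.slice_whole _ m hMy (div_pos hsy hMy) h3, hG, Finset.sum_apply,
    Finset.sum_div, Finset.sum_div, Finset.mul_sum, Finset.mul_sum]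
  refine Finset.sum_congr rfl fun j hj => ?_
  rw [Finset.mem_filter] at hj
  obtain ⟨l, hl⟩ : ∃ l, m = 2 * j + 2 + l := ⟨m - (2 * j + 2), by omega⟩
  have e0 : m - 1 = 2 * j + 1 + l := by omega
  have e1 : √(M y ^ (2 * d + 3 * m + 2) * s y ^ (m - 1)) =
      √(M y) ^ (2 * d + 3 * (2 * j + 2 + l) + 2) * √(s y) ^ (2 * j + 1 + l) := by
    rw [Real.sqrt_mul (by positivity), one_sqrt_pow _ hMy.le, one_sqrt_pow _ hsy.le, e0, hl]
  have e2 : m - j = j + 2 + l := by omega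
  have e3 : √(s y / M y) ^ (m - 1) = (√(s y) / √(M y)) ^ (2 * j + 1 + l) := by
    rw [Real.sqrt_div hsy.le, e0]
  have key := one_term ((p₁.coeff (2 * j) : (Fin n → ℝ) → ℝ) y) (r j)
    (Real.pi ^ ((m + 1) % 2)) (√(M y)) (√(s y)) (Real.sqrt_pos.mpr hMy) (Real.sqrt_pos.mpr hsy) j l d
  rw [Real.sq_sqrt hMy.le, Real.sq_sqrt hsy.le] at key
  rw [hr j hj.2, e3, e1, Polynomial.coeff_map, Quadric.evx_apply]
  simp only [Pi.mul_apply, Pi.pow_apply]
  rw [e2, key, ← mul_assoc, inv_mul_cancel₀ (by positivity), one_mul]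

end Pool.Agent.ITR
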