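import Pool.Agent.ITR.St2

/-!
# Quadratic towers, module PRM: algebraic primitives for odd `m`
-/

set_option autoImplicit false

open MeasureTheory Filter Topology

namespace Pool.Agent.ITR

open Polynomial

/-- the operator `R ↦ R' (a X^2 + q) - n a X R` -/
private noncomputable def prmL (n : ℕ) (a q : ℝ) : ℝ[X] →ₗ[ℝ] ℝ[X] where
  toFun R := derivative R * (C a * X ^ 2 + C q) - C ((n : ℝ) * a) * X * R
  map_add' R S := by
    rw [derivative_add]
    ring
  map_smul' c R := by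
    rw [derivative_smul]
    simp only [smul_eq_C_mul, RingHom.id_apply]
    ring

private lemma prmL_apply (n : ℕ) (a q : ℝ) (R : ℝ[X]) :
    prmL n a q R = derivative R * (C a * X ^ 2 + C q) - C ((n : ℝ) * a) * X * R := rfl

private lemma prmL_one (n : ℕ) (a q : ℝ) :
    prmL n a q 1 = (-((n : ℝ) * a)) • (X ^ 1 : ℝ[X]) := by
  rw [prmL_apply, derivative_one, smul_eq_C_mul, C_neg]
  ring

private lemma prmL_pow (n j : ℕ) (a q : ℝ) :
    prmL n a q (X ^ (j + 1)) = ((((j : ℝ) + 1) - n) * a) • (X ^ (j + 2) : ℝ[X]) +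
      (((j : ℝ) + 1) * q) • (X ^ j : ℝ[X]) := by
  rw [prmL_apply, derivative_X_pow]
  simp only [smul_eq_C_mul, C_mul, C_sub, C_add, map_one, Nat.cast_add, Nat.cast_one,
    Nat.add_sub_cancel]
  ring

/-- odd powers -/
private lemma prm_odd (r : ℕ) {a q : ℝ} (ha : 0 < a) (i : ℕ) :
    (X ^ (2 * i + 1) : ℝ[X]) ∈ LinearMap.range (prmL (2 * r + 1) a q) := by
  induction i with
  | zero =>
    have h1 : (-(((2 * r + 1 : ℕ) : ℝ) * a)) • (X ^ 1 : ℝ[X]) ∈
        LinearMap.range (prmL (2 * r + 1) a q) := ⟨1, prmL_one _ _ _⟩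
    have h2 : (-(((2 * r + 1 : ℕ) : ℝ) * a)) ≠ 0 := by
      have : (0 : ℝ) < ((2 * r + 1 : ℕ) : ℝ) := by positivity
      have := mul_pos this ha
      linarith
    exact (Submodule.smul_mem_iff _ h2).1 h1
  | succ i ih =>
    have h1 : ((((2 * i + 1 : ℕ) : ℝ) + 1 - ((2 * r + 1 : ℕ) : ℝ)) * a) •
        (X ^ (2 * i + 1 + 2) : ℝ[X]) + ((((2 * i + 1 : ℕ) : ℝ) + 1) * q) • (X ^ (2 * i + 1) : ℝ[X]) ∈
        LinearMap.range (prmL (2 * r + 1) a q) := ⟨X ^ (2 * i + 1 + 1), prmL_pow _ _ _ _⟩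
    have h3 := (Submodule.add_mem_iff_left _ (Submodule.smul_mem _ _ ih)).1 h1
    have h2 : ((((2 * i + 1 : ℕ) : ℝ) + 1 - ((2 * r + 1 : ℕ) : ℝ)) * a) ≠ 0 := by
      refine mul_ne_zero ?_ ha.ne'
      intro h
      have h' : (((2 * i + 1 : ℕ) : ℝ) + 1) = ((2 * r + 1 : ℕ) : ℝ) := by linarith
      have h'' : 2 * i + 1 + 1 = 2 * r + 1 := by exact_mod_cast h'
      omega
    have h4 := (Submodule.smul_mem_iff _ h2).1 h3
    have h5 : 2 * (i + 1) + 1 = 2 * i + 1 + 2 := by ring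
    rw [h5]
    exact h4

/-- even powers -/
private lemma prm_even (r : ℕ) {a q : ℝ} (hq : 0 < q) (d : ℕ) :
    ∀ e, d + e = r → (X ^ (2 * e) : ℝ[X]) ∈ LinearMap.range (prmL (2 * r + 1) a q) := by
  induction d with
  | zero =>
    intro e he
    have he' : e = r := by omega
    subst he'
    have h1 := prmL_pow (2 * e + 1) (2 * e) a q
    have h2 : ((((2 * e : ℕ) : ℝ) + 1 - ((2 * e + 1 : ℕ) : ℝ)) * a) = 0 := by
      push_cast
      ring
    rw [h2, zero_smul, zero_add] at h1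
    have h3 : ((((2 * e : ℕ) : ℝ) + 1) * q) • (X ^ (2 * e) : ℝ[X]) ∈
        LinearMap.range (prmL (2 * e + 1) a q) := ⟨_, h1⟩
    refine (Submodule.smul_mem_iff _ ?_).1 h3
    have : (0 : ℝ) < ((2 * e : ℕ) : ℝ) + 1 := by positivity
    exact (mul_pos this hq).ne'
  | succ d ih =>
    intro e he
    have h0 := ih (e + 1) (by omega)
    have h1 : ((((2 * e : ℕ) : ℝ) + 1 - ((2 * r + 1 : ℕ) : ℝ)) * a) •
        (X ^ (2 * e + 2) : ℝ[X]) + ((((2 * e : ℕ) : ℝ) + 1) * q) • (X ^ (2 * e) : ℝ[X]) ∈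
        LinearMap.range (prmL (2 * r + 1) a q) := ⟨X ^ (2 * e + 1), prmL_pow _ _ _ _⟩
    have h5 : 2 * (e + 1) = 2 * e + 2 := by ring
    rw [h5] at h0
    have h3 := (Submodule.add_mem_iff_right _ (Submodule.smul_mem _ _ h0)).1 h1
    refine (Submodule.smul_mem_iff _ ?_).1 h3
    have : (0 : ℝ) < ((2 * e : ℕ) : ℝ) + 1 := by positivity
    exact (mul_pos this hq).ne'

theorem thm_PRM : St_PRM := by
  intro p m a q ha hq hm hint
  have hcoef := Pool.Agent.Helper23.Quadric.coeff_eq_zero_of_integrable p m ha hq hint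
  rcases Nat.lt_or_ge m 3 with hm3 | hm3
  · -- `m = 1`
    have hm1 : m = 1 := by
      obtain ⟨k, hk⟩ := hm
      omega
    have hp : p = 0 := by
      ext k
      rw [hcoef k (by omega), coeff_zero]
    refine ⟨0, fun s => ?_⟩
    rw [hp]
    simp only [eval_zero, zero_div]
    exact hasDerivAt_const s (0 : ℝ)
  · obtain ⟨k, hk⟩ := hm
    obtain ⟨r, hr⟩ : ∃ r, k = r + 1 := ⟨k - 1, by omega⟩
    have hmr : m = 2 * r + 3 := by omega
    have hp : p ∈ LinearMap.range (prmL (2 * r + 1) a q) := by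
      rw [p.as_sum_range_C_mul_X_pow]
      refine Submodule.sum_mem _ (fun j _ => ?_)
      rw [← smul_eq_C_mul]
      rcases Nat.lt_or_ge (j + 1) m with hj | hj
      · refine Submodule.smul_mem _ _ ?_
        rcases Nat.even_or_odd' j with ⟨c, hc | hc⟩
        · rw [hc]
          exact prm_even r hq (r - c) c (by omega)
        · rw [hc]
          exact prm_odd r ha c
      · rw [hcoef j hj, zero_smul]
        exact Submodule.zero_mem _
    obtain ⟨R, hR⟩ := hp
    refine ⟨R, fun s => ?_⟩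
    have hg : 0 < a * s ^ 2 + q := by positivity
    have hd1 : HasDerivAt (fun s : ℝ => a * s ^ 2 + q) (2 * a * s) s := by
      have h := ((hasDerivAt_pow 2 s).const_mul a).add_const q
      refine h.congr_deriv ?_
      simp
      ring
    have hd2 := hd1.sqrt hg.ne'
    have hd3 := hd2.pow (2 * r + 1)
    have hs : 0 < √(a * s ^ 2 + q) := Real.sqrt_pos.2 hg
    have hd4 := (R.hasDerivAt s).div hd3 (pow_pos hs _).ne'
    have hmm : m - 2 = 2 * r + 1 := by omega
    rw [hmm, hmr]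
    refine hd4.congr_deriv ?_
    rw [← hR, prmL_apply]
    simp only [eval_sub, eval_mul, eval_add, eval_C, eval_pow, eval_X]
    have hsq : √(a * s ^ 2 + q) ^ 2 = a * s ^ 2 + q := Real.sq_sqrt hg.le
    set g := √(a * s ^ 2 + q) with hgdef
    have e1 : 2 * r + 1 - 1 = 2 * r := by omega
    have e2 : ((fun y : ℝ => √(a * y ^ 2 + q)) ^ (2 * r + 1)) s = g ^ (2 * r + 1) := rfl
    rw [e1, e2, ← hsq]
    have hgne : g ≠ 0 := hs.ne'
    field_simp
    push_cast
    ring

end Pool.Agent.ITR
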