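import Pool.Agent.ITR.St2

/-!
# Iterated residues, module SAF: `P/√w` is semialgebraic
-/

set_option autoImplicit false

namespace Pool.Agent.ITR

open Pool.Agent.Helper23.PeriodDefs

theorem thm_SAF : St_SAF := by
  classical
  intro n P w hw
  set P' : MvPolynomial (Fin (n + 1)) RealAlg := MvPolynomial.rename Fin.castSucc P with hP'
  set w' : MvPolynomial (Fin (n + 1)) RealAlg := MvPolynomial.rename Fin.castSucc w with hw'
  have hren : ∀ (p : MvPolynomial (Fin n) RealAlg) (z : Fin (n + 1) → ℝ),
      MvPolynomial.aeval z (MvPolynomial.rename Fin.castSucc p) =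
        MvPolynomial.aeval (Fin.init z : Fin n → ℝ) p := by
    intro p z
    rw [MvPolynomial.aeval_rename]
    rfl
  refine ⟨2, fun i => if i = 0 then {MvPolynomial.X (Fin.last n) ^ 2 * w' - P' ^ 2} else
    {P', MvPolynomial.X (Fin.last n)}, fun i => if i = 0 then
      {MvPolynomial.X (Fin.last n) * P'} else ∅, ?_⟩
  ext z
  rw [Set.mem_ofPred_eq, Set.mem_ofPred_eq]
  rw [Fin.exists_fin_two]
  simp only [evalMulti, if_true, Fin.isValue, one_ne_zero, if_false, Finset.mem_singleton, forall_eq,
    Finset.mem_insert, forall_eq_or_imp, Finset.notMem_empty, false_implies, implies_true,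
    and_true, map_sub, map_mul, map_pow, MvPolynomial.aeval_X]
  rw [hP', hw', hren, hren]
  set t := z (Fin.last n) with ht
  set x : Fin n → ℝ := Fin.init z with hx
  have hwx : 0 < MvPolynomial.aeval x w := hw x
  set a := MvPolynomial.aeval x P with ha
  set b := MvPolynomial.aeval x w with hb
  have hsb : 0 < √b := Real.sqrt_pos.mpr hwx
  have hsq : √b ^ 2 = b := Real.sq_sqrt hwx.le
  constructor
  · intro h
    have h1 : t * √b = a := by
      rw [h]
      field_simp
    rcases eq_or_ne a 0 with h0 | h0
    · right
      refine ⟨h0, ?_⟩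
      rw [h, h0, zero_div]
    · left
      have ht0 : t ≠ 0 := by
        intro h2
        apply h0
        rw [← h1, h2, zero_mul]
      refine ⟨?_, ?_⟩
      · rw [← h1]
        linear_combination (-(t ^ 2)) * hsq
      · rw [← h1]
        have : 0 < t ^ 2 * √b := mul_pos (by positivity) hsb
        calc 0 < t ^ 2 * √b := this
          _ = t * (t * √b) := by ring
  · rintro (⟨h1, h2⟩ | ⟨h1, h2⟩)
    · rw [eq_div_iff hsb.ne']
      have h3 : (t * √b - a) * (t * √b + a) = 0 := by
        have : t ^ 2 * √b ^ 2 - a ^ 2 = 0 := by rw [hsq]; exact h1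
        linear_combination this
      rcases mul_eq_zero.mp h3 with h4 | h4
      · linarith
      · exfalso
        have h5 : t * √b = - a := by linarith
        have h6 : t * (t * √b) = - (t * a) := by rw [h5]; ring
        have h7 : 0 ≤ t * (t * √b) := by
          have : t * (t * √b) = t ^ 2 * √b := by ring
          rw [this]
          positivity
        linarith
    · rw [h1, zero_div]
      exact h2

end Pool.Agent.ITR
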