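import Pool.Agent.ITR.St2

/-!
# Quadratic towers: an identity for block matrices
-/

set_option autoImplicit false

namespace Pool.Agent.ITR

open Matrix

private theorem SCG_pos {m n : Type} [Fintype m] [Fintype n] [DecidableEq n]
    (Z : Matrix m n ℝ) : 0 < (1 + Z.transpose * Z).det := by
  have h1 : (Z.transpose * Z).PosSemidef := by
    have h2 := Matrix.posSemidef_conjTranspose_mul_self Z
    rwa [Matrix.conjTranspose_eq_transpose_of_trivial] at h2
  exact (Matrix.PosDef.one.add_posSemidef h1).det_pos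

theorem thm_SCG : St_SCG := by
  intro a b Y v u t
  obtain ⟨A, hA⟩ : ∃ A : Matrix (Fin b) (Fin b) ℝ, A = 1 + Y.transpose * Y := ⟨_, rfl⟩
  obtain ⟨w, hw⟩ : ∃ w : Fin b → ℝ, w = Y.transpose.mulVec v := ⟨_, rfl⟩
  obtain ⟨z, hz⟩ : ∃ z : Fin b ⊕ Fin 1 → ℝ, z = Sum.elim u (fun _ => t) := ⟨_, rfl⟩
  obtain ⟨G, hG⟩ : ∃ G : Matrix (Fin b ⊕ Fin 1) (Fin b ⊕ Fin 1) ℝ,
    G = 1 + (Matrix.fromCols Y (Matrix.replicateCol (Fin 1) v)).transpose *
      Matrix.fromCols Y (Matrix.replicateCol (Fin 1) v) := ⟨_, rfl⟩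
  have hD : 0 < A.det := by
    rw [hA]
    exact SCG_pos Y
  have hGd : 0 < G.det := by
    rw [hG]
    exact SCG_pos _
  have hX : Matrix.fromBlocks Y (Matrix.replicateCol (Fin 1) v) (Matrix.replicateRow (Fin 1) u)
      (Matrix.of fun _ _ => t) = Matrix.fromRows
        (Matrix.fromCols Y (Matrix.replicateCol (Fin 1) v)) (Matrix.replicateRow (Fin 1) z) := by
    ext i j
    rcases i with i | i <;> rcases j with j | j <;> rw [hz] <;> rfl
  have h1 : 1 + (Matrix.fromRows (Matrix.fromCols Y (Matrix.replicateCol (Fin 1) v))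
      (Matrix.replicateRow (Fin 1) z)).transpose *
      Matrix.fromRows (Matrix.fromCols Y (Matrix.replicateCol (Fin 1) v))
        (Matrix.replicateRow (Fin 1) z) =
      G + Matrix.replicateCol (Fin 1) z * Matrix.replicateRow (Fin 1) z := by
    rw [Matrix.transpose_fromRows, Matrix.fromCols_mul_fromRows, Matrix.transpose_replicateRow, hG,
      add_assoc]
  have h2 : 1 + (Matrix.fromRows Y (Matrix.replicateRow (Fin 1) u)).transpose *
      Matrix.fromRows Y (Matrix.replicateRow (Fin 1) u) =
      A + Matrix.replicateCol (Fin 1) u * Matrix.replicateRow (Fin 1) u := by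
    rw [Matrix.transpose_fromRows, Matrix.fromCols_mul_fromRows, Matrix.transpose_replicateRow, hA,
      add_assoc]
  have hB : Y.transpose * Matrix.replicateCol (Fin 1) v = Matrix.replicateCol (Fin 1) w := by
    rw [hw, Matrix.replicateCol_mulVec]
  have hC : (Matrix.replicateCol (Fin 1) v).transpose * Y = Matrix.replicateRow (Fin 1) w := by
    rw [← Matrix.transpose_replicateCol, ← hB, Matrix.transpose_mul, Matrix.transpose_transpose]
  have h3 : G = Matrix.fromBlocks A (Matrix.replicateCol (Fin 1) w)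
      (Matrix.replicateRow (Fin 1) w) (Matrix.of fun _ _ => 1 + dotProduct v v) := by
    rw [hG, Matrix.transpose_fromCols, Matrix.fromRows_mul_fromCols, hB, hC,
      ← Matrix.fromBlocks_one, Matrix.fromBlocks_add, zero_add, zero_add, hA]
    congr 1
    ext i j
    rw [Subsingleton.elim i j]
    simp [Matrix.mul_apply, dotProduct]
  have hAu : IsUnit A.det := isUnit_iff_ne_zero.2 hD.ne'
  have hGu : IsUnit G.det := isUnit_iff_ne_zero.2 hGd.ne'
  -- the numbers
  obtain ⟨s0, hs0⟩ : ∃ s0 : ℝ, s0 = 1 + dotProduct v v - dotProduct w (A⁻¹.mulVec w) := ⟨_, rfl⟩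
  obtain ⟨g, hg⟩ : ∃ g : ℝ, g = dotProduct u (A⁻¹.mulVec w) := ⟨_, rfl⟩
  have hsym : A.transpose = A := by
    rw [hA, Matrix.transpose_add, Matrix.transpose_one, Matrix.transpose_mul,
      Matrix.transpose_transpose]
  have hg' : dotProduct w (A⁻¹.mulVec u) = g := by
    rw [hg, Matrix.dotProduct_mulVec, ← Matrix.mulVec_transpose, Matrix.transpose_nonsing_inv,
      hsym, dotProduct_comm]
  have hdG : G.det = A.det * s0 := by
    have hinv : Invertible A := Matrix.invertibleOfIsUnitDet A hAu
    rw [h3, Matrix.det_fromBlocks₁₁]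
    refine congrArg (fun x => A.det * x) ?_
    rw [Matrix.det_unique, Matrix.invOf_eq_nonsing_inv, hs0, Matrix.sub_apply, Matrix.mul_assoc,
      ← Matrix.replicateCol_mulVec]
    rfl
  have hs0' : s0 ≠ 0 := by
    rintro h
    rw [hdG, h, mul_zero] at hGd
    exact lt_irrefl _ hGd
  have hsol : G⁻¹.mulVec z = Sum.elim (A⁻¹.mulVec (u - ((t - g) / s0) • w))
      (fun _ => (t - g) / s0) := by
    have h4 : G.mulVec (Sum.elim (A⁻¹.mulVec (u - ((t - g) / s0) • w))
        (fun _ => (t - g) / s0)) = z := by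
      rw [h3, Matrix.fromBlocks_mulVec, hz]
      congr 1
      · rw [Sum.elim_comp_inl, Sum.elim_comp_inr, Matrix.mulVec_mulVec,
          Matrix.mul_nonsing_inv _ hAu, Matrix.one_mulVec]
        funext i
        simp [Matrix.mulVec, dotProduct]
        ring
      · rw [Sum.elim_comp_inl, Sum.elim_comp_inr]
        funext i
        have h5 : (Matrix.replicateRow (Fin 1) w).mulVec
            (A⁻¹.mulVec (u - ((t - g) / s0) • w)) i = g - (t - g) / s0 *
              dotProduct w (A⁻¹.mulVec w) := by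
          show dotProduct w (A⁻¹.mulVec (u - ((t - g) / s0) • w)) = _
          rw [Matrix.mulVec_sub, Matrix.mulVec_smul, dotProduct_sub, dotProduct_smul, hg',
            smul_eq_mul]
        have h6 : (Matrix.of fun (_ _ : Fin 1) => 1 + dotProduct v v).mulVec
            (fun _ => (t - g) / s0) i = (1 + dotProduct v v) * ((t - g) / s0) := by
          simp [Matrix.mulVec, dotProduct]
        rw [Pi.add_apply, h5, h6]
        have h7 : g - (t - g) / s0 * dotProduct w (A⁻¹.mulVec w) +
            (1 + dotProduct v v) * ((t - g) / s0) = g + (t - g) / s0 * s0 := by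
          rw [hs0]
          ring
        rw [h7, div_mul_cancel₀ _ hs0']
        ring
    have h13 := congrArg (fun x => G⁻¹.mulVec x) h4
    simp only [Matrix.mulVec_mulVec, Matrix.nonsing_inv_mul _ hGu, Matrix.one_mulVec] at h13
    exact h13.symm
  have h8 : (G + Matrix.replicateCol (Fin 1) z * Matrix.replicateRow (Fin 1) z).det =
      G.det * (1 + dotProduct z (G⁻¹.mulVec z)) := by
    rw [Matrix.det_add_mul _ _ hGu]
    refine congrArg (fun x => G.det * x) ?_
    rw [Matrix.det_unique, Matrix.add_apply, Matrix.one_apply_eq, Matrix.mul_assoc,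
      ← Matrix.replicateCol_mulVec]
    rfl
  have h9 : (A + Matrix.replicateCol (Fin 1) u * Matrix.replicateRow (Fin 1) u).det =
      A.det * (1 + dotProduct u (A⁻¹.mulVec u)) := by
    rw [Matrix.det_add_mul _ _ hAu]
    refine congrArg (fun x => A.det * x) ?_
    rw [Matrix.det_unique, Matrix.add_apply, Matrix.one_apply_eq, Matrix.mul_assoc,
      ← Matrix.replicateCol_mulVec]
    rfl
  have h10 : dotProduct z (G⁻¹.mulVec z) = dotProduct u (A⁻¹.mulVec u) +
      (t - g) / s0 * (t - g) := by
    rw [hsol, hz, sumElim_dotProduct_sumElim, Matrix.mulVec_sub, Matrix.mulVec_smul,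
      dotProduct_sub, dotProduct_smul, ← hg, smul_eq_mul]
    simp [dotProduct]
    ring
  have h11 : dotProduct u (A.adjugate.mulVec w) = A.det * g := by
    have h12 : A.adjugate = A.det • A⁻¹ := by
      rw [Matrix.inv_def, smul_smul, Ring.mul_inverse_cancel _ hAu, one_smul]
    rw [h12, Matrix.smul_mulVec, dotProduct_smul, hg, smul_eq_mul]
  rw [hX, h1, h2, ← hA, ← hG, ← hw, h8, h9, h10, h11, hdG]
  field_simp
  ring

end Pool.Agent.ITR
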