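import Pool.Agent.ITR.St2

/-!
# Quadratic towers, SCH: the identity for corner blocks
-/

set_option autoImplicit false

namespace Pool.Agent.ITR

private theorem SCH_reindex {m n m' n' : Type} [Fintype m] [Fintype n] [DecidableEq n] [Fintype m']
    [Fintype n'] [DecidableEq n'] (e' : m' ≃ m) (e : n' ≃ n) (Z : Matrix m n ℝ) :
    (1 + Z.transpose * Z).det =
      (1 + (Z.submatrix e' e).transpose * (Z.submatrix e' e)).det := by
  rw [← Matrix.det_submatrix_equiv_self e (1 + Z.transpose * Z)]
  congr 1
  rw [Matrix.transpose_submatrix, Matrix.submatrix_mul_equiv]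
  ext i j
  simp [Matrix.one_apply]

theorem thm_SCH (hSCG : St_SCG) : St_SCH := by
  intro a b X
  refine ⟨?_, ?_, ?_, ?_⟩
  · have h := hSCG a b (Matrix.of fun (i : Fin a) (j : Fin b) => X i j) (fun i => X i b)
      (fun j => X a j) (X a b)
    have h1 : dd (a + 1) (b + 1) X = (1 + (Matrix.fromBlocks
        (Matrix.of fun (i : Fin a) (j : Fin b) => X i j)
        (Matrix.replicateCol (Fin 1) (fun i : Fin a => X i b))
        (Matrix.replicateRow (Fin 1) (fun j : Fin b => X a j))
        (Matrix.of fun _ _ => X a b)).transpose *
        Matrix.fromBlocks (Matrix.of fun (i : Fin a) (j : Fin b) => X i j)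
        (Matrix.replicateCol (Fin 1) (fun i : Fin a => X i b))
        (Matrix.replicateRow (Fin 1) (fun j : Fin b => X a j))
        (Matrix.of fun _ _ => X a b)).det := by
      unfold dd
      rw [SCH_reindex (finSumFinEquiv (m := a) (n := 1)) (finSumFinEquiv (m := b) (n := 1))]
      congr 3
      · congr 1
        ext i j
        rcases i with i | i <;> rcases j with j | j <;>
          simp [Matrix.submatrix_apply, Fin.natAdd]
      · ext i j
        rcases i with i | i <;> rcases j with j | j <;>
          simp [Matrix.submatrix_apply, Fin.natAdd]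
    have h2 : dd (a + 1) b X = (1 + (Matrix.fromRows
        (Matrix.of fun (i : Fin a) (j : Fin b) => X i j)
        (Matrix.replicateRow (Fin 1) (fun j : Fin b => X a j))).transpose *
        Matrix.fromRows (Matrix.of fun (i : Fin a) (j : Fin b) => X i j)
        (Matrix.replicateRow (Fin 1) (fun j : Fin b => X a j))).det := by
      unfold dd
      rw [SCH_reindex (finSumFinEquiv (m := a) (n := 1)) (Equiv.refl _)]
      congr 3
      · congr 1
        ext i j
        rcases i with i | i <;> simp [Matrix.submatrix_apply, Fin.natAdd]
      · ext i j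
        rcases i with i | i <;> simp [Matrix.submatrix_apply, Fin.natAdd]
    have h3 : dd a (b + 1) X = (1 + (Matrix.fromCols
        (Matrix.of fun (i : Fin a) (j : Fin b) => X i j)
        (Matrix.replicateCol (Fin 1) (fun i : Fin a => X i b))).transpose *
        Matrix.fromCols (Matrix.of fun (i : Fin a) (j : Fin b) => X i j)
        (Matrix.replicateCol (Fin 1) (fun i : Fin a => X i b))).det := by
      unfold dd
      rw [SCH_reindex (Equiv.refl _) (finSumFinEquiv (m := b) (n := 1))]
      congr 3
      · congr 1
        ext i j
        rcases j with j | j <;> simp [Matrix.submatrix_apply, Fin.natAdd]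
      · ext i j
        rcases j with j | j <;> simp [Matrix.submatrix_apply, Fin.natAdd]
    rw [h1, h2, h3]
    exact h
  · unfold dd
    have h1 : (1 + (Matrix.of fun (i : Fin a) (j : Fin b) => X i j).transpose *
        (Matrix.of fun (i : Fin a) (j : Fin b) => X i j)).PosDef := by
      refine Matrix.PosDef.one.add_posSemidef ?_
      have := Matrix.posSemidef_conjTranspose_mul_self
        (Matrix.of fun (i : Fin a) (j : Fin b) => X i j)
      rwa [Matrix.conjTranspose_eq_transpose_of_trivial] at this
    exact h1.det_pos
  · unfold dd
    have h1 : (Matrix.of fun (i : Fin 0) (j : Fin b) => X i j).transpose *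
        (Matrix.of fun (i : Fin 0) (j : Fin b) => X i j) = 0 := by
      ext i j
      simp [Matrix.mul_apply]
    rw [h1, add_zero, Matrix.det_one]
  · unfold dd
    exact Matrix.det_isEmpty

end Pool.Agent.ITR
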