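import Pool.Agent.ITR.St2

/-!
# Quadratic towers: slices in the direction of the last variable
-/

set_option autoImplicit false

namespace Pool.Agent.ITR

open Pool.Agent.Helper23
open Pool.Agent.Helper23.Quadric (PF evx)

/-- [SLS] slices in the direction of the last variable -/
theorem thm_SLS : St_SLS := by
  intro B n P hP
  obtain ⟨Q, hQ⟩ := Quadric.exists_of_mem_PF hP
  let σ : Fin (n + 1) → Fin (n + 1) :=
    fun i => Fin.lastCases (motive := fun _ => Fin (n + 1)) (0 : Fin (n + 1)) (fun j => j.succ) i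
  obtain ⟨p, hp⟩ := Quadric.exists_slice (Quadric.mem_PF (B := B) (MvPolynomial.rename σ Q))
  refine ⟨p, fun t y => ?_⟩
  rw [← hp t y, MvPolynomial.aeval_rename, ← hQ]
  have h : (Fin.cons t y : Fin (n + 1) → ℝ) ∘ σ = Fin.snoc y t := by
    funext i
    refine Fin.lastCases ?_ (fun j => ?_) i
    · simp [σ]
    · simp [σ]
  rw [h]

end Pool.Agent.ITR
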