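import Pool.Agent.ITR.St2

/-!
# Quadratic towers, module TYP: the types of the fibres
-/

set_option autoImplicit false

open MeasureTheory Filter Topology

namespace Pool.Agent.ITR

namespace TYP

private theorem sqrt_pow' {z : ℝ} (hz : 0 < z) (m : ℕ) : √(z ^ m) = √z ^ m := by
  have h1 : (√z ^ m) ^ 2 = z ^ m := by
    rw [← pow_mul, mul_comm, pow_mul, Real.sq_sqrt hz.le]
  rw [← h1, Real.sqrt_sq (by positivity)]

private theorem q_eq {M b s : ℝ} {q : ℝ → ℝ} (hM : 0 < M)
    (h : ∀ t : ℝ, M * q t = (M * t + b) ^ 2 + s) (t : ℝ) :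
    q t = M * (t + b / M) ^ 2 + s / M := by
  have h1 := h t
  have hM' : M ≠ 0 := hM.ne'
  have h2 : M * (M * (t + b / M) ^ 2 + s / M) = (M * t + b) ^ 2 + s := by
    field_simp
  exact mul_left_cancel₀ hM' (h1.trans h2.symm)

/-- the polynomial of the quadratic function -/
private noncomputable def QP (M b s : ℝ) : Polynomial ℝ :=
  Polynomial.C M * (Polynomial.X + Polynomial.C (b / M)) ^ 2 + Polynomial.C (s / M)

private theorem QP_eval (M b s t : ℝ) : (QP M b s).eval t = M * (t + b / M) ^ 2 + s / M := by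
  simp [QP]

end TYP

theorem thm_TYP (hPRM : St_PRM) : St_TYP := by
  intro p m M b s q hM hs hq hint
  have hqe := TYP.q_eq hM hq
  have hqpos : ∀ t, 0 < q t := by
    intro t
    rw [hqe]
    have h1 : 0 < s / M := div_pos hs hM
    have h2 : 0 ≤ M * (t + b / M) ^ 2 := by positivity
    linarith
  have hQ : ∀ t, (TYP.QP M b s).eval t = q t := fun t => by rw [TYP.QP_eval, hqe]
  refine ⟨fun hm => ?_, fun hm F => ?_⟩
  · obtain ⟨k, hk⟩ := hm
    refine ⟨p, TYP.QP M b s ^ k, Filter.Eventually.of_forall (fun t => ?_)⟩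
    change p.eval t / √(q t ^ m) = p.eval t / (TYP.QP M b s ^ k).eval t
    rw [Polynomial.eval_pow, hQ, hk, ← two_mul, mul_comm 2 k, pow_mul,
      Real.sqrt_sq (pow_nonneg (hqpos t).le k)]
  · have hint2 : Integrable (fun τ : ℝ => (p.comp (Polynomial.X - Polynomial.C (b / M))).eval τ /
        √(M * τ ^ 2 + s / M) ^ m) := by
      have h1 := hint.comp_sub_right (b / M)
      refine h1.congr (Filter.Eventually.of_forall (fun τ => ?_))
      change p.eval (τ - b / M) / √(q (τ - b / M) ^ m) =
        (p.comp (Polynomial.X - Polynomial.C (b / M))).eval τ / √(M * τ ^ 2 + s / M) ^ m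
      rw [TYP.sqrt_pow' (hqpos _), hqe, Polynomial.eval_comp]
      simp
    obtain ⟨R, hR⟩ := hPRM _ m M (s / M) hM (div_pos hs hM) hm hint2
    have hd : ∀ t, HasDerivAt (fun t : ℝ => R.eval (t + b / M) / √(q t) ^ (m - 2))
        (p.eval t / √(q t ^ m)) t := by
      intro t
      have h1 := (hR (t + b / M)).comp_add_const
      have e1 : (fun x : ℝ => R.eval (x + b / M) / √(M * (x + b / M) ^ 2 + s / M) ^ (m - 2)) =
          fun t : ℝ => R.eval (t + b / M) / √(q t) ^ (m - 2) := by
        funext x
        rw [hqe x]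
      have e2 : (p.comp (Polynomial.X - Polynomial.C (b / M))).eval (t + b / M) /
          √(M * (t + b / M) ^ 2 + s / M) ^ m = p.eval t / √(q t ^ m) := by
        rw [TYP.sqrt_pow' (hqpos _), hqe, Polynomial.eval_comp]
        simp
      rw [e1, e2] at h1
      exact h1
    refine ⟨fun t : ℝ => R.eval (t + b / M) / √(q t) ^ (m - 2), ∅,
      Polynomial.C (TYP.QP M b s ^ (m - 2)) * Polynomial.X ^ 2 -
        Polynomial.C ((R.comp (Polynomial.X + Polynomial.C (b / M))) ^ 2), ?_, ?_, ?_, ?_, ?_, ?_⟩
    · intro h0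
      have h1 := congrArg (fun P => (Polynomial.coeff P 2).eval 0) h0
      simp only [Polynomial.coeff_sub, Polynomial.coeff_C_mul, Polynomial.coeff_X_pow,
        Polynomial.coeff_C, Polynomial.coeff_zero, Polynomial.eval_zero] at h1
      simp only [if_true, mul_one, OfNat.ofNat_ne_zero, if_false, sub_zero, Polynomial.eval_pow,
        hQ] at h1
      exact (pow_pos (hqpos 0) (m - 2)).ne' h1
    · intro t
      have h1 : (√(q t) ^ (m - 2)) ^ 2 = q t ^ (m - 2) := by
        rw [← pow_mul, mul_comm, pow_mul, Real.sq_sqrt (hqpos t).le]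
      have h2 : √(q t) ^ (m - 2) ≠ 0 := pow_ne_zero _ (Real.sqrt_pos.mpr (hqpos t)).ne'
      simp only [Polynomial.map_sub, Polynomial.map_mul, Polynomial.map_C, Polynomial.map_pow,
        Polynomial.map_X, Polynomial.coe_evalRingHom, Polynomial.eval_sub, Polynomial.eval_mul,
        Polynomial.eval_C, Polynomial.eval_pow, Polynomial.eval_X, Polynomial.eval_comp,
        Polynomial.eval_add, hQ]
      rw [← h1, div_pow, mul_div_cancel₀ _ (pow_ne_zero 2 h2), sub_self]
    · exact continuous_iff_continuousAt.mpr (fun t => (hd t).continuousAt)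
    · simp
    · intro t _
      have hid : AnalyticAt ℝ (fun t : ℝ => t + b / M) t := analyticAt_id.add analyticAt_const
      have hnum : AnalyticAt ℝ (fun t : ℝ => R.eval (t + b / M)) t := by
        have := hid.aeval_polynomial R
        simpa using this
      have hq' : AnalyticAt ℝ q t := by
        have h1 : AnalyticAt ℝ (fun t : ℝ => (TYP.QP M b s).eval t) t := by
          have := (analyticAt_id (𝕜 := ℝ) (z := t)).aeval_polynomial (TYP.QP M b s)
          simpa using this
        have h2 : (fun t : ℝ => (TYP.QP M b s).eval t) = q := funext hQ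
        rwa [h2] at h1
      have hsq : AnalyticAt ℝ (fun z : ℝ => √z) (q t) :=
        (Real.contDiffAt_sqrt (n := ⊤) (hqpos t).ne').analyticAt
      have hden : AnalyticAt ℝ (fun t : ℝ => √(q t) ^ (m - 2)) t := (hsq.comp hq').pow (m - 2)
      exact hnum.div hden (pow_ne_zero _ (Real.sqrt_pos.mpr (hqpos t)).ne')
    · exact Filter.Eventually.of_forall (fun t => (hd t).deriv.symm)

end Pool.Agent.ITR
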