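import Pool.Agent.ITR.Asm
import Pool.Agent.ITR.SLS
import Pool.Agent.ITR.ONE
import Pool.Agent.ITR.PRM
import Pool.Agent.ITR.TYP
import Pool.Agent.ITR.AEC
import Pool.Agent.ITR.FAM
import Pool.Agent.ITR.ABT
import Pool.Agent.ITR.SAF
import Pool.Agent.ITR.QTW
import Pool.Agent.ITR.SCG
import Pool.Agent.ITR.SCH
import Pool.Agent.ITR.MAT

/-!
# Quadratic towers: assembly
-/

set_option autoImplicit false

namespace Pool.Agent.ITR

open Pool.Agent.Helper23.PeriodDefs

theorem asm_QTW : St_QTW :=
  thm_QTW (thm_FAM thm_SLS (thm_ONE thm_SLS) (thm_TYP thm_PRM) thm_AEC thm_SCL thm_FUB)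
    thm_ABT thm_SAF

theorem asm_MAT : St_MAT := thm_MAT (thm_SCH thm_SCG)

theorem posProd_of_posMonoid {n : ℕ} (q : Fin n → MultiPoly n) (k : Fin n)
    (p : MvPolynomial (Fin n) RealAlg) (hp : p ∈ posMonoid q k) : PosProd q k (evalMulti p) := by
  unfold posMonoid at hp
  induction hp using Submonoid.closure_induction with
  | mem p hp =>
    rcases hp with ⟨c, hc, rfl⟩ | ⟨i, hi, rfl⟩
    · have h1 : evalMulti (MvPolynomial.C c : MvPolynomial (Fin n) RealAlg) =
          fun _ : Fin n → ℝ => (c : ℝ) := by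
        funext x
        show MvPolynomial.aeval x (MvPolynomial.C c) = _
        rw [MvPolynomial.aeval_C]
        rfl
      rw [h1]
      exact PosProd.const c hc
    · exact PosProd.gen i hi
  | one =>
    have h1 : evalMulti (1 : MvPolynomial (Fin n) RealAlg) =
        fun _ : Fin n → ℝ => ((1 : RealAlg) : ℝ) := by
      funext x
      show MvPolynomial.aeval x (1 : MvPolynomial (Fin n) RealAlg) = _
      rw [map_one]
      rfl
    rw [h1]
    exact PosProd.const 1 one_pos
  | mul a b _ _ ha hb =>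
    have h1 : evalMulti (a * b : MvPolynomial (Fin n) RealAlg) =
        fun x : Fin n → ℝ => evalMulti a x * evalMulti b x := by
      funext x
      show MvPolynomial.aeval x (a * b) = _
      rw [map_mul]
      rfl
    rw [h1]
    exact PosProd.mul ha hb

theorem depOn_vars {n : ℕ} (p : MvPolynomial (Fin n) RealAlg) (I : Set (Fin n))
    (h : ∀ i ∈ p.vars, i ∈ I) : DepOn I (evalMulti p) := by
  intro x y hxy
  exact MvPolynomial.eval₂Hom_congr' (f₁ := algebraMap RealAlg ℝ) (f₂ := algebraMap RealAlg ℝ)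
    (g₁ := x) (g₂ := y) (p₁ := p) (p₂ := p) rfl (fun i hi _ => hxy i (h i hi)) rfl

theorem quadTower_of_poly {n : ℕ} (q : Fin n → MultiPoly n) (hq : QuadTowerP q) :
    QuadTower q := by
  intro k
  obtain ⟨h1, M, b, s, hM, hs, hb, hid⟩ := hq k
  refine ⟨depOn_vars _ _ h1, evalMulti M, evalMulti s, b, posProd_of_posMonoid q k M hM,
    posProd_of_posMonoid q k s hs, depOn_vars _ _ hb, fun x => ?_⟩
  have h3 := congrArg (MvPolynomial.aeval x) hid
  simp only [map_mul, map_add, map_pow, MvPolynomial.aeval_X] at h3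
  exact h3

/-- the corner determinants of a matrix form a quadratic tower -/
theorem corner_tower (p q : ℕ) : QuadTower (cornerPoly p q) :=
  quadTower_of_poly _ (asm_MAT p q)

end Pool.Agent.ITR
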