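import Pool.Agent.Helper23.PeriodDefs

/-!
# Iterated residues: definitions

Integrals which can be computed by successive one-dimensional integrations, each of them either
of residue type or with an algebraic primitive.  `RealAlg` is the field of real algebraic numbers.
-/

set_option autoImplicit false

open MeasureTheory

namespace Pool.Agent.ITR

open Pool.Agent.Helper23.PeriodDefs

/-- `a` is algebraic over the field `ℚ(x_1, ..., x_n)` generated by the coordinates of `x`. -/
def AlgOver {n : ℕ} (x : Fin n → ℝ) (a : ℝ) : Prop :=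
  IsAlgebraic (IntermediateField.adjoin ℚ (Set.range x)) a

/-- `S` is semialgebraic: a finite union of sets defined by finitely many polynomial equations and
strict inequalities with real algebraic coefficients. -/
def Semialgebraic {n : ℕ} (S : Set (Fin n → ℝ)) : Prop :=
  ∃ (m : ℕ) (E I : Fin m → Finset (MultiPoly n)),
    S = {x | ∃ i, (∀ p ∈ E i, evalMulti p x = 0) ∧ ∀ q ∈ I i, 0 < evalMulti q x}

/-- `f` is a semialgebraic function: its graph is semialgebraic. -/
def SemialgebraicFun {n : ℕ} (f : (Fin n → ℝ) → ℝ) : Prop :=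
  Semialgebraic {z : Fin (n + 1) → ℝ | z (Fin.last n) = f (Fin.init z)}

/-- `f` is almost everywhere equal to a power of `π` times a semialgebraic function. -/
def PiSemialgebraicFun {n : ℕ} (f : (Fin n → ℝ) → ℝ) : Prop :=
  ∃ (j : ℕ) (g : (Fin n → ℝ) → ℝ), SemialgebraicFun g ∧ f =ᵐ[volume] fun x => Real.pi ^ j * g x

/-- the function `P / Q` -/
noncomputable def ratFun (P Q : Polynomial ℝ) (t : ℝ) : ℝ := P.eval t / Q.eval t

/-- (a) `h` is almost everywhere equal to a real rational function. -/
def RationalFibre (h : ℝ → ℝ) : Prop :=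
  ∃ P Q : Polynomial ℝ, h =ᵐ[volume] ratFun P Q

/-- (b) `h` is almost everywhere equal to `(t - a)^p (b - t)^q P(t)/Q(t)` on `(a, b)` and to zero
outside, where `p` is a rational number which is not an integer and `p + q` is an integer; or to
`(t - a)^p P(t)/Q(t)` on `(a, ∞)` and to zero outside; or to `(a - t)^p P(t)/Q(t)` on `(-∞, a)`
and to zero outside. -/
def TwistedFibre (h : ℝ → ℝ) : Prop :=
  ∃ (P Q : Polynomial ℝ) (p : ℚ) (a : ℝ), (∀ m : ℤ, p ≠ m) ∧
    ((∃ (b : ℝ) (q : ℚ) (m : ℤ), a < b ∧ p + q = m ∧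
        h =ᵐ[volume] (Set.Ioo a b).indicator
          (fun t => (t - a) ^ (p : ℝ) * (b - t) ^ (q : ℝ) * ratFun P Q t)) ∨
      h =ᵐ[volume] (Set.Ioi a).indicator (fun t => (t - a) ^ (p : ℝ) * ratFun P Q t) ∨
      h =ᵐ[volume] (Set.Iio a).indicator (fun t => (a - t) ^ (p : ℝ) * ratFun P Q t))

/-- (c) `h` is almost everywhere equal to `∑ c_j b_j / ((t - a_j)^2 + b_j^2)` on a measurable set
`I` (for instance an interval) and to zero outside, where `I` is seen from each of the distinct
points `a_j + i b_j` (`b_j > 0`) of the upper half plane under an angle in `ℚ π`. -/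
def ArcFibre (h : ℝ → ℝ) : Prop :=
  ∃ (m : ℕ) (a b c : Fin m → ℝ) (I : Set ℝ), MeasurableSet I ∧ (∀ j, 0 < b j) ∧
    (Function.Injective fun j => (a j, b j)) ∧
    (∀ j, ∃ ρ : ℚ, ∫ t in I, b j / ((t - a j) ^ 2 + b j ^ 2) = ρ * Real.pi) ∧
    h =ᵐ[volume] I.indicator (fun t => ∑ j, c j * (b j / ((t - a j) ^ 2 + b j ^ 2)))

/-- (d) `h` is almost everywhere equal to the derivative of a continuous algebraic function `H`
(`p(t, H(t)) = 0` for a nonzero real polynomial `p`) which is real analytic outside a finite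
subset of `F`. -/
def PrimitiveFibre (F : Set ℝ) (h : ℝ → ℝ) : Prop :=
  ∃ (H : ℝ → ℝ) (S : Finset ℝ) (p : Polynomial (Polynomial ℝ)), p ≠ 0 ∧
    (∀ t : ℝ, (p.map (Polynomial.evalRingHom t)).eval (H t) = 0) ∧ Continuous H ∧
    (S : Set ℝ) ⊆ F ∧ AnalyticOnNhd ℝ H (S : Set ℝ)ᶜ ∧ h =ᵐ[volume] deriv H

/-- (e) `h` is odd with respect to a point `a`, almost everywhere. -/
def OddFibre (h : ℝ → ℝ) : Prop := ∃ a : ℝ, ∀ᵐ t : ℝ, h (2 * a - t) = -h t

/-- `g` is the function `f` transported by an injective semialgebraic change of variables `φ`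
defined on a measurable set `A`: `f` vanishes almost everywhere outside `φ(A)`,
`g(x) = |det φ'(x)| f(φ(x))` on `A` and `g = 0` outside `A` (almost everywhere); `φ` is differentiable
on `A` and the graphs of its coordinates on `A` are semialgebraic (the Jacobian determinant is
then algebraic over `ℚ(x_1, ..., x_n)` for almost all `x ∈ A`; this is put into the definition). -/
def Transport {n : ℕ} (f g : (Fin n → ℝ) → ℝ) : Prop :=
  ∃ (A : Set (Fin n → ℝ)) (φ : (Fin n → ℝ) → (Fin n → ℝ))
    (φ' : (Fin n → ℝ) → (Fin n → ℝ) →L[ℝ] (Fin n → ℝ)),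
    MeasurableSet A ∧ (∀ x ∈ A, HasFDerivWithinAt φ (φ' x) A x) ∧ Set.InjOn φ A ∧
    (∀ i, Semialgebraic {z : Fin (n + 1) → ℝ |
      Fin.init z ∈ A ∧ z (Fin.last n) = φ (Fin.init z) i}) ∧
    (∀ᵐ x : Fin n → ℝ, x ∈ A → AlgOver x (φ' x).det) ∧
    (∀ᵐ z : Fin n → ℝ, z ∉ φ '' A → f z = 0) ∧
    g =ᵐ[volume] A.indicator fun x => |(φ' x).det| * f (φ x)

/-- The functions whose integral can be computed step by step:
`step`: an integrable function `f(y, t)` of `n + 1` variables such that for almost all `y` the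
function `t ↦ f(y, t)` is of one of the types (a), (b), (c), (e), or for almost all `y` it is of
type (d) with singularities algebraic over `ℚ(y_1, ..., y_n)`, and such that
`y ↦ ∫ f(y, t) dt` is again in the class;
`sum`: almost everywhere a sum of two integrable functions of the class which are semialgebraic up
to powers of `π`;
`change`: a transported function is in the class;
`move`: almost everywhere a difference of an integrable function `g` which is semialgebraic up to
a power of `π` and a transported function of `g`. -/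
inductive Iterated : (n : ℕ) → ((Fin n → ℝ) → ℝ) → Prop
  | point (f : (Fin 0 → ℝ) → ℝ) : Iterated 0 f
  | step {n : ℕ} {f : (Fin (n + 1) → ℝ) → ℝ} (hf : Integrable f)
      (h : (∀ᵐ y : Fin n → ℝ, RationalFibre (fun t => f (Fin.snoc y t)) ∨
          TwistedFibre (fun t => f (Fin.snoc y t)) ∨
          ArcFibre (fun t => f (Fin.snoc y t)) ∨ OddFibre (fun t => f (Fin.snoc y t))) ∨
        ∀ᵐ y : Fin n → ℝ, PrimitiveFibre {a | AlgOver y a} (fun t => f (Fin.snoc y t)))
      (hg : Iterated n (fun y => ∫ t, f (Fin.snoc y t))) : Iterated (n + 1) f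
  | sum {n : ℕ} {f f₁ f₂ : (Fin n → ℝ) → ℝ} (h : f =ᵐ[volume] fun x => f₁ x + f₂ x)
      (hf₁ : Integrable f₁) (hf₂ : Integrable f₂) (ha₁ : PiSemialgebraicFun f₁)
      (ha₂ : PiSemialgebraicFun f₂) (h₁ : Iterated n f₁) (h₂ : Iterated n f₂) : Iterated n f
  | change {n : ℕ} {f g : (Fin n → ℝ) → ℝ} (hfg : Transport f g) (h : Iterated n g) :
      Iterated n f
  | move {n : ℕ} {f g g' : (Fin n → ℝ) → ℝ} (hg : Integrable g) (ha : PiSemialgebraicFun g)
      (hgg' : Transport g g') (h : f =ᵐ[volume] fun x => g x - g' x) : Iterated n f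

/-- `v` is the integral of a semialgebraic function of the class. -/
def IsIteratedIntegral (v : ℝ) : Prop :=
  ∃ (n : ℕ) (f : (Fin n → ℝ) → ℝ), SemialgebraicFun f ∧ Iterated n f ∧ v = ∫ x, f x

/-- the algebra over the real algebraic numbers generated by these integrals -/
noncomputable def iteratedRing : Subalgebra RealAlg ℝ :=
  Algebra.adjoin RealAlg {v : ℝ | IsIteratedIntegral v}

end Pool.Agent.ITR
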