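import Pool.Agent.ITR.Defs

/-!
# Quadratic towers: definitions

An explicit family of iterated integrals.
-/

set_option autoImplicit false

open MeasureTheory

namespace Pool.Agent.ITR

open Pool.Agent.Helper23.PeriodDefs

/-- products of positive constants and of the functions `q i`, `i < k` -/
inductive PosProd {n : ℕ} (q : Fin n → MultiPoly n) (k : Fin n) : ((Fin n → ℝ) → ℝ) → Prop
  | const (c : RealAlg) (hc : 0 < (c : ℝ)) : PosProd q k (fun _ => c)
  | gen (i : Fin n) (hi : i < k) : PosProd q k (evalMulti (q i))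
  | mul {f g : (Fin n → ℝ) → ℝ} (hf : PosProd q k f) (hg : PosProd q k g) :
      PosProd q k (fun x => f x * g x)

/-- `f` depends only on the variables `x_i`, `i ∈ I` -/
def DepOn {n : ℕ} (I : Set (Fin n)) (f : (Fin n → ℝ) → ℝ) : Prop :=
  ∀ x y : Fin n → ℝ, (∀ i ∈ I, x i = y i) → f x = f y

/-- `q_1, ..., q_n` is a quadratic tower: `q_k` is a polynomial in `x_1, ..., x_k` and
`M q_k = (M x_k + b)^2 + s`, where `b` is a polynomial in `x_1, ..., x_(k-1)` and `M`, `s` are
products of positive constants and of polynomials `q_i`, `i < k` (with repetitions). -/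
def QuadTower {n : ℕ} (q : Fin n → MultiPoly n) : Prop :=
  ∀ k, DepOn {i | i ≤ k} (evalMulti (q k)) ∧
    ∃ (M s : (Fin n → ℝ) → ℝ) (b : MultiPoly n), PosProd q k M ∧ PosProd q k s ∧
      DepOn {i | i < k} (evalMulti b) ∧
      ∀ x, M x * evalMulti (q k) x = (M x * x k + evalMulti b x) ^ 2 + s x

/-- the function `P / √(q_1^(m_1) ... q_n^(m_n))` -/
noncomputable def towerFun {n : ℕ} (q : Fin n → MultiPoly n) (P : MultiPoly n) (m : Fin n → ℕ)
    (x : Fin n → ℝ) : ℝ :=
  evalMulti P x / √(∏ k, evalMulti (q k) x ^ m k)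

end Pool.Agent.ITR
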