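import Pool.Agent.ITR.Defs2

/-!
# Quadratic towers: the polynomial form, and the example of matrices
-/

set_option autoImplicit false

open MeasureTheory

namespace Pool.Agent.ITR

open Pool.Agent.Helper23.PeriodDefs

/-- the multiplicative monoid generated by the positive constants and the polynomials `q i`,
`i < k` -/
noncomputable def posMonoid {n : ℕ} (q : Fin n → MvPolynomial (Fin n) RealAlg) (k : Fin n) :
    Submonoid (MvPolynomial (Fin n) RealAlg) :=
  Submonoid.closure ({p | ∃ c : RealAlg, (0 : ℝ) < c ∧ p = MvPolynomial.C c} ∪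
    {p | ∃ i < k, p = q i})

/-- quadratic towers in terms of polynomials -/
def QuadTowerP {n : ℕ} (q : Fin n → MvPolynomial (Fin n) RealAlg) : Prop :=
  ∀ k, (∀ i ∈ (q k).vars, i ≤ k) ∧ ∃ M b s : MvPolynomial (Fin n) RealAlg,
    M ∈ posMonoid q k ∧ s ∈ posMonoid q k ∧ (∀ i ∈ b.vars, i < k) ∧
    M * q k = (M * MvPolynomial.X k + b) ^ 2 + s

/-- the generic `p × q` matrix: the variables are its entries, column by column -/
noncomputable def genMat (p q : ℕ) : Matrix (Fin p) (Fin q) (MvPolynomial (Fin (q * p)) RealAlg) :=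
  Matrix.of fun i j => MvPolynomial.X (finProdFinEquiv (j, i))

/-- `det(1 + Yᵀ Y)` for the upper left block `Y` of `X` with last entry `X i j` -/
noncomputable def blockDet {p q : ℕ} {R : Type} [CommRing R] (X : Matrix (Fin p) (Fin q) R)
    (i : Fin p) (j : Fin q) : R :=
  (1 + (X.submatrix (Fin.castLE i.isLt) (Fin.castLE j.isLt)).transpose *
    X.submatrix (Fin.castLE i.isLt) (Fin.castLE j.isLt)).det

/-- the polynomials `det(1 + Yᵀ Y)` for all upper left blocks `Y` of the generic matrix, ordered
like the last entries of the blocks -/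
noncomputable def cornerPoly (p q : ℕ) (k : Fin (q * p)) : MvPolynomial (Fin (q * p)) RealAlg :=
  blockDet (genMat p q) (finProdFinEquiv.symm k).2 (finProdFinEquiv.symm k).1

end Pool.Agent.ITR
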