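import Pool.Agent.ITR.St

/-!
# ITR: [RLF] type (a)
-/

set_option autoImplicit false

open MeasureTheory Filter Topology

namespace Pool.Agent.ITR

theorem thm_RLF (hRA1 : St_RA1) (hRA2 : St_RA2) (hRLN : St_RLN) : St_RLF := by
  intro k hk h hRF hint halg
  obtain ⟨P, Q, hPQ⟩ := hRF
  by_cases hQ : Q = 0
  · refine ⟨0, k.zero_mem, ?_⟩
    rw [integral_congr_ae hPQ]
    have : ratFun P Q = fun _ => 0 := by
      funext t; simp [ratFun, hQ]
    rw [this]; simp
  have halg' : ∀ᵐ t : ℝ, AlgAt k t (ratFun P Q t) := by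
    filter_upwards [halg, hPQ] with t ht1 ht2
    rw [← ht2]; exact ht1
  have hunc : ¬ {t : ℝ | AlgAt k t (ratFun P Q t)}.Countable := by
    intro hc
    have h1 : volume {t : ℝ | AlgAt k t (ratFun P Q t)} = 0 := hc.measure_zero _
    have h2 : volume {t : ℝ | AlgAt k t (ratFun P Q t)}ᶜ = 0 := by
      have := halg'
      rwa [ae_iff] at this
    have h3 : volume (Set.univ : Set ℝ) = 0 := by
      have h4 := measure_union_le (μ := (volume : Measure ℝ)) {t : ℝ | AlgAt k t (ratFun P Q t)}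
        {t : ℝ | AlgAt k t (ratFun P Q t)}ᶜ
      rw [Set.union_compl_self, h1, h2] at h4
      simp at h4
    simp at h3
  obtain ⟨B, hB, hBk⟩ := hRA1 k hk P Q hQ _ hunc (fun t ht => ht)
  have hinf : {t : ℝ | t ∈ k ∧ t ∉ B}.Infinite := by
    have h5 : (Set.range (fun n : ℕ => (n : ℝ))).Infinite :=
      Set.infinite_range_of_injective Nat.cast_injective
    refine (h5.sdiff hB).mono ?_
    rintro t ⟨⟨n, rfl⟩, ht⟩
    exact ⟨natCast_mem k n, ht⟩
  obtain ⟨P₁, Q₁, hQ₁, hEq⟩ := hRA2 k P Q hQ _ hinf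
    (fun t ht => ⟨ht.1, (hBk t ht.1 ht.2).1, (hBk t ht.1 ht.2).2⟩)
  have hup : up k Q₁ ≠ 0 := by
    intro h0
    apply hQ₁
    exact (Polynomial.map_eq_zero_iff (algebraMap k ℝ).injective).mp h0
  have hae : ratFun P Q =ᵐ[volume] ratFun (up k P₁) (up k Q₁) := by
    have hf : ({t : ℝ | Q.eval t = 0} ∪ {t : ℝ | (up k Q₁).eval t = 0}).Finite := by
      refine Set.Finite.union ?_ ?_
      · exact (Q.roots.toFinset.finite_toSet).subset (fun t ht => by
          simp only [Finset.mem_coe, Multiset.mem_toFinset]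
          exact (Polynomial.mem_roots hQ).mpr ht)
      · exact ((up k Q₁).roots.toFinset.finite_toSet).subset (fun t ht => by
          simp only [Finset.mem_coe, Multiset.mem_toFinset]
          exact (Polynomial.mem_roots hup).mpr ht)
    have h6 : ∀ᵐ t : ℝ, t ∉ ({t : ℝ | Q.eval t = 0} ∪ {t : ℝ | (up k Q₁).eval t = 0}) := by
      have h8 := hf.measure_zero (volume : Measure ℝ)
      exact measure_eq_zero_iff_ae_notMem.mp h8
    filter_upwards [h6] with t ht
    simp only [Set.mem_union, Set.mem_ofPred_eq, not_or] at ht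
    have h7 := congrArg (Polynomial.eval t) hEq
    simp only [Polynomial.eval_mul] at h7
    unfold ratFun
    rw [div_eq_div_iff ht.1 ht.2]
    exact h7
  have hint2 : Integrable (ratFun (up k P₁) (up k Q₁)) := hint.congr (hPQ.trans hae)
  obtain ⟨v, hv, hve⟩ := hRLN k hk P₁ Q₁ hint2
  refine ⟨v, hv, ?_⟩
  rw [integral_congr_ae (hPQ.trans hae)]
  exact hve

end Pool.Agent.ITR
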