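import Pool.Agent.ITR.Asm2

/-!
# Iterated residues: classes of periods which do not contain `1/π`

`K = RealAlg` is the field of real algebraic numbers.

First part: two explicit families in every dimension.  Let `q_1, ..., q_n` be a quadratic tower:
`q_k` is a polynomial in `x_1, ..., x_k` over `K`, and `M q_k = (M x_k + b)^2 + s`, where `M` and `s`
are products of positive constants and of earlier `q_i`, and `b` is a polynomial in the earlier
variables.  Every convergent integral over `ℝ^n` of `P / √(q_1^(m_1) ... q_n^(m_n))`, `P` a
polynomial over `K`, is equal to `a π^e` with `a` in `K`.  The polynomials `det(1 + Yᵀ Y)` for the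
upper left blocks `Y` of the generic real `p × q` matrix form such a tower; so the same is true of
the convergent integrals of `P(X) ∏ det(1 + Yᵀ Y)^(-m_Y/2)` over the space of real `p × q` matrices.

Second part: the class `Iterated` (`Pool/Agent/ITR/Defs.lean`), which contains these families, of
functions on `ℝ^n` whose integral can be computed by successive one-dimensional integrations, every
fibre being of residue type (rational, twisted, arc, odd) or having an algebraic primitive, together
with decompositions into sums, semialgebraic changes of variables and differences
`g - |det φ'| g(φ)`.  The data of the fibres (coefficients, poles, end points, primitives) are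
arbitrary real numbers and functions.  The integral of a semialgebraic function of the class is a
polynomial in `π` over `K`; the algebra generated by these integrals is `K[π]`, and `1/π` is not
in it.
-/

set_option autoImplicit false

open MeasureTheory

namespace Pool.Agent.ITR.Old

open Pool.Agent.ITR Pool.Agent.Helper23.PeriodDefs

theorem result :
    (∀ (n : ℕ) (q : Fin n → MultiPoly n), QuadTower q → ∀ (P : MultiPoly n) (m : Fin n → ℕ),
      Integrable (towerFun q P m) →
      SemialgebraicFun (towerFun q P m) ∧ Iterated n (towerFun q P m) ∧
      ∃ (a : RealAlg) (e : ℕ), ∫ x, towerFun q P m x = a * Real.pi ^ e) ∧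
    (∀ p q : ℕ, QuadTower (cornerPoly p q)) ∧
    (∀ (n : ℕ) (f : (Fin n → ℝ) → ℝ), SemialgebraicFun f → Iterated n f →
      ∃ q : OnePoly, ∫ x, f x = evalOne q Real.pi) ∧
    iteratedRing = Algebra.adjoin RealAlg {Real.pi} ∧ (Real.pi)⁻¹ ∉ iteratedRing :=
  ⟨asm_QTW, corner_tower, asm_FIN⟩

end Pool.Agent.ITR.Old
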