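import Pool.Agent.ITR.Defs

/-!
# Iterated residues: statements of the modules

Every module `X` proves `theorem thm_X : St_X` (with other `St_Y` as hypotheses where indicated) in
`Pool/Agent/ITR/X.lean`.  The complete proof of each statement is in its docstring.
-/

set_option autoImplicit false

open MeasureTheory Filter Topology

namespace Pool.Agent.ITR

open Pool.Agent.Helper23.PeriodDefs

/-! ## Notation -/

/-- countable subfields of `ℝ` which are relatively algebraically closed in `ℝ` -/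
structure RC (k : IntermediateField ℚ ℝ) : Prop where
  cl : ∀ b : ℝ, IsAlgebraic k b → b ∈ k
  ct : (k : Set ℝ).Countable

/-- the real polynomial given by a polynomial over `k` -/
noncomputable def up (k : IntermediateField ℚ ℝ) (P : Polynomial k) : Polynomial ℝ :=
  P.map (algebraMap k ℝ)

/-- evaluation of the inner variable at `t` -/
noncomputable def ev (k : IntermediateField ℚ ℝ) (t : ℝ) : Polynomial k →+* ℝ :=
  Polynomial.eval₂RingHom (algebraMap k ℝ) t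

/-- the value `p(t, s)` of `p ∈ k[X][T]` (`X = t` is the inner variable) -/
noncomputable def ev2 (k : IntermediateField ℚ ℝ) (p : Polynomial (Polynomial k)) (t s : ℝ) : ℝ :=
  (p.map (ev k t)).eval s

/-- `b` is algebraic over `k(t)` -/
def AlgAt (k : IntermediateField ℚ ℝ) (t b : ℝ) : Prop :=
  IsAlgebraic (IntermediateField.adjoin k ({t} : Set ℝ)) b

/-- the relative algebraic closure in `ℝ` of `ℚ(x_1, ..., x_n)` -/
noncomputable def kf {n : ℕ} (x : Fin n → ℝ) : IntermediateField ℚ ℝ :=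
  (algebraicClosure (IntermediateField.adjoin ℚ (Set.range x)) ℝ).restrictScalars ℚ

/-! ## Block A: algebra -/

/-- [AEQ] clearing denominators.
PROOF.  By `IntermediateField.mem_adjoin_simple_iff` every element of `k(t)` is `f(t)/g(t)`,
`f, g ∈ k[X]`; if `g(t) = 0` replace `f, g` by `0, 1`, so `g(t) ≠ 0`.  Let `q ∈ k(t)[T]`, `q ≠ 0`, `q(b) = 0`, with
coefficients `f_j(t)/g_j(t)`, `j ≤ d`.  `p = ∑_j C (f_j ∏_(l ≠ j) g_l) T^j`, then `p(t, T) = (∏ g_l(t)) q(T)`. -/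
def St_AEQ : Prop := ∀ (k : IntermediateField ℚ ℝ) (t b : ℝ), AlgAt k t b →
  ∃ p : Polynomial (Polynomial k), p.map (ev k t) ≠ 0 ∧ ev2 k p t b = 0

/-- [CNT] one polynomial for uncountably many `t`.  Hypothesis of the module: `St_AEQ`.
PROOF.  `k[X][T]` is countable (`k` is), and `E` is the union over `p` of the sets
`{t ∈ E | p.map (ev k t) ≠ 0 ∧ ev2 k p t (g t) = 0}` by AEQ; a countable union of countable sets is countable. -/
def St_CNT : Prop := ∀ (k : IntermediateField ℚ ℝ), RC k → ∀ (E : Set ℝ) (g : ℝ → ℝ),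
  ¬ E.Countable → (∀ t ∈ E, AlgAt k t (g t)) → ∃ p : Polynomial (Polynomial k), p ≠ 0 ∧
    ¬ {t | t ∈ E ∧ p.map (ev k t) ≠ 0 ∧ ev2 k p t (g t) = 0}.Countable

/-- [LIN] linear descent: a system of linear equations over `k` with a nonzero real solution has a
nonzero solution over `k`.
PROOF.  Let `W` be the `k`-span of the `v e` in `ι → k`.  If `W = ⊤` then the `k`-linear map
`w ↦ ∑ i, w i * r i` from `ι → k` to `ℝ` vanishes on the `v e`, hence everywhere, so `r i = 0` for all `i`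
(take `w = Pi.single i 1`).  So `W ≠ ⊤` and there is a nonzero linear form `φ` on `ι → k` with `W ≤ ker φ`
(`Submodule.exists_le_ker_of_lt_top`); `s i = φ (Pi.single i 1)`. -/
def St_LIN : Prop := ∀ (k : IntermediateField ℚ ℝ) (ι : Type) [Fintype ι] (E : Type)
  (v : E → ι → k) (r : ι → ℝ), r ≠ 0 → (∀ e, ∑ i, (v e i : ℝ) * r i = 0) →
  ∃ s : ι → k, s ≠ 0 ∧ ∀ e, ∑ i, v e i * s i = 0

/-- [RA1] a real rational function with values algebraic over `k(t)` takes values in `k` on `k`.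
Hypothesis of the module: `St_CNT`.
PROOF.  CNT for `g = ratFun P Q`: `p ≠ 0`, `E'` uncountable.  Let `d = p.natDegree` and
`R = ∑_(j ≤ d) up k (p.coeff j) * P^j * Q^(d-j)`.  For `t ∈ E'` with `Q(t) ≠ 0` (all but finitely many)
`R(t) = Q(t)^d * ev2 k p t (P(t)/Q(t)) = 0`, so `R` has infinitely many zeros: `R = 0`.  Let `p.coeff j₀ ≠ 0`.
`B =` the roots of `Q` and of `up k (p.coeff j₀)`.  If `t ∈ k`, `t ∉ B`, then the polynomial `p(t, T)` has coefficients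
in `k`, is not zero, and vanishes at `P(t)/Q(t)` (since `R(t) = 0`, `Q(t) ≠ 0`); `RC.cl`. -/
def St_RA1 : Prop := ∀ (k : IntermediateField ℚ ℝ), RC k → ∀ P Q : Polynomial ℝ, Q ≠ 0 →
  ∀ E : Set ℝ, ¬ E.Countable → (∀ t ∈ E, AlgAt k t (ratFun P Q t)) →
  ∃ B : Set ℝ, B.Finite ∧ ∀ t ∈ k, t ∉ B → Q.eval t ≠ 0 ∧ ratFun P Q t ∈ k

/-- [RA2] a real rational function with values in `k` at infinitely many elements of `k` is in `k(X)`.
Hypothesis of the module: `St_LIN`.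
PROOF.  Let `d ≥ P.natDegree, Q.natDegree`.  LIN with the unknown coefficients (`ι = Fin (d+1) ⊕ Fin (d+1)`)
of `P₁`, `Q₁` and the equations `P₁(t) - r(t) Q₁(t) = 0` (`t ∈ T`, `r = ratFun P Q`), whose coefficients are in `k`; `(P, Q) ≠ 0` is
a real solution.  So there are `P₁, Q₁` over `k`, not both zero, with `P₁(t) = r(t) Q₁(t)` on `T`.  If `Q₁ = 0` then
`P₁ = 0` (infinitely many zeros), contradiction.  `P * up Q₁ - up P₁ * Q` vanishes on `T`, so it is zero. -/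
def St_RA2 : Prop := ∀ (k : IntermediateField ℚ ℝ) (P Q : Polynomial ℝ), Q ≠ 0 →
  ∀ T : Set ℝ, T.Infinite → (∀ t ∈ T, t ∈ k ∧ Q.eval t ≠ 0 ∧ ratFun P Q t ∈ k) →
  ∃ P₁ Q₁ : Polynomial k, Q₁ ≠ 0 ∧ P * up k Q₁ = up k P₁ * Q

/-- [FAC] removing the factors `X - c`.
PROOF.  `C (X - C c)` is prime in `k[X][T]`, so a maximal power of it divides `P` (`WfDvdMonoid.max_power_factor`
or finite multiplicity).  `C (X - C c)` does not divide `P'`, so some coefficient of `P'` is not divisible by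
`X - C c` (`Polynomial.C_dvd_iff_dvd_coeff`), i.e. does not vanish at `c`. -/
def St_FAC : Prop := ∀ (k : IntermediateField ℚ ℝ) (c : k) (P : Polynomial (Polynomial k)), P ≠ 0 →
  ∃ (e : ℕ) (P' : Polynomial (Polynomial k)),
    P = Polynomial.C ((Polynomial.X - Polynomial.C c) ^ e) * P' ∧
    P'.map (Polynomial.evalRingHom c) ≠ 0

/-- [LIM] limits of algebraic functions.  Hypothesis of the module: `St_FAC`.
PROOF.  (1) `P = ∑_j A_j(X) T^j`, `m = max deg A_j` (over the nonzero `A_j`), `a_j = A_j.coeff m ∈ k`, not all zero.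
`x^(-m) P(x, g(x)) = ∑_j (A_j(x)/x^m) g(x)^j → ∑_j a_j ℓ^j` as `x → ∞`; so `ℓ` is a root of `∑ a_j T^j ≠ 0`; `RC.cl`.
(2) (1) for `g(-x)` and `P(-X, T)`.  (3) FAC: `P = (X - c)^e P'`; for `x ≠ c` near `c` (in `F`) `P'(x, g(x)) = 0`; let `x → c`:
`P'(c, ℓ) = 0` (`∑_j A'_j(x) g(x)^j` is a continuous expression), and `P'(c, T) ≠ 0` is a polynomial over `k`. -/
def St_LIM : Prop := ∀ (k : IntermediateField ℚ ℝ), RC k → ∀ P : Polynomial (Polynomial k), P ≠ 0 →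
  ∀ (g : ℝ → ℝ) (l : ℝ),
  ((∀ᶠ x in atTop, ev2 k P x (g x) = 0) → Tendsto g atTop (𝓝 l) → l ∈ k) ∧
  ((∀ᶠ x in atBot, ev2 k P x (g x) = 0) → Tendsto g atBot (𝓝 l) → l ∈ k) ∧
  (∀ c ∈ k, ∀ F : Filter ℝ, F.NeBot → F ≤ 𝓝[≠] c → (∀ᶠ x in F, ev2 k P x (g x) = 0) →
    Tendsto g F (𝓝 l) → l ∈ k)

/-- [TAY] Taylor coefficients of an algebraic function over `k` at a point of `k`.  Hypothesis of the
module: `St_FAC`.
PROOF.  Induction on `n` for all `φ`, `P`.  `n = 0`: by FAC `P = (X - x₀)^e P'`, `P'(x, φ(x)) = 0` for `x ≠ x₀` near `x₀`,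
by continuity also for `x₀`; `P'(x₀, T)` is a nonzero polynomial over `k`, so `a = φ(x₀) ∈ k` (this is also LIM 3).
`n + 1`: `φ₁ = dslope φ x₀` is analytic at `x₀` with power series coefficients shifted
(`HasFPowerSeriesAt.has_fpower_series_dslope_fslope`, `AnalyticAt.hasFPowerSeriesAt` for `φ` and for `φ₁`, uniqueness
`HasFPowerSeriesAt.eq_formalMultilinearSeries`): `iteratedDeriv n φ₁ x₀ / n! = iteratedDeriv (n+1) φ x₀ / (n+1)!`.
`P₁(X, T) = P(X, a + (X - x₀) T)`, i.e. `P.comp (C (C a) + C (X - C x₀) * X)`, is not zero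
(degree in `T`: `natDegree_comp`, `comp_eq_zero_iff`) and `P₁(x, φ₁(x)) = P(x, φ(x)) = 0` near `x₀` (also at `x₀`). -/
def St_TAY : Prop := ∀ (k : IntermediateField ℚ ℝ), RC k → ∀ (x₀ : ℝ), x₀ ∈ k →
  ∀ (n : ℕ) (φ : ℝ → ℝ) (P : Polynomial (Polynomial k)), P ≠ 0 → AnalyticAt ℝ φ x₀ →
  (∀ᶠ x in 𝓝 x₀, ev2 k P x (φ x) = 0) → iteratedDeriv n φ x₀ ∈ k

/-- [ZER] an analytic function on a connected open subset of `ℝ` with uncountably many zeros is zero.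
PROOF.  Otherwise, by `AnalyticOnNhd.eqOn_zero_of_preconnected_of_frequently_eq_zero`, every `z ∈ I` has a
neighbourhood in which `g` has no zero except possibly `z`; countably many of these neighbourhoods cover `I`
(`TopologicalSpace.countable_cover_nhdsWithin`), so `g` has countably many zeros in `I`. -/
def St_ZER : Prop := ∀ (I : Set ℝ) (g : ℝ → ℝ), IsOpen I → IsPreconnected I → AnalyticOnNhd ℝ g I →
  ¬ {t | t ∈ I ∧ g t = 0}.Countable → ∀ t ∈ I, g t = 0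

/-- [PRI] the primitive of an algebraic function over `k` is algebraic over `k` up to a constant, if it
is algebraic over `ℝ`.  Hypotheses of the module: `St_CNT`, `St_LIN`, `St_TAY`, `St_ZER`.
PROOF.  `E = {t ∈ I | AlgAt k t (deriv H t)}` is uncountable (`I` is open and nonempty, so of positive
measure, and `I \ E` is null).  CNT: `p₀ ≠ 0` with `p₀(t, H'(t)) = 0` for uncountably many `t ∈ I`; ZER: for all `t ∈ I`
(the function is analytic on `I`).  TAY: all `iteratedDeriv n (deriv H) x₀ ∈ k`, so (`iteratedDeriv_succ'`) the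
function `G = H - H x₀` has all `iteratedDeriv n G x₀ ∈ k`.  By `iteratedDeriv_fun_mul` and induction the functions
`F_ij(x) = x^i G(x)^j` have all iterated derivatives at `x₀` in `k`.  `p' = p.comp (X + C (C (H x₀)))` is not zero and
`p'(x, G(x)) = 0` on `I`: with `r_ij` = its coefficients (`i ≤ N`, `j ≤ M`), `∑ r_ij F_ij = 0` on `I`, so
`∑ r_ij iteratedDeriv n F_ij x₀ = 0` for all `n`.  LIN: `s_ij ∈ k`, not all zero, `∑ s_ij iteratedDeriv n F_ij x₀ = 0`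
for all `n`.  So `g = ∑ s_ij F_ij` is analytic on `I` with zero Taylor series at `x₀` (`AnalyticAt.hasFPowerSeriesAt`,
`HasFPowerSeriesAt.eventually_eq_zero`), hence zero on `I`
(`AnalyticOnNhd.eqOn_zero_of_preconnected_of_eventuallyEq_zero`).  `P = ∑ s_ij X^i T^j`. -/
def St_PRI : Prop := ∀ (k : IntermediateField ℚ ℝ), RC k → ∀ (I : Set ℝ) (H : ℝ → ℝ)
  (p : Polynomial (Polynomial ℝ)) (x₀ : ℝ), IsOpen I → IsPreconnected I → AnalyticOnNhd ℝ H I →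
  p ≠ 0 → (∀ t ∈ I, (p.map (Polynomial.evalRingHom t)).eval (H t) = 0) →
  (∀ᵐ t : ℝ, t ∈ I → AlgAt k t (deriv H t)) → x₀ ∈ I → x₀ ∈ k →
  ∃ P : Polynomial (Polynomial k), P ≠ 0 ∧ ∀ x ∈ I, ev2 k P x (H x - H x₀) = 0

/-- [PAL] differences of a primitive.  Hypotheses of the module: `St_PRI`, `St_LIM`.
PROOF.  Let `G = H` modulo the additive subgroup `k` of `ℝ`.  Claim: every real `c` has a neighbourhood `N` such
that `H u - H v ∈ k` for all `u, v ∈ N ∩ k`.  If `c ∉ S` let `N` be an open interval around `c` avoiding `S`; for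
`u, v ∈ N ∩ k`: PRI on `N` with `x₀ = u`: `P(x, H x - H u) = 0` on `N`; LIM 3 at the point `v` for `F = 𝓝[≠] v`,
`g = H - H u` (continuous): `H v - H u ∈ k`.  If `c ∈ S` (so `c ∈ k`) let `N = (c - ε, c + ε)` with `N ∩ S = {c}`;
for `u ∈ N ∩ k`, `u < c`: PRI on `(c - ε, c)` with `x₀ = u`, LIM 3 at `c` with `F = 𝓝[<] c`: `H c - H u ∈ k`;
similarly for `u > c`; so all `H u - H v ∈ k`.
Global: the function `χ : ℝ → ℝ ⧸ k` (quotient by the additive group), `χ(x) =` the class of `H w` for any `w ∈ k`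
in a neighbourhood of `x` as in the claim (`k` is dense, it contains `ℚ`), is well defined and locally constant
(two neighbourhoods of nearby points intersect in an open set, which contains a rational number), so it
is constant (`IsLocallyConstant.apply_eq_of_isPreconnected`); or argue with a supremum.
Infinity: let `x₀ ∈ k` be larger than all elements of `S`, PRI on `(x₁, ∞)`, `x₁ < x₀` larger than `S`; LIM 1 for
`g = H - H x₀`.  Similarly at `-∞`. -/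
def St_PAL : Prop := ∀ (k : IntermediateField ℚ ℝ), RC k → ∀ (H : ℝ → ℝ) (S : Finset ℝ)
  (p : Polynomial (Polynomial ℝ)), p ≠ 0 →
  (∀ t : ℝ, (p.map (Polynomial.evalRingHom t)).eval (H t) = 0) → Continuous H →
  (∀ s ∈ S, s ∈ k) → AnalyticOnNhd ℝ H (S : Set ℝ)ᶜ → (∀ᵐ t : ℝ, AlgAt k t (deriv H t)) →
  (∀ u ∈ k, ∀ v ∈ k, H u - H v ∈ k) ∧
  (∀ u ∈ k, ∀ l : ℝ, (Tendsto H atTop (𝓝 l) → l - H u ∈ k) ∧ (Tendsto H atBot (𝓝 l) → l - H u ∈ k))

/-- [PAS] type (d).  Hypothesis of the module: `St_PAL`.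
PROOF.  `h =ᵐ deriv H`, so `AlgAt k t (deriv H t)` for a.e. `t` and `deriv H` is integrable.  For `a < b`:
`∫_a^b deriv H = H b - H a` (`intervalIntegral.integral_eq_of_hasDerivAt_off_countable`-type theorem: `H` is
continuous, differentiable outside the finite set `S`).  As `b → ∞`, `H b = H 0 + ∫_0^b h` has a limit `l₁`, as
`a → -∞`, `H a` has a limit `l₂`, and `∫ h = l₁ - l₂` (`intervalIntegral_tendsto_integral_Ioi`, `..._Iic`).
PAL with `u = 0`: `l₁ - H 0 ∈ k`, `l₂ - H 0 ∈ k`. -/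
def St_PAS : Prop := ∀ (k : IntermediateField ℚ ℝ), RC k → ∀ h : ℝ → ℝ,
  PrimitiveFibre (k : Set ℝ) h → Integrable h → (∀ᵐ t : ℝ, AlgAt k t (h t)) → ∫ t, h t ∈ k

/-! ## Block B: residue types -/

/-- [BI] the basic integrals.
PROOF.  `a` is real, `0 < a < 1`, `w` not in `(-∞, 0]`.  Integrable: near `0` bounded times `t^(a-1)`, near `∞`
`O(t^(a-1-j))`; `|t + w| ≥ c (1 + t)` with `c > 0` (continuity and compactness, or directly).
`j = 1`, `w > 0` real: Mathlib's beta/Gamma integrals or `∫_0^∞ t^(a-1)/(1+t) dt = π / sin(π a)` (see also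
`Pool/Agent/TPER`), scaling `t = w s`.  General `w`: both sides are analytic in `w` on the slit plane
(`hasDerivAt_integral_of_dominated_loc_of_deriv_le`, the derivative is `-∫ t^(a-1)/(t+w)^2`), equal for
`w > 0`: identity theorem.  `j → j + 1`: `d/dt [t^a/(t+w)^j] = a t^(a-1)/(t+w)^j - j t^a/(t+w)^(j+1)` and
`t^a = t^(a-1) ((t+w) - w)` give `0 = (a - j) I_j + j w I_(j+1)` (the boundary values are zero). -/
def St_BI : Prop := ∀ (a : ℝ) (w : ℂ) (j : ℕ), 0 < a → a < 1 → w ∈ Complex.slitPlane → 1 ≤ j →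
  IntegrableOn (fun t : ℝ => ((t ^ (a - 1) : ℝ) : ℂ) / ((t : ℂ) + w) ^ j) (Set.Ioi 0) ∧
  ∫ t in Set.Ioi (0 : ℝ), ((t ^ (a - 1) : ℝ) : ℂ) / ((t : ℂ) + w) ^ j =
    (∏ i ∈ Finset.range (j - 1), (((i : ℂ) + 1 - a) / ((i : ℂ) + 1))) * w ^ ((a : ℂ) - j) *
      ((Real.pi / Real.sin (Real.pi * a) : ℝ) : ℂ)

/-- [PFD] partial fractions.
PROOF.  Let `A` be the algebraic closure of `k` in `ℂ` (`algebraicClosure k ℂ`, an algebraically closed field).
Over `A`, `Q = a ∏ (X - ζ)^(m_ζ)`.  Partial fractions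
(`Polynomial.mul_prod_pow_inverse_eq_quo_add_sum_rem_mul_pow_inverse` in
`Mathlib/Algebra/Polynomial/PartialFractions.lean`, or induction on the degree): `P/Q = q + ∑ c_(ζ,e)/(X - ζ)^e`
with constants `c_(ζ,e) ∈ A` and `q ∈ A[X]`; `q = 0` as `deg P < deg Q` (multiply by `Q`, or let `t → ∞`). -/
def St_PFD : Prop := ∀ (k : IntermediateField ℚ ℝ) (P Q : Polynomial k), P.degree < Q.degree →
  ∃ (m : ℕ) (ζ c : Fin m → ℂ) (e : Fin m → ℕ),
    (∀ i, IsAlgebraic k (ζ i) ∧ IsAlgebraic k (c i) ∧ 1 ≤ e i ∧ Polynomial.aeval (ζ i) Q = 0) ∧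
    ∀ t : ℝ, (up k Q).eval t ≠ 0 →
      ((ratFun (up k P) (up k Q) t : ℝ) : ℂ) = ∑ i, c i / ((t : ℂ) - ζ i) ^ (e i)

/-- [INT] integrability of `t^(p-1) P/Q`, `P`, `Q` coprime, `0 < p < 1`.
PROOF.  If `Q(t₁) = 0`, `t₁ > 0`: `Q = (X - t₁) Q₃`, `P(t₁) ≠ 0`, so `(t - t₁)⁻¹ = O(t^(p-1) P/Q)` at `𝓝[≠] t₁`
(`(t-t₁)⁻¹ = [Q₃/(t^(p-1) P)] t^(p-1) P/Q`), contradiction to `not_intervalIntegrable_of_sub_inv_isBigO_punctured`
on `[t₁/2, 2 t₁]`.  If `Q(0) = 0`: `t^(p-2) = O(t^(p-1) P/Q)` at `0+`, not integrable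
(`intervalIntegral.integrableOn_Ioo_rpow_iff`).  If `deg P ≥ deg Q`: `|P/Q| ≥ c > 0` for large `t`
(`Polynomial.tendsto_nhds_iff` or `isEquivalent` lemmas), so `t^(p-1)` would be integrable at `∞`,
contradiction to `integrableOn_Ioi_rpow_iff`. -/
def St_INT : Prop := ∀ (P Q : Polynomial ℝ) (p : ℝ), IsCoprime P Q → P ≠ 0 → Q ≠ 0 → 0 < p → p < 1 →
  IntegrableOn (fun t : ℝ => t ^ (p - 1) * ratFun P Q t) (Set.Ioi 0) →
  (∀ t : ℝ, 0 ≤ t → Q.eval t ≠ 0) ∧ P.degree < Q.degree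

/-- [VAL] the value of a twisted integral over the half-line.  Hypotheses of the module: `St_BI`, `St_PFD`,
`St_INT`.
PROOF.  If `P = 0` or `Q = 0` the value is `0`.  Let `p = (p₀ - 1) + m`, `p₀ = Int.fract p ∈ (0,1)` (`p` is not an
integer), `m = ⌊p⌋ + 1`.  `t^m P/Q = P₂/Q₂` on `(0, ∞)` with coprime `P₂, Q₂ ∈ k[X]`; `up` preserves coprimality.
INT: `Q₂(t) ≠ 0` for `t ≥ 0`, `deg P₂ < deg Q₂`.  PFD: `P₂/Q₂ = ∑ c_i/(t - ζ_i)^(e_i)`, `Q₂(ζ_i) = 0`, so `ζ_i ∉ [0, ∞)`,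
`-ζ_i ∈ slitPlane`.  BI: the integral is `∑ c_i κ_i (-ζ_i)^(p₀ - e_i) π / sin(π p₀)`, `κ_i` algebraic (rational), so it is
`v π` with `v = ∑ .. ∈ ℂ` algebraic over `k` (rational powers of algebraic numbers are algebraic:
`IsAlgebraic.of_pow`; `sin(π p₀)` is algebraic over `ℚ`, as `exp(i π p₀)` is a root of unity), and
`v = (∫ ..)/π` is real; `RC.cl` (`isAlgebraic_algebraMap_iff` from `ℝ` to `ℂ`). -/
def St_VAL : Prop := ∀ (k : IntermediateField ℚ ℝ), RC k → ∀ (P Q : Polynomial k) (p : ℚ),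
  (∀ m : ℤ, p ≠ m) →
  IntegrableOn (fun t : ℝ => t ^ (p : ℝ) * ratFun (up k P) (up k Q) t) (Set.Ioi 0) →
  ∃ v ∈ k, ∫ t in Set.Ioi (0 : ℝ), t ^ (p : ℝ) * ratFun (up k P) (up k Q) t = v * Real.pi

/-- [RLN] rational functions over `k` on the whole line.  Hypothesis of the module: `St_VAL`.
PROOF.  `∫_ℝ r = ∫_0^∞ (r(t) + r(-t)) dt`, and for a.e. `t`, `r(t) + r(-t) = N(t)/D(t)`,
`N = P(X) Q(-X) + P(-X) Q(X)`, `D = Q(X) Q(-X)`; both are even, so `N = N'(X^2)`, `D = D'(X^2)` (coefficients of odd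
degree vanish; `Polynomial.expand`/`contract`).  `u = t^2`: `∫_0^∞ N'(t^2)/D'(t^2) dt = (1/2) ∫_0^∞ u^(-1/2) N'(u)/D'(u) du`
(`integral_comp_rpow_Ioi`, `integrableOn_Ioi_comp_rpow_iff`); VAL with `p = -1/2`. -/
def St_RLN : Prop := ∀ (k : IntermediateField ℚ ℝ), RC k → ∀ P Q : Polynomial k,
  Integrable (ratFun (up k P) (up k Q)) → ∃ v ∈ k, ∫ t, ratFun (up k P) (up k Q) t = v * Real.pi

/-- [RLF] type (a).  Hypotheses of the module: `St_RA1`, `St_RA2`, `St_RLN`.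
PROOF.  `h = P/Q` a.e.; if `Q = 0` or `P = 0` then `h = 0` a.e.  Otherwise `E = {t | AlgAt k t (P(t)/Q(t))}` is conull, so
uncountable; RA1, RA2 (`T = k \ B` is infinite): `P Q₁ = P₁ Q`, `Q₁ ≠ 0`, so `P/Q = P₁/Q₁` a.e.; RLN. -/
def St_RLF : Prop := ∀ (k : IntermediateField ℚ ℝ), RC k → ∀ h : ℝ → ℝ, RationalFibre h →
  Integrable h → (∀ᵐ t : ℝ, AlgAt k t (h t)) → ∃ v ∈ k, ∫ t, h t = v * Real.pi

/-- [TWD] descent for twisted functions.  Hypotheses of the module: `St_RA1`, `St_RA2`.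
PROOF.  (1) Let `N ≥ 1` with `N p = u`, `N q = v` integers.  `h(t)^N = (t-a)^u (b-t)^v (P/Q)^N = P'/Q'` on `(a, b)` (up to
finitely many points) with `P' = (X-a)^(u⁺) (b-X)^(v⁺) P^N`, `Q' = (X-a)^(u⁻) (b-X)^(v⁻) Q^N`; `AlgAt` is closed under
powers.  RA1, RA2 (`E` = the good points of `(a, b)`, uncountable): `P' up Q₁ = up P₁ Q'`, `Q₁ ≠ 0`, and `P₁ ≠ 0`.
If `a ∉ k` then `a` is no root of `up P₁`, `up Q₁` (`RC.cl`); compare the multiplicities of the root `a`: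
`u⁺ + N mult_a P = u⁻ + N mult_a Q`, so `N ∣ u` and `p = u/N ∈ ℤ`, contradiction.  In the same way `b ∈ k`, since `q ∉ ℤ`.
RA1 for `P'/Q'`: for all but finitely many `t ∈ k`, `P'(t)/Q'(t) ∈ k`, so `(P(t)/Q(t))^N ∈ k` (`a, b ∈ k`), so
`P(t)/Q(t) ∈ k` (`RC.cl`, `IsAlgebraic.of_pow`); RA2.  (2), (3): the same without `b`. -/
def St_TWD : Prop := ∀ (k : IntermediateField ℚ ℝ), RC k → ∀ (P Q : Polynomial ℝ) (p : ℚ) (a : ℝ),
  P ≠ 0 → Q ≠ 0 → (∀ m : ℤ, p ≠ m) →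
  (∀ (b : ℝ) (q : ℚ) (m : ℤ), a < b → p + q = m →
    (∀ᵐ t : ℝ, t ∈ Set.Ioo a b →
      AlgAt k t ((t - a) ^ (p : ℝ) * (b - t) ^ (q : ℝ) * ratFun P Q t)) →
    a ∈ k ∧ b ∈ k ∧ ∃ P₁ Q₁ : Polynomial k, Q₁ ≠ 0 ∧ P * up k Q₁ = up k P₁ * Q) ∧
  ((∀ᵐ t : ℝ, t ∈ Set.Ioi a → AlgAt k t ((t - a) ^ (p : ℝ) * ratFun P Q t)) →
    a ∈ k ∧ ∃ P₁ Q₁ : Polynomial k, Q₁ ≠ 0 ∧ P * up k Q₁ = up k P₁ * Q) ∧
  ((∀ᵐ t : ℝ, t ∈ Set.Iio a → AlgAt k t ((a - t) ^ (p : ℝ) * ratFun P Q t)) →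
    a ∈ k ∧ ∃ P₁ Q₁ : Polynomial k, Q₁ ≠ 0 ∧ P * up k Q₁ = up k P₁ * Q)

/-- [TWV] values of twisted integrals over `k`.  Hypothesis of the module: `St_VAL`.
PROOF.  (2) translation `t = a + u`: `P(a + X)`, `Q(a + X) ∈ k[X]`, VAL.  (3) `t = a - u`.  (1) `t = (a + b u)/(1 + u)`,
`u = (t - a)/(b - t) ∈ (0, ∞)`, `dt = (b - a)/(1+u)^2 du`, `t - a = (b-a) u/(1+u)`, `b - t = (b-a)/(1+u)`
(`integral_image_eq_integral_abs_deriv_smul` and the integrability version):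
the integral is `∫_0^∞ (b-a)^(m+1) u^p (1+u)^(-m-2) r((a+bu)/(1+u)) du`, `m = p + q`, and `(b-a)^(m+1) (1+u)^(-m-2)
r((a+bu)/(1+u))` is a rational function of `u` over `k`; VAL. -/
def St_TWV : Prop := ∀ (k : IntermediateField ℚ ℝ), RC k → ∀ (P Q : Polynomial k) (p : ℚ) (a : ℝ),
  (∀ m : ℤ, p ≠ m) → a ∈ k →
  (∀ (b : ℝ) (q : ℚ) (m : ℤ), a < b → b ∈ k → p + q = m →
    IntegrableOn (fun t : ℝ => (t - a) ^ (p : ℝ) * (b - t) ^ (q : ℝ) * ratFun (up k P) (up k Q) t)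
      (Set.Ioo a b) →
    ∃ v ∈ k, ∫ t in Set.Ioo a b,
      (t - a) ^ (p : ℝ) * (b - t) ^ (q : ℝ) * ratFun (up k P) (up k Q) t = v * Real.pi) ∧
  (IntegrableOn (fun t : ℝ => (t - a) ^ (p : ℝ) * ratFun (up k P) (up k Q) t) (Set.Ioi a) →
    ∃ v ∈ k, ∫ t in Set.Ioi a, (t - a) ^ (p : ℝ) * ratFun (up k P) (up k Q) t = v * Real.pi) ∧
  (IntegrableOn (fun t : ℝ => (a - t) ^ (p : ℝ) * ratFun (up k P) (up k Q) t) (Set.Iio a) →
    ∃ v ∈ k, ∫ t in Set.Iio a, (a - t) ^ (p : ℝ) * ratFun (up k P) (up k Q) t = v * Real.pi)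

/-- [TWF] type (b).  Hypotheses of the module: `St_TWD`, `St_TWV`.
PROOF.  If `P = 0` or `Q = 0` then `h = 0` a.e.  Otherwise TWD, `P/Q = P₁/Q₁` a.e., TWV. -/
def St_TWF : Prop := ∀ (k : IntermediateField ℚ ℝ), RC k → ∀ h : ℝ → ℝ, TwistedFibre h →
  Integrable h → (∀ᵐ t : ℝ, AlgAt k t (h t)) → ∃ v ∈ k, ∫ t, h t = v * Real.pi

/-- [ARF] type (c).  Hypotheses of the module: `St_RA1`, `St_RA2`.
PROOF.  If `I` is null the integral is `0`.  Let `J = {j | c_j ≠ 0}`, `q_j = (X - a_j)^2 + b_j^2`, `Q = ∏_J q_j`,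
`P = ∑_(j∈J) c_j b_j ∏_(l∈J, l≠j) q_l`, so `∑ c_j b_j/((t-a_j)^2 + b_j^2) = P(t)/Q(t)` for all `t`.  RA1, RA2:
`P up Q₁ = up P₁ Q`, `Q₁ ≠ 0`.  Evaluate at `ζ_j = a_j + i b_j`, `j ∈ J`: `Q(ζ_j) = 0`,
`P(ζ_j) = c_j b_j ∏_(l≠j) q_l(ζ_j) ≠ 0` (`q_l(ζ_j) = (ζ_j - ζ_l)(ζ_j - conj ζ_l)`), so `Q₁(ζ_j) = 0`: `ζ_j` is algebraic over
`k`, and so are `a_j = (ζ_j + conj ζ_j)/2`, `b_j`; so `a_j, b_j ∈ k`.  Now `Q` and all `q_l` are in `up k[X]`, and `P` too:
`P up Q₁ = up P₁ Q` says that `up Q₁` divides `up P₁ Q` in `ℝ[X]`, so `Q₁` divides in `k[X]`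
(`Polynomial.map_dvd_map'` or division), and `P = up P₂`.  So `P(ζ_j)` is algebraic over `k`, hence `c_j` too, `c_j ∈ k`.
`∫ h = ∑_(j∈J) c_j ρ_j π` (each summand is integrable, `b/((t-a)^2+b^2)` is integrable on `ℝ`). -/
def St_ARF : Prop := ∀ (k : IntermediateField ℚ ℝ), RC k → ∀ h : ℝ → ℝ, ArcFibre h →
  Integrable h → (∀ᵐ t : ℝ, AlgAt k t (h t)) → ∃ v ∈ k, ∫ t, h t = v * Real.pi

/-! ## Block C: assembly -/

/-- [SCL] the types are closed under multiplication by constants; type (e) has integral zero.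
PROOF.  (a), (b): `P` is replaced by `C c * P`; (c) `c_j` by `c c_j`; (d) `H` by `c H`, `p` by `p.comp (C (C c⁻¹) * X)` if
`c ≠ 0`; if `c = 0` take `H = 0`, `p = X`.  (e): `∫ h(t) dt = ∫ h(2a - t) dt = -∫ h(t) dt` (`integral_sub_left_eq_self`). -/
def St_SCL : Prop := ∀ (c : ℝ) (h : ℝ → ℝ),
  (RationalFibre h → RationalFibre (fun t => c * h t)) ∧
  (TwistedFibre h → TwistedFibre (fun t => c * h t)) ∧
  (ArcFibre h → ArcFibre (fun t => c * h t)) ∧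
  (OddFibre h → ∫ t, h t = 0) ∧
  (∀ F : Set ℝ, PrimitiveFibre F h → PrimitiveFibre F (fun t => c * h t))

/-- [FLD] the fields `kf x`.
PROOF.  (1) `ℚ(x)` is countable (finitely generated), so is its algebraic closure in `ℝ`
(`Algebra.IsAlgebraic.cardinalMk_le_max`); relatively algebraically closed: transitivity of algebraicity.
(2) `mem_algebraicClosure_iff`.  (3) `ℚ(y, t) ≤ (kf y)(t)` as subfields of `ℝ` (the coordinates of `Fin.snoc y t` are in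
`(kf y)(t)`), and algebraic over a subfield implies algebraic over a larger one.  (4) `ℚ(z) ≤ kf x` by (2), so `b` is
algebraic over `kf x`, (1).  (5) `ℚ(x) = ⊥` for `n = 0`.  (6) `AlgOver x` is a subfield (2). -/
def St_FLD : Prop :=
  (∀ (n : ℕ) (x : Fin n → ℝ), RC (kf x)) ∧
  (∀ (n : ℕ) (x : Fin n → ℝ) (a : ℝ), a ∈ kf x ↔ AlgOver x a) ∧
  (∀ (n : ℕ) (y : Fin n → ℝ) (t b : ℝ), AlgOver (Fin.snoc y t : Fin (n + 1) → ℝ) b →
    AlgAt (kf y) t b) ∧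
  (∀ (n : ℕ) (x z : Fin n → ℝ) (b : ℝ), (∀ i, AlgOver x (z i)) → AlgOver z b → AlgOver x b) ∧
  (∀ (x : Fin 0 → ℝ) (a : ℝ), AlgOver x a → a ∈ RealAlg)

/-- [FUB] Fubini for the last variable.
PROOF.  `volume_preserving_piFinSuccAbove (fun _ => ℝ) (Fin.last n)`, whose inverse is
`(t, y) ↦ Fin.insertNth (Fin.last n) t y = Fin.snoc y t`; see `Pool/Agent/TPER/FUB.lean` for `Fin.cons`. -/
def St_FUB : Prop := ∀ n : ℕ,
  (∀ f : (Fin (n + 1) → ℝ) → ℝ, Integrable f →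
    (∀ᵐ y : Fin n → ℝ, Integrable (fun t : ℝ => f (Fin.snoc y t))) ∧
    Integrable (fun y : Fin n → ℝ => ∫ t : ℝ, f (Fin.snoc y t)) ∧
    ∫ x, f x = ∫ y : Fin n → ℝ, ∫ t : ℝ, f (Fin.snoc y t)) ∧
  (∀ p : (Fin (n + 1) → ℝ) → Prop, (∀ᵐ x, p x) →
    ∀ᵐ y : Fin n → ℝ, ∀ᵐ t : ℝ, p (Fin.snoc y t))

/-- [CHG] changes of variables.  Hypothesis of the module: `St_FLD`.
PROOF.  `∫ f = ∫_(φ(A)) f = ∫_A |det φ'| f(φ) = ∫ g` (`integral_image_eq_integral_abs_det_fderiv_smul`; `φ(A)` is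
measurable: `measurable_image_of_fderivWithin`; `f = 0` a.e. outside).  Second part: let `N` be a measurable
null set containing the `z` with `¬ AlgOver z (f z / π^j)` (`toMeasurable`).  `A ∩ φ⁻¹(N)` is measurable (`φ` is
continuous on `A`), its image is null, so `∫⁻_(A ∩ φ⁻¹(N)) |det φ'| = 0`
(`lintegral_abs_det_fderiv_eq_addHaar_image`), `det φ' = 0` a.e. there.  For a.e. `x`: if `x ∉ A` then `g x = 0`; if
`x ∈ A`, `φ x ∈ N` then `g x = 0`; if `x ∈ A`, `φ x ∉ N` then `f(φ x)/π^j` is algebraic over `ℚ(φ x)`, so over `ℚ(x)` (FLD 4),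
`|det φ' x|` is algebraic over `ℚ(x)`, so the product is (FLD 2: `kf x` is a field). -/
def St_CHG : Prop := ∀ (n : ℕ) (f g : (Fin n → ℝ) → ℝ) (A : Set (Fin n → ℝ))
  (φ : (Fin n → ℝ) → (Fin n → ℝ)) (φ' : (Fin n → ℝ) → (Fin n → ℝ) →L[ℝ] (Fin n → ℝ)),
  MeasurableSet A → (∀ x ∈ A, HasFDerivWithinAt φ (φ' x) A x) → Set.InjOn φ A →
  (∀ᵐ x : Fin n → ℝ, x ∈ A → (∀ i, AlgOver x (φ x i)) ∧ AlgOver x (φ' x).det) →
  (∀ᵐ z : Fin n → ℝ, z ∉ φ '' A → f z = 0) →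
  g =ᵐ[volume] (A.indicator fun x => |(φ' x).det| * f (φ x)) →
  ∫ x, f x = ∫ x, g x ∧
  ∀ j : ℕ, (∀ᵐ z : Fin n → ℝ, AlgOver z (f z / Real.pi ^ j)) →
    ∀ᵐ x : Fin n → ℝ, AlgOver x (g x / Real.pi ^ j)

/-- [SAG] semialgebraic functions are algebraic.  Hypothesis of the module: `St_FLD`.
PROOF.  Let `x ∈ A`, `E_i`, `I_i` the conditions satisfied by `(x, g(x))`.  If `p(x, T) = 0` identically in `T` for all
`p ∈ E_i` then `(x, T)` satisfies them for all `T` near `g(x)` (continuity of the `q ∈ I_i`), so `T = g(x)` for all these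
`T`, contradiction.  So some `p(x, T)` is a nonzero polynomial over `K(x)`, `p(x, g(x)) = 0`; `K` is algebraic over `ℚ`
(FLD: `kf x` contains `K` and the `x_i` and is relatively algebraically closed). -/
def St_SAG : Prop := ∀ (n : ℕ) (A : Set (Fin n → ℝ)) (g : (Fin n → ℝ) → ℝ),
  Semialgebraic {z : Fin (n + 1) → ℝ | Fin.init z ∈ A ∧ z (Fin.last n) = g (Fin.init z)} →
  ∀ x ∈ A, AlgOver x (g x)

/-- [IND] the induction.  Hypotheses of the module: `St_RLF`, `St_TWF`, `St_ARF`, `St_PAS`, `St_SCL`, `St_FLD`,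
`St_FUB`, `St_CHG`, `St_SAG`.
PROOF.  Induction on `Iterated`.  point: `∫ f = f(0)`, `f(0)/π^j ∈ RealAlg` (FLD 5; the measure on `Fin 0 → ℝ` is a point
mass), `q = C a X^j`.  step: by FUB and FLD for a.e. `y`: for a.e. `t` `f(y,t)/π^j` is algebraic over `ℚ(y,t)`, so `AlgAt (kf y) t`;
`h(t) = f(y,t)/π^j = π^(-j) f(y,t)` is of the same type (SCL), integrable; by RLF, TWF, ARF its integral is `v π`,
`v ∈ kf y` (`v = 0` for type (e)), so `(∫ f(y,t) dt)/π^(j+1) = v` is algebraic over `ℚ(y)`; for type (d): `(∫ f(y,t) dt)/π^j ∈ kf y` (PAS with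
`F = {a | AlgOver y a} = kf y`).  Induction hypothesis with `j + 1` or `j`, FUB.  sum: `∫ f = ∫ f₁ + ∫ f₂`, induction
hypotheses for the exponents of `f₁`, `f₂`.  change: CHG.  move: `g'` is integrable
(`integrableOn_image_iff_integrableOn_abs_det_fderiv_smul`) and `∫ f = ∫ g - ∫ g' = 0` by CHG. -/
def St_IND : Prop := ∀ (n : ℕ) (f : (Fin n → ℝ) → ℝ), Iterated n f → ∀ j : ℕ,
  (∀ᵐ x : Fin n → ℝ, AlgOver x (f x / Real.pi ^ j)) →
  ∃ q : Polynomial RealAlg, ∫ x, f x = Polynomial.aeval Real.pi q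

/-- [EXM] `π` is an iterated integral.
PROOF.  `π = ∫_ℝ dt/(1+t^2)` (`integral_univ_inv_one_add_sq`), `f(x) = 1/(1 + (x 0)^2)` on `Fin 1 → ℝ`: type (a),
`Iterated.point`; the graph of `f` is `{z | (1 + z_0^2) z_1 - 1 = 0}`.  The measure on `Fin 1 → ℝ`:
`MeasureTheory.volume_preserving_funUnique` or the argument of FUB. -/
def St_EXM : Prop := IsIteratedIntegral Real.pi

/-- [FIN] the final theorem.  Hypotheses of the module: `St_IND`, `St_EXM`, `St_SAG`.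
PROOF.  IND with `j = 0`.  `Algebra.adjoin` both ways; `1/π ∉ K[π]`:
`Pool.Agent.Helper23.PeriodProof.inv_pi_not_mem`. -/
def St_FIN : Prop :=
  (∀ (n : ℕ) (f : (Fin n → ℝ) → ℝ), SemialgebraicFun f → Iterated n f →
    ∃ q : Polynomial RealAlg, ∫ x, f x = Polynomial.aeval Real.pi q) ∧
  iteratedRing = Algebra.adjoin RealAlg {Real.pi} ∧ (Real.pi)⁻¹ ∉ iteratedRing

end Pool.Agent.ITR
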