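import Pool.Agent.ITR.St
import Pool.Agent.ITR.Defs3
import Pool.Agent.Helper23.Quadric
import Pool.Agent.Helper23.PeriodProof

/-!
# Quadratic towers: statements of the modules

Every module `X` proves `theorem thm_X : St_X` (with other `St_Y` as hypotheses where indicated) in
`Pool/Agent/ITR/X.lean`.  The complete proof of each statement is in its docstring.  The tools
(`PF B n` = functions `ℝ^n → ℝ` given by polynomials over the subfield `B`, `evx`, `slice_whole`,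
`J_even`, `coeff_eq_zero_of_integrable`, ...) are in `Pool/Agent/Helper23/Quadric.lean`, the field
`RB` (real algebraic numbers as a `Subfield`), `sqrt_mem_RB`, `toRB`, `aeval_toRB` in
`Pool/Agent/Helper23/PeriodProof.lean`; the proof of `Quadric.quadric_whole` is the model for ONE and FAM.
-/

set_option autoImplicit false

open MeasureTheory Filter Topology

namespace Pool.Agent.ITR

open Pool.Agent.Helper23.PeriodDefs
open Pool.Agent.Helper23.Quadric (PF evx)
open Pool.Agent.Helper23.PeriodProof (RB)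

/-- [SLS] slices in the direction of the last variable.
PROOF.  `P = aeval · Q`, `Q : MvPolynomial (Fin (n+1)) B` (`Quadric.exists_of_mem_PF`).  Let `Q' = rename σ Q`,
`σ i = 0` for `i = last` and `σ (castSucc i) = succ i`; then `aeval (Fin.cons t y) Q' = aeval (Fin.snoc y t) Q`.
`Quadric.exists_slice` for `P' = fun z => aeval z Q'`. -/
def St_SLS : Prop := ∀ (B : Subfield ℝ) (n : ℕ) (P : (Fin (n + 1) → ℝ) → ℝ), P ∈ PF B (n + 1) →
  ∃ p : Polynomial (PF B n), ∀ (t : ℝ) (y : Fin n → ℝ),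
    P (Fin.snoc y t) = (p.map (evx B y)).eval t

/-- [ONE] one integration.  Hypothesis of the module: `St_SLS`.
PROOF.  SLS: `P(y,t) = ∑_(k ≤ d) c_k(y) t^k`.  Shift `t = τ - b/M` (`y` fixed): `q = M τ^2 + s/M`,
`M^d P(y, τ - b/M) = ∑ c_k M^(d-k) (M τ - b)^k = (p₁.map (evx B y)).eval τ` with
`p₁ = ∑_k C (c_k M^(d-k)) (C M * X - C b)^k ∈ (PF B n)[X]`.  `Quadric.slice_whole` with `a = M y`, `q = s y / M y`
(`√(z^m) = √z^m`): the integral is
`M^(-d) (∑_(2j+1<m) (p₁.coeff (2j)) y * (J_j/√M^(2j+1)) * (s/M)^j) / √(s/M)^(m-1)`,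
`J_j = ∫ t^(2j)/√(1+t^2)^m = r_j π^((m+1)%2)`, `r_j` rational (`Quadric.J_even`).
With `A = 2d + 3m + 2` and `P₁ = ∑_(2j+1<m) p₁.coeff (2j) * r_j * s^j * M^(2(m-j))` this is
`π^((m+1)%2) P₁ / √(M^A s^(m-1))` (if `m = 0` the sums are empty, both sides are `0`).  Model: the step of
`Quadric.quadric_whole`. -/
def St_ONE : Prop := ∀ (B : Subfield ℝ) (n m : ℕ) (P q : (Fin (n + 1) → ℝ) → ℝ)
  (M b s : (Fin n → ℝ) → ℝ), P ∈ PF B (n + 1) → M ∈ PF B n → b ∈ PF B n → s ∈ PF B n →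
  (∀ y, 0 < M y) → (∀ y, 0 < s y) →
  (∀ (y : Fin n → ℝ) (t : ℝ), M y * q (Fin.snoc y t) = (M y * t + b y) ^ 2 + s y) →
  ∃ P₁ ∈ PF B n, ∃ A : ℕ, ∀ y : Fin n → ℝ,
    Integrable (fun t : ℝ => P (Fin.snoc y t) / √(q (Fin.snoc y t) ^ m)) →
    ∫ t : ℝ, P (Fin.snoc y t) / √(q (Fin.snoc y t) ^ m) =
      Real.pi ^ ((m + 1) % 2) * (P₁ y / √(M y ^ A * s y ^ (m - 1)))

/-- [PRM] algebraic primitives for odd `m`.
PROOF.  By `Quadric.coeff_eq_zero_of_integrable` `p.coeff k = 0` for `k ≥ m - 1`; if `m = 1` then `p = 0`, `R = 0`.  Let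
`m ≥ 3`.  For a polynomial `R` the derivative of `R/√(a s^2+q)^(m-2)` is `L(R)/√(a s^2+q)^m` with
`L(R) = R' (a X^2 + q) - (m-2) a X R`, and `L(X^j) = (j-(m-2)) a X^(j+1) + j q X^(j-1)`.  By linearity it is enough that
`X^k` is in the image of `L` for `k ≤ m - 2`.  `k` odd: induction upwards, `X = -L(1)/((m-2)a)`,
`X^(j+1) = [L(X^j) - j q X^(j-1)]/((j-m+2) a)` for `j` even, `j < m - 2`.  `k` even, `k ≤ m - 3`: induction downwards,
`X^(m-3) = L(X^(m-2))/((m-2) q)`, `X^(j-1) = [L(X^j) - (j-m+2) a X^(j+1)]/(j q)` for `j` odd. -/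
def St_PRM : Prop := ∀ (p : Polynomial ℝ) (m : ℕ) (a q : ℝ), 0 < a → 0 < q → Odd m →
  Integrable (fun s : ℝ => p.eval s / √(a * s ^ 2 + q) ^ m) →
  ∃ R : Polynomial ℝ, ∀ s : ℝ,
    HasDerivAt (fun s : ℝ => R.eval s / √(a * s ^ 2 + q) ^ (m - 2))
      (p.eval s / √(a * s ^ 2 + q) ^ m) s

/-- [TYP] the types of the fibres.  Hypothesis of the module: `St_PRM`.
PROOF.  `Q = C M⁻¹ * ((C M * X + C b)^2 + C s)`, `q(t) = Q(t) > 0`.  `m = 2k`: `√(q^m) = q^k`, so `h = p/Q^k`.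
`m` odd: with `τ = t + b/M`, `q(t) = M τ^2 + s/M`, `p(t) = p₂(τ)`, `p₂ = p.comp (X - C (b/M))`; the function
`τ ↦ p₂(τ)/√(M τ^2 + s/M)^m` is integrable (translation), PRM: `R`.  `H(t) = R(t + b/M)/√(q t)^(m-2)`, `S = ∅`; `H` is
differentiable everywhere with derivative `h`, continuous, and analytic (`ContDiffAt ℝ ω`,
`Real.contDiffAt_sqrt`, `ContDiffAt.analyticAt`; `√z^k` of a positive polynomial).  `H^2 Q^(m-2) = R₂^2`,
`R₂ = R.comp (X + C (b/M))`: the polynomial `C (Q^(m-2)) * X^2 - C (R₂^2)` is not zero. -/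
def St_TYP : Prop := ∀ (p : Polynomial ℝ) (m : ℕ) (M b s : ℝ) (q : ℝ → ℝ), 0 < M → 0 < s →
  (∀ t : ℝ, M * q t = (M * t + b) ^ 2 + s) →
  Integrable (fun t : ℝ => p.eval t / √(q t ^ m)) →
  (Even m → RationalFibre (fun t : ℝ => p.eval t / √(q t ^ m))) ∧
  (Odd m → ∀ F : Set ℝ, PrimitiveFibre F (fun t : ℝ => p.eval t / √(q t ^ m)))

/-- [AEC] the class is closed under equality almost everywhere.
PROOF.  `Iterated.change` with `A = univ`, `φ = id`, `φ' = fun _ => ContinuousLinearMap.id ..`: `det = 1`, the graph of the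
`i`-th coordinate is `{z | z (last) - z (castSucc i) = 0}`: `m = 1`, `E = {X (last) - X (castSucc i)}`, `I = ∅`;
`1` is algebraic. -/
def St_AEC : Prop := ∀ (n : ℕ) (f g : (Fin n → ℝ) → ℝ), f =ᵐ[volume] g → Iterated n g → Iterated n f

/-- An abstract form of quadratic towers: `T N` is a monoid of positive polynomial functions of `N` variables. -/
structure AbsTower (n : ℕ) (T : ∀ N : ℕ, Submonoid ((Fin N → ℝ) → ℝ)) : Prop where
  pf : ∀ N, N ≤ n → ∀ w ∈ T N, w ∈ PF RB N ∧ ∀ x, 0 < w x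
  st : ∀ N, N < n → ∃ (M b s : (Fin N → ℝ) → ℝ) (q : (Fin (N + 1) → ℝ) → ℝ),
    M ∈ T N ∧ s ∈ T N ∧ b ∈ PF RB N ∧
    (∀ (y : Fin N → ℝ) (t : ℝ), M y * q (Fin.snoc y t) = (M y * t + b y) ^ 2 + s y) ∧
    ∀ w ∈ T (N + 1), ∃ w₀ ∈ T N, ∃ m : ℕ, ∀ (y : Fin N → ℝ) (t : ℝ),
      w (Fin.snoc y t) = w₀ y * q (Fin.snoc y t) ^ m

/-- [FAM] the induction.  Hypotheses of the module: `St_SLS`, `St_ONE`, `St_TYP`, `St_AEC`, `St_SCL`, `St_FUB`.
PROOF.  Induction on `N`, for all `P`, `w`, `c`.  `N = 0`: `Iterated.point`; the integral is the value at the only point, in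
`RB` (`Quadric.integral_fin_zero`, `mem_of_mem_PF`, `sqrt_mem_RB`).  `N + 1`: take `M, b, s, q`, `w = w₀ q^m`.  Then
`f(y,t) = P/√w = (1/√(w₀ y)) P(y,t)/√(q^m)`.  By FUB for a.e. `y` the fibre `t ↦ f(y,t)` is integrable, so
`t ↦ P(y,t)/√(q^m)` is too; by SLS and TYP it is of type (a) (`m` even) or (d) with any `F` (`m` odd), and so is
`c f(y,·)` (SCL).  By ONE `∫ f(y,t) dt = π^e P₁(y)/√(w₀ M^A s^(m-1))` for a.e. `y`, `e = (m+1)%2`, and
`w₁ = w₀ M^A s^(m-1) ∈ T N`.  FUB: `∫ f(y,t) dt` is integrable in `y`, so `P₁/√w₁` is.  Induction hypothesis for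
`P₁`, `w₁` and the constant `c π^e`, AEC, `Iterated.step`; `∫ f = π^e ∫ P₁/√w₁`. -/
def St_FAM : Prop := ∀ (n : ℕ) (T : ∀ N : ℕ, Submonoid ((Fin N → ℝ) → ℝ)), AbsTower n T →
  ∀ N, N ≤ n → ∀ P ∈ PF RB N, ∀ w ∈ T N, Integrable (fun x : Fin N → ℝ => P x / √(w x)) →
  (∀ c : ℝ, Iterated N (fun x => c * (P x / √(w x)))) ∧
  ∃ a ∈ RB, ∃ e : ℕ, ∫ x : Fin N → ℝ, P x / √(w x) = a * Real.pi ^ e

/-- [ABT] quadratic towers give abstract towers.
PROOF.  For `y : Fin N → ℝ` let `ext y : Fin n → ℝ`, `ext y i = y i` for `i < N` and `0` for `i ≥ N`.  `T N` = closure of the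
positive constants in `RB` and the functions `y ↦ evalMulti (q i) (ext y)`, `i < N`.  `f (ext (snoc y t)) =
f (ext y)` if `f` depends only on the variables `< N`, as `M`, `s` (for `k = N`) do (induction on `PosProd`), and so
they give elements of `T N`.  Positivity of `q i` at all points by
strong induction on `i` (`M q_i = (M x_i + b)^2 + s`, `M, s > 0`).  The last clause of `st`:
`Submonoid.closure_induction` for `w` (constants: `w₀ = w`, `m = 0`; `q i`, `i < N`: does not depend on `t`; `q N`: `w₀ = 1`,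
`m = 1`; products).  `PF`: `aeval (ext ·) P` is polynomial over `RB` (`toRB`; rename/`MvPolynomial.aeval` of `X i` or `0`).
Last statement: `N = n`, `ext y = y`, product of powers of generators. -/
def St_ABT : Prop := ∀ (n : ℕ) (q : Fin n → MultiPoly n), QuadTower q →
  ∃ T : ∀ N : ℕ, Submonoid ((Fin N → ℝ) → ℝ), AbsTower n T ∧
    ∀ m : Fin n → ℕ, (fun x : Fin n → ℝ => ∏ k, evalMulti (q k) x ^ m k) ∈ T n

/-- [SAF] `P/√w` is semialgebraic.
PROOF.  `z_last = P(x)/√(w(x))` iff (`z_last^2 w(x) - P(x)^2 = 0` and `0 < z_last P(x)`) or (`P(x) = 0` and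
`z_last = 0`); `m = 2` (rename `castSucc` of `P`, `w`; `aeval z (rename castSucc P) = aeval (Fin.init z) P`). -/
def St_SAF : Prop := ∀ (n : ℕ) (P w : MvPolynomial (Fin n) RealAlg),
  (∀ x : Fin n → ℝ, 0 < MvPolynomial.aeval x w) →
  SemialgebraicFun (fun x : Fin n → ℝ => MvPolynomial.aeval x P / √(MvPolynomial.aeval x w))

/-- [QTW] quadratic towers.  Hypotheses of the module: `St_FAM`, `St_ABT`, `St_SAF`.
PROOF.  ABT gives `T`; `w = ∏ q_k^(m_k)` is positive (`AbsTower.pf`), SAF with `∏ k, q k ^ m k`.  FAM with `N = n`,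
`fun x => aeval x P ∈ PF RB n` (`aeval_toRB`, `mem_PF`), `c = 1`. -/
def St_QTW : Prop := ∀ (n : ℕ) (q : Fin n → MultiPoly n), QuadTower q →
  ∀ (P : MultiPoly n) (m : Fin n → ℕ), Integrable (towerFun q P m) →
  SemialgebraicFun (towerFun q P m) ∧ Iterated n (towerFun q P m) ∧
  ∃ (a : RealAlg) (e : ℕ), ∫ x, towerFun q P m x = a * Real.pi ^ e

/-- `det(1 + Yᵀ Y)` for the upper left `a × b` block of `X` -/
noncomputable def dd (a b : ℕ) (X : ℕ → ℕ → ℝ) : ℝ :=
  (1 + (Matrix.of fun (i : Fin a) (j : Fin b) => X i j).transpose *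
    (Matrix.of fun (i : Fin a) (j : Fin b) => X i j)).det

/-- `uᵀ adj(1 + Yᵀ Y) Yᵀ v` for the upper left `a × b` block `Y`, the beginning `u` of the next row and the
beginning `v` of the next column -/
noncomputable def bb (a b : ℕ) (X : ℕ → ℕ → ℝ) : ℝ :=
  dotProduct (fun j : Fin b => X a j)
    ((1 + (Matrix.of fun (i : Fin a) (j : Fin b) => X i j).transpose *
      (Matrix.of fun (i : Fin a) (j : Fin b) => X i j)).adjugate.mulVec
      ((Matrix.of fun (i : Fin a) (j : Fin b) => X i j).transpose.mulVec fun i : Fin a => X i b))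

/-- [SCG] the identity for block matrices.
PROOF.  `A = 1 + YᵀY` is positive definite (`Matrix.PosDef`), `D = det A > 0`, `H = A⁻¹`, `adj A = D H`, `H` symmetric.
`h = uᵀHu ≥ 0`, `w₀ = Yᵀv`, `g = uᵀHw₀`, `k = w₀ᵀHw₀`.  Rows: `1 + X_rᵀX_r = A + u uᵀ`, determinant `D (1 + h)`
(matrix determinant lemma, `Matrix.det_one_add_mul_comm`-type).  Columns: `1 + X_cᵀX_c = [[A, w₀],[w₀ᵀ, 1 + |v|²]]`,
determinant `D (1 + |v|² - k)` (`Matrix.det_fromBlocks₁₁`).  Both: `1 + XᵀX = [[A + u uᵀ, w₀ + t u],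
[(w₀ + t u)ᵀ, 1 + |v|² + t²]]`, determinant `D (1+h) (1 + |v|² + t² - (w₀+tu)ᵀ(A + uuᵀ)⁻¹(w₀+tu))`, and
`(A + uuᵀ)⁻¹ = H - H u uᵀ H/(1+h)` (Sherman-Morrison, check directly), so the quadratic form is
`k + 2tg + t²h - (g + th)²/(1+h)`.  The identity becomes
`D²[(1+h)(1 + |v|² + t² - k - 2tg - t²h) + (g+th)²] = D²[(t - g)² + (1+h)(1+|v|²-k)]`: `ring`. -/
def St_SCG : Prop := ∀ (a b : ℕ) (Y : Matrix (Fin a) (Fin b) ℝ) (v : Fin a → ℝ) (u : Fin b → ℝ)
  (t : ℝ),
  (1 + (Matrix.fromBlocks Y (Matrix.replicateCol (Fin 1) v) (Matrix.replicateRow (Fin 1) u)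
      (Matrix.of fun _ _ => t)).transpose *
    Matrix.fromBlocks Y (Matrix.replicateCol (Fin 1) v) (Matrix.replicateRow (Fin 1) u)
      (Matrix.of fun _ _ => t)).det * (1 + Y.transpose * Y).det =
  ((1 + Y.transpose * Y).det * t -
    dotProduct u ((1 + Y.transpose * Y).adjugate.mulVec (Y.transpose.mulVec v))) ^ 2 +
  (1 + (Matrix.fromRows Y (Matrix.replicateRow (Fin 1) u)).transpose *
    Matrix.fromRows Y (Matrix.replicateRow (Fin 1) u)).det *
  (1 + (Matrix.fromCols Y (Matrix.replicateCol (Fin 1) v)).transpose *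
    Matrix.fromCols Y (Matrix.replicateCol (Fin 1) v)).det

/-- [SCH] the identity for corner blocks.  Hypothesis of the module: `St_SCG`.
PROOF.  Reindexing by `finSumFinEquiv : Fin a ⊕ Fin 1 ≃ Fin (a + 1)` (`Matrix.det_submatrix_equiv_self`, the
matrices agree entrywise), SCG with `Y i j = X i j`, `v i = X i b`, `u j = X a j`, `t = X a b`.  Positivity:
`1 + YᵀY` is positive definite.  Empty blocks: `YᵀY` is `0` or a `0 × 0` matrix. -/
def St_SCH : Prop := ∀ (a b : ℕ) (X : ℕ → ℕ → ℝ),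
  dd (a + 1) (b + 1) X * dd a b X =
    (dd a b X * X a b - bb a b X) ^ 2 + dd (a + 1) b X * dd a (b + 1) X ∧
  0 < dd a b X ∧ dd 0 b X = 1 ∧ dd a 0 X = 1

/-- [MAT] the corner determinants of a matrix form a quadratic tower.  Hypothesis of the module: `St_SCH`.
PROOF.  Let `k` correspond to `(j, i)` (`k = i + p j`).  `cornerPoly p q k` contains only variables `X(i', j')`,
`i' ≤ i`, `j' ≤ j`, with index `i' + p j' ≤ k`.  `M` = `1` if `i = 0` or `j = 0`, otherwise the corner polynomial of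
`(j-1, i-1)`; `s` = product of (`1` if `j = 0`, otherwise the one of `(j-1, i)`) and (`1` if `i = 0`, otherwise the one
of `(j, i-1)`); all these have index `< k`.  `b` = `-uᵀ adj(1 + YᵀY) Yᵀ v` with the `i × j` block `Y` of the generic
matrix, `u` the beginning of row `i`, `v` the beginning of column `j` (all variables have index `< k`; use the
subalgebra `MvPolynomial.supported RealAlg {l | l < k}`, closed under `det`, `adjugate`: `Matrix.det_apply`, or
`RingHom.map_det`, `RingHom.map_adjugate` from matrices over the subalgebra).  The identity: evaluate at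
`x : Fin (q * p) → ℝ`: SCH for `X i' j' = x(index)` inside the matrix, `0` outside; two polynomials over `RealAlg` with the
same values at all real points are equal (`MvPolynomial.funext` after `MvPolynomial.map (algebraMap RealAlg ℝ)`, which
is injective). -/
def St_MAT : Prop := ∀ p q : ℕ, QuadTowerP (cornerPoly p q)

end Pool.Agent.ITR
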